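import Pool.Agent.Lib.MP_6567fb_al.A.MagDefs
import Pool.Agent.Lib.MP_6567fb_al.Defs2

/-!
# Part A: definitions

`FG n` the free group, `Gam G1 = FG n ⋊ G1`, `gstar r` the action of an endomorphism on
`Hom(F, ℤ) = (α → ℤ)`, `low b i = ⟨b_j, j < i⟩`.
-/

set_option autoImplicit false

open scoped Pointwise

namespace Pool.MP6567.A

open Pool.MP6567.Mag Finset

variable {α : Type}

/-- the homomorphism `F → ℤ` with given values on the generators -/
def es (χ : α → ℤ) : FreeGroup α →* Multiplicative ℤ :=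
  FreeGroup.lift fun i => Multiplicative.ofAdd (χ i)

theorem es_of (χ : α → ℤ) (i : α) : (es χ (FreeGroup.of i)).toAdd = χ i := by
  unfold es; rw [FreeGroup.lift_apply_of]; rfl

theorem es_add (χ ψ : α → ℤ) (x : FreeGroup α) :
    (es (χ + ψ) x).toAdd = (es χ x).toAdd + (es ψ x).toAdd := by
  have : es (χ + ψ) = es χ * es ψ := by
    ext i
    simp [es]
  rw [this]; rfl

theorem es_smul (m : ℤ) (χ : α → ℤ) (x : FreeGroup α) :
    (es (m • χ) x).toAdd = m * (es χ x).toAdd := by
  have : es (m • χ) = (es χ) ^ m := by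
    ext i
    simp [es, mul_comm]
  rw [this, MonoidHom.zpow_apply]
  simp

/-- action of an endomorphism on `Hom(F, ℤ)` -/
def gstar (r : FreeGroup α →* FreeGroup α) : (α → ℤ) →ₗ[ℤ] (α → ℤ) where
  toFun χ := fun i => (es χ (r (FreeGroup.of i))).toAdd
  map_add' := fun χ ψ => by funext i; exact es_add χ ψ _
  map_smul' := fun m χ => by funext i; exact es_smul m χ _

theorem es_gstar (r : FreeGroup α →* FreeGroup α) (χ : α → ℤ) (x : FreeGroup α) :
    es (gstar r χ) x = es χ (r x) := by
  have : es (gstar r χ) = (es χ).comp r := by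
    ext i
    simp only [MonoidHom.comp_apply]
    unfold es
    rw [FreeGroup.lift_apply_of]
    rfl
  rw [this]; rfl

theorem gstar_id : gstar (MonoidHom.id (FreeGroup α)) = 1 := by
  ext χ i
  exact es_of χ i

theorem gstar_comp (r s : FreeGroup α →* FreeGroup α) :
    gstar (r.comp s) = gstar s * gstar r := by
  apply LinearMap.ext
  intro χ
  funext i
  change (es χ (r (s (FreeGroup.of i)))).toAdd = (es (gstar r χ) (s (FreeGroup.of i))).toAdd
  rw [es_gstar]

/-- the free group on `Fin n` -/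
abbrev FG (n : ℕ) : Type := FreeGroup (Fin n)

/-- semidirect product with a group of automorphisms -/
abbrev Gam {n : ℕ} (G1 : Subgroup (MulAut (FG n))) : Type := FG n ⋊[G1.subtype] G1

/-- projection -/
abbrev prG {n : ℕ} (G1 : Subgroup (MulAut (FG n))) : Gam G1 →* G1 := SemidirectProduct.rightHom

/-- inclusion of the free group -/
abbrev inF {n : ℕ} (G1 : Subgroup (MulAut (FG n))) : FG n →* Gam G1 := SemidirectProduct.inl

/-- inclusion of the automorphisms -/
abbrev inG {n : ℕ} (G1 : Subgroup (MulAut (FG n))) : G1 →* Gam G1 := SemidirectProduct.inr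

/-- unipotent on `H^1(F; ℤ)` -/
def Uni1 {n : ℕ} (g : MulAut (FG n)) : Prop :=
  ∃ N : ℕ, (gstar (g : FG n →* FG n) - 1) ^ N = 0

/-- all elements unipotent -/
def Uni {n : ℕ} (G1 : Subgroup (MulAut (FG n))) : Prop := ∀ g ∈ G1, Uni1 g

/-- trivial on `H_1(F; ℤ/3)` -/
def Triv3 {n : ℕ} (g : MulAut (FG n)) : Prop :=
  ∀ (χ : FG n →* Multiplicative (ZMod 3)) (x : FG n), χ (g x) = χ x

/-- `⟨b_j, j < i⟩` -/
def low {n : ℕ} {F : Type} [Group F] (b : FreeGroupBasis (Fin n) F) (i : ℕ) : Subgroup F :=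
  Subgroup.closure (Set.image (fun j => b j) {j : Fin n | (j : ℕ) < i})

/-- `g` is triangular with respect to `b` -/
def Tri {n : ℕ} (b : FreeGroupBasis (Fin n) (FG n)) (g : MulAut (FG n)) : Prop :=
  ∀ i : Fin n, ∃ w ∈ low b i, ∃ v ∈ low b i, g (b i) = w * b i * v

end Pool.MP6567.A
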