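import Pool.Agent.Lib.MP_6567fb_al.A.Fox
import Pool.Agent.Lib.MP_6567fb_al.T1c

/-!
# Part A, module BS: the Bass-Serre tree of `⟨b_j, j ≤ i⟩ = ⟨b_j, j < i⟩ * ⟨b_i⟩`
-/

set_option autoImplicit false

open scoped Pointwise

namespace Pool.MP6567.A

open Pool.Agent.Lib.MP_6567fb_al

section
variable {F : Type} [Group F]

/-- union of the two double cosets -/
def Dc (A : Subgroup F) (t z : F) : Prop := ∃ a ∈ A, ∃ a' ∈ A, z = a * t * a' ∨ z = a * t⁻¹ * a'

theorem Dc.inv {A : Subgroup F} {t z : F} (h : Dc A t z) : Dc A t z⁻¹ := by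
  obtain ⟨a, ha, a', ha', h | h⟩ := h
  · exact ⟨a'⁻¹, A.inv_mem ha', a⁻¹, A.inv_mem ha, Or.inr (by rw [h]; group)⟩
  · exact ⟨a'⁻¹, A.inv_mem ha', a⁻¹, A.inv_mem ha, Or.inl (by rw [h]; group)⟩

theorem Dc.mul {A : Subgroup F} {t z c c' : F} (h : Dc A t z) (hc : c ∈ A) (hc' : c' ∈ A) :
    Dc A t (c * z * c') := by
  obtain ⟨a, ha, a', ha', h | h⟩ := h
  · exact ⟨c * a, A.mul_mem hc ha, a' * c', A.mul_mem ha' hc', Or.inl (by rw [h]; group)⟩
  · exact ⟨c * a, A.mul_mem hc ha, a' * c', A.mul_mem ha' hc', Or.inr (by rw [h]; group)⟩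

/-- half space -/
structure HS (A : Subgroup F) (t : F) (S : Set F) : Prop where
  inv : ∀ x, ∀ a ∈ A, x * a ∈ S ↔ x ∈ S
  one : (1 : F) ∉ S
  mem : t ∈ S
  st : ∀ x, x ∈ S → x * t ∈ S
  uniq : ∀ x, x ∉ S → x * t ∈ S → x = 1

namespace HS
variable {A : Subgroup F} {t : F} {S : Set F} (hS : HS A t S)
include hS

theorem not_mem {a : F} (ha : a ∈ A) : a ∉ S := by
  intro h
  have := (hS.inv 1 a ha).1 (by rwa [one_mul])
  exact hS.one this

theorem t_notMem : t ∉ A := fun h => hS.not_mem h hS.mem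

theorem triv {h : F} (h1 : h ∈ A) (h2 : t⁻¹ * h * t ∈ A) : h = 1 := by
  apply hS.uniq h (hS.not_mem h1)
  have : h * t = t * (t⁻¹ * h * t) := by group
  rw [this, hS.inv t _ h2]
  exact hS.mem

theorem not_dc_of_mem {z : F} (hz : Dc A t z) : z ∉ A := by
  obtain ⟨a, ha, a', ha', h | h⟩ := hz
  · intro h0
    apply hS.t_notMem
    have : t = a⁻¹ * z * a'⁻¹ := by rw [h]; group
    rw [this]
    exact A.mul_mem (A.mul_mem (A.inv_mem ha) h0) (A.inv_mem ha')
  · intro h0
    apply hS.t_notMem
    have : t = (a⁻¹ * z * a'⁻¹)⁻¹ := by rw [h]; group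
    rw [this]
    exact A.inv_mem (A.mul_mem (A.mul_mem (A.inv_mem ha) h0) (A.inv_mem ha'))

end HS

variable (A L : Subgroup F) (t : F)

/-- the vertices -/
abbrev BX : Type := L ⧸ A.subgroupOf L

/-- the graph -/
def bsG (hd : ∀ z, Dc A t z → z ∉ A) : SimpleGraph (BX A L) where
  Adj p q := ∃ x y : L, (x : BX A L) = p ∧ (y : BX A L) = q ∧ Dc A t ((x : F)⁻¹ * y)
  symm := ⟨by
    rintro p q ⟨x, y, hx, hy, h⟩
    refine ⟨y, x, hy, hx, ?_⟩
    have := h.inv
    rwa [mul_inv_rev, inv_inv] at this⟩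
  loopless := ⟨by
    rintro p ⟨x, y, hx, hy, h⟩
    rw [← hy, QuotientGroup.eq, Subgroup.mem_subgroupOf] at hx
    exact hd _ h (by simpa using hx)⟩

variable {A L t}

theorem bsG_adj (hd : ∀ z, Dc A t z → z ∉ A) (x y : L) :
    (bsG A L t hd).Adj (x : BX A L) (y : BX A L) ↔ Dc A t ((x : F)⁻¹ * y) := by
  constructor
  · rintro ⟨x', y', hx, hy, h⟩
    rw [QuotientGroup.eq, Subgroup.mem_subgroupOf] at hx hy
    have h1 := h.mul (A.inv_mem hx) hy
    have h2 : ((x'⁻¹ * x : L) : F)⁻¹ * ((x' : F)⁻¹ * y') * ((y'⁻¹ * y : L) : F) = (x : F)⁻¹ * y := by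
      push_cast
      group
    rwa [h2] at h1
  · intro h
    exact ⟨x, y, rfl, rfl, h⟩

/-- representatives of an oriented edge -/
theorem bsG_rep (hAL : A ≤ L) (htL : t ∈ L) (hd : ∀ z, Dc A t z → z ∉ A) {p q : BX A L}
    (h : (bsG A L t hd).Adj p q) :
    ∃ c : L, (p = (c : BX A L) ∧ q = ((c * ⟨t, htL⟩ : L) : BX A L)) ∨
      (q = (c : BX A L) ∧ p = ((c * ⟨t, htL⟩ : L) : BX A L)) := by
  obtain ⟨x, y, rfl, rfl, a, ha, a', ha', h | h⟩ := h
  · refine ⟨x * ⟨a, hAL ha⟩, Or.inl ⟨?_, ?_⟩⟩
    · rw [QuotientGroup.eq, Subgroup.mem_subgroupOf]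
      simpa using ha
    · rw [QuotientGroup.eq, Subgroup.mem_subgroupOf]
      have h1 : (y : F) = x * (a * t * a') := by rw [← h]; group
      have h2 : ((y⁻¹ * (x * ⟨a, hAL ha⟩ * ⟨t, htL⟩) : L) : F) = a'⁻¹ := by
        push_cast
        rw [h1]
        group
      rw [h2]
      exact A.inv_mem ha'
  · refine ⟨y * ⟨a'⁻¹, hAL (A.inv_mem ha')⟩, Or.inr ⟨?_, ?_⟩⟩
    · rw [QuotientGroup.eq, Subgroup.mem_subgroupOf]
      simpa using ha'
    · rw [QuotientGroup.eq, Subgroup.mem_subgroupOf]
      have h1 : (y : F) = x * (a * t⁻¹ * a') := by rw [← h]; group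
      have h2 : ((x⁻¹ * (y * ⟨a'⁻¹, hAL (A.inv_mem ha')⟩ * ⟨t, htL⟩) : L) : F) = a := by
        push_cast
        rw [h1]
        group
      rw [h2]
      exact ha

/-- the graph is a tree -/
theorem bsG_tree {S : Set F} (hS : HS A t S) (hAL : A ≤ L) (htL : t ∈ L)
    (hgen : L ≤ A ⊔ Subgroup.zpowers t) (hd : ∀ z, Dc A t z → z ∉ A) : (bsG A L t hd).IsTree := by
  have hdt : Dc A t t := ⟨1, A.one_mem, 1, A.one_mem, Or.inl (by group)⟩
  have hdt' : Dc A t t⁻¹ := ⟨1, A.one_mem, 1, A.one_mem, Or.inr (by group)⟩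
  apply TG.isTree_of_sep
  · -- connected
    have hreach : ∀ z ∈ A ⊔ Subgroup.zpowers t, ∀ hz : z ∈ L,
        (bsG A L t hd).Reachable ((1 : L) : BX A L) ((⟨z, hz⟩ : L) : BX A L) := by
      intro z hz0
      rw [← Subgroup.closure_eq A, Subgroup.zpowers_eq_closure, ← Subgroup.closure_union] at hz0
      induction hz0 using Subgroup.closure_induction_right with
      | one => intro hz; exact SimpleGraph.Reachable.refl _
      | mul_right x hx y hy ih =>
        intro hz
        have hyL : y ∈ L := by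
          rcases hy with hy | hy
          · exact hAL hy
          · rw [Set.mem_singleton_iff] at hy
            rw [hy]; exact htL
        have hxL : x ∈ L := by
          have := L.mul_mem hz (L.inv_mem hyL)
          rwa [mul_inv_cancel_right] at this
        refine (ih hxL).trans ?_
        rcases hy with hy | hy
        · have : ((⟨x, hxL⟩ : L) : BX A L) = ((⟨x * y, hz⟩ : L) : BX A L) := by
            rw [QuotientGroup.eq, Subgroup.mem_subgroupOf]
            simpa using hy
          rw [this]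
        · rw [Set.mem_singleton_iff] at hy
          apply SimpleGraph.Adj.reachable
          rw [bsG_adj]
          have : ((⟨x, hxL⟩ : L) : F)⁻¹ * ((⟨x * y, hz⟩ : L) : F) = t := by
            simp [hy]
          rw [this]
          exact hdt
      | mul_inv_cancel x hx y hy ih =>
        intro hz
        have hyL : y ∈ L := by
          rcases hy with hy | hy
          · exact hAL hy
          · rw [Set.mem_singleton_iff] at hy
            rw [hy]; exact htL
        have hxL : x ∈ L := by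
          have := L.mul_mem hz hyL
          rwa [inv_mul_cancel_right] at this
        refine (ih hxL).trans ?_
        rcases hy with hy | hy
        · have : ((⟨x, hxL⟩ : L) : BX A L) = ((⟨x * y⁻¹, hz⟩ : L) : BX A L) := by
            rw [QuotientGroup.eq, Subgroup.mem_subgroupOf]
            simpa using A.inv_mem hy
          rw [this]
        · rw [Set.mem_singleton_iff] at hy
          apply SimpleGraph.Adj.reachable
          rw [bsG_adj]
          have : ((⟨x, hxL⟩ : L) : F)⁻¹ * ((⟨x * y⁻¹, hz⟩ : L) : F) = t⁻¹ := by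
            simp [hy]
          rw [this]
          exact hdt'
    have : Nonempty (BX A L) := ⟨((1 : L) : BX A L)⟩
    refine SimpleGraph.Connected.mk ?_
    intro p q
    induction p using QuotientGroup.induction_on with
    | H x =>
      induction q using QuotientGroup.induction_on with
      | H y => exact (hreach x (hgen x.2) x.2).symm.trans (hreach y (hgen y.2) y.2)
  · -- every edge separates
    intro p q hpq
    have hmem : ∀ c x : L, ∀ y : L, (x : BX A L) = (y : BX A L) →
        ((c : F)⁻¹ * x ∈ S ↔ (c : F)⁻¹ * y ∈ S) := by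
      intro c x y hxy
      rw [QuotientGroup.eq, Subgroup.mem_subgroupOf] at hxy
      have h1 := hS.inv ((c : F)⁻¹ * x) _ hxy
      have h2 : (c : F)⁻¹ * x * ((x⁻¹ * y : L) : F) = (c : F)⁻¹ * y := by
        push_cast
        group
      rw [h2] at h1
      exact h1.symm
    -- the half space of `c`
    have hU : ∀ c : L, ∃ U : Set (BX A L), (∀ x : L, (x : BX A L) ∈ U ↔ (c : F)⁻¹ * x ∈ S) := by
      intro c
      refine ⟨{p | ∃ x : L, (x : BX A L) = p ∧ (c : F)⁻¹ * x ∈ S}, fun x => ?_⟩
      constructor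
      · rintro ⟨y, hy, hyS⟩
        exact (hmem c y x hy).1 hyS
      · intro h
        exact ⟨x, rfl, h⟩
    -- crossing edges
    have hcross : ∀ c : L, ∀ x y : L, Dc A t ((x : F)⁻¹ * y) → (c : F)⁻¹ * x ∉ S →
        (c : F)⁻¹ * y ∈ S → (x : BX A L) = (c : BX A L) ∧
          (y : BX A L) = ((c * ⟨t, htL⟩ : L) : BX A L) := by
      intro c x y hd hx hy
      obtain ⟨a, ha, a', ha', h | h⟩ := hd
      · have hy1 : (y : F) = x * (a * t * a') := by rw [← h]; group
        have h1 : (c : F)⁻¹ * x * a ∉ S := by rwa [hS.inv _ a ha]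
        have h2 : (c : F)⁻¹ * x * a * t ∈ S := by
          rw [← hS.inv _ a' ha']
          have : (c : F)⁻¹ * x * a * t * a' = (c : F)⁻¹ * y := by rw [hy1]; group
          rwa [this]
        have h3 := hS.uniq _ h1 h2
        have h4 : (x : F) = c * a⁻¹ := by
          have : (x : F) = c * ((c : F)⁻¹ * x * a) * a⁻¹ := by group
          rw [this, h3]; group
        constructor
        · rw [QuotientGroup.eq, Subgroup.mem_subgroupOf]
          have h5 : ((x⁻¹ * c : L) : F) = a := by
            push_cast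
            rw [h4]; group
          rwa [h5]
        · rw [QuotientGroup.eq, Subgroup.mem_subgroupOf]
          have h5 : ((y⁻¹ * (c * ⟨t, htL⟩) : L) : F) = a'⁻¹ := by
            push_cast
            rw [hy1, h4]; group
          rw [h5]
          exact A.inv_mem ha'
      · exfalso
        have hy1 : (y : F) = x * (a * t⁻¹ * a') := by rw [← h]; group
        have h1 : (c : F)⁻¹ * x * a ∉ S := by rwa [hS.inv _ a ha]
        have h2 : (c : F)⁻¹ * x * a * t⁻¹ ∈ S := by
          rw [← hS.inv _ a' ha']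
          have : (c : F)⁻¹ * x * a * t⁻¹ * a' = (c : F)⁻¹ * y := by rw [hy1]; group
          rwa [this]
        have h3 := hS.st _ h2
        rw [inv_mul_cancel_right] at h3
        exact h1 h3
    obtain ⟨c, ⟨rfl, rfl⟩ | ⟨rfl, rfl⟩⟩ := bsG_rep hAL htL hd hpq
    · obtain ⟨U, hU⟩ := hU c
      refine ⟨Uᶜ, ?_, ?_, ?_⟩
      · rw [Set.mem_compl_iff, hU, inv_mul_cancel]
        exact hS.one
      · rw [Set.mem_compl_iff, not_not, hU]
        have : (c : F)⁻¹ * ((c * ⟨t, htL⟩ : L) : F) = t := by simp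
        rw [this]
        exact hS.mem
      · intro x y hxy hx hy
        induction x using QuotientGroup.induction_on with
        | H x =>
          induction y using QuotientGroup.induction_on with
          | H y =>
            rw [bsG_adj] at hxy
            rw [Set.mem_compl_iff, hU] at hx
            rw [Set.mem_compl_iff, not_not, hU] at hy
            exact hcross c x y hxy hx hy
    · obtain ⟨U, hU⟩ := hU c
      refine ⟨U, ?_, ?_, ?_⟩
      · rw [hU]
        have : (c : F)⁻¹ * ((c * ⟨t, htL⟩ : L) : F) = t := by simp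
        rw [this]
        exact hS.mem
      · rw [hU, inv_mul_cancel]
        exact hS.one
      · intro x y hxy hx hy
        have hyx := hxy.symm
        clear hxy
        induction x using QuotientGroup.induction_on with
        | H x =>
          induction y using QuotientGroup.induction_on with
          | H y =>
            rw [bsG_adj] at hyx
            rw [hU] at hx hy
            exact (hcross c y x hyx hy hx).symm

end

/-! ### the half space in the free group -/

section
variable {α : Type} [DecidableEq α]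

theorem head_mul_letter (x : FreeGroup α) (c : α × Bool) :
    x = 1 ∨ x * FreeGroup.mk [c] = 1 ∨
      (x * FreeGroup.mk [c]).toWord.head? = x.toWord.head? := by
  have hred : FreeGroup.IsReduced x.toWord := FreeGroup.isReduced_toWord
  rcases List.eq_nil_or_concat x.toWord with h | ⟨w, d, h⟩
  · left
    rwa [FreeGroup.toWord_eq_nil_iff] at h
  right
  rw [List.concat_eq_append] at h
  have hx : x = FreeGroup.mk (w ++ [d]) := by
    rw [← h, FreeGroup.mk_toWord]
  rw [h] at hred
  by_cases hdc : d.1 = c.1 → d.2 = c.2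
  · right
    have h1 : x * FreeGroup.mk [c] = FreeGroup.mk (w ++ [d] ++ [c]) := by
      rw [hx, FreeGroup.mul_mk]
    have h2 : FreeGroup.IsReduced (w ++ [d] ++ [c]) := by
      unfold FreeGroup.IsReduced
      rw [List.isChain_append]
      refine ⟨hred, List.isChain_singleton _, ?_⟩
      intro x hx y hy
      simp at hx hy
      subst hx hy
      exact hdc
    rw [h1, FreeGroup.toWord_mk, h2.reduce_eq, h, List.append_assoc]
    cases w with
    | nil => rfl
    | cons e w => rfl
  · have h1 : x * FreeGroup.mk [c] = FreeGroup.mk w := by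
      push Not at hdc
      obtain ⟨d1, d2⟩ := d
      obtain ⟨c1, c2⟩ := c
      simp only at hdc
      obtain ⟨rfl, h2⟩ := hdc
      have h3 : (FreeGroup.mk [(d1, d2)] : FreeGroup α) * FreeGroup.mk [(d1, c2)] = 1 := by
        cases d2 <;> cases c2
        · exact absurd rfl h2
        · rw [mk_single_false, mk_single_true, inv_mul_cancel]
        · rw [mk_single_false, mk_single_true, mul_inv_cancel]
        · exact absurd rfl h2
      rw [hx, ← FreeGroup.mul_mk, mul_assoc, h3, mul_one]
    have h4 : FreeGroup.IsReduced w := List.IsChain.left_of_append hred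
    rw [h1]
    cases w with
    | nil => left; rfl
    | cons e w =>
      right
      rw [FreeGroup.toWord_mk, h4.reduce_eq, h]
      rfl

end

theorem hs_std {n : ℕ} (i : Fin n) :
    HS (lowS n i) (FreeGroup.of i) {x : FreeGroup (Fin n) | x.toWord.head? = some (i, true)} := by
  have h1 : ((1 : FreeGroup (Fin n)).toWord.head? = some (i, true)) → False := by
    rw [FreeGroup.toWord_one]
    simp
  have hlet : ∀ c : Fin n × Bool, ((FreeGroup.mk [c] : FreeGroup (Fin n)).toWord.head? = some (i, true))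
      → c = (i, true) := by
    intro c hc
    rw [FreeGroup.toWord_mk, FreeGroup.reduce_singleton] at hc
    simpa using hc
  have hgen : ∀ (x : FreeGroup (Fin n)) (j : Fin n), j ≠ i →
      ((x * FreeGroup.of j).toWord.head? = some (i, true) ↔ x.toWord.head? = some (i, true)) := by
    intro x j hj
    rcases head_mul_letter x (j, true) with h | h | h
    · subst h
      rw [one_mul]
      constructor
      · intro h
        have := hlet (j, true) h
        exact absurd (congrArg Prod.fst this) hj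
      · intro h
        exact (h1 h).elim
    · have h' : x * FreeGroup.of j = 1 := h
      rw [h']
      constructor
      · intro h
        exact (h1 h).elim
      · intro h2
        have h3 : x = FreeGroup.mk [(j, false)] := by
          rw [mk_single_false]
          exact eq_inv_of_mul_eq_one_left h'
        rw [h3] at h2
        have := hlet _ h2
        exact absurd (congrArg Prod.fst this) hj
    · have h' : (x * FreeGroup.of j).toWord.head? = x.toWord.head? := h
      rw [h']
  constructor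
  · intro x a ha
    simp only [Set.mem_ofPred_eq]
    induction ha using Subgroup.closure_induction generalizing x with
    | mem y hy =>
      obtain ⟨j, hj, rfl⟩ := hy
      refine hgen x j ?_
      rintro rfl
      exact absurd (show (j : ℕ) < j from hj) (lt_irrefl _)
    | one => rw [mul_one]
    | mul y z _ _ hy hz => rw [← mul_assoc, hz, hy]
    | inv y _ hy =>
      have := hy (x * y⁻¹)
      rw [inv_mul_cancel_right] at this
      exact this.symm
  · exact h1
  · rw [Set.mem_ofPred_eq, FreeGroup.toWord_of]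
    rfl
  · intro x hx
    simp only [Set.mem_ofPred_eq] at hx ⊢
    rcases head_mul_letter x (i, true) with h | h | h
    · subst h
      exact (h1 hx).elim
    · have h3 : x = FreeGroup.mk [(i, false)] := by
        rw [mk_single_false]
        exact eq_inv_of_mul_eq_one_left h
      rw [h3] at hx
      have := hlet _ hx
      simp at this
    · have h' : (x * FreeGroup.of i).toWord.head? = x.toWord.head? := h
      rw [h', hx]
  · intro x hx hx2
    simp only [Set.mem_ofPred_eq] at hx hx2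
    rcases head_mul_letter x (i, true) with h | h | h
    · exact h
    · have h' : x * FreeGroup.of i = 1 := h
      rw [h'] at hx2
      exact (h1 hx2).elim
    · have h' : (x * FreeGroup.of i).toWord.head? = x.toWord.head? := h
      rw [h'] at hx2
      exact (hx hx2).elim

theorem low_map_repr {n : ℕ} (b : FreeGroupBasis (Fin n) (FG n)) (k : ℕ) :
    (low b k).map (b.repr : FG n →* FreeGroup (Fin n)) = lowS n k := by
  rw [low, lowS, MonoidHom.map_closure, Set.image_image]
  congr 1
  ext x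
  simp only [Set.mem_image]
  constructor
  · rintro ⟨j, hj, rfl⟩
    exact ⟨j, hj, (b.repr_apply_coe j).symm⟩
  · rintro ⟨j, hj, rfl⟩
    exact ⟨j, hj, b.repr_apply_coe j⟩

theorem mem_low_iff {n : ℕ} (b : FreeGroupBasis (Fin n) (FG n)) (k : ℕ) (x : FG n) :
    x ∈ low b k ↔ b.repr x ∈ lowS n k := by
  rw [← low_map_repr]
  constructor
  · intro hx
    exact ⟨x, hx, rfl⟩
  · rintro ⟨y, hy, hyx⟩
    have : y = x := b.repr.injective hyx
    rwa [← this]

theorem hs_basis {n : ℕ} (b : FreeGroupBasis (Fin n) (FG n)) (i : Fin n) :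
    HS (low b i) (b i) {x : FG n | b.repr x ∈ {y : FreeGroup (Fin n) | y.toWord.head? = some (i, true)}} := by
  have h := hs_std i
  have hbi : b.repr (b i) = FreeGroup.of i := b.repr_apply_coe i
  constructor
  · intro x a ha
    rw [mem_low_iff] at ha
    have := h.inv (b.repr x) _ ha
    simp only [Set.mem_ofPred_eq] at this ⊢
    rw [map_mul]
    exact this
  · have := h.one
    simp only [Set.mem_ofPred_eq] at this ⊢
    rw [map_one]
    exact this
  · have := h.mem
    simp only [Set.mem_ofPred_eq] at this ⊢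
    rw [hbi]
    exact this
  · intro x hx
    have := h.st (b.repr x) hx
    simp only [Set.mem_ofPred_eq] at this ⊢
    rw [map_mul, hbi]
    exact this
  · intro x hx hx2
    have h3 := h.uniq (b.repr x) hx (by
      simp only [Set.mem_ofPred_eq] at hx2 ⊢
      rw [map_mul, hbi] at hx2
      exact hx2)
    exact b.repr.injective (by rw [h3, map_one])

/-! ### the action -/

section
variable {F : Type} [Group F]

/-- automorphisms which preserve `A` and `L` and map `t` into `A t A` -/
def GA (A L : Subgroup F) (t : F) : Subgroup (MulAut F) where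
  carrier := {φ | (∀ x, φ x ∈ A ↔ x ∈ A) ∧ (∀ x, φ x ∈ L ↔ x ∈ L) ∧
    ∃ w ∈ A, ∃ v ∈ A, φ t = w * t * v}
  one_mem' := ⟨fun _ => Iff.rfl, fun _ => Iff.rfl, 1, A.one_mem, 1, A.one_mem, by
    rw [MulAut.one_apply]; group⟩
  mul_mem' := by
    rintro φ ψ ⟨h1, h2, w, hw, v, hv, h3⟩ ⟨h1', h2', w', hw', v', hv', h3'⟩
    refine ⟨fun x => ?_, fun x => ?_, φ w' * w, A.mul_mem ((h1 _).2 hw') hw,
      v * φ v', A.mul_mem hv ((h1 _).2 hv'), ?_⟩
    · rw [MulAut.mul_apply, h1, h1']
    · rw [MulAut.mul_apply, h2, h2']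
    · rw [MulAut.mul_apply, h3', map_mul, map_mul, h3]
      group
  inv_mem' := by
    rintro φ ⟨h1, h2, w, hw, v, hv, h3⟩
    have h4 : ∀ x, φ (φ⁻¹ x) = x := fun x => by rw [← MulAut.mul_apply, mul_inv_cancel]; rfl
    have h5 : ∀ x, φ⁻¹ (φ x) = x := fun x => by rw [← MulAut.mul_apply, inv_mul_cancel]; rfl
    have h1' : ∀ x, φ⁻¹ x ∈ A ↔ x ∈ A := fun x => by rw [← h1, h4]
    refine ⟨h1', fun x => ?_, (φ⁻¹ w)⁻¹, A.inv_mem ((h1' _).2 hw),
      (φ⁻¹ v)⁻¹, A.inv_mem ((h1' _).2 hv), ?_⟩
    · rw [← h2, h4]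
    · have h6 := congrArg (fun z => φ⁻¹ z) h3
      simp only [map_mul] at h6
      rw [h5] at h6
      generalize φ⁻¹ t = z at h6 ⊢
      rw [h6]
      group

end

theorem low_mono {n : ℕ} {F : Type} [Group F] (b : FreeGroupBasis (Fin n) F) {j k : ℕ} (h : j ≤ k) :
    low b j ≤ low b k := by
  apply Subgroup.closure_mono
  apply Set.image_mono
  intro x hx
  exact lt_of_lt_of_le (show (x : ℕ) < j from hx) h

theorem mem_low_of_lt {n : ℕ} {F : Type} [Group F] (b : FreeGroupBasis (Fin n) F) {j : Fin n} {k : ℕ}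
    (h : (j : ℕ) < k) : b j ∈ low b k :=
  Subgroup.subset_closure ⟨j, h, rfl⟩

theorem low_succ_le {n : ℕ} {F : Type} [Group F] (b : FreeGroupBasis (Fin n) F) (i : Fin n) :
    low b (i + 1) ≤ low b i ⊔ Subgroup.zpowers (b i) := by
  rw [low, Subgroup.closure_le]
  rintro x ⟨j, hj, rfl⟩
  have hj' : (j : ℕ) < i + 1 := hj
  by_cases hji : j = i
  · subst hji
    exact Subgroup.mem_sup_right (Subgroup.mem_zpowers _)
  · have hlt : (j : ℕ) < i := by
      have : (j : ℕ) ≠ i := fun h => hji (Fin.ext h)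
      omega
    exact Subgroup.mem_sup_left (mem_low_of_lt b hlt)

theorem tri_map_low_le {n : ℕ} (b : FreeGroupBasis (Fin n) (FG n)) (g : MulAut (FG n)) (h : Tri b g)
    (k : ℕ) (x : FG n) (hx : x ∈ low b k) : g x ∈ low b k := by
  induction hx using Subgroup.closure_induction with
  | mem y hy =>
    obtain ⟨j, hj, rfl⟩ := hy
    have hj' : (j : ℕ) < k := hj
    obtain ⟨w, hw, v, hv, hgj⟩ := h j
    beta_reduce
    rw [hgj]
    exact mul_mem (mul_mem (low_mono b hj'.le hw) (mem_low_of_lt b hj')) (low_mono b hj'.le hv)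
  | one => rw [map_one]; exact one_mem _
  | mul y z _ _ hy hz => rw [map_mul]; exact mul_mem hy hz
  | inv y _ hy => rw [map_inv]; exact inv_mem hy

theorem tri_low_le_map {n : ℕ} (b : FreeGroupBasis (Fin n) (FG n)) (g : MulAut (FG n)) (h : Tri b g)
    (k : ℕ) : low b k ≤ (low b k).map (g : FG n →* FG n) := by
  induction k with
  | zero =>
    rw [low, Subgroup.closure_le]
    rintro x ⟨j, hj, _⟩
    exact absurd (show (j : ℕ) < 0 from hj) (Nat.not_lt_zero _)
  | succ k ih =>
    rw [low, Subgroup.closure_le]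
    rintro x ⟨j, hj, rfl⟩
    have hj' : (j : ℕ) < k + 1 := hj
    have ih' : low b k ≤ (low b (k + 1)).map (g : FG n →* FG n) :=
      ih.trans (Subgroup.map_mono (low_mono b (Nat.le_succ k)))
    by_cases hjk : (j : ℕ) < k
    · exact ih' (mem_low_of_lt b hjk)
    · have hjk' : (j : ℕ) = k := by omega
      obtain ⟨w, hw, v, hv, hgj⟩ := h j
      rw [hjk'] at hw hv
      have h1 : g (b j) ∈ (low b (k + 1)).map (g : FG n →* FG n) :=
        ⟨b j, mem_low_of_lt b hj', rfl⟩
      have h2 : b j = w⁻¹ * g (b j) * v⁻¹ := by rw [hgj]; group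
      show b j ∈ _
      rw [h2]
      exact mul_mem (mul_mem (inv_mem (ih' hw)) h1) (inv_mem (ih' hv))

theorem tri_mem_low_iff {n : ℕ} (b : FreeGroupBasis (Fin n) (FG n)) (g : MulAut (FG n)) (h : Tri b g)
    (k : ℕ) (x : FG n) : g x ∈ low b k ↔ x ∈ low b k := by
  constructor
  · intro hx
    obtain ⟨y, hy, hyx⟩ := tri_low_le_map b g h k hx
    have : y = x := g.injective hyx
    rwa [← this]
  · exact tri_map_low_le b g h k x

theorem tri_mem_GA {n : ℕ} (b : FreeGroupBasis (Fin n) (FG n)) (g : MulAut (FG n)) (h : Tri b g)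
    (i : Fin n) : g ∈ GA (low b i) (low b (i + 1)) (b i) := by
  refine ⟨tri_mem_low_iff b g h _, tri_mem_low_iff b g h _, h i⟩

/-- the group which acts -/
def KA {n : ℕ} (G1 : Subgroup (MulAut (FG n))) (A L : Subgroup (FG n)) (t : FG n) :
    Subgroup (Gam G1) where
  carrier := {m | m.left ∈ L ∧ m.right.1 ∈ GA A L t}
  one_mem' := ⟨L.one_mem, (GA A L t).one_mem⟩
  mul_mem' := by
    rintro m m' ⟨h1, h2⟩ ⟨h1', h2'⟩
    refine ⟨?_, ?_⟩
    · rw [SemidirectProduct.mul_left]
      exact L.mul_mem h1 ((h2.2.1 _).2 h1')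
    · exact (GA A L t).mul_mem h2 h2'
  inv_mem' := by
    rintro m ⟨h1, h2⟩
    have h3 := (GA A L t).inv_mem h2
    refine ⟨?_, h3⟩
    rw [SemidirectProduct.inv_left]
    exact (h3.2.1 _).2 (L.inv_mem h1)

section
variable {n : ℕ} (G1 : Subgroup (MulAut (FG n))) (A L : Subgroup (FG n)) (t : FG n)

open Classical in
/-- the action on cosets -/
noncomputable def bsAct (m : Gam G1) (p : BX A L) : BX A L :=
  if h : m ∈ KA G1 A L t then
    ((⟨m.left * m.right.1 (p.out : L), L.mul_mem h.1 ((h.2.2.1 _).2 (p.out : L).2)⟩ : L) : BX A L)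
  else p

variable {G1 A L t}

theorem bsAct_mk {m : Gam G1} (h : m ∈ KA G1 A L t) (x : L) :
    bsAct G1 A L t m (x : BX A L) =
      ((⟨m.left * m.right.1 x, L.mul_mem h.1 ((h.2.2.1 _).2 x.2)⟩ : L) : BX A L) := by
  rw [bsAct, dif_pos h, QuotientGroup.eq, Subgroup.mem_subgroupOf]
  have h1 : ((x : BX A L).out : BX A L) = (x : BX A L) := Quotient.out_eq _
  rw [QuotientGroup.eq, Subgroup.mem_subgroupOf] at h1
  have h2 : (((⟨m.left * m.right.1 ((x : BX A L).out : L), L.mul_mem h.1 ((h.2.2.1 _).2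
      ((x : BX A L).out : L).2)⟩ : L)⁻¹ * (⟨m.left * m.right.1 x, L.mul_mem h.1 ((h.2.2.1 _).2 x.2)⟩ : L) : L) : FG n)
      = m.right.1 (((x : BX A L).out⁻¹ * x : L) : FG n) := by
    push_cast
    rw [map_mul, map_inv]
    group
  rw [h2, h.2.1]
  exact h1

/-- the tree of the splitting `L = A * ⟨t⟩` -/
noncomputable def bsT {S : Set (FG n)} (hS : HS A t S) (hAL : A ≤ L) (htL : t ∈ L)
    (hgen : L ≤ A ⊔ Subgroup.zpowers t) {M : Subgroup (Gam G1)} (hM : M ≤ KA G1 A L t) : MTree M where
  X := BX A L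
  G := bsG A L t fun _ => hS.not_dc_of_mem
  tree := bsG_tree hS hAL htL hgen _
  act := bsAct G1 A L t
  act_one := fun x => by
    induction x using QuotientGroup.induction_on with
    | H x =>
      rw [bsAct_mk (KA G1 A L t).one_mem]
      congr 1
      apply Subtype.ext
      simp
  act_mul := fun m hm m' hm' x => by
    induction x using QuotientGroup.induction_on with
    | H x =>
      rw [bsAct_mk (hM hm'), bsAct_mk (hM hm), bsAct_mk ((KA G1 A L t).mul_mem (hM hm) (hM hm'))]
      congr 1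
      apply Subtype.ext
      simp [mul_assoc]
  act_adj := fun m hm x y h => by
    have hm1 := hM hm
    induction x using QuotientGroup.induction_on with
    | H x =>
      induction y using QuotientGroup.induction_on with
      | H y =>
        rw [bsAct_mk hm1, bsAct_mk hm1, bsG_adj]
        rw [bsG_adj] at h
        obtain ⟨h1, h2, w, hw, v, hv, h3⟩ := hm1.2
        have h4 : ((m.left * m.right.1 x)⁻¹ * (m.left * m.right.1 y) : FG n) =
            m.right.1 ((x : FG n)⁻¹ * y) := by
          rw [map_mul, map_inv]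
          group
        show Dc A t ((m.left * m.right.1 x)⁻¹ * (m.left * m.right.1 y))
        rw [h4]
        obtain ⟨a, ha, a', ha', h | h⟩ := h
        · rw [h]
          refine ⟨m.right.1 a * w, A.mul_mem ((h1 _).2 ha) hw, v * m.right.1 a',
            A.mul_mem hv ((h1 _).2 ha'), Or.inl ?_⟩
          rw [map_mul, map_mul, h3]
          group
        · rw [h]
          refine ⟨m.right.1 a * v⁻¹, A.mul_mem ((h1 _).2 ha) (A.inv_mem hv), w⁻¹ * m.right.1 a',
            A.mul_mem (A.inv_mem hw) ((h1 _).2 ha'), Or.inr ?_⟩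
          rw [map_mul, map_mul, map_inv, h3]
          group

end

theorem bs_tree {n : ℕ} (G1 : Subgroup (MulAut (FG n))) (b : FreeGroupBasis (Fin n) (FG n)) (i : Fin n)
    (g : G1) (hg : Tri b g) :
    ∃ T : MTree ((low b (i + 1)).map (inF G1) ⊔ Subgroup.zpowers (inG G1 g)),
      (∀ h ∈ (low b (i + 1)).map (inF G1), ∀ x y, T.G.Adj x y → T.act h x = x → T.act h y = y → h = 1) ∧
      (∀ m ∈ (low b (i + 1)).map (inF G1) ⊔ Subgroup.zpowers (inG G1 g), ∀ x y, T.G.Adj x y →
        ∃ h ∈ (low b (i + 1)).map (inF G1), T.act h x = T.act m x ∧ T.act h y = T.act m y) ∧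
      ∃ x0 : T.X, (∀ h ∈ (low b (i + 1)).map (inF G1), T.act h x0 = x0 ↔ h ∈ (low b i).map (inF G1)) ∧
        (∀ x, ∃ h ∈ (low b (i + 1)).map (inF G1), T.act h x0 = x) ∧
        ∃ y0, T.G.Adj x0 y0 ∧ ∀ x y, T.G.Adj x y → ∃ h ∈ (low b (i + 1)).map (inF G1),
          (T.act h x0 = x ∧ T.act h y0 = y) ∨ (T.act h x0 = y ∧ T.act h y0 = x) := by
  set A : Subgroup (FG n) := low b i with hA
  set L : Subgroup (FG n) := low b (i + 1) with hL
  set t : FG n := b i with ht
  have hS := hs_basis b i
  rw [← hA, ← ht] at hS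
  have hAL : A ≤ L := low_mono b (Nat.le_succ _)
  have htL : t ∈ L := mem_low_of_lt b (Nat.lt_succ_self _)
  have hgen : L ≤ A ⊔ Subgroup.zpowers t := low_succ_le b i
  have hgA : (g : MulAut (FG n)) ∈ GA A L t := tri_mem_GA b g hg i
  have hLK : L.map (inF G1) ≤ KA G1 A L t := by
    rintro _ ⟨x, hx, rfl⟩
    exact ⟨hx, (GA A L t).one_mem⟩
  have hM : L.map (inF G1) ⊔ Subgroup.zpowers (inG G1 g) ≤ KA G1 A L t := by
    refine sup_le hLK ?_
    rw [Subgroup.zpowers_le]
    exact ⟨L.one_mem, hgA⟩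
  -- the action of elements of `L`
  have hact : ∀ f x : L, bsAct G1 A L t (inF G1 f) (x : BX A L) = ((f * x : L) : BX A L) := by
    intro f x
    rw [bsAct_mk (hLK ⟨_, f.2, rfl⟩)]
    rfl
  let T := bsT (G1 := G1) hS hAL htL hgen hM
  have hTact : ∀ f x : L, T.act (inF G1 f) (x : BX A L) = ((f * x : L) : BX A L) := hact
  have hTadj : ∀ x y : L, T.G.Adj (x : BX A L) (y : BX A L) ↔ Dc A t ((x : FG n)⁻¹ * y) :=
    fun x y => bsG_adj (fun _ => hS.not_dc_of_mem) x y
  have hTrep : ∀ p q : T.X, T.G.Adj p q → ∃ c : L, (p = (c : BX A L) ∧ q = ((c * ⟨t, htL⟩ : L) : BX A L)) ∨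
      (q = (c : BX A L) ∧ p = ((c * ⟨t, htL⟩ : L) : BX A L)) :=
    fun p q h => bsG_rep hAL htL (fun _ => hS.not_dc_of_mem) h
  have hEq : ∀ x y : L, @Eq T.X (x : BX A L) (y : BX A L) ↔ (x : FG n)⁻¹ * y ∈ A := by
    intro x y
    have h : (x : BX A L) = (y : BX A L) ↔ (x : FG n)⁻¹ * y ∈ A := by
      rw [QuotientGroup.eq, Subgroup.mem_subgroupOf]
      rfl
    exact h
  have hone : ∀ f : L, (inF G1 (f : FG n) : Gam G1) = 1 ↔ f = 1 := by
    intro f
    rw [← map_one (inF G1)]
    constructor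
    · intro h
      exact Subtype.ext (SemidirectProduct.inl_injective h)
    · intro h
      rw [h]; rfl
  refine ⟨T, ?_, ?_, ((1 : L) : BX A L), ?_, ?_, (((⟨t, htL⟩ : L)) : BX A L), ?_, ?_⟩
  · rintro _ ⟨f, hf, rfl⟩ p q hpq hp hq
    have key : ∀ c : L, T.act (inF G1 f) (c : BX A L) = (c : BX A L) →
        T.act (inF G1 f) ((c * ⟨t, htL⟩ : L) : BX A L) = ((c * ⟨t, htL⟩ : L) : BX A L) →
        inF G1 f = 1 := by
      intro c h1 h2
      have h1' := (hTact ⟨f, hf⟩ c).symm.trans h1
      have h2' := (hTact ⟨f, hf⟩ (c * ⟨t, htL⟩)).symm.trans h2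
      rw [hEq] at h1' h2'
      have h3 : (c : FG n)⁻¹ * f⁻¹ * c = 1 := by
        apply hS.triv
        · have : ((⟨f, hf⟩ * c : L) : FG n)⁻¹ * (c : FG n) = (c : FG n)⁻¹ * f⁻¹ * c := by
            push_cast; group
          rwa [this] at h1'
        · have : ((⟨f, hf⟩ * (c * ⟨t, htL⟩) : L) : FG n)⁻¹ * ((c * ⟨t, htL⟩ : L) : FG n) =
              t⁻¹ * ((c : FG n)⁻¹ * f⁻¹ * c) * t := by
            push_cast; group
          rwa [this] at h2'
      have h4 : f = 1 := by
        have : f⁻¹ = c * ((c : FG n)⁻¹ * f⁻¹ * c) * (c : FG n)⁻¹ := by group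
        rw [h3, mul_one, mul_inv_cancel, inv_eq_one] at this
        exact this
      rw [h4, map_one]
    obtain ⟨c, ⟨rfl, rfl⟩ | ⟨rfl, rfl⟩⟩ := hTrep p q hpq
    · exact key c hp hq
    · exact key c hq hp
  · intro m hm p q hpq
    have hmK := hM hm
    obtain ⟨h1, h2, w, hw, v, hv, h3⟩ := hmK.2
    have key : ∀ c : L, ∃ h ∈ L.map (inF G1), T.act h (c : BX A L) = T.act m (c : BX A L) ∧
        T.act h ((c * ⟨t, htL⟩ : L) : BX A L) = T.act m ((c * ⟨t, htL⟩ : L) : BX A L) := by
      intro c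
      have hfL : m.left * m.right.1 c * w * (c : FG n)⁻¹ ∈ L :=
        mul_mem (mul_mem (mul_mem hmK.1 ((h2 _).2 c.2)) (hAL hw)) (inv_mem c.2)
      refine ⟨inF G1 (m.left * m.right.1 c * w * (c : FG n)⁻¹), ⟨_, hfL, rfl⟩, ?_, ?_⟩
      · have h4 := hTact ⟨_, hfL⟩ c
        refine h4.trans ?_
        refine Eq.trans ?_ (bsAct_mk hmK c).symm
        refine (hEq _ _).2 ?_
        have h6 : ((⟨m.left * m.right.1 c * w * (c : FG n)⁻¹, hfL⟩ * c : L) : FG n)⁻¹ *
            (m.left * m.right.1 c) = w⁻¹ := by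
          push_cast; group
        show _ * (m.left * m.right.1 c) ∈ A
        rw [h6]
        exact A.inv_mem hw
      · have h4 := hTact ⟨_, hfL⟩ (c * ⟨t, htL⟩)
        refine h4.trans ?_
        refine Eq.trans ?_ (bsAct_mk hmK (c * ⟨t, htL⟩)).symm
        refine (hEq _ _).2 ?_
        have h8 : m.right.1 ((c * ⟨t, htL⟩ : L) : FG n) = m.right.1 c * (w * t * v) := by
          rw [← h3, ← map_mul]
          rfl
        have h6 : ((⟨m.left * m.right.1 c * w * (c : FG n)⁻¹, hfL⟩ * (c * ⟨t, htL⟩) : L) : FG n)⁻¹ *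
            (m.left * (m.right.1 c * (w * t * v))) = v := by
          push_cast
          group
        show _ * (m.left * m.right.1 ((c * ⟨t, htL⟩ : L) : FG n)) ∈ A
        rw [h8, h6]
        exact hv
    obtain ⟨c, ⟨rfl, rfl⟩ | ⟨rfl, rfl⟩⟩ := hTrep p q hpq
    · exact key c
    · obtain ⟨h, hh, h4, h5⟩ := key c
      exact ⟨h, hh, h5, h4⟩
  · rintro _ ⟨f, hf, rfl⟩
    have h1 := hTact ⟨f, hf⟩ 1
    have h2 : T.act (inF G1 f) ((1 : L) : BX A L) = ((1 : L) : BX A L) ↔ f ∈ A := by
      have h3 : T.act (inF G1 f) ((1 : L) : BX A L) = ((⟨f, hf⟩ * 1 : L) : BX A L) := h1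
      rw [h3, hEq]
      have h4 : ((⟨f, hf⟩ * 1 : L) : FG n)⁻¹ * ((1 : L) : FG n) = f⁻¹ := by
        simp
      rw [h4, inv_mem_iff]
    refine h2.trans ?_
    constructor
    · intro h
      exact ⟨f, h, rfl⟩
    · rintro ⟨f', hf', hff⟩
      have : f' = f := SemidirectProduct.inl_injective hff
      rwa [← this]
  · intro p
    induction p using QuotientGroup.induction_on with
    | H x =>
      refine ⟨inF G1 x, ⟨_, x.2, rfl⟩, ?_⟩
      refine (hTact x 1).trans ?_
      rw [mul_one]
  · refine (hTadj 1 ⟨t, htL⟩).2 ⟨1, A.one_mem, 1, A.one_mem, Or.inl ?_⟩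
    simp
  · intro p q hpq
    obtain ⟨c, ⟨rfl, rfl⟩ | ⟨rfl, rfl⟩⟩ := hTrep p q hpq
    · refine ⟨inF G1 c, ⟨_, c.2, rfl⟩, Or.inl ⟨?_, hTact c _⟩⟩
      refine (hTact c 1).trans ?_
      rw [mul_one]
    · refine ⟨inF G1 c, ⟨_, c.2, rfl⟩, Or.inr ⟨?_, hTact c _⟩⟩
      refine (hTact c 1).trans ?_
      rw [mul_one]

end Pool.MP6567.A
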