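import Pool.Agent.Lib.MP_6567fb_al.A.BS
import Pool.Agent.Lib.MP_6567fb_al.F6b

/-!
# Part A, module BSI: the Bass-Serre trees in the form needed in part F
-/

set_option autoImplicit false

open scoped Pointwise

namespace Pool.MP6567.A

open Pool.Agent.Lib.MP_6567fb_al

/-- the free group is the kernel -/
noncomputable def kerEquiv {n : ℕ} (G1 : Subgroup (MulAut (FG n))) : FG n ≃* (prG G1).ker :=
  (MonoidHom.ofInjective (SemidirectProduct.inl_injective (φ := G1.subtype))).trans
    (MulEquiv.subgroupCongr SemidirectProduct.range_inl_eq_ker_rightHom)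

theorem kerEquiv_coe {n : ℕ} (G1 : Subgroup (MulAut (FG n))) (x : FG n) :
    (kerEquiv G1 x : Gam G1) = inF G1 x := rfl

theorem basis_card {n n' : ℕ} {K : Type} [Group K] (e : FG n ≃* K) (b : FreeGroupBasis (Fin n') K) :
    n' = n := by
  have h := Fintype.card_congr (Equiv.ofFreeGroupEquiv (b.repr.symm.trans e.symm))
  simpa using h

theorem map_low {n : ℕ} (G1 : Subgroup (MulAut (FG n))) (b : FreeGroupBasis (Fin n) (FG n)) (k : ℕ)
    (c : Fin n → Gam G1) (hc : ∀ j, c j = inF G1 (b j)) (S : Set (Fin n))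
    (hS : ∀ j : Fin n, j ∈ S ↔ (j : ℕ) < k) :
    Subgroup.closure (c '' S) = (low b k).map (inF G1) := by
  rw [low, MonoidHom.map_closure, Set.image_image]
  congr 1
  ext x
  simp only [Set.mem_image]
  constructor
  · rintro ⟨j, hj, rfl⟩
    exact ⟨j, (hS j).1 hj, (hc j).symm⟩
  · rintro ⟨j, hj, rfl⟩
    exact ⟨j, (hS j).2 hj, hc j⟩

theorem bstrees {n : ℕ} (G1 : Subgroup (MulAut (FG n))) : BSTrees (prG G1) (inG G1) := by
  intro g n' b hb i
  obtain rfl : n' = n := basis_card (kerEquiv G1) b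
  let b' : FreeGroupBasis (Fin n') (FG n') := b.map (kerEquiv G1).symm
  have hbb : ∀ j, (b j : Gam G1) = inF G1 (b' j) := by
    intro j
    rw [← kerEquiv_coe]
    have : b' j = (kerEquiv G1).symm (b j) := rfl
    rw [this, MulEquiv.apply_symm_apply]
  have h1 := map_low G1 b' i (fun j => (b j : Gam G1)) hbb {j | j < i} (fun j => Iff.rfl)
  have h2 := map_low G1 b' (i + 1) (fun j => (b j : Gam G1)) hbb {j | j ≤ i}
    (fun j => by
      show j ≤ i ↔ _
      rw [Fin.le_def, Nat.lt_succ_iff])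
  have hT : Tri b' (g : MulAut (FG n')) := by
    intro j
    have h3 := map_low G1 b' j (fun j => (b j : Gam G1)) hbb {k | k < j} (fun k => Iff.rfl)
    obtain ⟨w, hw, v, hv, h4⟩ := hb j
    rw [h3] at hw hv
    obtain ⟨w, hw, rfl⟩ := hw
    obtain ⟨v, hv, rfl⟩ := hv
    refine ⟨w, hw, v, hv, ?_⟩
    have h5 : (inG G1 g * inF G1 (b' j) * (inG G1 g)⁻¹ : Gam G1) = inF G1 ((g : MulAut (FG n')) (b' j)) := by
      have := SemidirectProduct.inl_aut (φ := G1.subtype) g (b' j)
      rw [map_inv] at this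
      exact this.symm
    rw [hbb, h5, ← map_mul, ← map_mul] at h4
    exact SemidirectProduct.inl_injective h4
  have h := bs_tree G1 b' i g hT
  rw [h1, h2]
  exact h

end Pool.MP6567.A
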