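import Pool.Agent.Lib.MP_6567fb_al.A.ADefs

/-!
# A.Red: the finite index subgroup
-/

set_option autoImplicit false

open scoped Pointwise

namespace Pool.MP6567.A

open Pool.Agent.Lib.MP_6567fb_al

/-- elements trivial on `H_1(F; ℤ/3)` -/
def G3 {n : ℕ} (G0 : Subgroup (MulAut (FG n))) : Subgroup (MulAut (FG n)) where
  carrier := {g | g ∈ G0 ∧ Triv3 g}
  one_mem' := ⟨G0.one_mem, fun χ x => rfl⟩
  mul_mem' := fun {a b} ha hb => ⟨G0.mul_mem ha.1 hb.1, fun χ x => (ha.2 χ (b x)).trans (hb.2 χ x)⟩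
  inv_mem' := fun {a} ha => ⟨G0.inv_mem ha.1, fun χ x => by
    have := ha.2 χ (a⁻¹ x)
    rw [MulAut.apply_inv_self] at this
    exact this.symm⟩

/-- action on the characters -/
def perm3 (n : ℕ) : MulAut (FG n) →* Equiv.Perm (FG n →* Multiplicative (ZMod 3)) where
  toFun g :=
    { toFun := fun χ => χ.comp (g⁻¹ : MulAut (FG n)).toMonoidHom
      invFun := fun χ => χ.comp g.toMonoidHom
      left_inv := fun χ => by
        refine MonoidHom.ext fun x => ?_
        change χ (g⁻¹ (g x)) = χ x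
        rw [MulAut.inv_apply_self]
      right_inv := fun χ => by
        refine MonoidHom.ext fun x => ?_
        change χ (g (g⁻¹ x)) = χ x
        rw [MulAut.apply_inv_self] }
  map_one' := by
    refine Equiv.ext fun χ => MonoidHom.ext fun x => ?_
    change χ ((1 : MulAut (FG n))⁻¹ x) = χ x
    rw [inv_one, MulAut.one_apply]
  map_mul' := fun g h => by
    refine Equiv.ext fun χ => MonoidHom.ext fun x => ?_
    change χ ((g * h)⁻¹ x) = χ (h⁻¹ (g⁻¹ x))
    rw [mul_inv_rev, MulAut.mul_apply]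

instance (n : ℕ) : Finite (FG n →* Multiplicative (ZMod 3)) :=
  haveI : Finite (Multiplicative (ZMod 3)) := inferInstanceAs (Finite (ZMod 3))
  Finite.of_equiv (Fin n → Multiplicative (ZMod 3)) FreeGroup.lift

theorem G3_eq {n : ℕ} (G0 : Subgroup (MulAut (FG n))) : G3 G0 = G0 ⊓ (perm3 n).ker := by
  ext g
  rw [Subgroup.mem_inf, MonoidHom.mem_ker]
  refine and_congr Iff.rfl ?_
  constructor
  · intro h
    refine Equiv.ext fun χ => MonoidHom.ext fun x => ?_
    change χ (g⁻¹ x) = χ x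
    rw [← h χ (g⁻¹ x), MulAut.apply_inv_self]
  · intro h χ x
    have := congrArg (fun e => (e χ : FG n →* Multiplicative (ZMod 3)) (g x)) h
    change χ (g⁻¹ (g x)) = χ (g x) at this
    rw [MulAut.inv_apply_self] at this
    exact this.symm

theorem G3_index {n : ℕ} (G0 : Subgroup (MulAut (FG n))) : ((G3 G0).subgroupOf G0).FiniteIndex := by
  rw [G3_eq, Subgroup.inf_subgroupOf_left]
  infer_instance

theorem G3_fg {n : ℕ} (G0 : Subgroup (MulAut (FG n))) (h : G0.FG) : Group.FG (G3 G0) := by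
  have : Group.FG G0 := (Group.fg_iff_subgroup_fg G0).2 h
  have := G3_index G0
  have : Group.FG ((G3 G0).subgroupOf G0) := inferInstance
  have e := Subgroup.subgroupOfEquivOfLe (H := G3 G0) (K := G0) (fun _ hx => hx.1)
  exact Group.fg_of_surjective (f := e.toMonoidHom) e.surjective

theorem ker_eq {n : ℕ} (G1 : Subgroup (MulAut (FG n))) : (inF G1).range = (prG G1).ker :=
  SemidirectProduct.range_inl_eq_ker_rightHom

/-- (X5) -/
theorem gam_mod3 {n : ℕ} (G1 : Subgroup (MulAut (FG n))) (h3 : ∀ g ∈ G1, Triv3 g)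
    (χ : (prG G1).ker →* Multiplicative (ZMod 3)) (γ : Gam G1) (x : (prG G1).ker) :
    χ (MulAut.conjNormal γ x) = χ x := by
  obtain ⟨x, hx⟩ := x
  have hx' := hx
  rw [← ker_eq] at hx'
  obtain ⟨y, rfl⟩ := hx'
  have hm : ∀ z, inF G1 z ∈ (prG G1).ker := fun z => by
    rw [← ker_eq]; exact ⟨z, rfl⟩
  set χ' : FG n →* Multiplicative (ZMod 3) := χ.comp ((inF G1).codRestrict _ hm) with hχ
  have h1 : χ ⟨inF G1 y, hx⟩ = χ' y := rfl
  have h2 : MulAut.conjNormal γ (⟨inF G1 y, hx⟩ : (prG G1).ker)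
      = ⟨inF G1 (γ.left * (γ.right : MulAut (FG n)) y * γ.left⁻¹), hm _⟩ := by
    apply Subtype.ext
    rw [MulAut.conjNormal_apply]
    apply SemidirectProduct.ext
    · simp [mul_assoc]
    · simp
  have h3' : χ (MulAut.conjNormal γ (⟨inF G1 y, hx⟩ : (prG G1).ker))
      = χ' (γ.left * (γ.right : MulAut (FG n)) y * γ.left⁻¹) := by
    rw [h2]; rfl
  rw [h1, h3', map_mul, map_mul, map_inv, mul_comm, inv_mul_cancel_left]
  exact h3 _ γ.right.2 χ' y

theorem gam_free {n : ℕ} (G1 : Subgroup (MulAut (FG n))) :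
    ∃ m : ℕ, Nonempty (FreeGroupBasis (Fin m) (prG G1).ker) := by
  have e1 : FG n ≃* (inF G1).range :=
    MonoidHom.ofInjective SemidirectProduct.inl_injective
  have e2 : (inF G1).range ≃* (prG G1).ker := MulEquiv.subgroupCongr (ker_eq G1)
  exact ⟨n, ⟨(FreeGroupBasis.ofFreeGroup (Fin n)).map (e1.trans e2)⟩⟩

end Pool.MP6567.A
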