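import Pool.Agent.Lib.MP_6567fb_al.A.MagDefs

/-!
# The truncated Magnus algebra is finite dimensional
-/

set_option autoImplicit false

namespace Pool.MP6567.A

open Pool.MP6567.Mag

variable {α : Type}

theorem mr_finite [Finite α] (c : ℕ) : Module.Finite ℚ (MR α c) := by
  haveI : Finite {w : List α // w.length ≤ c} := (List.finite_length_le α c).to_subtype
  let f : MR α c →ₗ[ℚ] ({w : List α // w.length ≤ c} → ℚ) := LinearMap.pi fun w => coef c w.1
  refine Module.Finite.of_injective f ?_
  intro a b hab
  apply coef_ext
  intro w hw
  exact congrFun hab ⟨w, hw⟩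

end Pool.MP6567.A
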