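import Pool.Agent.Lib.MP_6567fb_al.A.MagDefs

/-!
# An operator congruent to a layerwise nilpotent one is nilpotent
-/

set_option autoImplicit false

namespace Pool.MP6567.A

open Pool.MP6567.Mag

variable {α : Type}

theorem nilp_of_layer (c : ℕ) (D D0 : Module.End ℚ (MR α c))
    (hD0 : ∀ j, ∀ a ∈ Fil (α := α) c j, D0 a ∈ Fil c j)
    (hD : ∀ j, ∀ a ∈ Fil (α := α) c j, D a - D0 a ∈ Fil c (j + 1))
    (h : ∀ j, ∃ N, ∀ a ∈ Fil (α := α) c j, (D0 ^ N) a ∈ Fil c (j + 1)) : IsNilpotent D := by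
  have h1 : ∀ j, ∀ a ∈ Fil (α := α) c j, D a ∈ Fil c j := by
    intro j a ha
    have h2 : D a = (D a - D0 a) + D0 a := by abel
    rw [h2]
    exact Submodule.add_mem _ (Fil_anti c (Nat.le_succ j) (hD j a ha)) (hD0 j a ha)
  have h2 : ∀ k j, ∀ a ∈ Fil (α := α) c j, (D ^ k) a ∈ Fil c j ∧ (D ^ k) a - (D0 ^ k) a ∈ Fil c (j + 1) := by
    intro k
    induction k with
    | zero => intro j a ha; simpa using ha
    | succ k ih =>
      intro j a ha
      obtain ⟨h3, h4⟩ := ih j a ha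
      rw [pow_succ', pow_succ', Module.End.mul_apply, Module.End.mul_apply]
      refine ⟨h1 j _ h3, ?_⟩
      have h5 : D ((D ^ k) a) - D0 ((D0 ^ k) a) = (D ((D ^ k) a) - D0 ((D ^ k) a)) + D0 ((D ^ k) a - (D0 ^ k) a) := by
        rw [map_sub]; abel
      rw [h5]
      exact Submodule.add_mem _ (hD j _ h3) (hD0 _ _ h4)
  have h3 : ∀ j, ∃ N, ∀ a, (D ^ N) a ∈ Fil (α := α) c j := by
    intro j
    induction j with
    | zero => exact ⟨0, fun a => by rw [Fil_zero]; trivial⟩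
    | succ j ih =>
      obtain ⟨N, hN⟩ := ih
      obtain ⟨N', hN'⟩ := h j
      refine ⟨N' + N, fun a => ?_⟩
      rw [pow_add, Module.End.mul_apply]
      have h4 := (h2 N' j _ (hN a)).2
      have h5 := Submodule.add_mem _ h4 (hN' _ (hN a))
      rwa [sub_add_cancel] at h5
  obtain ⟨N, hN⟩ := h3 (c + 1)
  refine ⟨N, LinearMap.ext fun a => ?_⟩
  have := hN a
  rw [Fil_top c (c + 1) (Nat.lt_succ_self c)] at this
  exact (Submodule.mem_bot ℚ).1 this

end Pool.MP6567.A
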