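import Pool.Agent.Lib.MP_6567fb_al.A.Syl

/-!
# Injectivity of the Magnus expansion
-/

set_option autoImplicit false

open scoped Pointwise

namespace Pool.MP6567.A

open Pool.MP6567.Mag Pool.MP6567.Alg Pool.Agent.Lib.MP_6567fb_al Finset

variable {α : Type}

theorem sylCoefs_one_ne [DecidableEq α] (L : List (α × ℤ)) (h : ∀ p ∈ L, p.2 ≠ 0) :
    sylCoefs L (L.map fun p => (p.1, 1)) ≠ 0 := by
  induction L with
  | nil => simp [sylCoefs]
  | cons p L ih =>
    unfold sylCoefs at ih ⊢
    rw [List.map_cons, List.zipWith_cons_cons, List.prod_cons]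
    refine mul_ne_zero ?_ (ih fun q hq => h q (List.mem_cons_of_mem _ hq))
    unfold sylCoef
    rw [if_pos rfl, Ring.choose_one_right]
    exact Int.cast_ne_zero.2 (h p (by simp))

theorem mu_inj (x y : FreeGroup α) (h : ∀ c, mu c x = mu c y) : x = y := by
  classical
  obtain ⟨L, hx, hL, hL0⟩ := syl_exists (x * y⁻¹)
  have h1 : ∀ c, mu c (sylProd L) = 1 := by
    intro c
    rw [← hx, map_mul, map_inv, h c, mul_inv_cancel]
  have hlen : L = [] := by
    by_contra hne
    set M : List (α × ℕ) := L.map fun p => (p.1, 1) with hM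
    have hMc : M.IsChain (fun p q => p.1 ≠ q.1) := by
      rw [hM, List.isChain_map]
      exact hL
    have hM1 : ∀ q ∈ M, 1 ≤ q.2 := by
      intro q hq
      rw [hM, List.mem_map] at hq
      obtain ⟨p, _, rfl⟩ := hq
      exact le_rfl
    have hMl : L.length = M.length := by rw [hM, List.length_map]
    have h2 := coef_syl (sylWord M).length L M hL hMc hM1 le_rfl hMl.le
    rw [if_pos hMl, h1, Units.val_one, coef_one] at h2
    have h3 : sylWord M ≠ [] := by
      intro h4
      have h5 := sylWord_head M hM1
      rw [h4] at h5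
      cases L with
      | nil => exact hne rfl
      | cons p L => simp [hM] at h5
    rw [if_neg h3] at h2
    exact sylCoefs_one_ne L hL0 h2.symm
  rw [hlen, sylProd_nil] at hx
  exact mul_inv_eq_one.1 hx

end Pool.MP6567.A
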