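import Pool.Agent.Lib.MP_6567fb_al.A.Star
import Pool.Agent.Lib.MP_6567fb_al.A.MInj
import Pool.Agent.Lib.MP_6567fb_al.A.Fin
import Pool.Agent.Lib.MP_6567fb_al.A.Lay

/-!
# The representations `rho` and `lam` of `Gam G1` and the linear model
-/

set_option autoImplicit false

namespace Pool.MP6567.A

open Pool.MP6567.Mag Pool.Agent.Lib.MP_6567fb_al Finset

section
variable {n : ℕ} (G1 : Subgroup (MulAut (FG n)))

theorem star_one' (c : ℕ) : star c ((1 : MulAut (FG n)) : FG n →* FG n) = AlgHom.id ℚ _ := by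
  have : ((1 : MulAut (FG n)) : FG n →* FG n) = MonoidHom.id _ := rfl
  rw [this, star_id]

theorem star_mul' (c : ℕ) (g g' : MulAut (FG n)) :
    star c ((g * g' : MulAut (FG n)) : FG n →* FG n)
      = (star c (g : FG n →* FG n)).comp (star c (g' : FG n →* FG n)) := by
  have : ((g * g' : MulAut (FG n)) : FG n →* FG n) = (g : FG n →* FG n).comp (g' : FG n →* FG n) := rfl
  rw [this, star_comp]

theorem star_mu_inv (c : ℕ) (r : FG n →* FG n) (x : FG n) :
    star c r (((mu c x)⁻¹ : (MR (Fin n) c)ˣ) : MR (Fin n) c)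
      = ((mu c (r x))⁻¹ : (MR (Fin n) c)ˣ) := by
  rw [← map_inv, star_mu, map_inv, map_inv]

/-- `a ↦ mu f * g_* a` -/
noncomputable def lamL (c : ℕ) (f : FG n) (g : MulAut (FG n)) : Module.End ℚ (MR (Fin n) c) where
  toFun a := (mu c f : MR (Fin n) c) * star c (g : FG n →* FG n) a
  map_add' := fun a b => by rw [map_add, mul_add]
  map_smul' := fun q a => by rw [map_smul, mul_smul_comm]; rfl

/-- `a ↦ mu f * g_* a * (mu f)⁻¹` -/
noncomputable def rhoL (c : ℕ) (f : FG n) (g : MulAut (FG n)) : Module.End ℚ (MR (Fin n) c) where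
  toFun a := (mu c f : MR (Fin n) c) * star c (g : FG n →* FG n) a
      * ((mu c f)⁻¹ : (MR (Fin n) c)ˣ)
  map_add' := fun a b => by rw [map_add, mul_add, add_mul]
  map_smul' := fun q a => by rw [map_smul, mul_smul_comm, smul_mul_assoc]; rfl

/-- `a ↦ mu f * g_* a * (mu f)⁻¹` -/
theorem rho_exists (c : ℕ) : ∃ ρ : Gam G1 →* Module.End ℚ (MR (Fin n) c), ∀ (γ : Gam G1) (a),
    ρ γ a = (mu c γ.left : MR (Fin n) c) * star c (γ.right : MulAut (FG n)) a
      * ((mu c γ.left)⁻¹ : (MR (Fin n) c)ˣ) := by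
  refine ⟨⟨⟨fun γ => rhoL c γ.left (γ.right : MulAut (FG n)), ?_⟩, ?_⟩, fun γ a => rfl⟩
  · apply LinearMap.ext
    intro a
    change (mu c (1 : FG n) : MR (Fin n) c) * star c ((1 : MulAut (FG n)) : FG n →* FG n) a
      * ((mu c (1 : FG n))⁻¹ : (MR (Fin n) c)ˣ) = a
    rw [star_one', map_one, inv_one, Units.val_one, one_mul, mul_one]
    rfl
  · intro γ γ'
    apply LinearMap.ext
    intro a
    change (mu c (γ.left * (γ.right : MulAut (FG n)) γ'.left) : MR (Fin n) c)
      * star c (((γ.right : MulAut (FG n)) * (γ'.right : MulAut (FG n)) : MulAut (FG n)) : FG n →* FG n) a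
      * ((mu c (γ.left * (γ.right : MulAut (FG n)) γ'.left))⁻¹ : (MR (Fin n) c)ˣ)
      = (mu c γ.left : MR (Fin n) c) * star c ((γ.right : MulAut (FG n)) : FG n →* FG n)
        ((mu c γ'.left : MR (Fin n) c) * star c ((γ'.right : MulAut (FG n)) : FG n →* FG n) a
          * ((mu c γ'.left)⁻¹ : (MR (Fin n) c)ˣ)) * ((mu c γ.left)⁻¹ : (MR (Fin n) c)ˣ)
    rw [star_mul', map_mul (mu c), AlgHom.comp_apply,
      map_mul (star c ((γ.right : MulAut (FG n)) : FG n →* FG n)),
      map_mul (star c ((γ.right : MulAut (FG n)) : FG n →* FG n)), star_mu, star_mu_inv,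
      mul_inv_rev, Units.val_mul, Units.val_mul]
    simp only [mul_assoc]
    rfl

/-- `a ↦ mu f * g_* a` -/
theorem lam_exists (c : ℕ) : ∃ ρ : Gam G1 →* Module.End ℚ (MR (Fin n) c), ∀ (γ : Gam G1) (a),
    ρ γ a = (mu c γ.left : MR (Fin n) c) * star c (γ.right : MulAut (FG n)) a := by
  refine ⟨⟨⟨fun γ => lamL c γ.left (γ.right : MulAut (FG n)), ?_⟩, ?_⟩, fun γ a => rfl⟩
  · apply LinearMap.ext
    intro a
    change (mu c (1 : FG n) : MR (Fin n) c) * star c ((1 : MulAut (FG n)) : FG n →* FG n) a = a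
    rw [star_one', map_one, Units.val_one, one_mul]
    rfl
  · intro γ γ'
    apply LinearMap.ext
    intro a
    change (mu c (γ.left * (γ.right : MulAut (FG n)) γ'.left) : MR (Fin n) c)
      * star c (((γ.right : MulAut (FG n)) * (γ'.right : MulAut (FG n)) : MulAut (FG n)) : FG n →* FG n) a
      = (mu c γ.left : MR (Fin n) c) * star c ((γ.right : MulAut (FG n)) : FG n →* FG n)
        ((mu c γ'.left : MR (Fin n) c) * star c ((γ'.right : MulAut (FG n)) : FG n →* FG n) a)
    rw [star_mul', map_mul (mu c), AlgHom.comp_apply,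
      map_mul (star c ((γ.right : MulAut (FG n)) : FG n →* FG n)), star_mu, Units.val_mul]
    simp only [mul_assoc]
    rfl

theorem mul_left_fil (c j : ℕ) (x : FG n) {a : MR (Fin n) c} (ha : a ∈ Fil c j) :
    (mu c x : MR (Fin n) c) * a - a ∈ Fil c (j + 1) := by
  have h1 : (mu c x : MR (Fin n) c) * a - a = ((mu c x : MR (Fin n) c) - 1) * a := by
    rw [sub_mul, one_mul]
  rw [h1]
  have := Fil_mul c (mu_fil c x) ha
  rwa [add_comm] at this

theorem mul_right_fil (c j : ℕ) (x : FG n) {a : MR (Fin n) c} (ha : a ∈ Fil c j) :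
    a * (mu c x : MR (Fin n) c) - a ∈ Fil c (j + 1) := by
  have h1 : a * (mu c x : MR (Fin n) c) - a = a * ((mu c x : MR (Fin n) c) - 1) := by
    rw [mul_sub, mul_one]
  rw [h1]
  exact Fil_mul c ha (mu_fil c x)

theorem lam_unip (hU : Uni G1) (c : ℕ) (ρ : Gam G1 →* Module.End ℚ (MR (Fin n) c))
    (hρ : ∀ (γ : Gam G1) (a), ρ γ a = (mu c γ.left : MR (Fin n) c)
      * star c (γ.right : MulAut (FG n)) a) (γ : Gam G1) :
    IsNilpotent (ρ γ - 1) := by
  obtain ⟨N, hN⟩ := hU γ.right γ.right.2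
  refine nilp_of_layer c (ρ γ - 1) ((star c ((γ.right : MulAut (FG n)) : FG n →* FG n)).toLinearMap - 1)
    ?_ ?_ ?_
  · intro j a ha
    exact Submodule.sub_mem _ (star_fil c j _ ha) ha
  · intro j a ha
    have h1 : (ρ γ - 1) a - ((star c ((γ.right : MulAut (FG n)) : FG n →* FG n)).toLinearMap - 1) a
        = (mu c γ.left : MR (Fin n) c) * star c ((γ.right : MulAut (FG n)) : FG n →* FG n) a
          - star c ((γ.right : MulAut (FG n)) : FG n →* FG n) a := by
      rw [LinearMap.sub_apply, LinearMap.sub_apply, hρ]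
      simp
    rw [h1]
    exact mul_left_fil c j _ (star_fil c j _ ha)
  · intro j
    exact star_layer c _ N hN j

theorem rho_unip (hU : Uni G1) (c : ℕ) (ρ : Gam G1 →* Module.End ℚ (MR (Fin n) c))
    (hρ : ∀ (γ : Gam G1) (a), ρ γ a = (mu c γ.left : MR (Fin n) c)
      * star c (γ.right : MulAut (FG n)) a * ((mu c γ.left)⁻¹ : (MR (Fin n) c)ˣ)) (γ : Gam G1) :
    IsNilpotent (ρ γ - 1) := by
  obtain ⟨N, hN⟩ := hU γ.right γ.right.2
  refine nilp_of_layer c (ρ γ - 1) ((star c ((γ.right : MulAut (FG n)) : FG n →* FG n)).toLinearMap - 1)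
    ?_ ?_ ?_
  · intro j a ha
    exact Submodule.sub_mem _ (star_fil c j _ ha) ha
  · intro j a ha
    set s := star c ((γ.right : MulAut (FG n)) : FG n →* FG n) a with hs
    have hsf : s ∈ Fil c j := star_fil c j _ ha
    have h1 : (ρ γ - 1) a - ((star c ((γ.right : MulAut (FG n)) : FG n →* FG n)).toLinearMap - 1) a
        = ((mu c γ.left : MR (Fin n) c) * (s * ((mu c γ.left)⁻¹ : (MR (Fin n) c)ˣ))
          - s * ((mu c γ.left)⁻¹ : (MR (Fin n) c)ˣ)) + (s * ((mu c γ.left)⁻¹ : (MR (Fin n) c)ˣ) - s) := by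
      rw [LinearMap.sub_apply, LinearMap.sub_apply, hρ, mul_assoc]
      simp [hs]
    rw [h1]
    refine Submodule.add_mem _ (mul_left_fil c j _ ?_) ?_
    · have := Fil_mul c hsf (j := 0) (b := (((mu c γ.left)⁻¹ : (MR (Fin n) c)ˣ) : MR (Fin n) c))
        (by rw [Fil_zero]; trivial)
      rwa [add_zero] at this
    · rw [← map_inv]
      exact mul_right_fil c j _ hsf
  · intro j
    exact star_layer c _ N hN j

theorem mem_ker_iff (x : Gam G1) : x ∈ (prG G1).ker ↔ x.right = 1 := Iff.rfl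

theorem ker_left {x : Gam G1} (hx : x ∈ (prG G1).ker) : inF G1 x.left = x := by
  rw [mem_ker_iff] at hx
  apply SemidirectProduct.ext
  · rfl
  · exact hx.symm

theorem inF_mem (y : FG n) : inF G1 y ∈ (prG G1).ker := by
  rw [mem_ker_iff]; rfl

theorem conj_left (γ x : Gam G1) (hx : x ∈ (prG G1).ker) :
    (γ * x * γ⁻¹).left = γ.left * (γ.right : MulAut (FG n)) x.left * γ.left⁻¹ := by
  rw [mem_ker_iff] at hx
  rw [SemidirectProduct.mul_left, SemidirectProduct.mul_left, SemidirectProduct.mul_right, hx, mul_one,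
    SemidirectProduct.inv_left]
  congr 1
  have : (G1.subtype γ.right) ((G1.subtype γ.right⁻¹) γ.left⁻¹) = γ.left⁻¹ := by
    rw [map_inv G1.subtype, MulAut.apply_inv_self]
  exact this

/-- (X2) -/
theorem linModel (hU : Uni G1) : Nonempty (LinModel (prG G1)) := by
  choose ρ hρ using rho_exists G1
  haveI := fun c => mr_finite (α := Fin n) c
  refine ⟨{ A := fun c => MR (Fin n) c
            ρ := ρ
            unip := fun c γ => rho_unip G1 hU c (ρ c) (hρ c) γ
            emb := fun c γ => (mu c γ.left : MR (Fin n) c)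
            equiv := ?_
            inj := ?_
            endo := ?_ }⟩
  · intro c γ x hx
    rw [hρ, conj_left G1 γ x hx, map_mul, map_mul, Units.val_mul, Units.val_mul, star_mu, map_inv]
    rfl
  · intro x hx y hy h
    have : x.left = y.left := mu_inj _ _ fun c => Units.ext (h c)
    rw [← ker_left G1 hx, ← ker_left G1 hy, this]
  · intro c r
    let r' : FG n →* FG n :=
      { toFun := fun y => (r ⟨inF G1 y, inF_mem G1 y⟩ : Gam G1).left
        map_one' := by
          have : (⟨inF G1 1, inF_mem G1 1⟩ : (prG G1).ker) = 1 := Subtype.ext (map_one _)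
          rw [this, map_one]; rfl
        map_mul' := fun y z => by
          have : (⟨inF G1 (y * z), inF_mem G1 (y * z)⟩ : (prG G1).ker)
              = ⟨inF G1 y, inF_mem G1 y⟩ * ⟨inF G1 z, inF_mem G1 z⟩ := Subtype.ext (map_mul _ _ _)
          rw [this, map_mul]
          have h2 := (r ⟨inF G1 y, inF_mem G1 y⟩).2
          rw [mem_ker_iff] at h2
          rw [Subgroup.coe_mul, SemidirectProduct.mul_left, h2]
          rfl }
    refine ⟨(star c r').toLinearMap, fun x => ?_⟩
    change (mu c (r x : Gam G1).left : MR (Fin n) c) = star c r' (mu c (x : Gam G1).left : MR (Fin n) c)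
    rw [star_mu]
    have : x = ⟨inF G1 (x : Gam G1).left, inF_mem G1 _⟩ := Subtype.ext (ker_left G1 x.2).symm
    change _ = ((mu c (r ⟨inF G1 (x : Gam G1).left, inF_mem G1 _⟩ : Gam G1).left : (MR (Fin n) c)ˣ) : MR (Fin n) c)
    rw [← this]

end

end Pool.MP6567.A
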