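import Pool.Agent.Lib.MP_6567fb_al.A.Sep
import Pool.Agent.Lib.MP_6567fb_al.A.Rho
import Pool.Agent.Lib.MP_6567fb_al.A.Red

/-!
# A.Cls: the linear model for conjugacy classes (X2')
-/

set_option autoImplicit false

open scoped Pointwise

namespace Pool.MP6567.A

open Pool.MP6567.Mag Pool.MP6567.Alg Pool.Agent.Lib.MP_6567fb_al

variable {α : Type}

theorem com_mem (c : ℕ) (a b : MR α c) : a * b - b * a ∈ Com (α := α) c :=
  Submodule.subset_span ⟨a, b, rfl⟩

theorem star_com (c : ℕ) (r : FreeGroup α →* FreeGroup α) :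
    Com (α := α) c ≤ (Com c).comap (star c r).toLinearMap := by
  unfold Com
  rw [Submodule.span_le]
  rintro z ⟨a, b, rfl⟩
  change star c r (a * b - b * a) ∈ Com (α := α) c
  rw [map_sub, map_mul, map_mul]
  exact com_mem c _ _

theorem mapQ_nilp {M : Type} [AddCommGroup M] [Module ℚ M] (p : Submodule ℚ M)
    (f : M →ₗ[ℚ] M) (hf : p ≤ p.comap f) (N : ℕ) (h : (f - 1) ^ N = 0) :
    (p.mapQ p f hf - 1) ^ N = 0 := by
  have key : ∀ (k : ℕ) (x : M), ((p.mapQ p f hf - 1) ^ k) (p.mkQ x) = p.mkQ (((f - 1) ^ k) x) := by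
    intro k
    induction k with
    | zero => intro x; simp
    | succ k ih =>
      intro x
      rw [pow_succ, pow_succ, Module.End.mul_apply, Module.End.mul_apply, ← ih]
      rfl
  apply LinearMap.ext
  intro y
  obtain ⟨x, rfl⟩ := p.mkQ_surjective y
  rw [key, h]
  simp

/-- the endomorphism induced on the quotient -/
noncomputable def stq {n : ℕ} (c : ℕ) (g : MulAut (FG n)) :
    (MR (Fin n) c ⧸ Com (α := Fin n) c) →ₗ[ℚ] (MR (Fin n) c ⧸ Com (α := Fin n) c) :=
  (Com c).mapQ (Com c) (star c (g : FG n →* FG n)).toLinearMap (star_com c _)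

theorem stq_mk {n : ℕ} (c : ℕ) (g : MulAut (FG n)) (a : MR (Fin n) c) :
    stq c g ((Com c).mkQ a) = (Com c).mkQ (star c (g : FG n →* FG n) a) := rfl

/-- (X2') -/
theorem clModel {n : ℕ} (G1 : Subgroup (MulAut (FG n))) (hU : Uni G1) :
    Nonempty (ClModel (prG G1)) := by
  have hfin : ∀ c, Module.Finite ℚ (MR (Fin n) c) := fun c => mr_finite c
  refine ⟨{
    A := fun c => MR (Fin n) c ⧸ Com (α := Fin n) c
    fin := fun c => inferInstance
    ρ := fun c =>
      { toFun := fun g => stq c (g : MulAut (FG n))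
        map_one' := ?_
        map_mul' := ?_ }
    unip := ?_
    cl := fun c γ => (Com c).mkQ (mu c γ.left : MR (Fin n) c)
    equiv := ?_
    inj := ?_ }⟩
  · apply LinearMap.ext
    intro y
    obtain ⟨x, rfl⟩ := (Com c).mkQ_surjective y
    rw [stq_mk]
    have : (((1 : G1) : MulAut (FG n)) : FG n →* FG n) = MonoidHom.id _ := rfl
    rw [this, star_id]
    rfl
  · intro g h
    apply LinearMap.ext
    intro y
    obtain ⟨x, rfl⟩ := (Com c).mkQ_surjective y
    rw [Module.End.mul_apply, stq_mk, stq_mk, stq_mk]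
    have : (((g * h : G1) : MulAut (FG n)) : FG n →* FG n)
        = ((g : MulAut (FG n)) : FG n →* FG n).comp ((h : MulAut (FG n)) : FG n →* FG n) := rfl
    rw [this, star_comp]
    rfl
  · intro c g
    obtain ⟨ρ, hρ⟩ := rho_exists G1 c
    obtain ⟨N, hN⟩ := rho_unip G1 hU c ρ hρ (inG G1 g)
    have h1 : ρ (inG G1 g) = (star c ((g : MulAut (FG n)) : FG n →* FG n)).toLinearMap := by
      apply LinearMap.ext
      intro a
      rw [hρ]
      simp
    rw [h1] at hN
    exact ⟨N, mapQ_nilp _ _ (star_com c _) N hN⟩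
  · intro c γ x hx
    rw [← ker_eq] at hx
    obtain ⟨y, rfl⟩ := hx
    change (Com c).mkQ (mu c (γ * inF G1 y * γ⁻¹).left : MR (Fin n) c)
      = stq c ((prG G1 γ : G1) : MulAut (FG n)) ((Com c).mkQ (mu c (inF G1 y).left : MR (Fin n) c))
    rw [stq_mk]
    have h1 : (γ * inF G1 y * γ⁻¹).left = γ.left * (γ.right : MulAut (FG n)) y * γ.left⁻¹ := by
      simp [mul_assoc]
    have h2 : (inF G1 y).left = y := SemidirectProduct.left_inl y
    have h3 : (prG G1 γ : G1) = γ.right := rfl
    rw [h1, h2, h3, star_mu, ← sub_eq_zero, ← map_sub, Submodule.mkQ_apply,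
      Submodule.Quotient.mk_eq_zero]
    have h4 : (mu c (γ.left * (γ.right : MulAut (FG n)) y * γ.left⁻¹) : MR (Fin n) c)
        - mu c ((γ.right : MulAut (FG n)) y)
        = (mu c γ.left : MR (Fin n) c) * ((mu c ((γ.right : MulAut (FG n)) y) : MR (Fin n) c)
            * mu c (γ.left⁻¹))
          - ((mu c ((γ.right : MulAut (FG n)) y) : MR (Fin n) c)
            * mu c (γ.left⁻¹)) * (mu c γ.left : MR (Fin n) c) := by
      have h5 : (mu c (γ.left⁻¹) : MR (Fin n) c) * (mu c γ.left : MR (Fin n) c) = 1 := by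
        rw [← Units.val_mul, ← map_mul, inv_mul_cancel, map_one, Units.val_one]
      rw [mul_assoc _ (mu c (γ.left⁻¹) : MR (Fin n) c) _, h5, mul_one, map_mul, map_mul,
        Units.val_mul, Units.val_mul, mul_assoc]
    exact h4 ▸ com_mem c _ _
  · intro x hx y hy h
    rw [← ker_eq] at hx hy
    obtain ⟨x, rfl⟩ := hx
    obtain ⟨y, rfl⟩ := hy
    have h1 : ∀ c, (mu c x : MR (Fin n) c) - (mu c y : MR (Fin n) c) ∈ Com (α := Fin n) c := by
      intro c
      have h2 : (Com c).mkQ (mu c (inF G1 x).left : MR (Fin n) c)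
        = (Com c).mkQ (mu c (inF G1 y).left : MR (Fin n) c) := h c
      have h3 : ∀ z, (inF G1 z).left = z := fun z => SemidirectProduct.left_inl z
      rw [h3, h3, ← sub_eq_zero, ← map_sub, Submodule.mkQ_apply,
        Submodule.Quotient.mk_eq_zero] at h2
      exact h2
    obtain ⟨f, hf⟩ := conj_of_com x y h1
    refine ⟨inF G1 f, ?_, ?_⟩
    · rw [← ker_eq]; exact ⟨f, rfl⟩
    · rw [← map_inv, ← map_mul, ← map_mul, hf]

end Pool.MP6567.A
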