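import Pool.Agent.Lib.MP_6567fb_al.A.ADefs

/-!
# Part A, module Gro: polynomial growth of triangular automorphisms (X3)
-/

set_option autoImplicit false

open scoped Pointwise

namespace Pool.MP6567.A

open Finset

/-- polynomially bounded sequences -/
def PolyB (u : ℕ → ℕ) : Prop := ∃ A d : ℕ, ∀ k, u k ≤ A * (k + 1) ^ d

theorem PolyB.mono {u v : ℕ → ℕ} (hv : PolyB v) (h : ∀ k, u k ≤ v k) : PolyB u := by
  obtain ⟨A, d, hA⟩ := hv
  exact ⟨A, d, fun k => (h k).trans (hA k)⟩

theorem polyB_const (c : ℕ) : PolyB (fun _ => c) := ⟨c, 0, fun k => by simp⟩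

theorem PolyB.add {u v : ℕ → ℕ} (hu : PolyB u) (hv : PolyB v) : PolyB (fun k => u k + v k) := by
  obtain ⟨A, d, hA⟩ := hu
  obtain ⟨A', d', hA'⟩ := hv
  refine ⟨A + A', max d d', fun k => ?_⟩
  have h1 : (k + 1) ^ d ≤ (k + 1) ^ (max d d') := Nat.pow_le_pow_right (by omega) (le_max_left _ _)
  have h2 : (k + 1) ^ d' ≤ (k + 1) ^ (max d d') := Nat.pow_le_pow_right (by omega) (le_max_right _ _)
  calc u k + v k ≤ A * (k + 1) ^ d + A' * (k + 1) ^ d' := Nat.add_le_add (hA k) (hA' k)
    _ ≤ A * (k + 1) ^ (max d d') + A' * (k + 1) ^ (max d d') :=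
        Nat.add_le_add (Nat.mul_le_mul_left _ h1) (Nat.mul_le_mul_left _ h2)
    _ = (A + A') * (k + 1) ^ (max d d') := by ring

theorem PolyB.sum {u : ℕ → ℕ} (hu : PolyB u) : PolyB (fun k => ∑ j ∈ range k, u j) := by
  obtain ⟨A, d, hA⟩ := hu
  refine ⟨A, d + 1, fun k => ?_⟩
  calc ∑ j ∈ range k, u j ≤ ∑ j ∈ range k, A * (k + 1) ^ d := by
        apply Finset.sum_le_sum
        intro j hj
        refine (hA j).trans (Nat.mul_le_mul_left _ (Nat.pow_le_pow_left ?_ _))
        have := Finset.mem_range.1 hj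
        omega
    _ = k * (A * (k + 1) ^ d) := by rw [Finset.sum_const, Finset.card_range, smul_eq_mul]
    _ ≤ (k + 1) * (A * (k + 1) ^ d) := Nat.mul_le_mul_right _ (Nat.le_succ k)
    _ = A * (k + 1) ^ (d + 1) := by ring

/-- a sequence with polynomially bounded increments is polynomially bounded -/
theorem PolyB.of_step {u v : ℕ → ℕ} (hv : PolyB v) (h : ∀ k, u (k + 1) ≤ u k + v k) : PolyB u := by
  refine ((polyB_const (u 0)).add hv.sum).mono fun k => ?_
  induction k with
  | zero => simp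
  | succ k ih =>
    rw [Finset.sum_range_succ]
    have := h k
    omega

theorem PolyB.lt_two_pow {u : ℕ → ℕ} (hu : PolyB u) : ∃ k, u k < 2 ^ k := by
  obtain ⟨A, d, hA⟩ := hu
  -- `A (k+1)^d < 2^k` for some `k`
  have h1 : Filter.Tendsto (fun k : ℕ => ((k : ℝ)) ^ d / (2 : ℝ) ^ k) Filter.atTop (nhds 0) :=
    tendsto_pow_const_div_const_pow_of_one_lt d (by norm_num)
  have h2 : Filter.Tendsto (fun k : ℕ => (((k + 1 : ℕ) : ℝ)) ^ d / (2 : ℝ) ^ (k + 1))
      Filter.atTop (nhds 0) := h1.comp (Filter.tendsto_add_atTop_nat 1)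
  have h3 : ∀ᶠ k : ℕ in Filter.atTop, (((k + 1 : ℕ) : ℝ)) ^ d / (2 : ℝ) ^ (k + 1)
      < 1 / (2 * (A + 1)) := h2.eventually (gt_mem_nhds (by positivity))
  obtain ⟨k, hk⟩ := h3.exists
  refine ⟨k, lt_of_le_of_lt (hA k) ?_⟩
  rw [div_lt_div_iff₀ (by positivity) (by positivity)] at hk
  have h4 : (A : ℝ) * ((k + 1 : ℕ) : ℝ) ^ d < 2 ^ k := by
    have h5 : (0 : ℝ) ≤ ((k + 1 : ℕ) : ℝ) ^ d := by positivity
    have h6 : (2 : ℝ) ^ (k + 1) = 2 * 2 ^ k := by ring
    rw [h6] at hk
    nlinarith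
  exact_mod_cast h4

section
variable {F : Type} [Group F]

/-- elements whose `g`-orbit (and that of the inverse) has polynomially bounded `N` -/
def polySub (g : MulAut F) (N : F → ℕ) (C : ℕ) (hN : ∀ x y, N (x * y) ≤ N x + N y + C) :
    Subgroup F where
  carrier := {x | PolyB (fun k => N ((g ^ k) x)) ∧ PolyB (fun k => N ((g ^ k) x⁻¹))}
  one_mem' := by
    refine ⟨(polyB_const (N 1)).mono fun k => ?_, (polyB_const (N 1)).mono fun k => ?_⟩
    · simp
    · simp
  mul_mem' := fun {x y} hx hy => by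
    refine ⟨((hx.1.add hy.1).add (polyB_const C)).mono fun k => ?_,
      ((hy.2.add hx.2).add (polyB_const C)).mono fun k => ?_⟩
    · rw [map_mul]; exact hN _ _
    · rw [mul_inv_rev, map_mul]; exact hN _ _
  inv_mem' := fun {x} hx => ⟨hx.2, by simpa using hx.1⟩

theorem mem_polySub (g : MulAut F) (N : F → ℕ) (C : ℕ) (hN : ∀ x y, N (x * y) ≤ N x + N y + C)
    (x : F) : x ∈ polySub g N C hN ↔
      PolyB (fun k => N ((g ^ k) x)) ∧ PolyB (fun k => N ((g ^ k) x⁻¹)) := Iff.rfl

end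

theorem tri_polySub {n : ℕ} (b : FreeGroupBasis (Fin n) (FG n)) (g : MulAut (FG n)) (h : Tri b g)
    (N : FG n → ℕ) (C : ℕ) (hN : ∀ x y, N (x * y) ≤ N x + N y + C) (x : FG n) :
    x ∈ polySub g N C hN := by
  have key : ∀ m : ℕ, ∀ i : Fin n, (i : ℕ) < m → b i ∈ polySub g N C hN := by
    intro m
    induction m with
    | zero => intro i hi; omega
    | succ m ih =>
      intro i hi
      have hlow : low b i ≤ polySub g N C hN := by
        unfold low
        rw [Subgroup.closure_le]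
        rintro _ ⟨j, hj, rfl⟩
        exact ih j (by
          have : (j : ℕ) < i := hj
          omega)
      obtain ⟨w, hw, v, hv, hwv⟩ := h i
      have hw' := (mem_polySub _ _ _ _ _).1 (hlow hw)
      have hv' := (mem_polySub _ _ _ _ _).1 (hlow hv)
      rw [mem_polySub]
      constructor
      · refine PolyB.of_step ((hw'.1.add hv'.1).add (polyB_const (2 * C))) fun k => ?_
        have e : (g ^ (k + 1)) (b i) = (g ^ k) w * (g ^ k) (b i) * (g ^ k) v := by
          rw [pow_succ, MulAut.mul_apply, hwv, map_mul, map_mul]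
        rw [e]
        have h1 := hN ((g ^ k) w * (g ^ k) (b i)) ((g ^ k) v)
        have h2 := hN ((g ^ k) w) ((g ^ k) (b i))
        omega
      · refine PolyB.of_step ((hw'.2.add hv'.2).add (polyB_const (2 * C))) fun k => ?_
        have e : (g ^ (k + 1)) (b i)⁻¹ = (g ^ k) v⁻¹ * (g ^ k) (b i)⁻¹ * (g ^ k) w⁻¹ := by
          rw [pow_succ, MulAut.mul_apply, map_inv, hwv, mul_inv_rev, mul_inv_rev, map_mul, map_mul,
            mul_assoc]
        rw [e]
        have h1 := hN ((g ^ k) v⁻¹ * (g ^ k) (b i)⁻¹) ((g ^ k) w⁻¹)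
        have h2 := hN ((g ^ k) v⁻¹) ((g ^ k) (b i)⁻¹)
        omega
  have hall : ∀ y : FreeGroup (Fin n), b.repr.symm y ∈ polySub g N C hN := by
    intro y
    induction y using FreeGroup.induction_on with
    | C1 => rw [map_one]; exact one_mem _
    | of i => exact key _ i (Nat.lt_succ_self _)
    | inv_of i hi => rw [map_inv]; exact inv_mem hi
    | mul x y hx hy => rw [map_mul]; exact mul_mem hx hy
  have := hall (b.repr x)
  rwa [MulEquiv.symm_apply_apply] at this

/-! ### Gro : (X3) -/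
theorem growth_tri {n : ℕ} (b : FreeGroupBasis (Fin n) (FG n)) (g : MulAut (FG n)) (h : Tri b g)
    (p f : FG n) (N : FG n → ℕ) (C : ℕ) (hN : ∀ x y, N (x * y) ≤ N x + N y + C) :
    ∃ k : ℕ, N (((MulAut.conj p * g) ^ k : MulAut (FG n)) f) < 2 ^ k := by
  -- the cocycle
  let q : ℕ → FG n := fun k => Nat.rec 1 (fun j x => x * (g ^ j) p) k
  have hq0 : q 0 = 1 := rfl
  have hqs : ∀ k, q (k + 1) = q k * (g ^ k) p := fun k => rfl
  have hq : ∀ k, q (k + 1) = p * g (q k) := by
    intro k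
    induction k with
    | zero => simp [hqs, hq0]
    | succ k ih =>
      calc q (k + 1 + 1) = q (k + 1) * (g ^ (k + 1)) p := hqs (k + 1)
        _ = p * g (q k) * g ((g ^ k) p) := by rw [ih, pow_succ', MulAut.mul_apply]
        _ = p * g (q (k + 1)) := by rw [hqs k, map_mul, mul_assoc]
  have hP : ∀ k : ℕ, ((MulAut.conj p * g) ^ k : MulAut (FG n)) f = q k * (g ^ k) f * (q k)⁻¹ := by
    intro k
    induction k with
    | zero => simp [hq0]
    | succ k ih =>
      rw [pow_succ', MulAut.mul_apply, ih, MulAut.mul_apply, MulAut.conj_apply, map_mul, map_mul,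
        map_inv, hq k, pow_succ', MulAut.mul_apply, mul_inv_rev]
      simp only [mul_assoc]
  have h1 : PolyB (fun k => N (q k)) := by
    refine PolyB.of_step ((tri_polySub b g h N C hN p).1.add (polyB_const C)) fun k => ?_
    have := hN (q k) ((g ^ k) p)
    rw [hqs]
    omega
  have h2 : PolyB (fun k => N (q k)⁻¹) := by
    refine PolyB.of_step ((tri_polySub b g h N C hN p).2.add (polyB_const C)) fun k => ?_
    have := hN ((g ^ k) p⁻¹) (q k)⁻¹
    rw [hqs, mul_inv_rev, ← map_inv]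
    omega
  have h3 := (tri_polySub b g h N C hN f).1
  obtain ⟨k, hk⟩ := (((h1.add h3).add h2).add (polyB_const (2 * C))).lt_two_pow
  refine ⟨k, lt_of_le_of_lt ?_ hk⟩
  rw [hP k]
  have e1 := hN (q k * (g ^ k) f) (q k)⁻¹
  have e2 := hN (q k) ((g ^ k) f)
  omega

theorem gam_growth {n : ℕ} (G1 : Subgroup (MulAut (FG n))) (h : ∀ g ∈ G1, ∃ b, Tri b g) (P : Gam G1)
    (f : Gam G1) (hf : f ∈ (prG G1).ker) (N : Gam G1 → ℕ) (C : ℕ)
    (hN : ∀ x ∈ (prG G1).ker, ∀ y ∈ (prG G1).ker, N (x * y) ≤ N x + N y + C) :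
    ∃ k : ℕ, N (P ^ k * f * (P ^ k)⁻¹) < 2 ^ k := by
  obtain ⟨b, hb⟩ := h P.right P.right.2
  have hker : ∀ x : FG n, inF G1 x ∈ (prG G1).ker := fun x => by
    rw [MonoidHom.mem_ker]; simp
  have hf1 : f = inF G1 f.left := by
    apply SemidirectProduct.ext
    · simp
    · have : f.right = 1 := hf
      simp [this]
  obtain ⟨k, hk⟩ := growth_tri b (P.right : MulAut (FG n)) hb P.left f.left (fun x => N (inF G1 x)) C
    (fun x y => by
      show N (inF G1 (x * y)) ≤ _
      rw [map_mul]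
      exact hN _ (hker x) _ (hker y))
  refine ⟨k, ?_⟩
  have hstep : ∀ x : FG n, P * inF G1 x * P⁻¹ =
      inF G1 ((MulAut.conj P.left * (P.right : MulAut (FG n)) : MulAut (FG n)) x) := by
    intro x
    have hPdec : P = inF G1 P.left * inG G1 P.right := by
      apply SemidirectProduct.ext <;> simp
    have h1 : inG G1 P.right * inF G1 x * (inG G1 P.right)⁻¹ = inF G1 ((P.right : MulAut (FG n)) x) := by
      have := SemidirectProduct.inl_aut (φ := G1.subtype) P.right x
      rw [← map_inv]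
      exact this.symm
    rw [MulAut.mul_apply, MulAut.conj_apply, map_mul, map_mul, map_inv, ← h1]
    conv_lhs => rw [hPdec]
    rw [mul_inv_rev]
    simp only [mul_assoc]
  have hall : ∀ (j : ℕ) (x : FG n), P ^ j * inF G1 x * (P ^ j)⁻¹ =
      inF G1 (((MulAut.conj P.left * (P.right : MulAut (FG n))) ^ j : MulAut (FG n)) x) := by
    intro j
    induction j with
    | zero => intro x; simp
    | succ j ih =>
      intro x
      rw [pow_succ', pow_succ', MulAut.mul_apply, ← hstep, ← ih, mul_inv_rev]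
      simp only [mul_assoc]
  rw [hf1, hall k]
  exact hk

end Pool.MP6567.A
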