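import Pool.Agent.Lib.MP_6567fb_al.A.Kolchin

/-! # Unipotent lemmas (A.3) for MP_6567fb_al -/

set_option autoImplicit false

namespace Pool.MP6567.Alg

open Module Finset

section poly

variable {V : Type*} [AddCommGroup V] [Module ℚ V]

/-- polynomial sequences `ℤ → V` -/
def IsPoly (f : ℤ → V) : Prop :=
  ∃ d : ℕ, ∃ c : ℕ → V, ∀ n : ℤ, f n = ∑ j ∈ range d, ((n : ℚ) ^ j) • c j

theorem IsPoly.congr {f g : ℤ → V} (hf : IsPoly f) (h : ∀ n, f n = g n) : IsPoly g := by
  obtain ⟨d, c, hc⟩ := hf
  exact ⟨d, c, fun n => by rw [← h, hc]⟩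

theorem isPoly_const (v : V) : IsPoly (fun _ : ℤ => v) :=
  ⟨1, fun _ => v, fun n => by simp⟩

theorem isPoly_extend {d : ℕ} {c : ℕ → V} {f : ℤ → V}
    (hf : ∀ n : ℤ, f n = ∑ j ∈ range d, ((n : ℚ) ^ j) • c j) (D : ℕ) (hD : d ≤ D) :
    ∃ c' : ℕ → V, ∀ n : ℤ, f n = ∑ j ∈ range D, ((n : ℚ) ^ j) • c' j := by
  refine ⟨fun j => if j < d then c j else 0, fun n => ?_⟩
  rw [hf n]
  rw [← Finset.sum_subset (Finset.range_mono hD)]
  · apply Finset.sum_congr rfl
    intro j hj
    dsimp only
    rw [if_pos (Finset.mem_range.1 hj)]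
  · intro j _ hj
    rw [Finset.mem_range] at hj
    dsimp only
    rw [if_neg hj, smul_zero]

theorem IsPoly.add {f g : ℤ → V} (hf : IsPoly f) (hg : IsPoly g) : IsPoly (fun n => f n + g n) := by
  obtain ⟨d, c, hc⟩ := hf
  obtain ⟨d', c', hc'⟩ := hg
  obtain ⟨e, he⟩ := isPoly_extend hc (max d d') (le_max_left _ _)
  obtain ⟨e', he'⟩ := isPoly_extend hc' (max d d') (le_max_right _ _)
  refine ⟨max d d', fun j => e j + e' j, fun n => ?_⟩
  dsimp only
  rw [he n, he' n, ← Finset.sum_add_distrib]
  exact Finset.sum_congr rfl (fun j _ => by rw [smul_add])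

theorem IsPoly.smul {f : ℤ → V} (hf : IsPoly f) (r : ℚ) : IsPoly (fun n => r • f n) := by
  obtain ⟨d, c, hc⟩ := hf
  refine ⟨d, fun j => r • c j, fun n => ?_⟩
  dsimp only
  rw [hc n, Finset.smul_sum]
  exact Finset.sum_congr rfl (fun j _ => smul_comm _ _ _)

theorem IsPoly.neg {f : ℤ → V} (hf : IsPoly f) : IsPoly (fun n => - f n) :=
  (hf.smul (-1)).congr (fun n => by simp)

theorem IsPoly.sub {f g : ℤ → V} (hf : IsPoly f) (hg : IsPoly g) : IsPoly (fun n => f n - g n) :=
  (hf.add hg.neg).congr (fun n => by rw [sub_eq_add_neg])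

theorem isPoly_sum {ι : Type*} (s : Finset ι) (f : ι → ℤ → V) (h : ∀ i ∈ s, IsPoly (f i)) :
    IsPoly (fun n => ∑ i ∈ s, f i n) := by
  classical
  induction s using Finset.induction_on with
  | empty => exact (isPoly_const 0).congr (fun n => by simp)
  | insert a s ha ih =>
    refine ((h a (Finset.mem_insert_self _ _)).add (ih (fun i hi => h i (Finset.mem_insert_of_mem hi)))).congr ?_
    intro n
    rw [Finset.sum_insert ha]

theorem isPoly_monomial (j : ℕ) (v : V) : IsPoly (fun n : ℤ => ((n : ℚ) ^ j) • v) := by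
  refine ⟨j + 1, fun i => if i = j then v else 0, fun n => ?_⟩
  rw [Finset.sum_eq_single j]
  · simp
  · intro b _ hb; simp [hb]
  · intro h; exact absurd (Finset.mem_range.2 (Nat.lt_succ_self j)) h

/-- bilinear combinations of polynomial sequences -/
theorem IsPoly.bilin {W U : Type*} [AddCommGroup W] [Module ℚ W] [AddCommGroup U] [Module ℚ U]
    (B : V →ₗ[ℚ] W →ₗ[ℚ] U) {f : ℤ → V} {g : ℤ → W} (hf : IsPoly f) (hg : IsPoly g) :
    IsPoly (fun n => B (f n) (g n)) := by
  obtain ⟨d, c, hc⟩ := hf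
  obtain ⟨d', c', hc'⟩ := hg
  have : IsPoly (fun n : ℤ => ∑ i ∈ range d, ∑ j ∈ range d', ((n : ℚ) ^ (i + j)) • B (c i) (c' j)) :=
    isPoly_sum _ _ (fun i _ => isPoly_sum _ _ (fun j _ => isPoly_monomial _ _))
  refine this.congr (fun n => ?_)
  rw [hc n, hc' n, map_sum B, LinearMap.sum_apply]
  apply Finset.sum_congr rfl
  intro i _
  rw [map_sum]
  apply Finset.sum_congr rfl
  intro j _
  rw [map_smul, map_smul, LinearMap.smul_apply, smul_smul, pow_add, mul_comm]

theorem IsPoly.apply {W : Type*} [AddCommGroup W] [Module ℚ W] {T : ℤ → (V →ₗ[ℚ] W)} {f : ℤ → V}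
    (hT : IsPoly T) (hf : IsPoly f) : IsPoly (fun n => T n (f n)) :=
  IsPoly.bilin (LinearMap.id) hT hf

theorem IsPoly.map {W : Type*} [AddCommGroup W] [Module ℚ W] (T : V →ₗ[ℚ] W) {f : ℤ → V}
    (hf : IsPoly f) : IsPoly (fun n => T (f n)) :=
  IsPoly.apply (isPoly_const T) hf

theorem IsPoly.mul {T S : ℤ → Module.End ℚ V} (hT : IsPoly T) (hS : IsPoly S) :
    IsPoly (fun n => T n * S n) :=
  IsPoly.bilin (LinearMap.mul ℚ (Module.End ℚ V)) hT hS

theorem IsPoly.pow {T : ℤ → Module.End ℚ V} (hT : IsPoly T) (k : ℕ) :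
    IsPoly (fun n => T n ^ k) := by
  induction k with
  | zero => exact (isPoly_const 1).congr (fun n => by simp)
  | succ k ih => exact (ih.mul hT).congr (fun n => by rw [pow_succ])

theorem IsPoly.comp_affine {f : ℤ → V} (hf : IsPoly f) (k l : ℤ) : IsPoly (fun n => f (k * n + l)) := by
  obtain ⟨d, c, hc⟩ := hf
  have h1 : ∀ j : ℕ, IsPoly (fun n : ℤ => ((((k * n + l : ℤ) : ℚ)) ^ j) • c j) := by
    intro j
    have : IsPoly (fun n : ℤ => ∑ i ∈ range (j + 1), ((n : ℚ) ^ i) • (((k : ℚ) ^ i * (l : ℚ) ^ (j - i) * (j.choose i : ℚ)) • c j)) :=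
      isPoly_sum _ _ (fun i _ => isPoly_monomial _ _)
    refine this.congr (fun n => ?_)
    push_cast
    rw [add_pow, Finset.sum_smul]
    apply Finset.sum_congr rfl
    intro i _
    rw [smul_smul, mul_pow]
    congr 1
    ring
  refine (isPoly_sum (range d) _ (fun j _ => h1 j)).congr (fun n => ?_)
  rw [hc]

/-- a polynomial sequence with infinitely many zeros is zero -/
theorem IsPoly.eq_zero_of_infinite {f : ℤ → V} (hf : IsPoly f) {S : Set ℤ} (hS : S.Infinite)
    (h : ∀ n ∈ S, f n = 0) : ∀ n, f n = 0 := by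
  obtain ⟨d, c, hc⟩ := hf
  intro n
  by_contra hne
  -- separate by a functional
  obtain ⟨φ, hφ⟩ := Module.Projective.exists_dual_ne_zero ℚ hne
  set p : Polynomial ℚ := ∑ j ∈ range d, Polynomial.C (φ (c j)) * Polynomial.X ^ j with hp
  have heval : ∀ m : ℤ, p.eval (m : ℚ) = φ (f m) := by
    intro m
    rw [hp, Polynomial.eval_finsetSum, hc m, map_sum]
    apply Finset.sum_congr rfl
    intro j _
    rw [Polynomial.eval_mul, Polynomial.eval_C, Polynomial.eval_pow, Polynomial.eval_X, map_smul,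
      smul_eq_mul, mul_comm]
  have hp0 : p = 0 := by
    apply Polynomial.eq_zero_of_infinite_isRoot
    have : (fun m : ℤ => (m : ℚ)) '' S ⊆ {x | p.IsRoot x} := by
      rintro _ ⟨m, hm, rfl⟩
      change p.eval (m : ℚ) = 0
      rw [heval, h m hm, map_zero]
    exact (hS.image (Int.cast_injective.injOn)).mono this
  apply hφ
  rw [← heval n, hp0, Polynomial.eval_zero]

/-- sequences with vanishing iterated difference are polynomial -/
theorem isPoly_of_fwdDiff (d : ℕ) : ∀ f : ℤ → V, (fwdDiff 1)^[d] f = 0 → IsPoly f := by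
  induction d with
  | zero =>
    intro f hf
    exact (isPoly_const 0).congr (fun n => by have := congrFun hf n; simpa using this.symm)
  | succ d ih =>
    intro f hf
    rw [Function.iterate_succ_apply] at hf
    obtain ⟨e, c, hc⟩ := ih _ hf
    -- antiderivative
    set g : ℤ → V := fun n => ∑ j ∈ range e,
      (((Polynomial.bernoulli (j + 1)).eval (n : ℚ)) / (j + 1)) • c j with hg
    have hgpoly : IsPoly g := by
      apply isPoly_sum
      intro j _
      have : IsPoly (fun n : ℤ => ∑ i ∈ range ((Polynomial.bernoulli (j+1)).natDegree + 1),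
          ((n : ℚ) ^ i) • (((Polynomial.bernoulli (j+1)).coeff i / (j + 1)) • c j)) :=
        isPoly_sum _ _ (fun i _ => isPoly_monomial _ _)
      refine this.congr (fun n => ?_)
      rw [Polynomial.eval_eq_sum_range, Finset.sum_div, Finset.sum_smul]
      apply Finset.sum_congr rfl
      intro i _
      rw [smul_smul]
      congr 1
      ring
    have hgd : ∀ n : ℤ, g (n + 1) - g n = fwdDiff 1 f n := by
      intro n
      rw [hc n, hg]
      dsimp only
      rw [← Finset.sum_sub_distrib]
      apply Finset.sum_congr rfl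
      intro j _
      rw [← sub_smul]
      congr 1
      have := Polynomial.bernoulli_eval_one_add (j + 1) (n : ℚ)
      push_cast
      rw [add_comm (n : ℚ) 1, this]
      have hj : ((j : ℚ) + 1) ≠ 0 := by positivity
      field_simp
      push_cast
      simp
    have hconst : ∀ n : ℤ, f n - g n = f 0 - g 0 := by
      have hstep : ∀ n : ℤ, f (n + 1) - g (n + 1) = f n - g n := by
        intro n
        have h1 := hgd n
        unfold fwdDiff at h1
        have : f (n + 1) - f n = g (n + 1) - g n := h1.symm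
        rw [sub_eq_sub_iff_add_eq_add] at this ⊢
        rw [add_comm (f n), ← this, add_comm]
      intro n
      induction n using Int.induction_on with
      | zero => rfl
      | succ n ih => rw [hstep, ih]
      | pred n ih =>
        rw [← ih, ← hstep (-(n : ℤ) - 1)]
        congr 2 <;> ring
    refine (hgpoly.add (isPoly_const (f 0 - g 0))).congr (fun n => ?_)
    rw [← hconst n]; abel

theorem fwdDiff_iter_unip {G : Type*} [Group G] (ρ : G →* Module.End ℚ V) (g : G) (N : ℕ) :
    (fwdDiff 1)^[N] (fun n : ℤ => ρ (g ^ n)) = fun n : ℤ => ρ (g ^ n) * (ρ g - 1) ^ N := by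
  induction N with
  | zero => ext n; simp
  | succ N ih =>
    rw [Function.iterate_succ_apply', ih]
    funext n
    unfold fwdDiff
    dsimp only
    rw [zpow_add_one, map_mul, pow_succ', ← sub_mul]
    rw [← mul_assoc, mul_sub, mul_one]

/-- powers of a unipotent operator form a polynomial sequence -/
theorem isPoly_unip {G : Type*} [Group G] (ρ : G →* Module.End ℚ V) (g : G)
    (h : IsNilpotent (ρ g - 1)) : IsPoly (fun n : ℤ => ρ (g ^ n)) := by
  obtain ⟨N, hN⟩ := h
  apply isPoly_of_fwdDiff N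
  rw [fwdDiff_iter_unip, hN]
  funext n; simp

theorem isPoly_unip_apply {G : Type*} [Group G] (ρ : G →* Module.End ℚ V) (g : G)
    (h : IsNilpotent (ρ g - 1)) (v : V) : IsPoly (fun n : ℤ => ρ (g ^ n) v) :=
  (isPoly_unip ρ g h).apply (isPoly_const v)

omit [Module ℚ V] in
/-- a sequence with vanishing `d`-th difference and `d` consecutive zeros vanishes -/
theorem eq_zero_of_consecutive (d : ℕ) : ∀ (f : ℤ → V), (fwdDiff 1)^[d] f = 0 → ∀ n0 : ℤ,
    (∀ i : ℕ, i < d → f (n0 + i) = 0) → ∀ n, f n = 0 := by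
  induction d with
  | zero => intro f hf n0 _ n; exact congrFun hf n
  | succ d ih =>
    intro f hf n0 h
    rw [Function.iterate_succ_apply] at hf
    have h1 := ih _ hf n0 (fun i hi => by
      unfold fwdDiff
      have h2 := h (i + 1) (by omega)
      push_cast at h2
      rw [add_assoc, h2, h i (by omega), sub_zero])
    have hstep : ∀ n : ℤ, f (n + 1) = f n := fun n => by
      have := h1 n; unfold fwdDiff at this; exact sub_eq_zero.1 this
    have h0 : f n0 = 0 := by simpa using h 0 (by omega)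
    intro n
    obtain ⟨m, rfl⟩ : ∃ m, n = n0 + m := ⟨n - n0, by ring⟩
    induction m using Int.induction_on with
    | zero => simpa using h0
    | succ m ihm => rw [← add_assoc, hstep, ihm]
    | pred m ihm =>
      rw [← ihm, ← hstep (n0 + (-(m : ℤ) - 1))]
      congr 1; ring

/-- Two sequences `n ↦ A (ρ(g^n) u)` and `n ↦ ρ(g'^n) u'` (`A` linear) which agree at `finrank V`
consecutive integers are equal. -/
theorem unip_agree {G : Type*} [Group G] [FiniteDimensional ℚ V] (ρ : G →* Module.End ℚ V)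
    (hU : ∀ g, IsNilpotent (ρ g - 1)) (A : Module.End ℚ V) (g g' : G) (u u' : V) (n0 : ℤ)
    (h : ∀ i : ℕ, i < Module.finrank ℚ V → A (ρ (g ^ (n0 + i)) u) = ρ (g' ^ (n0 + i)) u') :
    ∀ n : ℤ, A (ρ (g ^ n) u) = ρ (g' ^ n) u' := by
  set d := Module.finrank ℚ V with hd
  have hpow : ∀ g, (ρ g - 1) ^ d = 0 := by
    intro g
    have := (hU g).charpoly_eq_X_pow_finrank
    have h2 := LinearMap.aeval_self_charpoly (ρ g - 1)
    rw [this] at h2
    simpa using h2
  have key : ∀ n : ℤ, A (ρ (g ^ n) u) - ρ (g' ^ n) u' = 0 := by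
    apply eq_zero_of_consecutive d _ _ n0
    · intro i hi; rw [h i hi, sub_self]
    · have h1 : ∀ (B : Module.End ℚ V) (x : G) (v : V) (N : ℕ),
          (fwdDiff 1)^[N] (fun n : ℤ => B (ρ (x ^ n) v)) = fun n : ℤ => B (ρ (x ^ n) (((ρ x - 1) ^ N) v)) := by
        intro B x v N
        induction N generalizing v with
        | zero => ext n; simp
        | succ N ih =>
          rw [Function.iterate_succ_apply]
          have : fwdDiff 1 (fun n : ℤ => B (ρ (x ^ n) v)) = fun n : ℤ => B (ρ (x ^ n) ((ρ x - 1) v)) := by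
            funext n
            unfold fwdDiff
            dsimp only
            rw [zpow_add_one, map_mul, Module.End.mul_apply, ← map_sub, ← map_sub]
            rfl
          rw [this, ih]
          funext n
          rw [pow_succ, Module.End.mul_apply]
      have e1 := h1 A g u d
      have e2 := h1 1 g' u' d
      have : (fun n : ℤ => A (ρ (g ^ n) u) - ρ (g' ^ n) u') =
          (fun n : ℤ => A (ρ (g ^ n) u)) + (-1 : ℤ) • (fun n : ℤ => (1 : Module.End ℚ V) (ρ (g' ^ n) u')) := by
        funext n; simp [sub_eq_add_neg]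
      rw [this, fwdDiff_iter_add, fwdDiff_iter_const_smul, e1, e2, hpow, hpow]
      funext n; simp
  intro n
  exact sub_eq_zero.1 (key n)

end poly

end Pool.MP6567.Alg
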