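import Pool.Agent.Lib.MP_6567fb_al.A.Rho
import Pool.Agent.Lib.MP_6567fb_al.A.Unip

/-!
# A.Root: unique roots in `Gam G1`, no torsion modulo `F`
-/

set_option autoImplicit false

open scoped Pointwise

namespace Pool.MP6567.A

open Pool.MP6567.Mag Pool.MP6567.Alg Pool.Agent.Lib.MP_6567fb_al

section
variable {n : ℕ} (G1 : Subgroup (MulAut (FG n)))

/-- the representations `lam` together are faithful -/
theorem lam_faithful (ρ : ∀ c, Gam G1 →* Module.End ℚ (MR (Fin n) c))
    (hρ : ∀ c (γ : Gam G1) (a), ρ c γ a = (mu c γ.left : MR (Fin n) c)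
      * star c (γ.right : MulAut (FG n)) a) (x y : Gam G1) (h : ∀ c a, ρ c x a = ρ c y a) : x = y := by
  have h1 : x.left = y.left := by
    apply mu_inj
    intro c
    have := h c 1
    rw [hρ, hρ, map_one, map_one, mul_one, mul_one] at this
    exact Units.ext this
  have h2 : x.right = y.right := by
    apply Subtype.ext
    apply MulEquiv.ext
    intro z
    apply mu_inj
    intro c
    have := h c (mu c z : MR (Fin n) c)
    rw [hρ, hρ, h1, star_mu, star_mu] at this
    exact Units.ext ((Units.mul_right_inj _).1 this)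
  exact SemidirectProduct.ext h1 h2

/-- (X1) -/
theorem gam_roots (hU : Uni G1) (x y : Gam G1) (k : ℕ) (hk : 0 < k) (h : x ^ k = y ^ k) : x = y := by
  choose ρ hρ using lam_exists G1
  apply lam_faithful G1 ρ hρ
  intro c a
  have hx := isPoly_unip_apply (ρ c) x (lam_unip G1 hU c (ρ c) (hρ c) x) a
  have hy := isPoly_unip_apply (ρ c) y (lam_unip G1 hU c (ρ c) (hρ c) y) a
  have hk' : (k : ℤ) ≠ 0 := by exact_mod_cast hk.ne'
  have hinf : (Set.range fun n : ℤ => (k : ℤ) * n).Infinite :=
    Set.infinite_range_of_injective fun a b hab => mul_left_cancel₀ hk' hab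
  have h0 := (hx.sub hy).eq_zero_of_infinite hinf (by
    rintro _ ⟨m, rfl⟩
    dsimp only
    rw [zpow_mul, zpow_mul, zpow_natCast, zpow_natCast, h, sub_self])
  have := h0 1
  rw [zpow_one, zpow_one, sub_eq_zero] at this
  exact this

/-- (X6) -/
theorem gam_tf (hU : Uni G1) (γ : Gam G1) (k : ℕ) (hk : 0 < k) (h : γ ^ k ∈ (prG G1).ker) :
    γ ∈ (prG G1).ker := by
  rw [MonoidHom.mem_ker, map_pow] at h
  have h1 : (inG G1 (prG G1 γ)) ^ k = (1 : Gam G1) ^ k := by
    rw [← map_pow, h, map_one, one_pow]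
  have h2 := gam_roots G1 hU _ _ k hk h1
  rw [MonoidHom.mem_ker]
  have h3 := congrArg (prG G1) h2
  rwa [map_one, SemidirectProduct.rightHom_inr] at h3

end

end Pool.MP6567.A
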