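import Pool.Agent.Lib.MP_6567fb_al.A.ADefs
import Pool.Agent.Lib.MP_6567fb_al.A.Unip

/-!
# A.Pur: purity of retracts (A.6)
-/

set_option autoImplicit false

open scoped Pointwise

namespace Pool.MP6567.A

open Pool.MP6567.Alg Pool.Agent.Lib.MP_6567fb_al

theorem pure_retract {Γ G : Type} [Group Γ] [Group G] (π : Γ →* G) (L : LinModel π)
    (r : π.ker →* π.ker) (D : Subgroup Γ) (hD : D ≤ π.ker) (hr : ∀ x : π.ker, (r x : Γ) ∈ D)
    (hr' : ∀ x : π.ker, (x : Γ) ∈ D → r x = x) (γ : Γ) (k : ℕ) (hk : 0 < k)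
    (h : MulAut.conj (γ ^ k) • D = D) : MulAut.conj γ • D = D := by
  -- one inclusion for every element
  have key : ∀ γ : Γ, MulAut.conj (γ ^ k) • D = D → ∀ x ∈ D, γ * x * γ⁻¹ ∈ D := by
    intro γ h x hx
    have hxk := hD hx
    have hz : ∀ n : ℤ, γ ^ ((k : ℤ) * n) * x * (γ ^ ((k : ℤ) * n))⁻¹ ∈ D := by
      intro n
      have h1 : MulAut.conj (γ ^ k) ∈ MulAction.stabilizer (MulAut Γ) D := h
      have h2 := Subgroup.zpow_mem _ h1 n
      have h3 : (MulAut.conj (γ ^ k)) ^ n = MulAut.conj (γ ^ ((k : ℤ) * n)) := by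
        rw [← map_zpow, zpow_mul, zpow_natCast]
      rw [h3] at h2
      have h4 : MulAut.conj (γ ^ ((k : ℤ) * n)) • D = D := h2
      have h5 := Subgroup.smul_mem_pointwise_smul x (MulAut.conj (γ ^ ((k : ℤ) * n))) D hx
      rw [h4] at h5
      exact h5
    have hker : ∀ n : ℤ, γ ^ n * x * (γ ^ n)⁻¹ ∈ π.ker := fun n =>
      (MonoidHom.normal_ker π).conj_mem x hxk (γ ^ n)
    have hall : ∀ c, ∀ n : ℤ, L.emb c (r ⟨_, hker n⟩ : Γ) = L.emb c (γ ^ n * x * (γ ^ n)⁻¹) := by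
      intro c
      letI := L.acg c
      letI := L.mod c
      obtain ⟨R, hR⟩ := L.endo c r
      have hP : IsPoly (fun n : ℤ => L.ρ c (γ ^ n) (L.emb c x)) :=
        isPoly_unip_apply (L.ρ c) γ (L.unip c γ) (L.emb c x)
      have hP2 : IsPoly (fun n : ℤ => R (L.ρ c (γ ^ n) (L.emb c x)) - L.ρ c (γ ^ n) (L.emb c x)) :=
        (hP.map R).sub hP
      have e1 : ∀ n : ℤ, R (L.ρ c (γ ^ n) (L.emb c x)) = L.emb c (r ⟨_, hker n⟩ : Γ) := by
        intro n
        rw [← L.equiv c (γ ^ n) x hxk]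
        exact (hR ⟨_, hker n⟩).symm
      have e2 : ∀ n : ℤ, L.ρ c (γ ^ n) (L.emb c x) = L.emb c (γ ^ n * x * (γ ^ n)⁻¹) := fun n =>
        (L.equiv c (γ ^ n) x hxk).symm
      have hk' : (k : ℤ) ≠ 0 := by exact_mod_cast hk.ne'
      have hinf : (Set.range fun n : ℤ => (k : ℤ) * n).Infinite :=
        Set.infinite_range_of_injective fun a b hab => mul_left_cancel₀ hk' hab
      have h0 := hP2.eq_zero_of_infinite hinf (by
        rintro _ ⟨n, rfl⟩
        rw [e1, e2, sub_eq_zero, hr' ⟨_, hker _⟩ (hz n)])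
      intro n
      have := h0 n
      rw [e1, e2, sub_eq_zero] at this
      exact this
    have h1 := L.inj _ (r ⟨_, hker 1⟩).2 _ (hker 1) (fun c => hall c 1)
    have h2 := hr ⟨_, hker 1⟩
    rw [h1, zpow_one] at h2
    exact h2
  have h' : MulAut.conj (γ⁻¹ ^ k) • D = D := by
    have h1 : MulAut.conj (γ ^ k) ∈ MulAction.stabilizer (MulAut Γ) D := h
    have h2 := Subgroup.inv_mem _ h1
    rw [← map_inv, ← inv_pow] at h2
    exact h2
  ext y
  rw [Subgroup.mem_pointwise_smul_iff_inv_smul_mem]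
  constructor
  · intro hy
    have h1 := key γ h _ hy
    have h2 : γ * ((MulAut.conj γ)⁻¹ • y) * γ⁻¹ = y := by
      rw [← map_inv, MulAut.smul_def, MulAut.conj_apply]
      group
    rwa [h2] at h1
  · intro hy
    have h1 := key γ⁻¹ h' y hy
    rw [← map_inv, MulAut.smul_def, MulAut.conj_apply]
    exact h1

end Pool.MP6567.A
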