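import Pool.Agent.Lib.MP_6567fb_al.A.BS
import Pool.Agent.Lib.MP_6567fb_al.A.Pur
import Pool.Agent.Lib.MP_6567fb_al.A.Rho
import Pool.Agent.Lib.MP_6567fb_al.T6
import Pool.Agent.Lib.MP_6567fb_al.T7a
import Pool.Agent.Lib.MP_6567fb_al.T12

/-!
# MP_6567fb_al, part A, module Spl : (X4)

A.12: the minimal subtree of a factor in the Bass-Serre tree of the smallest member of the flag which contains a conjugate.
-/

set_option autoImplicit false

open scoped Pointwise

namespace Pool.MP6567.A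

open Pool.MP6567.Mag Pool.MP6567.Alg Pool.Agent.Lib.MP_6567fb_al Finset

section core

open MTree

variable {Γ G : Type} [Group Γ] [Group G] {π : Γ →* G}

theorem spl_mem_conj {D : Subgroup Γ} {m g : Γ} : g ∈ MulAut.conj m • D ↔ m⁻¹ * g * m ∈ D := by
  rw [Subgroup.mem_pointwise_smul_iff_inv_smul_mem, ← map_inv, MulAut.smul_def, MulAut.conj_apply,
    inv_inv]

theorem spl_conj_mul (a b : Γ) (D : Subgroup Γ) :
    MulAut.conj (a * b) • D = MulAut.conj a • (MulAut.conj b • D) := by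
  rw [map_mul, mul_smul]

theorem spl_conj_mem {a : Γ} {D : Subgroup Γ} (ha : a ∈ D) : MulAut.conj a • D = D := by
  ext g
  rw [spl_mem_conj]
  constructor
  · intro h
    have := D.mul_mem (D.mul_mem ha h) (D.inv_mem ha)
    have e : a * (a⁻¹ * g * a) * a⁻¹ = g := by group
    rwa [e] at this
  · intro h
    exact D.mul_mem (D.mul_mem (D.inv_mem ha) h) ha

theorem spl_conj_inv {a : Γ} {D E : Subgroup Γ} (h : MulAut.conj a • D = E) : MulAut.conj a⁻¹ • E = D := by
  rw [← h, ← spl_conj_mul, inv_mul_cancel, map_one, one_smul]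

theorem spl_conj_mono (a : Γ) {D E : Subgroup Γ} (h : D ≤ E) : MulAut.conj a • D ≤ MulAut.conj a • E := by
  intro g hg
  rw [spl_mem_conj] at hg ⊢
  exact h hg

/-- no inversions -/
theorem spl_noInv (h2 : ∀ x ∈ π.ker, x * x = 1 → x = 1) {M : Subgroup Γ} {T : MTree M}
    (hT : T.IsSplitting π.ker) : T.NoInv := by
  rintro m hm x y hxy ⟨e1, e2⟩
  obtain ⟨k, hk, hk1, hk2⟩ := hT.orb m hm x y hxy
  rw [e1] at hk1
  rw [e2] at hk2
  have h3 : T.act (k * k) x = x := by rw [T.act_mul k hk.1 k hk.1, hk1, hk2]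
  have h4 : T.act (k * k) y = y := by rw [T.act_mul k hk.1 k hk.1, hk2, hk1]
  have h5 := hT.free (k * k) ((M ⊓ π.ker).mul_mem hk hk) x y hxy h3 h4
  have h6 := h2 k hk.2 h5
  rw [h6, T.act_one] at hk1
  rw [hk1] at hxy
  exact T.G.loopless.irrefl _ hxy

/-- an element of the kernel fixing two vertices is trivial -/
theorem spl_fixed {M : Subgroup Γ} {T : MTree M}
    (hfree : ∀ h ∈ M ⊓ π.ker, ∀ x y, T.G.Adj x y → T.act h x = x → T.act h y = y → h = 1) {h : Γ}
    (hh : h ∈ M ⊓ π.ker) {x y : T.X} (hxy : x ≠ y) (hx : T.act h x = x) (hy : T.act h y = y) : h = 1 := by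
  obtain ⟨w, hw, hw2⟩ := (TG.exists_unique_next T.tree hxy).exists
  have hb : T.Btw x w y := by
    change T.G.dist x w + T.G.dist w y = T.G.dist x y
    rw [SimpleGraph.dist_eq_one_iff_adj.mpr hw]
    omega
  exact hfree h hh x w hw hx (T.fix_conv hh.1 x hx y hy w hb)

/-- the `R`-lemma -/
theorem spl_R (L : LinModel π) {E : Subgroup Γ} (hEK : E ≤ π.ker) (hfg : E.FG)
    (r : π.ker →* π.ker) (hr : ∀ x : π.ker, (r x : Γ) ∈ E) (hr' : ∀ x : π.ker, (x : Γ) ∈ E → r x = x)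
    (hmal : ∀ h ∈ π.ker, MulAut.conj h • E = E → h ∈ E) {M₁ : Subgroup Γ} (hE1 : E ≤ M₁)
    {T : MTree M₁} (hT : T.IsSplitting π.ker) (hni : T.NoInv) (hell : ¬ T.Ell (E : Set Γ)) {m : Γ}
    (hm : m ∈ M₁) (hmE : MulAut.conj m • E = E) {x y : T.X} (hx : x ∈ T.core E) (hy : y ∈ T.core E)
    (hxy : T.G.Adj x y) : ∃ h ∈ E, T.act h x = T.act m x ∧ T.act h y = T.act m y := by
  classical
  obtain ⟨k, hk, hk1, hk2⟩ := hT.orb m hm x y hxy
  have hkM : k ∈ M₁ := hk.1
  have hki : k⁻¹ ∈ M₁ := M₁.inv_mem hkM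
  have hq : k⁻¹ * m ∈ M₁ := M₁.mul_mem hki hm
  have hqx : T.act (k⁻¹ * m) x = x := by rw [T.act_mul _ hki _ hm, ← hk1, T.act_inv_act hkM]
  have hqy : T.act (k⁻¹ * m) y = y := by rw [T.act_mul _ hki _ hm, ← hk2, T.act_inv_act hkM]
  -- the finite set of conjugates
  obtain ⟨S, hS⟩ := T.core_cofinite hni hE1 hfg hell
  let Z : Set (Subgroup Γ) := {D | ∃ a ∈ M₁ ⊓ π.ker, D = MulAut.conj a • E ∧ x ∈ T.core D ∧ y ∈ T.core D}
  have hZ : ∀ D ∈ Z, ∃ u ∈ M₁ ⊓ π.ker, D = MulAut.conj u⁻¹ • E ∧ (T.act u x, T.act u y) ∈ S := by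
    rintro D ⟨a, ha, rfl, h1, h2⟩
    rw [T.core_conj hE1 ha.1] at h1 h2
    obtain ⟨x₁, hx₁, hx₂⟩ := h1
    obtain ⟨y₁, hy₁, hy₂⟩ := h2
    have hai : a⁻¹ ∈ M₁ := M₁.inv_mem ha.1
    have e1 : x₁ = T.act a⁻¹ x := by rw [← hx₂, T.act_inv_act ha.1]
    have e2 : y₁ = T.act a⁻¹ y := by rw [← hy₂, T.act_inv_act ha.1]
    have hadj : T.G.Adj x₁ y₁ := by
      rw [e1, e2]
      exact T.act_adj _ hai _ _ hxy
    obtain ⟨d, hd, hdS⟩ := hS x₁ hx₁ y₁ hy₁ hadj
    have hdM : d ∈ M₁ := hE1 hd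
    refine ⟨d * a⁻¹, ⟨M₁.mul_mem hdM hai, π.ker.mul_mem (hEK hd) (π.ker.inv_mem ha.2)⟩, ?_, ?_⟩
    · rw [mul_inv_rev, inv_inv, spl_conj_mul, spl_conj_mem (E.inv_mem hd)]
    · rw [T.act_mul _ hdM _ hai, T.act_mul _ hdM _ hai, ← e1, ← e2]
      exact hdS
  choose! u hu hu1 hu2 using hZ
  have hfin : Z.Finite := by
    refine Set.Finite.of_finite_image (f := fun D => (T.act (u D) x, T.act (u D) y)) ?_ ?_
    · refine S.finite_toSet.subset ?_
      rintro _ ⟨D, hD, rfl⟩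
      exact hu2 D hD
    · intro D hD D' hD' h
      have h' : (T.act (u D) x, T.act (u D) y) = (T.act (u D') x, T.act (u D') y) := h
      rw [Prod.mk.injEq] at h'
      have hi : (u D)⁻¹ ∈ M₁ := M₁.inv_mem (hu D hD).1
      have hone : (u D)⁻¹ * u D' = 1 := by
        refine hT.free _ ((M₁ ⊓ π.ker).mul_mem ((M₁ ⊓ π.ker).inv_mem (hu D hD)) (hu D' hD')) x y hxy ?_ ?_
        · rw [T.act_mul _ hi _ (hu D' hD').1, ← h'.1, T.act_inv_act (hu D hD).1]
        · rw [T.act_mul _ hi _ (hu D' hD').1, ← h'.2, T.act_inv_act (hu D hD).1]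
      have heq : u D = u D' := (inv_mul_eq_one.mp hone)
      rw [hu1 D hD, hu1 D' hD', heq]
  -- the element `q = k⁻¹ m` permutes it
  have hKn : ∀ a ∈ π.ker, ∀ g : Γ, g * a * g⁻¹ ∈ π.ker := fun a ha g =>
    (inferInstance : π.ker.Normal).conj_mem a ha g
  have hqZ : ∀ D ∈ Z, MulAut.conj (k⁻¹ * m) • D ∈ Z := by
    rintro D ⟨a, ha, rfl, h1, h2⟩
    have hDM : MulAut.conj a • E ≤ M₁ := by
      intro g hg
      rw [spl_mem_conj] at hg
      have := M₁.mul_mem (M₁.mul_mem ha.1 (hE1 hg)) (M₁.inv_mem ha.1)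
      have e : a * (a⁻¹ * g * a) * a⁻¹ = g := by group
      rwa [e] at this
    refine ⟨(k⁻¹ * m) * a * (k⁻¹ * m)⁻¹ * k⁻¹, ⟨?_, ?_⟩, ?_, ?_, ?_⟩
    · exact M₁.mul_mem (M₁.mul_mem (M₁.mul_mem hq ha.1) (M₁.inv_mem hq)) hki
    · exact π.ker.mul_mem (hKn a ha.2 _) (π.ker.inv_mem hk.2)
    · have e : (k⁻¹ * m) * a * (k⁻¹ * m)⁻¹ * k⁻¹ = (k⁻¹ * m) * a * m⁻¹ := by group
      rw [e, spl_conj_mul (k⁻¹ * m * a) m⁻¹, spl_conj_inv hmE, spl_conj_mul (k⁻¹ * m) a]
    · rw [T.core_conj hDM hq]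
      exact ⟨x, h1, hqx⟩
    · rw [T.core_conj hDM hq]
      exact ⟨y, h2, hqy⟩
  have hEZ : E ∈ Z := ⟨1, (M₁ ⊓ π.ker).one_mem, by rw [map_one, one_smul], hx, hy⟩
  have hpow : ∀ i : ℕ, MulAut.conj ((k⁻¹ * m) ^ i) • E ∈ Z := by
    intro i
    induction i with
    | zero => rw [pow_zero, map_one, one_smul]; exact hEZ
    | succ i ih =>
      rw [pow_succ', spl_conj_mul]
      exact hqZ _ ih
  have hper : ∃ j : ℕ, 0 < j ∧ MulAut.conj ((k⁻¹ * m) ^ j) • E = E := by
    have h1 : ¬ Function.Injective (fun i : ℕ => MulAut.conj ((k⁻¹ * m) ^ i) • E) := by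
      intro hinj
      have : (Set.range (fun i : ℕ => MulAut.conj ((k⁻¹ * m) ^ i) • E)).Infinite :=
        Set.infinite_range_of_injective hinj
      refine this (hfin.subset ?_)
      rintro _ ⟨i, rfl⟩
      exact hpow i
    unfold Function.Injective at h1
    push Not at h1
    obtain ⟨i, j, hij, hne⟩ := h1
    have key : ∀ i j : ℕ, i < j → MulAut.conj ((k⁻¹ * m) ^ i) • E = MulAut.conj ((k⁻¹ * m) ^ j) • E →
        ∃ j : ℕ, 0 < j ∧ MulAut.conj ((k⁻¹ * m) ^ j) • E = E := by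
      intro i j hij h
      refine ⟨j - i, by omega, ?_⟩
      have e : (k⁻¹ * m) ^ j = (k⁻¹ * m) ^ i * (k⁻¹ * m) ^ (j - i) := by
        rw [← pow_add]
        congr 1
        omega
      rw [e, spl_conj_mul] at h
      exact (MulAction.injective (MulAut.conj ((k⁻¹ * m) ^ i)) h).symm
    rcases lt_or_gt_of_ne hne with hlt | hlt
    · exact key i j hlt hij
    · exact key j i hlt hij.symm
  obtain ⟨j, hj, hjE⟩ := hper
  have hqE := pure_retract π L r E hEK hr hr' (k⁻¹ * m) j hj hjE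
  have hkE : MulAut.conj k • E = E := by
    have e : k = m * (k⁻¹ * m)⁻¹ := by group
    rw [e, spl_conj_mul, spl_conj_inv hqE, hmE]
  exact ⟨k, hmal k hk.2 hkE, hk1, hk2⟩

/-- the minimal subtree is a splitting -/
theorem spl_core (L : LinModel π) (h2 : ∀ x ∈ π.ker, x * x = 1 → x = 1) {E : Subgroup Γ} (hEK : E ≤ π.ker)
    (hfg : E.FG)
    (r : π.ker →* π.ker) (hr : ∀ x : π.ker, (r x : Γ) ∈ E) (hr' : ∀ x : π.ker, (x : Γ) ∈ E → r x = x)
    (hmal : ∀ h ∈ π.ker, MulAut.conj h • E = E → h ∈ E) {M₁ : Subgroup Γ} (hE1 : E ≤ M₁)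
    {T : MTree M₁} (hT : T.IsSplitting π.ker) (hell : ¬ T.Ell (E : Set Γ)) {P : Γ}
    (hP1 : P ∈ M₁) (hPE : MulAut.conj P • E = E) :
    ∃ T : MTree (E ⊔ Subgroup.zpowers P), T.IsSplitting π.ker ∧ T.Nontriv π.ker := by
  classical
  have hni := spl_noInv h2 hT
  have hMM : E ⊔ Subgroup.zpowers P ≤ M₁ :=
    sup_le hE1 ((Subgroup.zpowers_le).mpr hP1)
  have hnorm : ∀ m ∈ E ⊔ Subgroup.zpowers P, MulAut.conj m • E = E := by
    have h1 : E ⊔ Subgroup.zpowers P ≤ (MulAction.stabilizer (MulAut Γ) E).comap MulAut.conj := by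
      refine sup_le ?_ ((Subgroup.zpowers_le).mpr ?_)
      · intro a ha
        exact spl_conj_mem ha
      · exact hPE
    intro m hm
    exact h1 hm
  have hinf : (E ⊔ Subgroup.zpowers P) ⊓ π.ker = E := by
    apply le_antisymm
    · rintro m ⟨hm, hk⟩
      exact hmal m hk (hnorm m hm)
    · exact le_inf le_sup_left hEK
  have hinv : ∀ m ∈ E ⊔ Subgroup.zpowers P, ∀ x ∈ T.core E, T.act m x ∈ T.core E := by
    intro m hm x hx
    have h1 := T.core_conj hE1 (hMM hm)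
    rw [hnorm m hm] at h1
    rw [h1]
    exact ⟨x, hx, rfl⟩
  have hact : ∀ (m : Γ) (hm : m ∈ E ⊔ Subgroup.zpowers P) (x : T.core E),
      ((T.sub (T.core E) (T.core_conv hni hE1) (T.core_nonempty hni hE1 hfg) _ hMM hinv).act m x : T.core E).1
        = T.act m x.1 := by
    intro m hm x
    exact (T.sub_isEmb (T.core E) (T.core_conv hni hE1) (T.core_nonempty hni hE1 hfg) _ hMM hinv).equi m hm x
  refine ⟨T.sub (T.core E) (T.core_conv hni hE1) (T.core_nonempty hni hE1 hfg) _ hMM hinv, ⟨?_, ?_, ?_⟩, ?_⟩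
  · intro h hh x y hxy hx hy
    refine hT.free h ⟨hMM hh.1, hh.2⟩ x.1 y.1 hxy ?_ ?_
    · exact (hact h hh.1 x).symm.trans (congrArg Subtype.val hx)
    · exact (hact h hh.1 y).symm.trans (congrArg Subtype.val hy)
  · intro m hm x y hxy
    obtain ⟨h, hh, e1, e2⟩ := spl_R L hEK hfg r hr hr' hmal hE1 hT hni hell (hMM hm) (hnorm m hm) x.2 y.2 hxy
    have hhM : h ∈ E ⊔ Subgroup.zpowers P := Subgroup.mem_sup_left hh
    refine ⟨h, ⟨hhM, hEK hh⟩, ?_, ?_⟩
    · apply Subtype.ext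
      exact (hact h hhM x).trans (e1.trans (hact m hm x).symm)
    · apply Subtype.ext
      exact (hact h hhM y).trans (e2.trans (hact m hm y).symm)
  · obtain ⟨S, hS⟩ := T.core_cofinite hni hE1 hfg hell
    have hfinS : {e : T.core E × T.core E | (e.1.1, e.2.1) ∈ S}.Finite := by
      refine Set.Finite.of_finite_image (f := fun e : T.core E × T.core E => (e.1.1, e.2.1)) ?_ ?_
      · refine S.finite_toSet.subset ?_
        rintro _ ⟨e, he, rfl⟩
        exact he
      · rintro ⟨a, b⟩ _ ⟨a', b'⟩ _ h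
        have h' : (a.1, b.1) = (a'.1, b'.1) := h
        rw [Prod.mk.injEq] at h'
        exact Prod.ext (Subtype.ext h'.1) (Subtype.ext h'.2)
    refine ⟨hfinS.toFinset, fun x y hxy => ?_⟩
    obtain ⟨d, hd, hdS⟩ := hS x.1 x.2 y.1 y.2 hxy
    have hdM : d ∈ E ⊔ Subgroup.zpowers P := Subgroup.mem_sup_left hd
    refine ⟨d, ⟨hdM, hEK hd⟩, ?_⟩
    refine hfinS.mem_toFinset.mpr ?_
    have e1 := hact d hdM x
    have e2 := hact d hdM y
    have e3 : (T.act d x.1, T.act d y.1) ∈ S := hdS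
    rw [← e1, ← e2] at e3
    exact e3
  · intro x
    by_contra hcon
    push Not at hcon
    apply hell
    refine ⟨x.1, fun d hd => ?_⟩
    have hdM : d ∈ E ⊔ Subgroup.zpowers P := Subgroup.mem_sup_left hd
    have h3 := hcon d ⟨hdM, hEK hd⟩
    exact (hact d hdM x).symm.trans (congrArg Subtype.val h3)

/-- facts on factors -/
theorem spl_factor (h2 : ∀ x ∈ π.ker, x * x = 1 → x = 1) (hKfg : Group.FG π.ker) {E : Subgroup Γ}
    (hfac : IsFactor π.ker π.ker E) : E ≤ π.ker ∧ E.FG ∧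
    (∃ r : π.ker →* π.ker, (∀ x, ((r x : π.ker) : Γ) ∈ E) ∧ ∀ x : π.ker, (x : Γ) ∈ E → r x = x) ∧
    (E ≠ ⊥ → ∀ h ∈ π.ker, MulAut.conj h • E = E → h ∈ E) := by
  have hle : E ≤ π.ker := by
    rcases hfac with rfl | ⟨T, hT, x, rfl⟩
    · exact le_rfl
    · exact inf_le_right
  have hret : ∃ r : π.ker →* π.ker, (∀ x, ((r x : π.ker) : Γ) ∈ E) ∧ ∀ x : π.ker, (x : Γ) ∈ E → r x = x := by
    rcases hfac with rfl | ⟨T, hT, x, rfl⟩
    · exact ⟨MonoidHom.id _, fun h => h.2, fun h _ => rfl⟩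
    · obtain ⟨r, h3, h4, -⟩ := retract_vertex T (spl_noInv h2 hT)
        (fun h hh x y hxy hx hy => hT.free h ⟨hh, hh⟩ x y hxy hx hy) x
      exact ⟨r, fun z => ⟨h3 z, (r z).2⟩, fun z hz => h4 z hz.1⟩
  refine ⟨hle, ?_, hret, ?_⟩
  · obtain ⟨r, h3, h4⟩ := hret
    have h5 : (π.ker.subtype.comp r).range = E := by
      ext x
      constructor
      · rintro ⟨y, rfl⟩
        exact h3 y
      · intro hx
        exact ⟨⟨x, hle hx⟩, by
          rw [MonoidHom.comp_apply, h4 _ hx]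
          rfl⟩
    rw [← h5]
    exact (Group.fg_iff_subgroup_fg _).1 (Group.fg_range _)
  · intro hE h hh hhE
    rcases hfac with rfl | ⟨T, hT, x, rfl⟩
    · exact hh
    · obtain ⟨⟨e, he⟩, he1⟩ := Subgroup.ne_bot_iff_exists_ne_one.1 hE
      have he1' : e ≠ 1 := fun h0 => he1 (Subtype.ext h0)
      have he2 : h⁻¹ * e * h ∈ T.stab x ⊓ π.ker := by
        rw [← spl_mem_conj, hhE]
        exact he
      refine ⟨⟨hh, ?_⟩, hh⟩
      by_contra hne
      apply he1'
      refine spl_fixed hT.free (x := T.act h x) (y := x) ⟨he.1.1, he.2⟩ hne ?_ he.1.2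
      have e1 : T.act (h⁻¹ * e * h) x = x := he2.1.2
      have hhi : h⁻¹ ∈ π.ker := π.ker.inv_mem hh
      rw [T.act_mul _ (π.ker.mul_mem hhi he.2) _ hh, T.act_mul _ hhi _ he.2] at e1
      have e2 := congrArg (T.act h) e1
      rwa [T.act_act_inv hh] at e2

/-- conjugates of factors -/
theorem spl_conj_factor {E : Subgroup Γ} (hfac : IsFactor π.ker π.ker E) {x : Γ} (hx : x ∈ π.ker) :
    IsFactor π.ker π.ker (MulAut.conj x • E) := by
  rcases hfac with rfl | ⟨T, hT, v, rfl⟩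
  · left
    exact spl_conj_mem hx
  · right
    refine ⟨T, hT, T.act x v, ?_⟩
    rw [T.stab_act hx, conj_smul_inf]

/-- transport of the result along a conjugation -/
theorem spl_transport {E : Subgroup Γ} {P x : Γ}
    (h : ∃ T : MTree (MulAut.conj x • E ⊔ Subgroup.zpowers (x * P * x⁻¹)),
      T.IsSplitting π.ker ∧ T.Nontriv π.ker) :
    ∃ T : MTree (E ⊔ Subgroup.zpowers P), T.IsSplitting π.ker ∧ T.Nontriv π.ker := by
  obtain ⟨T, hT, hT'⟩ := h
  have heq : E ⊔ Subgroup.zpowers P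
      = MulAut.conj x⁻¹ • (MulAut.conj x • E ⊔ Subgroup.zpowers (x * P * x⁻¹)) := by
    apply le_antisymm
    · refine sup_le ?_ ((Subgroup.zpowers_le).mpr ?_)
      · intro g hg
        rw [spl_mem_conj]
        refine Subgroup.mem_sup_left ?_
        rw [spl_mem_conj]
        have e : x⁻¹ * (x⁻¹⁻¹ * g * x⁻¹) * x = g := by group
        rw [e]
        exact hg
      · rw [spl_mem_conj]
        refine Subgroup.mem_sup_right ?_
        rw [inv_inv]
        exact Subgroup.mem_zpowers _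
    · have h1 : MulAut.conj x • E ⊔ Subgroup.zpowers (x * P * x⁻¹)
          ≤ MulAut.conj x • (E ⊔ Subgroup.zpowers P) := by
        refine sup_le (spl_conj_mono x le_sup_left) ((Subgroup.zpowers_le).mpr ?_)
        rw [spl_mem_conj]
        refine Subgroup.mem_sup_right ?_
        have e : x⁻¹ * (x * P * x⁻¹) * x = P := by group
        rw [e]
        exact Subgroup.mem_zpowers _
      have h3 := spl_conj_mono x⁻¹ h1
      rwa [← spl_conj_mul, inv_mul_cancel, map_one, one_smul] at h3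
  rw [heq]
  refine ⟨T.tw x⁻¹, tw_isSplitting hT x⁻¹, ?_⟩
  intro v
  obtain ⟨g, hg, hgv⟩ := hT' v
  refine ⟨x⁻¹ * g * x⁻¹⁻¹, ?_, ?_⟩
  · rw [conj_smul_inf, spl_mem_conj]
    have e : x⁻¹⁻¹ * (x⁻¹ * g * x⁻¹⁻¹) * x⁻¹ = g := by group
    rw [e]
    exact hg
  · change T.act (x⁻¹⁻¹ * (x⁻¹ * g * x⁻¹⁻¹) * x⁻¹) v ≠ v
    have e : x⁻¹⁻¹ * (x⁻¹ * g * x⁻¹⁻¹) * x⁻¹ = g := by group
    rw [e]
    exact hgv

end core

section gam

open MTree

variable {n : ℕ} (G1 : Subgroup (MulAut (FG n)))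

theorem spl_torsion (x : Gam G1) (hx : x ∈ (prG G1).ker) (h : x * x = 1) : x = 1 := by
  have h1 := ker_left G1 hx
  rw [← h1] at h ⊢
  rw [← map_mul] at h
  have h2 : x.left * x.left = 1 := by
    apply SemidirectProduct.inl_injective (φ := G1.subtype)
    rw [h, map_one]
  have h3 : x.left ^ 2 = 1 := by rw [sq, h2]
  have h4 : x.left = 1 := by
    have := pow_left_injective (M := FG n) (n := 2) two_ne_zero
    apply this
    change x.left ^ 2 = 1 ^ 2
    rw [h3, one_pow]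
  rw [h4, map_one]

theorem spl_ker_fg : Group.FG (prG G1).ker := by
  have h : (inF G1).range = (prG G1).ker := SemidirectProduct.range_inl_eq_ker_rightHom
  rw [← h]
  infer_instance

theorem spl_low_top (b : FreeGroupBasis (Fin n) (FG n)) : (low b n).map (inF G1) = (prG G1).ker := by
  have h1 : low b n = ⊤ := by
    rw [eq_top_iff]
    intro x _
    rw [mem_low_iff]
    have h2 : lowS n n = ⊤ := by
      unfold lowS
      have : {j : Fin n | (j : ℕ) < n} = Set.univ := by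
        ext j
        simp
      rw [this, Set.image_univ]
      exact FreeGroup.closure_range_of (Fin n)
    rw [h2]
    trivial
  rw [h1, ← MonoidHom.range_eq_map]
  exact SemidirectProduct.range_inl_eq_ker_rightHom

theorem spl_low_zero (b : FreeGroupBasis (Fin n) (FG n)) : (low b 0).map (inF G1) = ⊥ := by
  have h1 : low b 0 = ⊥ := by
    rw [low, Subgroup.closure_eq_bot_iff]
    rintro x ⟨j, hj, rfl⟩
    exact absurd hj (Nat.not_lt_zero _)
  rw [h1, Subgroup.map_bot]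

theorem spl_low_le (b : FreeGroupBasis (Fin n) (FG n)) (k : ℕ) : (low b k).map (inF G1) ≤ (prG G1).ker := by
  rintro _ ⟨y, _, rfl⟩
  exact inF_mem G1 y

theorem spl_conj_inG (g : G1) (x : FG n) :
    inG G1 g * inF G1 x * (inG G1 g)⁻¹ = inF G1 ((g : MulAut (FG n)) x) := by
  have := SemidirectProduct.inl_aut (φ := G1.subtype) g x
  rw [map_inv] at this
  exact this.symm

theorem spl_conj_low (b : FreeGroupBasis (Fin n) (FG n)) (g : G1) (hg : Tri b g) (k : ℕ) :
    MulAut.conj (inG G1 g) • (low b k).map (inF G1) = (low b k).map (inF G1) := by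
  ext x
  rw [spl_mem_conj]
  constructor
  · rintro ⟨y, hy, hyx⟩
    refine ⟨(g : MulAut (FG n)) y, (tri_mem_low_iff b g hg k y).mpr hy, ?_⟩
    rw [← spl_conj_inG, hyx]
    group
  · rintro ⟨y, hy, rfl⟩
    refine ⟨(g : MulAut (FG n)).symm y, ?_, ?_⟩
    · have h1 := (tri_mem_low_iff b g hg k ((g : MulAut (FG n)).symm y)).mp
      apply h1
      rw [MulEquiv.apply_symm_apply]
      exact hy
    · have h1 := spl_conj_inG G1 g ((g : MulAut (FG n)).symm y)
      rw [MulEquiv.apply_symm_apply] at h1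
      rw [← h1]
      group

/-- the part in the kernel -/
theorem spl_inf (A : Subgroup (Gam G1)) (hA : A ≤ (prG G1).ker) (g : G1)
    (hg : MulAut.conj (inG G1 g) • A = A) : (A ⊔ Subgroup.zpowers (inG G1 g)) ⊓ (prG G1).ker = A := by
  let S : Subgroup (Gam G1) :=
    { carrier := {m | MulAut.conj m • A = A ∧ m * (inG G1 m.right)⁻¹ ∈ A}
      one_mem' := by
        refine ⟨by rw [map_one, one_smul], ?_⟩
        rw [SemidirectProduct.one_right, map_one, inv_one, mul_one]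
        exact A.one_mem
      mul_mem' := by
        rintro m m' ⟨h1, h2⟩ ⟨h3, h4⟩
        refine ⟨by rw [spl_conj_mul, h3, h1], ?_⟩
        rw [SemidirectProduct.mul_right, map_mul]
        have e : m * m' * (inG G1 m.right * inG G1 m'.right)⁻¹
            = (m * (m' * (inG G1 m'.right)⁻¹) * m⁻¹) * (m * (inG G1 m.right)⁻¹) := by group
        rw [e]
        refine A.mul_mem ?_ h2
        rw [← h1, spl_mem_conj]
        have e2 : m⁻¹ * (m * (m' * (inG G1 m'.right)⁻¹) * m⁻¹) * m = m' * (inG G1 m'.right)⁻¹ := by group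
        rw [e2]
        exact h4
      inv_mem' := by
        rintro m ⟨h1, h2⟩
        have h3 := spl_conj_inv h1
        refine ⟨h3, ?_⟩
        rw [SemidirectProduct.inv_right, map_inv, inv_inv]
        have e : m⁻¹ * inG G1 m.right = m⁻¹ * (m * (inG G1 m.right)⁻¹)⁻¹ * m := by group
        rw [e, ← h3, spl_mem_conj]
        have e2 : m⁻¹⁻¹ * (m⁻¹ * (m * (inG G1 m.right)⁻¹)⁻¹ * m) * m⁻¹ = (m * (inG G1 m.right)⁻¹)⁻¹ := by group
        rw [e2]
        exact A.inv_mem h2 }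
  have hS : A ⊔ Subgroup.zpowers (inG G1 g) ≤ S := by
    refine sup_le ?_ ((Subgroup.zpowers_le).mpr ?_)
    · intro a ha
      refine ⟨spl_conj_mem ha, ?_⟩
      have h1 : a.right = 1 := hA ha
      rw [h1, map_one, inv_one, mul_one]
      exact ha
    · refine ⟨hg, ?_⟩
      rw [SemidirectProduct.right_inr, mul_inv_cancel]
      exact A.one_mem
  apply le_antisymm
  · rintro m ⟨hm, hk⟩
    have h1 := (hS hm).2
    have h2 : m.right = 1 := hk
    rw [h2, map_one, inv_one, mul_one] at h1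
    exact h1
  · exact le_inf le_sup_left hA

/-- one step of malnormality in the flag -/
theorem spl_mal_step (b : FreeGroupBasis (Fin n) (FG n)) (g : G1) (hg : Tri b g) (m : Fin n) {p e : Gam G1}
    (hp : p ∈ (low b (m + 1)).map (inF G1)) (he : e ∈ (low b m).map (inF G1)) (he1 : e ≠ 1)
    (hpe : p⁻¹ * e * p ∈ (low b m).map (inF G1)) : p ∈ (low b m).map (inF G1) := by
  obtain ⟨T, hfree, -, x0, hx0, -, -⟩ := bs_tree G1 b m g hg
  have hle : (low b m).map (inF G1) ≤ (low b (m + 1)).map (inF G1) := Subgroup.map_mono (low_mono b (Nat.le_succ _))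
  have hA1 : (low b (m + 1)).map (inF G1) ≤ (low b (m + 1)).map (inF G1) ⊔ Subgroup.zpowers (inG G1 g) := le_sup_left
  rw [← hx0 p hp]
  by_contra hne
  apply he1
  have e1 : T.act e x0 = x0 := (hx0 e (hle he)).mpr he
  have e2 : T.act (p⁻¹ * e * p) x0 = x0 := (hx0 _ (hle hpe)).mpr hpe
  have hpi : p⁻¹ ∈ (low b (m + 1)).map (inF G1) := Subgroup.inv_mem _ hp
  rw [T.act_mul _ (Subgroup.mul_mem _ (hA1 hpi) (hA1 (hle he))) _ (hA1 hp), T.act_mul _ (hA1 hpi) _ (hA1 (hle he))] at e2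
  have e3 := congrArg (T.act p) e2
  rw [T.act_act_inv (hA1 hp)] at e3
  have hinf := spl_inf G1 ((low b (m + 1)).map (inF G1)) (spl_low_le G1 b _) g (spl_conj_low G1 b g hg _)
  refine spl_fixed (π := prG G1) (T := T) (x := T.act p x0) (y := x0) ?_ ?_ hne e3 e1
  · intro h hh
    rw [hinf] at hh
    exact hfree h hh
  · rw [hinf]
    exact hle he

theorem gam_split (hU : Uni G1) (h : ∀ g ∈ G1, ∃ b, Tri b g)
    (P : Gam G1) (E : Subgroup (Gam G1)) (hE : E ≠ ⊥) (hfac : IsFactor (prG G1).ker (prG G1).ker E)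
    (hP : MulAut.conj P • E = E) :
    ∃ T : MTree (E ⊔ Subgroup.zpowers P), T.IsSplitting (prG G1).ker ∧ T.Nontriv (prG G1).ker := by
  classical
  obtain ⟨L⟩ := linModel G1 hU
  have h2 := spl_torsion G1
  obtain ⟨b, hb⟩ := h P.right.1 P.right.2
  -- the smallest member of the flag
  have hex : ∃ k, ∃ x ∈ (prG G1).ker, MulAut.conj x • E ≤ (low b k).map (inF G1) := by
    refine ⟨n, 1, (prG G1).ker.one_mem, ?_⟩
    rw [map_one, one_smul, spl_low_top G1 b]
    exact (spl_factor h2 (spl_ker_fg G1) hfac).1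
  obtain ⟨x, hx, hxE⟩ := Nat.find_spec hex
  have hmin : ∀ k < Nat.find hex, ¬ ∃ x ∈ (prG G1).ker, MulAut.conj x • E ≤ (low b k).map (inF G1) :=
    fun k hk => Nat.find_min hex hk
  have hle : Nat.find hex ≤ n := by
    refine Nat.find_min' hex ⟨1, (prG G1).ker.one_mem, ?_⟩
    rw [map_one, one_smul, spl_low_top G1 b]
    exact (spl_factor h2 (spl_ker_fg G1) hfac).1
  have hE' : MulAut.conj x • E ≠ ⊥ := by
    intro h0
    apply hE
    have := spl_conj_inv h0
    rw [← this]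
    ext g
    rw [spl_mem_conj, Subgroup.mem_bot, Subgroup.mem_bot]
    constructor
    · intro h3
      have : g = x⁻¹ * (x⁻¹⁻¹ * g * x⁻¹) * x := by group
      rw [this, h3]
      group
    · rintro rfl
      group
  have hpos : Nat.find hex ≠ 0 := by
    intro h0
    rw [h0, spl_low_zero G1 b, le_bot_iff] at hxE
    exact hE' hxE
  obtain ⟨j, hj⟩ := Nat.exists_eq_succ_of_ne_zero hpos
  rw [hj] at hxE hle
  have hjn : j < n := hle
  have hminj := hmin j (by omega)
  apply spl_transport (x := x)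
  set E' := MulAut.conj x • E with hE'def
  have hfac' := spl_conj_factor hfac hx
  obtain ⟨hEK, hfg, ⟨r, hr, hr'⟩, hmal⟩ := spl_factor h2 (spl_ker_fg G1) hfac'
  have hP' : MulAut.conj (x * P * x⁻¹) • E' = E' := by
    rw [hE'def, ← spl_conj_mul]
    have e : x * P * x⁻¹ * x = x * P := by group
    rw [e, spl_conj_mul, hP]
  obtain ⟨T, hfree, horb, x0, hx0, htr, y0, hxy0, hone⟩ := bs_tree G1 b ⟨j, hjn⟩ P.right hb
  change ∀ h ∈ (low b (j + 1)).map (inF G1), _ at hfree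
  change ∀ h ∈ (low b (j + 1)).map (inF G1), T.act h x0 = x0 ↔ h ∈ (low b j).map (inF G1) at hx0
  have hinf := spl_inf G1 ((low b (j + 1)).map (inF G1)) (spl_low_le G1 b _) P.right (spl_conj_low G1 b P.right hb _)
  have hA1 : (low b (j + 1)).map (inF G1) ≤ (low b (j + 1)).map (inF G1) ⊔ Subgroup.zpowers (inG G1 P.right) :=
    le_sup_left
  have hT : T.IsSplitting (prG G1).ker := by
    refine ⟨?_, ?_, ⟨{(x0, y0), (y0, x0)}, ?_⟩⟩
    · intro h hh
      have hh' : h ∈ (low b (j + 1)).map (inF G1) := by rw [← hinf]; exact hh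
      exact hfree h hh'
    · intro m hm u v huv
      obtain ⟨h, hh, h3⟩ := horb m hm u v huv
      exact ⟨h, ⟨hA1 hh, spl_low_le G1 b _ hh⟩, h3⟩
    · intro u v huv
      obtain ⟨h, hh, h3⟩ := hone u v huv
      have hhi : h⁻¹ ∈ (low b (j + 1)).map (inF G1) := Subgroup.inv_mem _ hh
      refine ⟨h⁻¹, ⟨hA1 hhi, spl_low_le G1 b _ hhi⟩, ?_⟩
      rcases h3 with ⟨rfl, rfl⟩ | ⟨rfl, rfl⟩
      · rw [T.act_inv_act (hA1 hh), T.act_inv_act (hA1 hh)]
        exact Finset.mem_insert_self _ _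
      · rw [T.act_inv_act (hA1 hh), T.act_inv_act (hA1 hh)]
        exact Finset.mem_insert_of_mem (Finset.mem_singleton_self _)
  -- `x P x⁻¹` is in the group which acts
  obtain ⟨⟨e, he⟩, he1⟩ := Subgroup.ne_bot_iff_exists_ne_one.1 hE'
  have he1' : e ≠ 1 := fun h0 => he1 (Subtype.ext h0)
  have hright : (x * P * x⁻¹).right = P.right := by
    have hx1 : x.right = 1 := hx
    rw [SemidirectProduct.mul_right, SemidirectProduct.mul_right, SemidirectProduct.inv_right, hx1, inv_one,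
      mul_one, one_mul]
  set p : Gam G1 := x * P * x⁻¹ * (inG G1 P.right)⁻¹ with hp
  have hpK : p ∈ (prG G1).ker := by
    rw [mem_ker_iff, hp, SemidirectProduct.mul_right, hright, SemidirectProduct.inv_right,
      SemidirectProduct.right_inr, mul_inv_cancel]
  have hpP : x * P * x⁻¹ = p * inG G1 P.right := by rw [hp]; group
  have hpe : ∀ k, E' ≤ (low b k).map (inF G1) → p⁻¹ * e * p ∈ (low b k).map (inF G1) := by
    intro k hk
    have h3 : E' ≤ MulAut.conj p • (low b k).map (inF G1) := by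
      calc E' = MulAut.conj (x * P * x⁻¹) • E' := hP'.symm
        _ ≤ MulAut.conj (x * P * x⁻¹) • (low b k).map (inF G1) := spl_conj_mono _ hk
        _ = MulAut.conj p • (low b k).map (inF G1) := by
          rw [hpP, spl_conj_mul, spl_conj_low G1 b P.right hb k]
    exact spl_mem_conj.mp (h3 he)
  have hEk : ∀ k, j + 1 ≤ k → E' ≤ (low b k).map (inF G1) := fun k hk =>
    hxE.trans (Subgroup.map_mono (low_mono b hk))
  have hpA : ∀ i, j + 1 + i ≤ n → p ∈ (low b (n - i)).map (inF G1) := by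
    intro i
    induction i with
    | zero =>
      intro _
      rw [Nat.sub_zero, spl_low_top G1 b]
      exact hpK
    | succ i ih =>
      intro hi
      have h3 := ih (by omega)
      have h4 : n - (i + 1) < n := by omega
      have h5 : n - i = (n - (i + 1)) + 1 := by omega
      have h6 : j + 1 ≤ n - (i + 1) := by omega
      rw [h5] at h3
      exact spl_mal_step G1 b P.right hb ⟨n - (i + 1), h4⟩ h3 (hEk _ h6 he) he1' (hpe _ (hEk _ h6))
  have hpA' : p ∈ (low b (j + 1)).map (inF G1) := by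
    have h3 := hpA (n - (j + 1)) (by omega)
    have h4 : n - (n - (j + 1)) = j + 1 := by omega
    rwa [h4] at h3
  have hPM : x * P * x⁻¹ ∈ (low b (j + 1)).map (inF G1) ⊔ Subgroup.zpowers (inG G1 P.right) := by
    rw [hpP]
    exact Subgroup.mul_mem _ (hA1 hpA') (Subgroup.mem_sup_right (Subgroup.mem_zpowers _))
  -- no fixed vertex
  have hell : ¬ T.Ell (E' : Set (Gam G1)) := by
    rintro ⟨v, hv⟩
    obtain ⟨a, ha, rfl⟩ := htr v
    apply hminj
    have haK : a ∈ (prG G1).ker := spl_low_le G1 b _ ha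
    refine ⟨a⁻¹ * x, (prG G1).ker.mul_mem ((prG G1).ker.inv_mem haK) hx, ?_⟩
    rw [spl_conj_mul]
    intro d hd
    rw [spl_mem_conj, inv_inv] at hd
    have hai : a⁻¹ ∈ (low b (j + 1)).map (inF G1) := Subgroup.inv_mem _ ha
    have h3 : a * d * a⁻¹ ∈ (low b (j + 1)).map (inF G1) := hxE hd
    have hd' : d ∈ (low b (j + 1)).map (inF G1) := by
      have := Subgroup.mul_mem _ (Subgroup.mul_mem _ hai h3) ha
      have e : a⁻¹ * (a * d * a⁻¹) * a = d := by group
      rwa [e] at this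
    rw [← hx0 d hd']
    have h4 := hv _ hd
    have h5 : T.act (a * d * a⁻¹) (T.act a x0) = T.act a (T.act d x0) := by
      rw [T.act_mul _ (hA1 (Subgroup.mul_mem _ ha hd')) _ (hA1 hai), T.act_inv_act (hA1 ha),
        T.act_mul _ (hA1 ha) _ (hA1 hd')]
    rw [h5] at h4
    exact T.act_inj (hA1 ha) h4
  exact spl_core L h2 hEK hfg r hr hr' (hmal hE') (hxE.trans hA1) hT hell hPM hP'

end gam

end Pool.MP6567.A
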