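import Pool.Agent.Lib.MP_6567fb_al.A.Flag
import Pool.Agent.Lib.MP_6567fb_al.A.Red
import Pool.Agent.Lib.MP_6567fb_al.A.Root
import Pool.Agent.Lib.MP_6567fb_al.A.Cls
import Pool.Agent.Lib.MP_6567fb_al.A.Gro
import Pool.Agent.Lib.MP_6567fb_al.A.Spl

/-!
# The context for `Gam G1`; from a common basis to the frozen statement
-/

set_option autoImplicit false

open scoped Pointwise

namespace Pool.MP6567.A

open Pool.MP6567.Mag Pool.Agent.Lib.MP_6567fb_al

theorem gam_ctx {n : ℕ} (G1 : Subgroup (MulAut (FG n))) (hfg : Group.FG G1) (h3 : ∀ g ∈ G1, Triv3 g)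
    (h : ∀ g ∈ G1, ∃ b, Tri b g) : Ctx (prG G1) := by
  have hU : Uni G1 := fun g hg => by
    obtain ⟨b, hb⟩ := h g hg
    exact tri_uni b g hb
  exact
    { surj := SemidirectProduct.rightHom_surjective
      fgG := hfg
      free := gam_free G1
      roots := gam_roots G1 hU
      lin := linModel G1 hU
      cls := clModel G1 hU
      growth := gam_growth G1 h
      split := gam_split G1 hU h
      mod3 := gam_mod3 G1 h3
      tf := gam_tf G1 hU }

theorem low_eq {n : ℕ} (b : FreeGroupBasis (Fin n) (FG n)) (i : Fin n) :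
    low b (i : ℕ) = Subgroup.closure (Set.image (fun j => b j) {j : Fin n | j < i}) := rfl

/-- from a common basis for all elements of `G3 G0` to the frozen statement -/
theorem final {n : ℕ} (G0 : Subgroup (MulAut (FG n))) (b : FreeGroupBasis (Fin n) (FG n))
    (h : ∀ g ∈ G3 G0, Tri b g) :
    ∃ b : FreeGroupBasis (Fin n) (FreeGroup (Fin n)),
        ∃ H : Subgroup (MulAut (FreeGroup (Fin n))), H ≤ G0 ∧ (H.subgroupOf G0).FiniteIndex ∧
          ∀ φ ∈ H, ∃ k : ℕ, 0 < k ∧ ∀ i : Fin n,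
            ∃ w ∈ Subgroup.closure (Set.image (fun j => b j) {j : Fin n | j < i}),
            ∃ v ∈ Subgroup.closure (Set.image (fun j => b j) {j : Fin n | j < i}),
              (φ ^ k) (b i) = w * b i * v := by
  refine ⟨b, G3 G0, fun g hg => hg.1, G3_index G0, fun φ hφ => ⟨1, one_pos, fun i => ?_⟩⟩
  obtain ⟨w, hw, v, hv, e⟩ := h φ hφ i
  exact ⟨w, hw, v, hv, by rw [pow_one]; exact e⟩

/-- honest flags for all elements of `G3 G0` -/
theorem G3_tri {n : ℕ} (G0 : Subgroup (MulAut (FG n)))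
    (h : ∀ φ ∈ G0, ∃ b : FreeGroupBasis (Fin n) (FreeGroup (Fin n)),
        ∃ k : ℕ, 0 < k ∧ ∀ i : Fin n,
          ∃ w ∈ Subgroup.closure (Set.image (fun j => b j) {j : Fin n | j < i}),
          ∃ v ∈ Subgroup.closure (Set.image (fun j => b j) {j : Fin n | j < i}),
            (φ ^ k) (b i) = w * b i * v) : ∀ g ∈ G3 G0, ∃ b, Tri b g := by
  intro g hg
  obtain ⟨b, k, hk, hb⟩ := h g hg.1
  exact ⟨b, tri_of_tri_pow b g hg.2 k hk hb⟩

end Pool.MP6567.A
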