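import Pool.Agent.Lib.MP_6567fb_al.A.Syl

/-!
# A.CycRed: cyclically reduced syllable form
-/

set_option autoImplicit false

namespace Pool.MP6567.A

variable {α : Type}

theorem sylProd_one (p : α × ℤ) : sylProd [p] = FreeGroup.of p.1 ^ p.2 := by
  rw [sylProd_cons, sylProd_nil, mul_one]

theorem cyc_aux (m : ℕ) : ∀ L : List (α × ℤ), L.length = m →
    L.IsChain (fun p q => p.1 ≠ q.1) → (∀ p ∈ L, p.2 ≠ 0) →
    sylProd L = 1 ∨ (∃ f i, ∃ a : ℤ, a ≠ 0 ∧ f * sylProd L * f⁻¹ = FreeGroup.of i ^ a) ∨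
    ∃ (f : FreeGroup α) (L' : List (α × ℤ)), f * sylProd L * f⁻¹ = sylProd L' ∧ 2 ≤ L'.length ∧
      L'.IsChain (fun p q => p.1 ≠ q.1) ∧ (∀ p ∈ L', p.2 ≠ 0) ∧
      ∀ p ∈ L'.getLast?, ∀ q ∈ L'.head?, p.1 ≠ q.1 := by
  induction m using Nat.strong_induction_on with
  | _ m ih =>
    intro L hL hc h0
    rcases L with _ | ⟨p, L⟩
    · left; rfl
    rcases List.eq_nil_or_concat L with rfl | ⟨L', q, rfl⟩
    · right; left
      refine ⟨1, p.1, p.2, h0 p (by simp), ?_⟩
      rw [sylProd_one]; simp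
    rw [List.concat_eq_append] at *
    by_cases hpq : q.1 = p.1
    · -- conjugate
      have key : ∀ M : List (α × ℤ), M.length < m → M.IsChain (fun p q => p.1 ≠ q.1) →
          (∀ p ∈ M, p.2 ≠ 0) →
          (FreeGroup.of q.1 ^ q.2) * sylProd (p :: (L' ++ [q])) * (FreeGroup.of q.1 ^ q.2)⁻¹
            = sylProd M →
          sylProd (p :: (L' ++ [q])) = 1 ∨ (∃ f i, ∃ a : ℤ, a ≠ 0 ∧
            f * sylProd (p :: (L' ++ [q])) * f⁻¹ = FreeGroup.of i ^ a) ∨
          ∃ (f : FreeGroup α) (L'' : List (α × ℤ)),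
            f * sylProd (p :: (L' ++ [q])) * f⁻¹ = sylProd L'' ∧ 2 ≤ L''.length ∧
            L''.IsChain (fun p q => p.1 ≠ q.1) ∧ (∀ p ∈ L'', p.2 ≠ 0) ∧
            ∀ p ∈ L''.getLast?, ∀ q ∈ L''.head?, p.1 ≠ q.1 := by
        intro M hM hMc hM0 hMe
        rcases ih _ hM M rfl hMc hM0 with h | ⟨f, i, a, ha, h⟩ | ⟨f, L'', h, h2, h3, h4, h5⟩
        · left
          rw [h] at hMe
          rwa [mul_inv_eq_one, mul_eq_left] at hMe
        · right; left
          refine ⟨f * FreeGroup.of q.1 ^ q.2, i, a, ha, ?_⟩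
          rw [← h, ← hMe]; group
        · right; right
          refine ⟨f * FreeGroup.of q.1 ^ q.2, L'', ?_, h2, h3, h4, h5⟩
          rw [← h, ← hMe]; group
      have hc2 : (L' ++ [q]).IsChain (fun p q => p.1 ≠ q.1) := hc.tail
      have hc3 : L'.IsChain (fun p q => p.1 ≠ q.1) := hc2.left_of_append
      by_cases hs : q.2 + p.2 = 0
      · refine key L' ?_ hc3 (fun r hr => h0 r (by simp [hr])) ?_
        · rw [← hL]; simp
        · rw [sylProd_cons, sylProd_append, sylProd_one, hpq]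
          have : (FreeGroup.of p.1 : FreeGroup α) ^ q.2 * FreeGroup.of p.1 ^ p.2 = 1 := by
            rw [← zpow_add, hs, zpow_zero]
          rw [← mul_assoc, ← mul_assoc, this, one_mul, mul_inv_cancel_right]
      · refine key ((p.1, q.2 + p.2) :: L') ?_ ?_ ?_ ?_
        · rw [← hL]; simp
        · rw [List.isChain_cons]
          refine ⟨?_, hc3⟩
          intro y hy
          rw [List.isChain_cons] at hc
          apply hc.1 y
          rw [List.head?_append, hy]
          rfl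
        · intro r hr
          rw [List.mem_cons] at hr
          rcases hr with rfl | hr
          · exact hs
          · exact h0 r (by simp [hr])
        · rw [sylProd_cons, sylProd_append, sylProd_one, hpq, sylProd_cons]
          rw [zpow_add]
          group
    · right; right
      refine ⟨1, p :: (L' ++ [q]), by simp, by simp, hc, h0, ?_⟩
      intro r hr s hs
      rw [List.head?_cons, Option.mem_def, Option.some.injEq] at hs
      have : (p :: (L' ++ [q])).getLast? = some q := by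
        rw [← List.cons_append, List.getLast?_append]; rfl
      rw [this, Option.mem_def, Option.some.injEq] at hr
      rw [← hr, ← hs]
      exact hpq

theorem cyc_exists (x : FreeGroup α) : x = 1 ∨ (∃ f i, ∃ a : ℤ, a ≠ 0 ∧ f * x * f⁻¹ = FreeGroup.of i ^ a) ∨
    ∃ (f : FreeGroup α) (L : List (α × ℤ)), f * x * f⁻¹ = sylProd L ∧ 2 ≤ L.length ∧
      L.IsChain (fun p q => p.1 ≠ q.1) ∧ (∀ p ∈ L, p.2 ≠ 0) ∧
      ∀ p ∈ L.getLast?, ∀ q ∈ L.head?, p.1 ≠ q.1 := by
  obtain ⟨L, rfl, hc, h0⟩ := syl_exists x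
  exact cyc_aux L.length L rfl hc h0

theorem sylProd_rotate (L : List (α × ℤ)) (t : ℕ) :
    ∃ f, f * sylProd L * f⁻¹ = sylProd (L.rotate t) := by
  induction t with
  | zero => exact ⟨1, by simp⟩
  | succ t ih =>
    obtain ⟨f, hf⟩ := ih
    rw [← List.rotate_rotate]
    generalize L.rotate t = M at *
    rcases M with _ | ⟨p, M⟩
    · exact ⟨f, by simpa using hf⟩
    · refine ⟨(FreeGroup.of p.1 ^ p.2)⁻¹ * f, ?_⟩
      rw [List.rotate_cons_succ, List.rotate_zero, sylProd_append, sylProd_one]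
      rw [sylProd_cons] at hf
      have : (FreeGroup.of p.1 ^ p.2)⁻¹ * f * sylProd L * ((FreeGroup.of p.1 ^ p.2)⁻¹ * f)⁻¹
          = (FreeGroup.of p.1 ^ p.2)⁻¹ * (f * sylProd L * f⁻¹) * (FreeGroup.of p.1 ^ p.2) := by
        group
      rw [this, hf]; group

end Pool.MP6567.A
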