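import Pool.Agent.Lib.MP_6567fb_al.A.Syl

/-!
# Part A, module Dual: dual functionals to the binomial functions
-/

set_option autoImplicit false

namespace Pool.MP6567.A

open Finset

variable {α : Type}

theorem succ_mul_choose_dual (t : ℤ) (e : ℕ) :
    (((e + 1 : ℕ) : ℤ) : ℚ) * ((Ring.choose t (e + 1) : ℤ) : ℚ) =
      ((t : ℚ) - e) * ((Ring.choose t e : ℤ) : ℚ) := by
  have h := Ring.choose_smul_choose t (Nat.le_succ e)
  rw [Nat.succ_eq_add_one, Nat.add_sub_cancel_left, Ring.choose_one_right, Nat.choose_succ_self_right,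
    nsmul_eq_mul] at h
  have h2 := congrArg (fun z : ℤ => (z : ℚ)) h
  push_cast at h2 ⊢
  linarith

/-- for a finite set `S` of non-zero integers and `a ∈ S` there is a finite combination of `C(·, e)`, `e ≥ 1`,
which is `1` at `a` and `0` at the other elements of `S` -/
theorem dual_choose (S : Finset ℤ) (hS : (0 : ℤ) ∉ S) (a : ℤ) (ha : a ∈ S) :
    ∃ l : ℕ →₀ ℚ, (∀ e ∈ l.support, 1 ≤ e) ∧
      ∀ b ∈ S, (l.sum fun e q => q * ((Ring.choose b e : ℤ) : ℚ)) = if b = a then 1 else 0 := by
  classical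
  let v : ℕ → (ℤ → ℚ) := fun e t => ((Ring.choose t e : ℤ) : ℚ)
  let P : Submodule ℚ (ℤ → ℚ) := Submodule.span ℚ (v '' {e | 1 ≤ e})
  have hP : ∀ f ∈ P, ∀ b : ℤ, (fun t : ℤ => ((t : ℚ) - b) * f t) ∈ P := by
    intro f hf b
    induction hf using Submodule.span_induction with
    | mem x hx =>
      obtain ⟨e, he, rfl⟩ := hx
      have h1 : (fun t : ℤ => ((t : ℚ) - b) * v e t) =
          (((e + 1 : ℕ) : ℤ) : ℚ) • v (e + 1) + ((e : ℚ) - b) • v e := by
        funext t
        have h2 := succ_mul_choose_dual t e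
        simp only [Pi.add_apply, Pi.smul_apply, smul_eq_mul, v]
        rw [h2]
        ring
      rw [h1]
      refine P.add_mem (P.smul_mem _ ?_) (P.smul_mem _ ?_)
      · exact Submodule.subset_span ⟨e + 1, by simp, rfl⟩
      · exact Submodule.subset_span ⟨e, he, rfl⟩
    | zero =>
      have : (fun t : ℤ => ((t : ℚ) - b) * (0 : ℤ → ℚ) t) = 0 := by funext t; simp
      rw [this]
      exact P.zero_mem
    | add x y _ _ hx hy =>
      have : (fun t : ℤ => ((t : ℚ) - b) * (x + y) t) =
          (fun t : ℤ => ((t : ℚ) - b) * x t) + fun t : ℤ => ((t : ℚ) - b) * y t := by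
        funext t
        simp only [Pi.add_apply]
        ring
      rw [this]
      exact P.add_mem hx hy
    | smul q x _ hx =>
      have : (fun t : ℤ => ((t : ℚ) - b) * (q • x) t) =
          q • fun t : ℤ => ((t : ℚ) - b) * x t := by
        funext t
        simp only [Pi.smul_apply, smul_eq_mul]
        ring
      rw [this]
      exact P.smul_mem q hx
  have hprod : ∀ T : Finset ℤ, (fun t : ℤ => (t : ℚ) * ∏ b ∈ T, ((t : ℚ) - b)) ∈ P := by
    intro T
    induction T using Finset.induction_on with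
    | empty =>
      have : (fun t : ℤ => (t : ℚ) * ∏ b ∈ (∅ : Finset ℤ), ((t : ℚ) - b)) = v 1 := by
        funext t
        simp [v, Ring.choose_one_right]
      rw [this]
      exact Submodule.subset_span ⟨1, by simp, rfl⟩
    | insert b T hb ih =>
      have := hP _ ih b
      have h1 : (fun t : ℤ => (t : ℚ) * ∏ c ∈ insert b T, ((t : ℚ) - c)) =
          fun t : ℤ => ((t : ℚ) - b) * ((t : ℚ) * ∏ c ∈ T, ((t : ℚ) - c)) := by
        funext t
        rw [Finset.prod_insert hb]
        ring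
      rw [h1]
      exact this
  have ha0 : a ≠ 0 := fun h => hS (h ▸ ha)
  set c : ℚ := (a : ℚ) * ∏ b ∈ S.erase a, ((a : ℚ) - b) with hc
  have hc0 : c ≠ 0 := by
    rw [hc]
    apply mul_ne_zero
    · exact_mod_cast ha0
    · rw [Finset.prod_ne_zero_iff]
      intro b hb
      rw [Finset.mem_erase] at hb
      rw [sub_ne_zero]
      exact_mod_cast hb.1.symm
  have hmem : (fun t : ℤ => c⁻¹ * ((t : ℚ) * ∏ b ∈ S.erase a, ((t : ℚ) - b))) ∈ P :=
    P.smul_mem c⁻¹ (hprod (S.erase a))
  rw [Finsupp.mem_span_image_iff_linearCombination] at hmem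
  obtain ⟨l, hl, hlf⟩ := hmem
  refine ⟨l, ?_, ?_⟩
  · intro e he
    exact (Finsupp.mem_supported ℚ l).1 hl he
  · intro b hb
    have h1 := congrFun hlf b
    rw [Finsupp.linearCombination_apply, Finsupp.sum_apply'] at h1
    simp only [Pi.smul_apply, smul_eq_mul, v] at h1
    rw [h1]
    split_ifs with hba
    · rw [hba, ← hc, inv_mul_cancel₀ hc0]
    · have h2 : ∏ c ∈ S.erase a, ((b : ℚ) - c) = 0 := by
        apply Finset.prod_eq_zero (i := b)
        · rw [Finset.mem_erase]
          exact ⟨hba, hb⟩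
        · rw [sub_self]
      rw [h2, mul_zero, mul_zero]

/-- product functionals -/
theorem dual_prod_dual [DecidableEq α] {s : ℕ} (S : Finset ℤ) (hS : (0 : ℤ) ∉ S) (T : Fin s → α × ℤ)
    (hT : ∀ j, (T j).2 ∈ S) :
    ∃ (E : Finset (Fin s → ℕ)) (c : (Fin s → ℕ) → ℚ), (∀ e ∈ E, ∀ j, 1 ≤ e j) ∧
      ∀ K : Fin s → α × ℤ, (∀ j, (K j).2 ∈ S) →
        ∑ e ∈ E, c e * ∏ j, sylCoef (K j) ((T j).1, e j) = if K = T then 1 else 0 := by
  choose l hl1 hl2 using fun j => dual_choose S hS (T j).2 (hT j)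
  refine ⟨Fintype.piFinset fun j => (l j).support, fun e => ∏ j, l j (e j), ?_, ?_⟩
  · intro e he j
    rw [Fintype.mem_piFinset] at he
    exact hl1 j _ (he j)
  · intro K hK
    have h1 : ∀ e : Fin s → ℕ, (∏ j, l j (e j)) * ∏ j, sylCoef (K j) ((T j).1, e j) =
        ∏ j, (l j (e j) * sylCoef (K j) ((T j).1, e j)) := fun e => by
      rw [Finset.prod_mul_distrib]
    rw [Finset.sum_congr rfl fun e _ => h1 e]
    rw [← Finset.prod_univ_sum (fun j => (l j).support)
      (fun j e => l j e * sylCoef (K j) ((T j).1, e))]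
    have h2 : ∀ j, ∑ e ∈ (l j).support, l j e * sylCoef (K j) ((T j).1, e) =
        if K j = T j then 1 else 0 := by
      intro j
      by_cases h3 : (K j).1 = (T j).1
      · have h4 : ∑ e ∈ (l j).support, l j e * sylCoef (K j) ((T j).1, e) =
            (l j).sum fun e q => q * ((Ring.choose (K j).2 e : ℤ) : ℚ) := by
          rw [Finsupp.sum]
          apply Finset.sum_congr rfl
          intro e _
          rw [sylCoef, if_pos h3]
        rw [h4, hl2 j (K j).2 (hK j)]
        by_cases h5 : (K j).2 = (T j).2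
        · rw [if_pos h5, if_pos (Prod.ext h3 h5)]
        · rw [if_neg h5, if_neg fun h => h5 (by rw [h])]
      · rw [if_neg fun h => h3 (by rw [h])]
        apply Finset.sum_eq_zero
        intro e _
        rw [sylCoef, if_neg h3, mul_zero]
    rw [Finset.prod_congr rfl fun j _ => h2 j]
    by_cases h3 : K = T
    · rw [if_pos h3]
      apply Finset.prod_eq_one
      intro j _
      rw [if_pos (congrFun h3 j)]
    · rw [if_neg h3]
      have h4 : ∃ j, K j ≠ T j := by
        by_contra hcon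
        push Not at hcon
        exact h3 (funext hcon)
      obtain ⟨j, hj⟩ := h4
      apply Finset.prod_eq_zero (Finset.mem_univ j)
      rw [if_neg hj]

/-- coefficients of a rotated list -/
theorem sylCoefs_rotate_dual [DecidableEq α] {s : ℕ} [NeZero s] (L : List (α × ℤ)) (hL : L.length = s)
    (T : Fin s → α × ℤ) (e : Fin s → ℕ) (t : ℕ) (d : α × ℤ) :
    sylCoefs L ((List.ofFn fun j => ((T j).1, e j)).rotate t) =
      ∏ j : Fin s, sylCoef (L.getD ((j - Fin.ofNat s t : Fin s) : ℕ) d) ((T j).1, e j) := by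
  subst hL
  have h1 : sylCoefs L ((List.ofFn fun j => ((T j).1, e j)).rotate t) =
      ∏ j : Fin L.length, sylCoef (L.getD (j : ℕ) d)
        ((T (j + Fin.ofNat L.length t)).1, e (j + Fin.ofNat L.length t)) := by
    rw [sylCoefs]
    have h2 : List.zipWith sylCoef L ((List.ofFn fun j => ((T j).1, e j)).rotate t) =
        List.ofFn fun j : Fin L.length => sylCoef (L.getD (j : ℕ) d)
          ((T (j + Fin.ofNat L.length t)).1, e (j + Fin.ofNat L.length t)) := by
      apply List.ext_getElem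
      · simp
      · intro n h3 h4
        rw [List.getElem_zipWith, List.getElem_ofFn, List.getElem_rotate, List.getElem_ofFn]
        have h5 : n < L.length := by simpa using h4
        rw [List.getD_eq_getElem _ _ h5]
        have h6 : (⟨(n + t) % (List.ofFn fun j => ((T j).1, e j)).length, by
            rw [List.length_ofFn]; exact Nat.mod_lt _ (by omega)⟩ : Fin L.length) =
            (⟨n, h5⟩ : Fin L.length) + Fin.ofNat L.length t := by
          apply Fin.ext
          rw [Fin.val_add]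
          simp [List.length_ofFn]
        rw [← h6]
    rw [h2, List.prod_ofFn]
  rw [h1]
  refine Fintype.prod_equiv (Equiv.addRight (Fin.ofNat L.length t)) _ _ ?_
  intro j
  simp

theorem rot_dual [DecidableEq α] {s : ℕ} [NeZero s] (L L' : List (α × ℤ)) (hL : L.length = s)
    (hL' : L'.length = s) (d : α × ℤ) (t : Fin s)
    (h : (fun j : Fin s => L.getD ((j - t : Fin s) : ℕ) d) = fun j : Fin s => L'.getD (j : ℕ) d) :
    L' = L.rotate ((-t : Fin s) : ℕ) := by
  subst hL
  apply List.ext_getElem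
  · rw [List.length_rotate, hL']
  · intro n h1 h2
    have h3 := congrFun h ⟨n, by omega⟩
    simp only at h3
    rw [List.getElem_rotate]
    rw [List.getD_eq_getElem L' d h1, List.getD_eq_getElem L d (Fin.is_lt _)] at h3
    rw [← h3]
    congr 1
    rw [sub_eq_add_neg, Fin.val_add]

/-- common core of the two statements below -/
theorem sum_dual [DecidableEq α] {s : ℕ} [NeZero s] (L L' : List (α × ℤ)) (hL : L.length = s)
    (hL' : L'.length = s) (h0 : ∀ p ∈ L, p.2 ≠ 0) (h0' : ∀ p ∈ L', p.2 ≠ 0) (d : α × ℤ) :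
    ∃ (E : Finset (Fin s → ℕ)) (c : (Fin s → ℕ) → ℚ) (M : (Fin s → ℕ) → List (α × ℕ)),
      (∀ e ∈ E, (M e).length = s ∧ ∀ q ∈ M e, 1 ≤ q.2) ∧
      ∀ K : List (α × ℤ), (K = L ∨ K = L') →
        ∑ e ∈ E, c e * ∑ t ∈ range s, sylCoefs K ((M e).rotate t) =
        ∑ t : Fin s, if (fun j : Fin s => K.getD ((j - t : Fin s) : ℕ) d) =
          (fun j : Fin s => L'.getD (j : ℕ) d) then 1 else 0 := by
  obtain ⟨E, c, hE, hc⟩ := dual_prod_dual ((L.map Prod.snd ++ L'.map Prod.snd).toFinset) (by
      rw [List.mem_toFinset, List.mem_append, List.mem_map, List.mem_map]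
      rintro (⟨p, hp, hp0⟩ | ⟨p, hp, hp0⟩)
      · exact h0 p hp hp0
      · exact h0' p hp hp0) (fun j : Fin s => L'.getD (j : ℕ) d) (by
      intro j
      rw [List.mem_toFinset, List.mem_append]
      right
      rw [List.getD_eq_getElem L' d (by rw [hL']; exact j.2)]
      exact List.mem_map_of_mem (List.getElem_mem _))
  refine ⟨E, c, fun e => List.ofFn fun j : Fin s => ((L'.getD (j : ℕ) d).1, e j), ?_, ?_⟩
  · intro e he
    refine ⟨List.length_ofFn, ?_⟩
    intro q hq
    rw [List.mem_ofFn] at hq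
    obtain ⟨j, rfl⟩ := hq
    exact hE e he j
  · intro K hK
    have hKs : K.length = s := by rcases hK with rfl | rfl <;> assumption
    have h1 : ∀ e ∈ E, c e * ∑ t ∈ range s,
        sylCoefs K ((List.ofFn fun j : Fin s => ((L'.getD (j : ℕ) d).1, e j)).rotate t) =
        ∑ t : Fin s, c e * ∏ j : Fin s, sylCoef (K.getD ((j - t : Fin s) : ℕ) d)
          ((L'.getD (j : ℕ) d).1, e j) := by
      intro e _
      rw [Finset.mul_sum, ← Fin.sum_univ_eq_sum_range (fun t => c e *
        sylCoefs K ((List.ofFn fun j : Fin s => ((L'.getD (j : ℕ) d).1, e j)).rotate t)) s]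
      apply Finset.sum_congr rfl
      intro t _
      rw [sylCoefs_rotate_dual K hKs (fun j : Fin s => L'.getD (j : ℕ) d) e t d]
      congr 1
      apply Finset.prod_congr rfl
      intro j _
      have h2 : Fin.ofNat s (t : ℕ) = t := Fin.ofNat_val_eq_self t
      rw [h2]
    rw [Finset.sum_congr rfl h1, Finset.sum_comm]
    apply Finset.sum_congr rfl
    intro t _
    apply hc (fun j : Fin s => K.getD ((j - t : Fin s) : ℕ) d)
    intro j
    rw [List.mem_toFinset, List.mem_append,
      List.getD_eq_getElem K d (by rw [hKs]; exact Fin.is_lt _)]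
    rcases hK with rfl | rfl
    · exact Or.inl (List.mem_map_of_mem (List.getElem_mem _))
    · exact Or.inr (List.mem_map_of_mem (List.getElem_mem _))

/-- combination for syllables -/
theorem rot_of_sum [DecidableEq α] (s : ℕ) (L L' : List (α × ℤ)) (hL : L.length = s) (hL' : L'.length = s)
    (h0 : ∀ p ∈ L, p.2 ≠ 0) (h0' : ∀ p ∈ L', p.2 ≠ 0)
    (h : ∀ M : List (α × ℕ), M.length = s → (∀ q ∈ M, 1 ≤ q.2) →
      ∑ t ∈ range s, sylCoefs L (M.rotate t) = ∑ t ∈ range s, sylCoefs L' (M.rotate t)) (hs : 0 < s) :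
    ∃ t, L' = L.rotate t := by
  have : NeZero s := ⟨hs.ne'⟩
  obtain ⟨d, -⟩ : ∃ d, d ∈ L := by
    cases L with
    | nil => simp at hL; omega
    | cons a l => exact ⟨a, List.mem_cons_self⟩
  obtain ⟨E, c, M, hM, hK⟩ := sum_dual L L' hL hL' h0 h0' d
  have h1 := hK L (Or.inl rfl)
  have h2 := hK L' (Or.inr rfl)
  have h3 : ∑ e ∈ E, c e * ∑ t ∈ range s, sylCoefs L ((M e).rotate t) =
      ∑ e ∈ E, c e * ∑ t ∈ range s, sylCoefs L' ((M e).rotate t) := by
    apply Finset.sum_congr rfl
    intro e he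
    rw [h (M e) (hM e he).1 (hM e he).2]
  rw [h1, h2] at h3
  by_contra hcon
  push Not at hcon
  have h4 : ∑ t : Fin s, (if (fun j : Fin s => L.getD ((j - t : Fin s) : ℕ) d) =
          (fun j : Fin s => L'.getD (j : ℕ) d) then (1 : ℚ) else 0) = 0 := by
    apply Finset.sum_eq_zero
    intro t _
    rw [if_neg]
    intro h5
    exact hcon _ (rot_dual L L' hL hL' d t h5)
  rw [h4] at h3
  have h5 : (1 : ℚ) ≤ ∑ t : Fin s, (if (fun j : Fin s => L'.getD ((j - t : Fin s) : ℕ) d) =
          (fun j : Fin s => L'.getD (j : ℕ) d) then (1 : ℚ) else 0) := by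
    have h6 := Finset.single_le_sum (f := fun t : Fin s =>
      (if (fun j : Fin s => L'.getD ((j - t : Fin s) : ℕ) d) =
          (fun j : Fin s => L'.getD (j : ℕ) d) then (1 : ℚ) else 0))
      (fun t _ => by split_ifs <;> norm_num) (Finset.mem_univ (0 : Fin s))
    refine le_trans ?_ h6
    simp
  rw [← h3] at h5
  norm_num at h5

theorem ne_zero_of_sum [DecidableEq α] (s : ℕ) (L : List (α × ℤ)) (hL : L.length = s)
    (h0 : ∀ p ∈ L, p.2 ≠ 0) (hs : 0 < s) :
    ∃ M : List (α × ℕ), M.length = s ∧ (∀ q ∈ M, 1 ≤ q.2) ∧ ∑ t ∈ range s, sylCoefs L (M.rotate t) ≠ 0 := by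
  have : NeZero s := ⟨hs.ne'⟩
  obtain ⟨d, -⟩ : ∃ d, d ∈ L := by
    cases L with
    | nil => simp at hL; omega
    | cons a l => exact ⟨a, List.mem_cons_self⟩
  obtain ⟨E, c, M, hM, hK⟩ := sum_dual L L hL hL h0 h0 d
  have h1 := hK L (Or.inl rfl)
  by_contra hcon
  push Not at hcon
  have h3 : ∑ e ∈ E, c e * ∑ t ∈ range s, sylCoefs L ((M e).rotate t) = 0 := by
    apply Finset.sum_eq_zero
    intro e he
    rw [hcon (M e) (hM e he).1 (hM e he).2, mul_zero]
  rw [h3] at h1
  have h5 : (1 : ℚ) ≤ ∑ t : Fin s, (if (fun j : Fin s => L.getD ((j - t : Fin s) : ℕ) d) =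
          (fun j : Fin s => L.getD (j : ℕ) d) then (1 : ℚ) else 0) := by
    have h6 := Finset.single_le_sum (f := fun t : Fin s =>
      (if (fun j : Fin s => L.getD ((j - t : Fin s) : ℕ) d) =
          (fun j : Fin s => L.getD (j : ℕ) d) then (1 : ℚ) else 0))
      (fun t _ => by split_ifs <;> norm_num) (Finset.mem_univ (0 : Fin s))
    refine le_trans ?_ h6
    simp
  rw [← h1] at h5
  norm_num at h5

end Pool.MP6567.A
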