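import Pool.Agent.Lib.MP_6567fb_al.A.ADefs

/-!
# Part A, module Ord: free groups have two unique products (local indicability)
-/

set_option autoImplicit false

open scoped Pointwise

namespace Pool.MP6567.A

open Finset

/-- local indicability of free groups (Nielsen-Schreier) -/
theorem locally_indicable {G : Type} [Group G] [IsFreeGroup G] (S : Set G) (hS : ∃ s ∈ S, s ≠ 1) :
    ∃ φ : Subgroup.closure S →* Multiplicative ℤ,
      ∃ (s : G) (hs : s ∈ S), φ ⟨s, Subgroup.subset_closure hs⟩ ≠ 1 := by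
  classical
  obtain ⟨s, hs, hs1⟩ := hS
  have hne : Nonempty (IsFreeGroup.Generators (Subgroup.closure S)) := by
    by_contra hempty
    rw [not_nonempty_iff] at hempty
    have hsub : Subsingleton (Subgroup.closure S) :=
      (IsFreeGroup.toFreeGroup (Subgroup.closure S)).toEquiv.subsingleton
    have := hsub.elim (⟨s, Subgroup.subset_closure hs⟩ : Subgroup.closure S) 1
    exact hs1 (congrArg Subtype.val this)
  obtain ⟨a⟩ := hne
  let φ : Subgroup.closure S →* Multiplicative ℤ :=
    IsFreeGroup.lift (fun b => if b = a then Multiplicative.ofAdd (1 : ℤ) else 1)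
  refine ⟨φ, ?_⟩
  by_contra hcon
  push Not at hcon
  have hφ : φ = 1 := by
    apply MonoidHom.eq_of_eqOn_dense (Subgroup.closure_closure_coe_preimage (k := S))
    intro x hx
    have h1 : (x : G) ∈ S := hx
    have := hcon x h1
    simpa using this
  have h2 : φ (IsFreeGroup.of a) = Multiplicative.ofAdd (1 : ℤ) := by
    show IsFreeGroup.lift _ (IsFreeGroup.of a) = _
    rw [IsFreeGroup.lift_of, if_pos rfl]
  rw [hφ] at h2
  have h3 : (1 : Multiplicative ℤ) = Multiplicative.ofAdd (1 : ℤ) := h2
  have h4 : (0 : ℤ) = 1 := h3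
  omega

theorem unique_prods_aux {G : Type} [Group G] [IsFreeGroup G] (m : ℕ) :
    ∀ A B : Finset G, A.card + B.card ≤ m → A.Nonempty → B.Nonempty →
      ∃ a0 ∈ A, ∃ b0 ∈ B, UniqueMul A B a0 b0 := by
  classical
  induction m with
  | zero =>
    intro A B h hA hB
    have := Finset.card_pos.2 hA
    omega
  | succ m ih =>
    intro A B h hA hB
    obtain ⟨a1, ha1⟩ := hA
    obtain ⟨b1, hb1⟩ := hB
    set S : Set G := {x | (∃ a ∈ A, x = a1⁻¹ * a) ∨ ∃ b ∈ B, x = b * b1⁻¹} with hS
    by_cases htriv : ∃ s ∈ S, s ≠ 1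
    · obtain ⟨φ, s, hs, hφ⟩ := locally_indicable S htriv
      -- the two heights
      have hmA : ∀ a ∈ A, a1⁻¹ * a ∈ Subgroup.closure S := fun a ha =>
        Subgroup.subset_closure (Or.inl ⟨a, ha, rfl⟩)
      have hmB : ∀ b ∈ B, b * b1⁻¹ ∈ Subgroup.closure S := fun b hb =>
        Subgroup.subset_closure (Or.inr ⟨b, hb, rfl⟩)
      set f : G → ℤ := fun a => if ha : a1⁻¹ * a ∈ Subgroup.closure S then
        (φ ⟨a1⁻¹ * a, ha⟩).toAdd else 0 with hf
      set g : G → ℤ := fun b => if hb : b * b1⁻¹ ∈ Subgroup.closure S then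
        (φ ⟨b * b1⁻¹, hb⟩).toAdd else 0 with hg
      have hfa1 : f a1 = 0 := by
        have e : f a1 = (φ ⟨a1⁻¹ * a1, hmA a1 ha1⟩).toAdd := by
          rw [hf]; exact dif_pos (hmA a1 ha1)
        rw [e]
        have : (⟨a1⁻¹ * a1, hmA a1 ha1⟩ : Subgroup.closure S) = 1 := Subtype.ext (by simp)
        rw [this, map_one]; rfl
      have hgb1 : g b1 = 0 := by
        have e : g b1 = (φ ⟨b1 * b1⁻¹, hmB b1 hb1⟩).toAdd := by
          rw [hg]; exact dif_pos (hmB b1 hb1)
        rw [e]
        have : (⟨b1 * b1⁻¹, hmB b1 hb1⟩ : Subgroup.closure S) = 1 := Subtype.ext (by simp)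
        rw [this, map_one]; rfl
      have hsum : ∀ a ∈ A, ∀ b ∈ B, ∀ a' ∈ A, ∀ b' ∈ B, a * b = a' * b' →
          f a + g b = f a' + g b' := by
        intro a ha b hb a' ha' b' hb' hab
        have e1 : f a = (φ ⟨a1⁻¹ * a, hmA a ha⟩).toAdd := by rw [hf]; exact dif_pos (hmA a ha)
        have e2 : g b = (φ ⟨b * b1⁻¹, hmB b hb⟩).toAdd := by rw [hg]; exact dif_pos (hmB b hb)
        have e3 : f a' = (φ ⟨a1⁻¹ * a', hmA a' ha'⟩).toAdd := by rw [hf]; exact dif_pos (hmA a' ha')
        have e4 : g b' = (φ ⟨b' * b1⁻¹, hmB b' hb'⟩).toAdd := by rw [hg]; exact dif_pos (hmB b' hb')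
        rw [e1, e2, e3, e4, ← toAdd_mul, ← toAdd_mul, ← map_mul, ← map_mul]
        congr 2
        apply Subtype.ext
        show a1⁻¹ * a * (b * b1⁻¹) = a1⁻¹ * a' * (b' * b1⁻¹)
        rw [mul_assoc, ← mul_assoc a, hab]
        group
      obtain ⟨aM, haM, haM'⟩ := Finset.exists_max_image A f ⟨a1, ha1⟩
      obtain ⟨bM, hbM, hbM'⟩ := Finset.exists_max_image B g ⟨b1, hb1⟩
      set A' := A.filter fun a => f a = f aM with hA'
      set B' := B.filter fun b => g b = g bM with hB'
      have hcard : A'.card + B'.card < A.card + B.card := by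
        have c1 : A'.card ≤ A.card := Finset.card_filter_le _ _
        have c2 : B'.card ≤ B.card := Finset.card_filter_le _ _
        by_contra hge
        have c3 : A' = A := Finset.eq_of_subset_of_card_le (Finset.filter_subset _ _) (by omega)
        have c4 : B' = B := Finset.eq_of_subset_of_card_le (Finset.filter_subset _ _) (by omega)
        have d1 : ∀ a ∈ A, f a = 0 := by
          intro a ha
          have h1 : f a = f aM := by
            have : a ∈ A' := c3 ▸ ha
            exact (Finset.mem_filter.1 this).2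
          have h2 : f a1 = f aM := by
            have : a1 ∈ A' := c3 ▸ ha1
            exact (Finset.mem_filter.1 this).2
          rw [h1, ← h2, hfa1]
        have d2 : ∀ b ∈ B, g b = 0 := by
          intro b hb
          have h1 : g b = g bM := by
            have : b ∈ B' := c4 ▸ hb
            exact (Finset.mem_filter.1 this).2
          have h2 : g b1 = g bM := by
            have : b1 ∈ B' := c4 ▸ hb1
            exact (Finset.mem_filter.1 this).2
          rw [h1, ← h2, hgb1]
        rcases hs with ⟨a, ha, rfl⟩ | ⟨b, hb, rfl⟩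
        · apply hφ
          have e1 : f a = (φ ⟨a1⁻¹ * a, hmA a ha⟩).toAdd := by rw [hf]; exact dif_pos (hmA a ha)
          rw [d1 a ha] at e1
          exact Multiplicative.toAdd.injective e1.symm
        · apply hφ
          have e1 : g b = (φ ⟨b * b1⁻¹, hmB b hb⟩).toAdd := by rw [hg]; exact dif_pos (hmB b hb)
          rw [d2 b hb] at e1
          exact Multiplicative.toAdd.injective e1.symm
      obtain ⟨a0, ha0, b0, hb0, hu⟩ := ih A' B' (by omega)
        ⟨aM, Finset.mem_filter.2 ⟨haM, rfl⟩⟩ ⟨bM, Finset.mem_filter.2 ⟨hbM, rfl⟩⟩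
      obtain ⟨ha0A, ha0f⟩ := Finset.mem_filter.1 ha0
      obtain ⟨hb0B, hb0g⟩ := Finset.mem_filter.1 hb0
      refine ⟨a0, ha0A, b0, hb0B, ?_⟩
      intro a b ha hb hab
      have h1 := hsum a ha b hb a0 ha0A b0 hb0B hab
      have h2 := haM' a ha
      have h3 := hbM' b hb
      apply hu
      · exact Finset.mem_filter.2 ⟨ha, by omega⟩
      · exact Finset.mem_filter.2 ⟨hb, by omega⟩
      · exact hab
    · push Not at htriv
      refine ⟨a1, ha1, b1, hb1, ?_⟩
      intro a b ha hb _
      constructor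
      · have := htriv (a1⁻¹ * a) (Or.inl ⟨a, ha, rfl⟩)
        rw [inv_mul_eq_one] at this
        exact this.symm
      · have := htriv (b * b1⁻¹) (Or.inr ⟨b, hb, rfl⟩)
        rw [mul_inv_eq_one] at this
        exact this

/-! ### Ord : the free group has two unique products -/
theorem twoUniqueProds {α : Type} : TwoUniqueProds (FreeGroup α) := by
  have : UniqueProds (FreeGroup α) :=
    ⟨fun {A B} hA hB => unique_prods_aux (A.card + B.card) A B le_rfl hA hB⟩
  exact UniqueProds.toTwoUniqueProds_of_group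

end Pool.MP6567.A
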