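import Pool.Agent.Lib.MP_6567fb_al.A.ADefs
import Pool.Agent.Lib.MP_6567fb_al.A.Ord

/-!
# Part A, module Fox: automorphisms preserving two steps of a flag
-/

set_option autoImplicit false

open scoped Pointwise

namespace Pool.MP6567.A

open Finset

section
variable {α : Type} [DecidableEq α]

/-- the group ring -/
abbrev ZF (α : Type) : Type := MonoidAlgebra ℤ (FreeGroup α)

/-- group elements in the group ring -/
noncomputable abbrev sg (x : FreeGroup α) : ZF α := MonoidAlgebra.single x 1

theorem sg_mul (x y : FreeGroup α) : sg (x * y) = sg x * sg y := by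
  rw [sg, sg, sg, MonoidAlgebra.single_mul_single, one_mul]

theorem sg_one : sg (1 : FreeGroup α) = 1 := rfl

/-- the affine action which defines the Fox derivative -/
noncomputable def foxP (i : α) : FreeGroup α →* Equiv.Perm (ZF α) :=
  FreeGroup.lift fun j =>
    { toFun := fun m => sg (FreeGroup.of j) * m + if j = i then 1 else 0
      invFun := fun m => sg (FreeGroup.of j)⁻¹ * (m - if j = i then 1 else 0)
      left_inv := fun m => by
        beta_reduce
        rw [add_sub_cancel_right, ← mul_assoc, ← sg_mul, inv_mul_cancel, sg_one, one_mul]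
      right_inv := fun m => by
        beta_reduce
        rw [← mul_assoc, ← sg_mul, mul_inv_cancel, sg_one, one_mul, sub_add_cancel] }

/-- the Fox derivative -/
noncomputable def fox (i : α) (x : FreeGroup α) : ZF α := foxP i x 0

theorem foxP_of (i j : α) (m : ZF α) :
    foxP i (FreeGroup.of j) m = sg (FreeGroup.of j) * m + if j = i then 1 else 0 := by
  rw [foxP, FreeGroup.lift_apply_of]
  rfl

theorem foxP_of_inv (i j : α) (m : ZF α) :
    foxP i (FreeGroup.of j)⁻¹ m = sg (FreeGroup.of j)⁻¹ * (m - if j = i then 1 else 0) := by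
  rw [foxP, map_inv, FreeGroup.lift_apply_of]
  rfl

theorem foxP_apply (i : α) (x : FreeGroup α) (m : ZF α) : foxP i x m = sg x * m + fox i x := by
  unfold fox
  induction x using FreeGroup.induction_on generalizing m with
  | C1 => rw [map_one, sg_one, one_mul, Equiv.Perm.one_apply, Equiv.Perm.one_apply, add_zero]
  | of j => rw [foxP_of, foxP_of, mul_zero, zero_add]
  | inv_of j _ => rw [foxP_of_inv, foxP_of_inv, zero_sub, mul_sub, mul_neg, sub_eq_add_neg]
  | mul x y hx hy =>
    rw [map_mul, Equiv.Perm.mul_apply, Equiv.Perm.mul_apply, hy, hx, hx (foxP i y 0), sg_mul]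
    rw [mul_add, mul_assoc, add_assoc]

theorem fox_one (i : α) : fox i 1 = 0 := by
  rw [fox, map_one, Equiv.Perm.one_apply]

theorem fox_mul (i : α) (x y : FreeGroup α) : fox i (x * y) = fox i x + sg x * fox i y := by
  have h : fox i (x * y) = foxP i x (fox i y) := by
    rw [fox, map_mul, Equiv.Perm.mul_apply]
    rfl
  rw [h, foxP_apply, add_comm]

theorem fox_of (i j : α) : fox i (FreeGroup.of j) = if j = i then 1 else 0 := by
  rw [fox, foxP_of, mul_zero, zero_add]

theorem fox_inv (i : α) (x : FreeGroup α) : fox i x⁻¹ = -(sg x⁻¹ * fox i x) := by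
  have h := fox_mul i x⁻¹ x
  rw [inv_mul_cancel, fox_one] at h
  exact eq_neg_of_add_eq_zero_left h.symm

/-- one letter -/
theorem mk_single_true (j : α) : (FreeGroup.mk [(j, true)] : FreeGroup α) = FreeGroup.of j := rfl

theorem mk_single_false (j : α) :
    (FreeGroup.mk [(j, false)] : FreeGroup α) = (FreeGroup.of j)⁻¹ := rfl

theorem mk_cons (a : α × Bool) (L : List (α × Bool)) :
    (FreeGroup.mk (a :: L) : FreeGroup α) = FreeGroup.mk [a] * FreeGroup.mk L := rfl

/-- words which start with a given letter -/
theorem toWord_mk_mul {a : α × Bool} {L : List (α × Bool)} (hL : FreeGroup.IsReduced (a :: L))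
    {g : FreeGroup α} (hg : g.toWord <+: L) : (FreeGroup.mk [a] * g).toWord = a :: g.toWord := by
  rw [FreeGroup.toWord_mul, FreeGroup.toWord_mk, FreeGroup.reduce_singleton, List.singleton_append]
  apply FreeGroup.IsReduced.reduce_eq
  obtain ⟨t, ht⟩ := hg
  rw [← ht, ← List.cons_append] at hL
  exact List.IsChain.left_of_append hL

theorem supp_single_mul (x : FreeGroup α) (f : ZF α) (h : FreeGroup α) :
    h ∈ (sg x * f).coeff.support ↔ x⁻¹ * h ∈ f.coeff.support := by
  rw [Finsupp.mem_support_iff, Finsupp.mem_support_iff, MonoidAlgebra.coeff_single_mul_apply, one_mul]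

theorem card_supp_single_mul (x : FreeGroup α) (f : ZF α) :
    (sg x * f).coeff.support.card = f.coeff.support.card := by
  rw [MonoidAlgebra.support_coeff_single_mul f 1 (fun y => by rw [one_mul]) x, Finset.card_map]

/-- the support of the derivative of a reduced word -/
theorem fox_supp (i : α) (L : List (α × Bool)) : FreeGroup.IsReduced L →
    (∀ g ∈ (fox i (FreeGroup.mk L)).coeff.support, g.toWord <+: L) ∧
    (L.head? ≠ some (i, true) → (fox i (FreeGroup.mk L)).coeff 1 = 0) ∧
    (fox i (FreeGroup.mk L)).coeff.support.card = L.countP (fun a => decide (a.1 = i)) := by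
  induction L with
  | nil =>
    intro _
    have h : fox i (FreeGroup.mk ([] : List (α × Bool))) = 0 := fox_one i
    rw [h]
    simp
  | cons a L ih =>
    intro hL
    have hL' : FreeGroup.IsReduced L := List.IsChain.tail hL
    obtain ⟨h1, h2, h3⟩ := ih hL'
    -- elements of translated supports
    have key : ∀ f : ZF α, (∀ g ∈ f.coeff.support, g.toWord <+: L) →
        (∀ g ∈ (sg (FreeGroup.mk [a]) * f).coeff.support, g.toWord <+: a :: L) ∧
        (sg (FreeGroup.mk [a]) * f).coeff 1 = 0 := by
      intro f hf
      have h4 : ∀ g ∈ (sg (FreeGroup.mk [a]) * f).coeff.support,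
          g.toWord = a :: ((FreeGroup.mk [a])⁻¹ * g).toWord ∧
          ((FreeGroup.mk [a])⁻¹ * g).toWord <+: L := by
        intro g hg
        rw [supp_single_mul] at hg
        have h5 := hf _ hg
        have h6 := toWord_mk_mul hL h5
        rw [mul_inv_cancel_left] at h6
        exact ⟨h6, h5⟩
      constructor
      · intro g hg
        rw [(h4 g hg).1]
        exact (List.prefix_cons_inj a).2 (h4 g hg).2
      · by_contra hne
        have h7 := (h4 1 (Finsupp.mem_support_iff.2 hne)).1
        rw [FreeGroup.toWord_one] at h7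
        exact absurd h7 (by simp)
    obtain ⟨j, ε⟩ := a
    rw [mk_cons, fox_mul, List.countP_cons]
    by_cases hj : j = i
    · subst hj
      cases ε with
      | true =>
        rw [mk_single_true, fox_of, if_pos rfl]
        rw [mk_single_true] at key
        obtain ⟨k1, k2⟩ := key _ h1
        have h8 : ∀ g, g ∈ (1 + sg (FreeGroup.of j) * fox j (FreeGroup.mk L)).coeff.support ↔
            g = 1 ∨ g ∈ (sg (FreeGroup.of j) * fox j (FreeGroup.mk L)).coeff.support := by
          intro g
          rw [Finsupp.mem_support_iff, MonoidAlgebra.coeff_add, Finsupp.add_apply]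
          by_cases hg : g = 1
          · subst hg
            rw [k2, MonoidAlgebra.coeff_one_one]
            simp
          · have h9 : (1 : ZF α).coeff g = 0 := by
              rw [MonoidAlgebra.one_def, MonoidAlgebra.coeff_single]
              exact Finsupp.single_eq_of_ne hg
            rw [h9, zero_add, Finsupp.mem_support_iff]
            simp [hg]
        have h10 : (1 + sg (FreeGroup.of j) * fox j (FreeGroup.mk L)).coeff.support =
            insert 1 (sg (FreeGroup.of j) * fox j (FreeGroup.mk L)).coeff.support := by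
          ext g
          rw [h8, Finset.mem_insert]
        refine ⟨?_, ?_, ?_⟩
        · intro g hg
          rw [h8] at hg
          rcases hg with rfl | hg
          · rw [FreeGroup.toWord_one]
            exact List.nil_prefix
          · exact k1 g hg
        · intro hh
          exact absurd rfl hh
        · rw [h10, Finset.card_insert_of_notMem, card_supp_single_mul, h3]
          · simp
          · rw [Finsupp.notMem_support_iff]
            exact k2
      | false =>
        have hhead : L.head? ≠ some (j, true) := by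
          intro hh
          cases L with
          | nil => simp at hh
          | cons b L =>
            rw [List.head?_cons, Option.some.injEq] at hh
            subst hh
            rw [FreeGroup.isReduced_cons_cons] at hL
            exact absurd (hL.1 rfl) (by simp)
        have h0 := h2 hhead
        have h11 : fox j (FreeGroup.mk [(j, false)]) +
            sg (FreeGroup.mk [(j, false)]) * fox j (FreeGroup.mk L) =
            sg (FreeGroup.mk [(j, false)]) * (fox j (FreeGroup.mk L) - 1) := by
          rw [mk_single_false, fox_inv, fox_of, if_pos rfl, mul_sub]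
          abel
        rw [h11]
        have h8 : ∀ g, g ∈ (fox j (FreeGroup.mk L) - 1).coeff.support ↔
            g = 1 ∨ g ∈ (fox j (FreeGroup.mk L)).coeff.support := by
          intro g
          rw [Finsupp.mem_support_iff, MonoidAlgebra.coeff_sub, Finsupp.sub_apply]
          by_cases hg : g = 1
          · subst hg
            rw [h0, MonoidAlgebra.coeff_one_one]
            simp
          · have h9 : (1 : ZF α).coeff g = 0 := by
              rw [MonoidAlgebra.one_def, MonoidAlgebra.coeff_single]
              exact Finsupp.single_eq_of_ne hg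
            rw [h9, sub_zero, Finsupp.mem_support_iff]
            simp [hg]
        have h10 : (fox j (FreeGroup.mk L) - 1).coeff.support =
            insert 1 (fox j (FreeGroup.mk L)).coeff.support := by
          ext g
          rw [h8, Finset.mem_insert]
        have h12 : ∀ g ∈ (fox j (FreeGroup.mk L) - 1).coeff.support, g.toWord <+: L := by
          intro g hg
          rw [h8] at hg
          rcases hg with rfl | hg
          · rw [FreeGroup.toWord_one]
            exact List.nil_prefix
          · exact h1 g hg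
        obtain ⟨k1, k2⟩ := key _ h12
        refine ⟨k1, fun _ => k2, ?_⟩
        rw [card_supp_single_mul, h10, Finset.card_insert_of_notMem, h3]
        · simp
        · rw [Finsupp.notMem_support_iff]
          exact h0
    · have h13 : fox i (FreeGroup.mk [(j, ε)]) = 0 := by
        cases ε with
        | true => rw [mk_single_true, fox_of, if_neg hj]
        | false => rw [mk_single_false, fox_inv, fox_of, if_neg hj, mul_zero, neg_zero]
      rw [h13, zero_add]
      obtain ⟨k1, k2⟩ := key _ h1
      refine ⟨k1, fun _ => k2, ?_⟩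
      rw [card_supp_single_mul, h3]
      simp [hj]

/-- left invertible elements of the group ring are trivial -/
theorem card_supp_of_mul_eq_one {x y : ZF α} (h : x * y = 1) : y.coeff.support.card = 1 := by
  classical
  have hx : x.coeff.support.Nonempty := by
    rw [Finset.nonempty_iff_ne_empty, Ne, Finsupp.support_eq_empty]
    intro h0
    have : x = 0 := MonoidAlgebra.coeff_injective h0
    rw [this, zero_mul] at h
    exact zero_ne_one h
  have hy : y.coeff.support.Nonempty := by
    rw [Finset.nonempty_iff_ne_empty, Ne, Finsupp.support_eq_empty]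
    intro h0
    have : y = 0 := MonoidAlgebra.coeff_injective h0
    rw [this, mul_zero] at h
    exact zero_ne_one h
  by_contra hne
  have hlt : 1 < x.coeff.support.card * y.coeff.support.card := by
    have h1 := Finset.card_pos.2 hx
    have h2 := Finset.card_pos.2 hy
    have h3 : 1 * y.coeff.support.card ≤ x.coeff.support.card * y.coeff.support.card :=
      Nat.mul_le_mul_right _ h1
    omega
  obtain ⟨p, hp, q, hq, hpq, hup, huq⟩ :=
    (twoUniqueProds (α := α)).uniqueMul_of_one_lt_card hlt
  rw [Finset.mem_product] at hp hq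
  have hval : ∀ p : FreeGroup α × FreeGroup α, p.1 ∈ x.coeff.support → p.2 ∈ y.coeff.support →
      UniqueMul x.coeff.support y.coeff.support p.1 p.2 → p.1 * p.2 = 1 := by
    intro p hp1 hp2 hu
    have h1 := MonoidAlgebra.coeff_mul_mul_of_uniqueMul hu
    rw [h] at h1
    by_contra hne1
    have h2 : (1 : ZF α).coeff (p.1 * p.2) = 0 := by
      rw [MonoidAlgebra.one_def, MonoidAlgebra.coeff_single]
      exact Finsupp.single_eq_of_ne hne1
    rw [h2] at h1
    exact mul_ne_zero (Finsupp.mem_support_iff.1 hp1) (Finsupp.mem_support_iff.1 hp2) h1.symm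
  have h1 := hval p hp.1 hp.2 hup
  have h2 := hval q hq.1 hq.2 huq
  have h3 := hup hq.1 hq.2 (h2.trans h1.symm)
  exact hpq (Prod.ext h3.1.symm h3.2.symm)

/-- chain rule -/
theorem fox_chain (i : α) (ψ : FreeGroup α →* FreeGroup α) (S : Set (FreeGroup α))
    (hS : ∀ x ∈ S, fox i (ψ x) = MonoidAlgebra.mapDomainRingHom ℤ ψ (fox i x) * fox i (ψ (FreeGroup.of i)))
    {w : FreeGroup α} (hw : w ∈ Subgroup.closure S) :
    fox i (ψ w) = MonoidAlgebra.mapDomainRingHom ℤ ψ (fox i w) * fox i (ψ (FreeGroup.of i)) := by
  have hsg : ∀ x : FreeGroup α, MonoidAlgebra.mapDomainRingHom ℤ ψ (sg x) = sg (ψ x) := by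
    intro x
    simp [sg]
  induction hw using Subgroup.closure_induction with
  | mem x hx => exact hS x hx
  | one => rw [map_one, fox_one, map_zero, zero_mul]
  | mul x y _ _ hx hy =>
    rw [map_mul, fox_mul, fox_mul, hx, hy, map_add, map_mul, hsg, add_mul, mul_assoc]
  | inv x _ hx =>
    rw [map_inv, fox_inv, fox_inv, hx, map_neg, map_mul, hsg, map_inv, neg_mul, mul_assoc]

theorem exists_split {i : α} {L : List (α × Bool)} (h : L.countP (fun a => decide (a.1 = i)) = 1) :
    ∃ (L₁ L₂ : List (α × Bool)) (ε : Bool), L = L₁ ++ (i, ε) :: L₂ ∧ (∀ a ∈ L₁, a.1 ≠ i) ∧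
      ∀ a ∈ L₂, a.1 ≠ i := by
  induction L with
  | nil => simp at h
  | cons a L ih =>
    rw [List.countP_cons] at h
    by_cases ha : a.1 = i
    · have h0 : L.countP (fun a => decide (a.1 = i)) = 0 := by
        simp only [ha, decide_true, if_true] at h
        omega
      rw [List.countP_eq_zero] at h0
      refine ⟨[], L, a.2, ?_, by simp, fun b hb => by simpa using h0 b hb⟩
      rw [List.nil_append, ← ha]
    · simp only [ha, decide_false, Bool.false_eq_true, if_false, add_zero] at h
      obtain ⟨L₁, L₂, ε, rfl, h1, h2⟩ := ih h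
      refine ⟨a :: L₁, L₂, ε, rfl, ?_, h2⟩
      intro b hb
      rw [List.mem_cons] at hb
      rcases hb with rfl | hb
      · exact ha
      · exact h1 b hb

end

/-- `⟨x_j, j < k⟩` in the standard free group -/
def lowS (n k : ℕ) : Subgroup (FreeGroup (Fin n)) :=
  Subgroup.closure (Set.image (fun j => FreeGroup.of j) {j : Fin n | (j : ℕ) < k})

theorem of_mem_lowS {n k : ℕ} {j : Fin n} (h : (j : ℕ) < k) : FreeGroup.of j ∈ lowS n k :=
  Subgroup.subset_closure ⟨j, h, rfl⟩

/-- retraction onto `lowS n k` -/
noncomputable def retS (n k : ℕ) : FreeGroup (Fin n) →* FreeGroup (Fin n) :=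
  FreeGroup.lift fun j => if (j : ℕ) < k then FreeGroup.of j else 1

theorem retS_eq {n k : ℕ} {x : FreeGroup (Fin n)} (hx : x ∈ lowS n k) : retS n k x = x := by
  induction hx using Subgroup.closure_induction with
  | mem x hx =>
    obtain ⟨j, hj, rfl⟩ := hx
    have hj' : (j : ℕ) < k := hj
    beta_reduce
    rw [retS, FreeGroup.lift_apply_of, if_pos hj']
  | one => exact map_one _
  | mul x y _ _ hx hy => rw [map_mul, hx, hy]
  | inv x _ hx => rw [map_inv, hx]

theorem retS_mem {n k i : ℕ} (hik : k ≤ i + 1) (L : List (Fin n × Bool))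
    (hL : ∀ a ∈ L, (a.1 : ℕ) ≠ i) : retS n k (FreeGroup.mk L) ∈ lowS n i := by
  induction L with
  | nil => exact one_mem _
  | cons a L ih =>
    rw [mk_cons, map_mul]
    refine mul_mem ?_ (ih fun b hb => hL b (List.mem_cons_of_mem a hb))
    obtain ⟨j, ε⟩ := a
    have hj : (j : ℕ) ≠ i := hL (j, ε) List.mem_cons_self
    have h1 : retS n k (FreeGroup.of j) ∈ lowS n i := by
      rw [retS, FreeGroup.lift_apply_of]
      split_ifs with h
      · exact of_mem_lowS (by omega)
      · exact one_mem _
    cases ε with
    | true => exact h1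
    | false =>
      rw [mk_single_false, map_inv]
      exact inv_mem h1

theorem double_coset_std {n : ℕ} (i : Fin n) (ψ : MulAut (FreeGroup (Fin n)))
    (h1 : ∀ x ∈ lowS n i, ψ x ∈ lowS n i) (h2 : ψ (FreeGroup.of i) ∈ lowS n (i + 1))
    (h3 : ∃ w ∈ lowS n (i + 1), ψ w = FreeGroup.of i) :
    ∃ w ∈ lowS n i, ∃ v ∈ lowS n i, ψ (FreeGroup.of i) = w * FreeGroup.of i * v ∨
      ψ (FreeGroup.of i) = w * (FreeGroup.of i)⁻¹ * v := by
  have hlow : ∀ x ∈ lowS n i, fox i x = 0 := by
    intro x hx
    induction hx using Subgroup.closure_induction with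
    | mem x hx =>
      obtain ⟨j, hj, rfl⟩ := hx
      rw [fox_of, if_neg]
      rintro rfl
      exact absurd (show (j : ℕ) < j from hj) (lt_irrefl _)
    | one => exact fox_one _
    | mul x y _ _ hx hy => rw [fox_mul, hx, hy, mul_zero, add_zero]
    | inv x _ hx => rw [fox_inv, hx, mul_zero, neg_zero]
  obtain ⟨w, hw, hwi⟩ := h3
  have hch := fox_chain i (ψ : FreeGroup (Fin n) →* FreeGroup (Fin n))
    (Set.image (fun j => FreeGroup.of j) {j : Fin n | (j : ℕ) < i + 1}) (by
      rintro x ⟨j, hj, rfl⟩
      have hj' : (j : ℕ) < i + 1 := hj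
      by_cases hji : j = i
      · subst hji
        have : fox j (FreeGroup.of j) = 1 := by rw [fox_of, if_pos rfl]
        simp only
        rw [this, map_one, one_mul]
      · have hlt : (j : ℕ) < i := by
          have : (j : ℕ) ≠ i := fun h => hji (Fin.ext h)
          omega
        simp only
        rw [hlow _ (of_mem_lowS hlt), map_zero, zero_mul]
        exact hlow _ (h1 _ (of_mem_lowS hlt))) hw
  have hone : MonoidAlgebra.mapDomainRingHom ℤ (ψ : FreeGroup (Fin n) →* FreeGroup (Fin n))
      (fox i w) * fox i ((ψ : FreeGroup (Fin n) →* FreeGroup (Fin n)) (FreeGroup.of i)) = 1 := by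
    rw [← hch]
    have : (ψ : FreeGroup (Fin n) →* FreeGroup (Fin n)) w = FreeGroup.of i := hwi
    rw [this, fox_of, if_pos rfl]
  have hcard := card_supp_of_mul_eq_one hone
  set u : FreeGroup (Fin n) := ψ (FreeGroup.of i) with hu
  have hu' : (ψ : FreeGroup (Fin n) →* FreeGroup (Fin n)) (FreeGroup.of i) = u := rfl
  rw [hu'] at hcard
  have hmk : FreeGroup.mk u.toWord = u := FreeGroup.mk_toWord
  have h4 := (fox_supp i u.toWord FreeGroup.isReduced_toWord).2.2
  rw [hmk, hcard] at h4
  obtain ⟨L₁, L₂, ε, hL, hL1, hL2⟩ := exists_split h4.symm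
  have hu2 : u = FreeGroup.mk L₁ * FreeGroup.mk [(i, ε)] * FreeGroup.mk L₂ := by
    rw [← hmk, hL, FreeGroup.mul_mk, FreeGroup.mul_mk, List.append_assoc, List.singleton_append]
  have hu3 : u = retS n (i + 1) (FreeGroup.mk L₁) * retS n (i + 1) (FreeGroup.mk [(i, ε)]) *
      retS n (i + 1) (FreeGroup.mk L₂) := by
    rw [← map_mul, ← map_mul, ← hu2]
    exact (retS_eq h2).symm
  refine ⟨_, retS_mem (n := n) (k := (i : ℕ) + 1) le_rfl L₁ fun a ha h => hL1 a ha (Fin.ext h),
    _, retS_mem (n := n) (k := (i : ℕ) + 1) le_rfl L₂ fun a ha h => hL2 a ha (Fin.ext h), ?_⟩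
  have hof : retS n ((i : ℕ) + 1) (FreeGroup.of i) = FreeGroup.of i :=
    retS_eq (of_mem_lowS (Nat.lt_succ_self _))
  cases ε with
  | true =>
    left
    rw [mk_single_true, hof] at hu3
    exact hu3
  | false =>
    right
    rw [mk_single_false, map_inv, hof] at hu3
    exact hu3

/-- `ψ` preserves `A = ⟨b_j, j<i⟩` and `⟨b_j, j≤i⟩` => `ψ b_i ∈ A b_i^{±1} A` -/
theorem double_coset {n : ℕ} (b : FreeGroupBasis (Fin n) (FG n)) (ψ : MulAut (FG n)) (i : Fin n)
    (h1 : (low b i).map (ψ : FG n →* FG n) = low b i)
    (h2 : (low b (i + 1)).map (ψ : FG n →* FG n) = low b (i + 1)) :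
    ∃ w ∈ low b i, ∃ v ∈ low b i, ψ (b i) = w * b i * v ∨ ψ (b i) = w * (b i)⁻¹ * v := by
  have hmap : ∀ k : ℕ, (low b k).map (b.repr : FG n →* FreeGroup (Fin n)) = lowS n k := by
    intro k
    rw [low, lowS, MonoidHom.map_closure, Set.image_image]
    congr 1
    ext x
    simp only [Set.mem_image]
    constructor
    · rintro ⟨j, hj, rfl⟩
      exact ⟨j, hj, (b.repr_apply_coe j).symm⟩
    · rintro ⟨j, hj, rfl⟩
      exact ⟨j, hj, b.repr_apply_coe j⟩
  have hmem : ∀ (k : ℕ) (x : FG n), x ∈ low b k ↔ b.repr x ∈ lowS n k := by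
    intro k x
    rw [← hmap]
    constructor
    · intro hx
      exact ⟨x, hx, rfl⟩
    · rintro ⟨y, hy, hyx⟩
      have : y = x := b.repr.injective hyx
      rwa [← this]
  have hbi : b.repr.symm (FreeGroup.of i) = b i := by
    rw [MulEquiv.symm_apply_eq]
    exact (b.repr_apply_coe i).symm
  obtain ⟨w, hw, v, hv, h⟩ := double_coset_std i
    ((b.repr.symm.trans ψ).trans b.repr) (by
      intro x hx
      have h3 : b.repr.symm x ∈ low b i := by
        rw [hmem, MulEquiv.apply_symm_apply]
        exact hx
      have h4 : ψ (b.repr.symm x) ∈ low b i := by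
        rw [← h1]
        exact ⟨_, h3, rfl⟩
      exact (hmem _ _).1 h4) (by
      have h3 : b i ∈ low b (i + 1) := Subgroup.subset_closure ⟨i, Nat.lt_succ_self _, rfl⟩
      have h4 : ψ (b i) ∈ low b (i + 1) := by
        rw [← h2]
        exact ⟨_, h3, rfl⟩
      have h5 := (hmem _ _).1 h4
      rw [← hbi] at h5
      exact h5) (by
      have h3 : b i ∈ (low b (i + 1)).map (ψ : FG n →* FG n) := by
        rw [h2]
        exact Subgroup.subset_closure ⟨i, Nat.lt_succ_self _, rfl⟩
      obtain ⟨w, hw, hwi⟩ := h3
      refine ⟨b.repr w, (hmem _ _).1 hw, ?_⟩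
      have h4 : ψ w = b i := hwi
      have h5 : ((b.repr.symm.trans ψ).trans b.repr) (b.repr w) = b.repr (ψ w) := by
        simp
      exact h5.trans (by rw [h4]; exact b.repr_apply_coe i))
  have h' : ∀ z : FreeGroup (Fin n), ((b.repr.symm.trans ψ).trans b.repr) (FreeGroup.of i) = z →
      ψ (b i) = b.repr.symm z := by
    intro z hz
    rw [← hz]
    simp [hbi]
  refine ⟨b.repr.symm w, (hmem _ _).2 (by rw [MulEquiv.apply_symm_apply]; exact hw),
    b.repr.symm v, (hmem _ _).2 (by rw [MulEquiv.apply_symm_apply]; exact hv), ?_⟩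
  rcases h with h | h
  · left
    rw [h' _ h, map_mul, map_mul, hbi]
  · right
    rw [h' _ h, map_mul, map_mul, map_inv, hbi]

end Pool.MP6567.A
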