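import Mathlib

/-!
# Part A, module Mink: Minkowski's lemma

An integer matrix congruent to one modulo 3 which has a unipotent power is unipotent.
-/

set_option autoImplicit false

namespace Pool.MP6567.A

open Finset

variable {α : Type}

theorem mink_three_inj {u : α → ℤ} (h : (3 : ℤ) • u = 0) : u = 0 := by
  rcases smul_eq_zero.1 h with h | h
  · norm_num at h
  · exact h

theorem mink_zero {P : (α → ℤ) → Prop} (h : ∀ v, P v → ∃ u, P u ∧ v = (3 : ℤ) • u) {v : α → ℤ}
    (hv : P v) : v = 0 := by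
  have h1 : ∀ n : ℕ, ∃ u, P u ∧ v = (3 : ℤ) ^ n • u := by
    intro n
    induction n with
    | zero => exact ⟨v, hv, by simp⟩
    | succ n ih =>
      obtain ⟨u, hu, hvu⟩ := ih
      obtain ⟨w, hw, huw⟩ := h u hu
      exact ⟨w, hw, by rw [hvu, huw, smul_smul, pow_succ]⟩
  funext i
  by_contra hne
  obtain ⟨u, -, hvu⟩ := h1 (v i).natAbs
  have h2 : v i = (3 : ℤ) ^ (v i).natAbs * u i := by
    have := congrFun hvu i
    simpa using this
  have h3 : (v i).natAbs = 3 ^ (v i).natAbs * (u i).natAbs := by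
    conv_lhs => rw [h2]
    rw [Int.natAbs_mul, Int.natAbs_pow]
    rfl
  have h4 : (u i).natAbs ≠ 0 := by
    intro h0
    rw [h0, mul_zero] at h3
    exact hne (Int.natAbs_eq_zero.1 h3)
  have h5 : (v i).natAbs < 3 ^ (v i).natAbs := Nat.lt_pow_self (by norm_num)
  have h6 : 3 ^ (v i).natAbs * 1 ≤ 3 ^ (v i).natAbs * (u i).natAbs :=
    Nat.mul_le_mul_left _ (Nat.pos_of_ne_zero h4)
  omega

theorem mink_ker (A : Module.End ℤ (α → ℤ)) (h3 : ∀ v, ∃ u, A v - v = (3 : ℤ) • u) {p : ℕ}
    (hp : p.Prime) {v : α → ℤ} (hv : (∑ i ∈ range p, A ^ i : Module.End ℤ (α → ℤ)) v = 0) : v = 0 := by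
  set S : Module.End ℤ (α → ℤ) := ∑ i ∈ range p, A ^ i with hS
  have hSA : ∀ v, S (A v) = A (S v) := by
    intro v
    have hc : Commute S A := by
      rw [hS]
      exact Commute.sum_left _ _ _ fun i _ => (Commute.refl A).pow_left i
    exact congrArg (fun f : Module.End ℤ (α → ℤ) => f v) hc.eq
  have ha : ∀ v, S v = 0 → ∃ u, S u = 0 ∧ A v = v + (3 : ℤ) • u := by
    intro v hv
    obtain ⟨u, hu⟩ := h3 v
    refine ⟨u, ?_, by rw [← hu]; abel⟩
    apply mink_three_inj
    rw [← map_smul, ← hu, map_sub, hSA, hv, map_zero, sub_zero]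
  have hb : ∀ i : ℕ, ∀ v, S v = 0 → ∃ u, S u = 0 ∧ (A ^ i) v = v + (3 : ℤ) • u := by
    intro i
    induction i with
    | zero =>
      intro v _
      exact ⟨0, map_zero _, by simp⟩
    | succ i ih =>
      intro v hv
      obtain ⟨u, hu, hvu⟩ := ih v hv
      obtain ⟨w, hw, hvw⟩ := ha v hv
      refine ⟨w + A u, ?_, ?_⟩
      · rw [map_add, hw, hSA, hu, map_zero, add_zero]
      · rw [pow_succ', Module.End.mul_apply, hvu, map_add, map_smul, hvw, smul_add]
        abel
  refine mink_zero (P := fun v => S v = 0) ?_ hv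
  intro v hv
  by_cases hp3 : p = 3
  · subst hp3
    have h1 : v + A v + A (A v) = 0 := by
      have h2 : S v = v + A v + A (A v) := by
        rw [hS, Finset.sum_range_succ, Finset.sum_range_succ, Finset.sum_range_one]
        simp [pow_succ]
      rw [← h2, hv]
    obtain ⟨u, hu, hvu⟩ := ha v hv
    obtain ⟨w, hw, huw⟩ := ha u hu
    refine ⟨-(u + w), ?_, ?_⟩
    · rw [map_neg, map_add, hu, hw, add_zero, neg_zero]
    · rw [hvu, map_add, map_smul, hvu, huw] at h1
      funext i
      have h2 := congrFun h1 i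
      simp only [Pi.add_apply, Pi.smul_apply, smul_eq_mul, Pi.zero_apply, Pi.neg_apply] at h2 ⊢
      omega
  · choose u hu hvu using fun i => hb i v hv
    have h1 : (0 : α → ℤ) = (p : ℤ) • v + (3 : ℤ) • ∑ i ∈ range p, u i := by
      rw [← hv, hS, LinearMap.sum_apply, Finset.sum_congr rfl fun i _ => hvu i,
        Finset.sum_add_distrib, Finset.sum_const, card_range, Finset.smul_sum]
      rw [natCast_zsmul]
    have hcop : IsCoprime (p : ℤ) (3 : ℤ) := by
      exact Nat.isCoprime_iff_coprime.2 ((Nat.coprime_primes hp Nat.prime_three).2 hp3)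
    obtain ⟨a, b, hab⟩ := hcop
    refine ⟨b • v - a • ∑ i ∈ range p, u i, ?_, ?_⟩
    · rw [map_sub, map_smul, map_smul, hv, map_sum, Finset.sum_eq_zero fun i _ => hu i, smul_zero,
        smul_zero, sub_zero]
    · funext i
      have h2 := congrFun h1 i
      simp only [Pi.add_apply, Pi.smul_apply, smul_eq_mul, Pi.zero_apply, Pi.sub_apply] at h2 ⊢
      set U := (∑ i ∈ range p, u i) i
      have h4 : v i = (a * p + b * 3) * v i := by rw [hab, one_mul]
      have h5 : (p : ℤ) * v i = -(3 * U) := by linarith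
      calc v i = (a * p + b * 3) * v i := h4
        _ = a * (p * v i) + 3 * (b * v i) := by ring
        _ = 3 * (b * v i - a * U) := by rw [h5]; ring

theorem mink_prime (A : Module.End ℤ (α → ℤ)) (h3 : ∀ v, ∃ u, A v - v = (3 : ℤ) • u) {p : ℕ}
    (hp : p.Prime) {N : ℕ} (h : (A ^ p - 1) ^ N = 0) : (A - 1) ^ N = 0 := by
  set S : Module.End ℤ (α → ℤ) := ∑ i ∈ range p, A ^ i with hS
  have hinj : ∀ v, S v = 0 → v = 0 := fun v hv => mink_ker A h3 hp hv
  have hc : Commute S (A - 1) := by
    rw [hS]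
    exact Commute.sum_left _ _ _ fun i _ =>
      ((Commute.refl A).pow_left i).sub_right (Commute.one_right _)
  have h1 : S ^ N * (A - 1) ^ N = 0 := by
    rw [← hc.mul_pow, geom_sum_mul, h]
  have h2 : ∀ n : ℕ, ∀ v, (S ^ n) v = 0 → v = 0 := by
    intro n
    induction n with
    | zero => intro v hv; simpa using hv
    | succ n ih =>
      intro v hv
      rw [pow_succ, Module.End.mul_apply] at hv
      exact hinj v (ih _ hv)
  ext1 v
  apply h2 N
  have h4 := congrArg (fun f : Module.End ℤ (α → ℤ) => f v) h1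
  simpa [Module.End.mul_apply] using h4

/-- Minkowski -/
theorem minkowski [Finite α] (A : (α → ℤ) →ₗ[ℤ] (α → ℤ)) (h3 : ∀ v, ∃ u, A v - v = (3 : ℤ) • u) (k : ℕ)
    (hk : 0 < k) (N : ℕ) (h : (A ^ k - 1) ^ N = 0) : ∃ N', (A - 1) ^ N' = 0 := by
  refine ⟨N, ?_⟩
  have hpow : ∀ m : ℕ, ∀ v, ∃ u, (A ^ m) v - v = (3 : ℤ) • u := by
    intro m
    induction m with
    | zero => exact fun v => ⟨0, by simp⟩
    | succ m ih =>
      intro v
      obtain ⟨u, hu⟩ := ih v
      obtain ⟨w, hw⟩ := h3 ((A ^ m) v)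
      refine ⟨u + w, ?_⟩
      rw [pow_succ', Module.End.mul_apply, smul_add, ← hu, ← hw]
      abel
  have key : ∀ k : ℕ, 0 < k → (A ^ k - 1) ^ N = 0 → (A - 1) ^ N = 0 := by
    intro k
    induction k using Nat.strong_induction_on with
    | _ k ih =>
      intro hk h
      by_cases h1 : k = 1
      · rw [h1, pow_one] at h
        exact h
      · have hp := Nat.minFac_prime h1
        obtain ⟨m, hm⟩ := Nat.minFac_dvd k
        have hm0 : 0 < m := by
          rcases Nat.eq_zero_or_pos m with h0 | h0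
          · rw [h0, mul_zero] at hm
            omega
          · exact h0
        have hmk : m < k := by
          have h2 := hp.two_le
          have h3 : 2 * m ≤ k.minFac * m := Nat.mul_le_mul_right m h2
          omega
        apply ih m hmk hm0
        apply mink_prime (A ^ m) (hpow m) hp
        rw [← pow_mul, mul_comm m, ← hm]
        exact h
  exact key k hk h

end Pool.MP6567.A
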