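import Pool.Agent.Lib.MP_6567fb_al.A.Rho
import Pool.Agent.Lib.MP_6567fb_al.A.Mink
import Pool.Agent.Lib.MP_6567fb_al.A.Pur
import Pool.Agent.Lib.MP_6567fb_al.A.Fox

/-!
# Honest flags (A.10)
-/

set_option autoImplicit false

open scoped Pointwise

namespace Pool.MP6567.A

open Pool.MP6567.Mag Pool.Agent.Lib.MP_6567fb_al Finset

section
variable {n : ℕ}

theorem low_mono_fl (b : FreeGroupBasis (Fin n) (FG n)) {i j : ℕ} (h : i ≤ j) : low b i ≤ low b j := by
  unfold low
  apply Subgroup.closure_mono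
  rintro _ ⟨l, hl, rfl⟩
  exact ⟨l, lt_of_lt_of_le hl h, rfl⟩

theorem mem_low (b : FreeGroupBasis (Fin n) (FG n)) {i : ℕ} {j : Fin n} (h : (j : ℕ) < i) :
    b j ∈ low b i := Subgroup.subset_closure ⟨j, h, rfl⟩

theorem low_le {b : FreeGroupBasis (Fin n) (FG n)} {i : ℕ} {K : Subgroup (FG n)}
    (h : ∀ j : Fin n, (j : ℕ) < i → b j ∈ K) : low b i ≤ K := by
  unfold low
  rw [Subgroup.closure_le]
  rintro _ ⟨l, hl, rfl⟩
  exact h l hl

theorem basis_closure {F : Type} [Group F] (b : FreeGroupBasis (Fin n) F) :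
    Subgroup.closure (Set.range b) = ⊤ := by
  have h1 : Set.range b = (b.repr.symm.toMonoidHom) '' (Set.range (FreeGroup.of : Fin n → FreeGroup (Fin n))) := by
    rw [← Set.range_comp]; rfl
  rw [h1, ← MonoidHom.map_closure, FreeGroup.closure_range_of, ← MonoidHom.range_eq_map]
  exact MonoidHom.range_eq_top.2 b.repr.symm.surjective

/-- retraction onto `⟨b_j, j<i⟩` -/
theorem low_retract (b : FreeGroupBasis (Fin n) (FG n)) (i : ℕ) :
    ∃ r : FG n →* FG n, (∀ x, r x ∈ low b i) ∧ ∀ x ∈ low b i, r x = x := by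
  classical
  set r : FG n →* FG n := b.lift fun j => if (j : ℕ) < i then b j else 1 with hr
  have hb : ∀ j, r (b j) = if (j : ℕ) < i then b j else 1 := fun j => by
    rw [hr, FreeGroupBasis.lift_apply_apply, FreeGroupBasis.repr_apply_coe, FreeGroup.lift_apply_of]
  refine ⟨r, fun x => ?_, fun x hx => ?_⟩
  · have h1 : r.range ≤ low b i := by
      have h2 : ∀ j, r (b j) ∈ low b i := by
        intro j
        rw [hb]
        split_ifs with h
        · exact mem_low b h
        · exact Subgroup.one_mem _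
      have h3 : (⊤ : Subgroup (FG n)) ≤ (low b i).comap r := by
        rw [← basis_closure b, Subgroup.closure_le]
        rintro _ ⟨j, rfl⟩
        exact h2 j
      rintro _ ⟨x, rfl⟩
      exact h3 (Subgroup.mem_top x)
    exact h1 ⟨x, rfl⟩
  · have : low b i ≤ (r.eqLocus (MonoidHom.id _)) := low_le fun j hj => by
      change r (b j) = b j
      rw [hb, if_pos hj]
    exact this hx

theorem tri_map_le (b : FreeGroupBasis (Fin n) (FG n)) (g : MulAut (FG n)) (h : Tri b g) (i : ℕ) :
    (low b i).map (g : FG n →* FG n) ≤ low b i := by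
  rw [Subgroup.map_le_iff_le_comap]
  refine low_le fun j hj => ?_
  obtain ⟨w, hw, v, hv, e⟩ := h j
  change g (b j) ∈ low b i
  rw [e]
  exact Subgroup.mul_mem _ (Subgroup.mul_mem _ (low_mono_fl b hj.le hw) (mem_low b hj))
    (low_mono_fl b hj.le hv)

theorem tri_map (b : FreeGroupBasis (Fin n) (FG n)) (g : MulAut (FG n)) (h : Tri b g) (i : ℕ) :
    (low b i).map (g : FG n →* FG n) = low b i := by
  apply le_antisymm (tri_map_le b g h i)
  induction i using Nat.strong_induction_on with
  | _ i ih =>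
    refine low_le fun j hj => ?_
    obtain ⟨w, hw, v, hv, e⟩ := h j
    have h1 : b j = w⁻¹ * g (b j) * v⁻¹ := by rw [e]; group
    have h2 : (low b j).map (g : FG n →* FG n) ≤ (low b i).map (g : FG n →* FG n) :=
      Subgroup.map_mono (low_mono_fl b hj.le)
    rw [h1]
    refine Subgroup.mul_mem _ (Subgroup.mul_mem _ ?_ ?_) ?_
    · exact Subgroup.inv_mem _ (h2 (ih j hj hw))
    · exact ⟨b j, mem_low b hj, rfl⟩
    · exact Subgroup.inv_mem _ (h2 (ih j hj hv))

theorem es_sub (χ ψ : Fin n → ℤ) (x : FG n) : es (χ - ψ) x = es χ x / es ψ x := by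
  have h := es_add (χ - ψ) ψ x
  rw [sub_add_cancel] at h
  apply Multiplicative.toAdd.injective
  rw [toAdd_div, h]; ring

theorem es_inj (b : FreeGroupBasis (Fin n) (FG n)) (χ : Fin n → ℤ) (h : ∀ j, es χ (b j) = 1) : χ = 0 := by
  have h1 : es χ = 1 := b.ext_hom _ _ fun j => by rw [h j]; rfl
  funext i
  have := es_of χ i
  rw [h1] at this
  exact this.symm

theorem tri_uni (b : FreeGroupBasis (Fin n) (FG n)) (g : MulAut (FG n)) (h : Tri b g) : Uni1 g := by
  refine ⟨n, ?_⟩
  have key : ∀ (m : ℕ) (χ : Fin n → ℤ) (j : Fin n), (j : ℕ) < m →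
      es (((gstar (g : FG n →* FG n) - 1) ^ m) χ) (b j) = 1 := by
    intro m
    induction m with
    | zero => intro χ j hj; omega
    | succ m ih =>
      intro χ j hj
      rw [pow_succ', Module.End.mul_apply]
      set ψ := ((gstar (g : FG n →* FG n) - 1) ^ m) χ with hψ
      have h0 : low b m ≤ (es ψ).ker := low_le fun l hl => ih χ l hl
      obtain ⟨w, hw, v, hv, e⟩ := h j
      have h1 : ((gstar (g : FG n →* FG n) - 1) : Module.End ℤ (Fin n → ℤ)) ψ
          = gstar (g : FG n →* FG n) ψ - ψ := rfl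
      rw [h1, es_sub, es_gstar]
      change es ψ (g (b j)) / es ψ (b j) = 1
      rw [e, map_mul, map_mul]
      have hw' : es ψ w = 1 := h0 (low_mono_fl b (by omega) hw)
      have hv' : es ψ v = 1 := h0 (low_mono_fl b (by omega) hv)
      rw [hw', hv', one_mul, mul_one, div_self']
  apply LinearMap.ext
  intro χ
  exact es_inj b _ fun j => key n χ j j.2

theorem gstar_pow (g : MulAut (FG n)) (k : ℕ) :
    gstar ((g ^ k : MulAut (FG n)) : FG n →* FG n) = (gstar (g : FG n →* FG n)) ^ k := by
  induction k with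
  | zero =>
    rw [pow_zero, pow_zero]
    exact gstar_id
  | succ k ih =>
    rw [pow_succ, pow_succ', ← ih, ← gstar_comp]
    rfl

theorem uni_of_tri_pow (b : FreeGroupBasis (Fin n) (FG n)) (g : MulAut (FG n)) (h3 : Triv3 g)
    (k : ℕ) (hk : 0 < k) (h : Tri b (g ^ k)) : Uni1 g := by
  obtain ⟨N, hN⟩ := tri_uni b (g ^ k) h
  rw [gstar_pow] at hN
  refine minkowski (gstar (g : FG n →* FG n)) (fun χ => ?_) k hk N hN
  have h4 : ∀ i, ∃ u : ℤ, (gstar (g : FG n →* FG n) χ - χ) i = 3 * u := by
    intro i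
    -- reduce mod 3
    let q : Multiplicative ℤ →* Multiplicative (ZMod 3) :=
      AddMonoidHom.toMultiplicative (Int.castAddHom (ZMod 3))
    have h5 := h3 (q.comp (es χ)) (FreeGroup.of i)
    have h6 : (((es χ (g (FreeGroup.of i))).toAdd : ℤ) : ZMod 3) = (((es χ (FreeGroup.of i)).toAdd : ℤ) : ZMod 3) :=
      congrArg Multiplicative.toAdd h5
    rw [es_of, ZMod.intCast_eq_intCast_iff_dvd_sub] at h6
    obtain ⟨u, hu⟩ := h6
    refine ⟨-u, ?_⟩
    change (es χ (g (FreeGroup.of i))).toAdd - χ i = 3 * -u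
    push_cast at hu
    linarith
  choose u hu using h4
  exact ⟨u, funext fun i => by rw [hu i]; rfl⟩

theorem uni1_iff (g : MulAut (FG n)) : Uni1 g ↔ IsNilpotent (gstar (g : FG n →* FG n) - 1) := Iff.rfl

theorem uni1_pow (g : MulAut (FG n)) (h : Uni1 g) (k : ℕ) : Uni1 (g ^ k) := by
  rw [uni1_iff] at h ⊢
  rw [gstar_pow, ← geom_sum_mul]
  have : Commute (∑ i ∈ range k, gstar (g : FG n →* FG n) ^ i) (gstar (g : FG n →* FG n) - 1) := by
    apply Commute.sum_left
    intro i _
    exact ((Commute.refl _).pow_left i).sub_right (Commute.one_right _)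
  exact this.isNilpotent_mul_left h

theorem uni1_inv (g : MulAut (FG n)) (h : Uni1 g) : Uni1 g⁻¹ := by
  rw [uni1_iff] at h ⊢
  have e1 : gstar (g : FG n →* FG n) * gstar ((g⁻¹ : MulAut (FG n)) : FG n →* FG n) = 1 := by
    rw [← gstar_comp, ← gstar_id]
    congr 1
    refine MonoidHom.ext fun x => ?_
    exact MulAut.inv_apply_self _ g x
  have e2 : gstar ((g⁻¹ : MulAut (FG n)) : FG n →* FG n) * gstar (g : FG n →* FG n) = 1 := by
    rw [← gstar_comp, ← gstar_id]
    congr 1
    refine MonoidHom.ext fun x => ?_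
    exact MulAut.apply_inv_self _ g x
  set A := gstar (g : FG n →* FG n)
  set B := gstar ((g⁻¹ : MulAut (FG n)) : FG n →* FG n)
  have h1 : B - 1 = (-B) * (A - 1) := by
    rw [mul_sub, mul_one, neg_mul, e2]; abel
  rw [h1]
  have : Commute (-B) (A - 1) := by
    have : Commute B A := by change B * A = A * B; rw [e1, e2]
    exact this.neg_left.sub_right (Commute.one_right _)
  exact this.isNilpotent_mul_left h

theorem uni_zpowers (g : MulAut (FG n)) (h : Uni1 g) : Uni (Subgroup.zpowers g) := by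
  rintro x ⟨m, rfl⟩
  obtain ⟨k, rfl | rfl⟩ := m.eq_nat_or_neg
  · simpa using uni1_pow g h k
  · have := uni1_inv _ (uni1_pow g h k)
    simpa using this

/-- purity for the groups `low b i` -/
theorem low_pure (b : FreeGroupBasis (Fin n) (FG n)) (g : MulAut (FG n)) (hg : Uni1 g) (i k : ℕ)
    (hk : 0 < k) (h : (low b i).map ((g ^ k : MulAut (FG n)) : FG n →* FG n) = low b i) :
    (low b i).map (g : FG n →* FG n) = low b i := by
  obtain ⟨r, hr1, hr2⟩ := low_retract b i
  set G1 := Subgroup.zpowers g with hG1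
  obtain ⟨L⟩ := linModel G1 (uni_zpowers g hg)
  let g1 : G1 := ⟨g, Subgroup.mem_zpowers g⟩
  set D : Subgroup (Gam G1) := (low b i).map (inF G1) with hD
  have hDk : D ≤ (prG G1).ker := by
    rintro _ ⟨x, _, rfl⟩
    exact inF_mem G1 x
  -- conjugation by `inG x` is the action of `x`
  have hconj : ∀ (x : G1) (y : FG n), inG G1 x * inF G1 y * (inG G1 x)⁻¹ = inF G1 ((x : MulAut (FG n)) y) :=
    fun x y => by rw [← map_inv]; exact (SemidirectProduct.inl_aut x y).symm
  have hcD : ∀ (x : G1), MulAut.conj (inG G1 x) • D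
      = ((low b i).map ((x : MulAut (FG n)) : FG n →* FG n)).map (inF G1) := by
    intro x
    ext z
    rw [Subgroup.mem_pointwise_smul_iff_inv_smul_mem]
    constructor
    · rintro ⟨y, hy, e⟩
      refine ⟨(x : MulAut (FG n)) y, ⟨y, hy, rfl⟩, ?_⟩
      rw [← hconj, e]
      simp [MulAut.smul_def, mul_assoc]
    · rintro ⟨_, ⟨y, hy, rfl⟩, rfl⟩
      refine ⟨y, hy, ?_⟩
      have := hconj x y
      change inF G1 y = (MulAut.conj (inG G1 x))⁻¹ • inF G1 ((x : MulAut (FG n)) y)
      rw [← this]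
      simp [MulAut.smul_def, mul_assoc]
  -- the retraction on the kernel
  let r' : (prG G1).ker →* (prG G1).ker :=
    { toFun := fun x => ⟨inF G1 (r (x : Gam G1).left), inF_mem G1 _⟩
      map_one' := by
        apply Subtype.ext
        change inF G1 (r (1 : Gam G1).left) = 1
        rw [SemidirectProduct.one_left, map_one, map_one]
      map_mul' := fun x y => by
        apply Subtype.ext
        change inF G1 (r ((x : Gam G1) * (y : Gam G1)).left)
          = inF G1 (r (x : Gam G1).left) * inF G1 (r (y : Gam G1).left)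
        have hx := (mem_ker_iff G1 _).1 x.2
        rw [SemidirectProduct.mul_left, hx, ← map_mul, ← map_mul]
        rfl }
  have key := pure_retract (prG G1) L r' D hDk
    (fun x => ⟨r (x : Gam G1).left, hr1 _, rfl⟩)
    (fun x hx => by
      obtain ⟨y, hy, e⟩ := hx
      apply Subtype.ext
      change inF G1 (r (x : Gam G1).left) = x
      rw [← e]
      change inF G1 (r y) = inF G1 y
      rw [hr2 y hy])
    (inG G1 g1) k hk (by
      rw [← map_pow, hcD (g1 ^ k)]
      have : ((g1 ^ k : G1) : MulAut (FG n)) = g ^ k := rfl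
      rw [this, h])
  rw [hcD g1] at key
  exact Subgroup.map_injective SemidirectProduct.inl_injective key

theorem tri_of_tri_pow (b : FreeGroupBasis (Fin n) (FG n)) (g : MulAut (FG n)) (h3 : Triv3 g)
    (k : ℕ) (hk : 0 < k) (h : Tri b (g ^ k)) : Tri b g := by
  classical
  have hU := uni_of_tri_pow b g h3 k hk h
  have hmap : ∀ i, (low b i).map (g : FG n →* FG n) = low b i := fun i =>
    low_pure b g hU i k hk (tri_map b (g ^ k) h i)
  intro i
  obtain ⟨w, hw, v, hv, e | e⟩ := double_coset b g i (hmap i) (hmap (i + 1))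
  · exact ⟨w, hw, v, hv, e⟩
  · exfalso
    set χ : FG n →* Multiplicative (ZMod 3) :=
      b.lift fun j => if j = i then Multiplicative.ofAdd 1 else 1 with hχ
    have hb : ∀ j, χ (b j) = if j = i then Multiplicative.ofAdd 1 else 1 := fun j => by
      rw [hχ, FreeGroupBasis.lift_apply_apply, FreeGroupBasis.repr_apply_coe, FreeGroup.lift_apply_of]
    have hl : low b i ≤ χ.ker := low_le fun j hj => by
      rw [MonoidHom.mem_ker, hb, if_neg]
      rintro rfl
      exact lt_irrefl _ hj
    have h4 := h3 χ (b i)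
    rw [e, map_mul, map_mul, (hl hw : χ w = 1), (hl hv : χ v = 1), map_inv, hb, if_pos rfl, one_mul,
      mul_one] at h4
    exact absurd h4 (by decide)

end

end Pool.MP6567.A
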