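import Mathlib

set_option autoImplicit false

namespace Pool.MP6567.Alg

open Module Polynomial

/-- Trace criterion for nilpotence in characteristic zero. -/
theorem isNilpotent_of_trace_pow {V : Type*} [AddCommGroup V] [Module ℚ V] [FiniteDimensional ℚ V]
    (f : Module.End ℚ V) (h : ∀ k : ℕ, 1 ≤ k → LinearMap.trace ℚ V (f ^ k) = 0) :
    IsNilpotent f := by
  classical
  set p : ℚ[X] := f.charpoly with hp
  have hp0 : p ≠ 0 := f.charpoly_monic.ne_zero
  obtain ⟨q, hq, hq'⟩ := Polynomial.exists_eq_pow_rootMultiplicity_mul_and_not_dvd p hp0 0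
  set m := p.rootMultiplicity 0
  rw [C_0, sub_zero] at hq hq'
  have hcop : IsCoprime (X ^ (m + 1) : ℚ[X]) q := by
    apply IsCoprime.pow_left
    exact (Polynomial.prime_X.irreducible.coprime_iff_not_dvd).2 hq'
  obtain ⟨a, b, hab⟩ := hcop
  have hf0 : aeval f (X ^ (m+1) * q) = 0 := by
    have : X ^ (m+1) * q = X * p := by rw [hq]; ring
    rw [this, map_mul, hp, LinearMap.aeval_self_charpoly, mul_zero]
  set e : Module.End ℚ V := aeval f (a * X ^ (m+1)) with he
  have he1 : e + aeval f (b * q) = 1 := by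
    rw [he, ← map_add, hab, map_one]
  have hmul : e * aeval f (b * q) = 0 := by
    rw [he, ← map_mul]
    have : a * X ^ (m+1) * (b * q) = a * b * (X ^ (m+1) * q) := by ring
    rw [this, map_mul, hf0, mul_zero]
  have hidem : IsIdempotentElem e := by
    have : e * (e + aeval f (b * q)) = e * 1 := by rw [he1]
    rw [mul_add, hmul, add_zero, mul_one] at this
    exact this
  have htr : LinearMap.trace ℚ V e = 0 := by
    rw [he, Polynomial.aeval_eq_sum_range, map_sum]
    apply Finset.sum_eq_zero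
    intro i _
    rw [map_smul]
    by_cases hi : 1 ≤ i
    · rw [h i hi, smul_zero]
    · have hi0 : i = 0 := by omega
      subst hi0
      have : (a * X ^ (m+1)).coeff 0 = 0 := by
        rw [Polynomial.mul_coeff_zero]
        simp
      rw [this, zero_smul]
  have he0 : e = 0 := LinearMap.IsIdempotentElem.eq_zero_of_trace_eq_zero hidem htr
  refine ⟨m + 1, ?_⟩
  have h2 : f ^ (m+1) * (e + aeval f (b * q)) = f ^ (m+1) := by rw [he1, mul_one]
  rw [he0, zero_add] at h2
  rw [← h2]
  have h3 : f ^ (m+1) = aeval f (X ^ (m+1) : ℚ[X]) := by simp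
  rw [h3, ← map_mul]
  have : X ^ (m+1) * (b * q) = b * (X ^ (m+1) * q) := by ring
  rw [this, map_mul, hf0, mul_zero]


attribute [local instance 100] LieRing.ofAssociativeRing

/-- A submodule invariant under all `ρ g`. -/
def Inv {G V : Type*} [Group G] [AddCommGroup V] [Module ℚ V] (ρ : G →* Module.End ℚ V)
    (W : Submodule ℚ V) : Prop := ∀ g, ∀ w ∈ W, ρ g w ∈ W

theorem irreducible_case {G V : Type*} [Group G] [AddCommGroup V] [Module ℚ V]
    [FiniteDimensional ℚ V] [Nontrivial V] (ρ : G →* Module.End ℚ V)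
    (h : ∀ g, IsNilpotent (ρ g - 1)) (hirr : ∀ W : Submodule ℚ V, Inv ρ W → W = ⊥ ∨ W = ⊤) :
    ∀ g, ρ g = 1 := by
  classical
  set S : Submodule ℚ (Module.End ℚ V) := Submodule.span ℚ (Set.range ρ) with hS
  have hSmul : ∀ x ∈ S, ∀ y ∈ S, x * y ∈ S := by
    intro x hx y hy
    induction hx using Submodule.span_induction with
    | mem x hx =>
      obtain ⟨g, rfl⟩ := hx
      induction hy using Submodule.span_induction with
      | mem y hy =>
        obtain ⟨g', rfl⟩ := hy
        rw [← map_mul]; exact Submodule.subset_span ⟨_, rfl⟩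
      | zero => simp
      | add y z _ _ hy hz => rw [mul_add]; exact S.add_mem hy hz
      | smul c y _ hy => rw [mul_smul_comm]; exact S.smul_mem _ hy
    | zero => simp
    | add a b _ _ ha hb => rw [add_mul]; exact S.add_mem ha hb
    | smul c a _ ha => rw [smul_mul_assoc]; exact S.smul_mem _ ha
  have hS1 : (1 : Module.End ℚ V) ∈ S := Submodule.subset_span ⟨1, map_one ρ⟩
  -- J
  let J : LieSubalgebra ℚ (Module.End ℚ V) :=
    { carrier := {x | x ∈ S ∧ ∀ a ∈ S, LinearMap.trace ℚ V (x * a) = 0}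
      add_mem' := by
        rintro x y ⟨hx, hx'⟩ ⟨hy, hy'⟩
        refine ⟨S.add_mem hx hy, fun a ha => ?_⟩
        rw [add_mul, map_add, hx' a ha, hy' a ha, add_zero]
      zero_mem' := ⟨S.zero_mem, fun a _ => by simp⟩
      smul_mem' := by
        rintro c x ⟨hx, hx'⟩
        refine ⟨S.smul_mem c hx, fun a ha => ?_⟩
        rw [smul_mul_assoc, map_smul, hx' a ha, smul_zero]
      lie_mem' := by
        rintro x y ⟨hx, hx'⟩ ⟨hy, hy'⟩
        rw [Ring.lie_def]
        refine ⟨S.sub_mem (hSmul x hx y hy) (hSmul y hy x hx), fun a ha => ?_⟩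
        rw [sub_mul, map_sub, mul_assoc, mul_assoc, hx' _ (hSmul y hy a ha),
          hy' _ (hSmul x hx a ha), sub_zero] }
  have hJmem : ∀ x, x ∈ J ↔ x ∈ S ∧ ∀ a ∈ S, LinearMap.trace ℚ V (x * a) = 0 := fun x => Iff.rfl
  have hSpow : ∀ x ∈ S, ∀ k, x ^ k ∈ S := by
    intro x hx k
    induction k with
    | zero => simpa using hS1
    | succ k ih => rw [pow_succ]; exact hSmul _ ih _ hx
  have hJnil : ∀ x ∈ J, IsNilpotent x := by
    intro x hx
    rw [hJmem] at hx
    apply isNilpotent_of_trace_pow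
    intro k hk
    obtain ⟨j, rfl⟩ := Nat.exists_eq_add_of_le hk
    rw [add_comm, pow_succ']
    exact hx.2 _ (hSpow x hx.1 j)
  have hnil : LieModule.IsNilpotent J V := by
    rw [LieModule.isNilpotent_iff_forall (R := ℚ)]
    intro x
    exact hJnil x x.2
  have hnt := LieModule.nontrivial_max_triv_of_isNilpotent ℚ J V
  -- the common kernel
  let K : Submodule ℚ V := (LieModule.maxTrivSubmodule ℚ J V : LieSubmodule ℚ J V)
  have hK : ∀ v, v ∈ K ↔ ∀ x ∈ J, x v = 0 := by
    intro v
    change v ∈ LieModule.maxTrivSubmodule ℚ J V ↔ _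
    rw [LieModule.mem_maxTrivSubmodule]
    constructor
    · intro h x hx
      exact h ⟨x, hx⟩
    · intro h x
      exact h x.1 x.2
  have hKinv : Inv ρ K := by
    intro g w hw
    rw [hK] at hw ⊢
    intro x hx
    have hmem : x * ρ g ∈ J := by
      rw [hJmem] at hx ⊢
      have hg : ρ g ∈ S := Submodule.subset_span ⟨g, rfl⟩
      refine ⟨hSmul _ hx.1 _ hg, fun a ha => ?_⟩
      rw [mul_assoc]
      exact hx.2 _ (hSmul _ hg _ ha)
    exact hw _ hmem
  have hKtop : K = ⊤ := by
    rcases hirr K hKinv with h0 | h1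
    · exfalso
      obtain ⟨⟨v, hv⟩, hv0⟩ := exists_ne (0 : LieModule.maxTrivSubmodule ℚ J V)
      have : v ∈ K := hv
      rw [h0, Submodule.mem_bot] at this
      exact hv0 (Subtype.ext this)
    · exact h1
  have htr : ∀ g, LinearMap.trace ℚ V (ρ g) = Module.finrank ℚ V := by
    intro g
    have h1 := (LinearMap.isNilpotent_trace_of_isNilpotent (h g)).eq_zero
    rw [map_sub, LinearMap.trace_one] at h1
    linarith
  intro g
  have hgJ : ρ g - 1 ∈ J := by
    rw [hJmem]
    refine ⟨S.sub_mem (Submodule.subset_span ⟨g, rfl⟩) hS1, fun a ha => ?_⟩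
    induction ha using Submodule.span_induction with
    | mem a ha =>
      obtain ⟨g', rfl⟩ := ha
      rw [sub_mul, one_mul, ← map_mul, map_sub, htr, htr, sub_self]
    | zero => simp
    | add a b _ _ ha hb => rw [mul_add, map_add, ha, hb, add_zero]
    | smul c a _ ha => rw [mul_smul_comm, map_smul, ha, smul_zero]
  ext v
  have hv : v ∈ K := by rw [hKtop]; trivial
  rw [hK] at hv
  have := hv _ hgJ
  rw [LinearMap.sub_apply, Module.End.one_apply, sub_eq_zero] at this
  rw [this]; rfl

/-- restriction of a representation to an invariant submodule -/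
def restr {G V : Type*} [Group G] [AddCommGroup V] [Module ℚ V] (ρ : G →* Module.End ℚ V)
    (W : Submodule ℚ V) (hW : Inv ρ W) : G →* Module.End ℚ W where
  toFun g := (ρ g).restrict (hW g)
  map_one' := by ext w; simp
  map_mul' g g' := by ext w; simp

theorem restr_apply {G V : Type*} [Group G] [AddCommGroup V] [Module ℚ V]
    (ρ : G →* Module.End ℚ V) (W : Submodule ℚ V) (hW : Inv ρ W) (g : G) (w : W) :
    (restr ρ W hW g w : V) = ρ g w := rfl

theorem restr_sub_pow {G V : Type*} [Group G] [AddCommGroup V] [Module ℚ V]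
    (ρ : G →* Module.End ℚ V) (W : Submodule ℚ V) (hW : Inv ρ W) (g : G) (k : ℕ) (w : W) :
    (((restr ρ W hW g - 1) ^ k) w : V) = ((ρ g - 1) ^ k) (w : V) := by
  induction k generalizing w with
  | zero => simp
  | succ k ih =>
    rw [pow_succ, pow_succ, Module.End.mul_apply, Module.End.mul_apply, ih]
    rfl

/-- Kolchin's theorem: a group of unipotent automorphisms of a nonzero finite dimensional
`ℚ`-vector space fixes a nonzero vector. -/
theorem kolchin {G V : Type*} [Group G] [AddCommGroup V] [Module ℚ V]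
    [FiniteDimensional ℚ V] [Nontrivial V] (ρ : G →* Module.End ℚ V)
    (h : ∀ g, IsNilpotent (ρ g - 1)) : ∃ v : V, v ≠ 0 ∧ ∀ g, ρ g v = v := by
  classical
  -- minimal nonzero invariant submodule
  have hex : ({W : Submodule ℚ V | Inv ρ W ∧ W ≠ ⊥}).Nonempty :=
    ⟨⊤, fun _ _ _ => trivial, top_ne_bot⟩
  obtain ⟨W, ⟨hW, hWne⟩, hmin⟩ := (wellFounded_lt (α := Submodule ℚ V)).has_min _ hex
  have : Nontrivial W := (Submodule.nontrivial_iff_ne_bot).2 hWne
  have hnil : ∀ g, IsNilpotent (restr ρ W hW g - 1) := by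
    intro g
    obtain ⟨k, hk⟩ := h g
    refine ⟨k, ?_⟩
    ext w
    rw [restr_sub_pow, hk]; rfl
  have hirr : ∀ U : Submodule ℚ W, Inv (restr ρ W hW) U → U = ⊥ ∨ U = ⊤ := by
    intro U hU
    by_contra hcon
    push Not at hcon
    have hUinv : Inv ρ (U.map W.subtype) := by
      rintro g _ ⟨w, hw, rfl⟩
      exact ⟨restr ρ W hW g w, hU g w hw, rfl⟩
    have hne : U.map W.subtype ≠ ⊥ := by
      intro h0
      apply hcon.1
      rw [eq_bot_iff]
      intro u hu
      have h1 : (u : V) ∈ U.map W.subtype := ⟨u, hu, rfl⟩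
      rw [h0, Submodule.mem_bot] at h1
      exact Subtype.ext h1
    have hlt : U.map W.subtype < W := by
      refine lt_of_le_of_ne (Submodule.map_subtype_le W U) ?_
      intro heq
      apply hcon.2
      rw [eq_top_iff]
      intro w _
      have hw : (w : V) ∈ U.map W.subtype := by rw [heq]; exact w.2
      obtain ⟨w', hw', hww⟩ := hw
      have : w' = w := Subtype.ext hww
      rwa [← this]
    exact hmin _ ⟨hUinv, hne⟩ hlt
  obtain ⟨w, hw⟩ := exists_ne (0 : W)
  refine ⟨w, fun h0 => hw (Subtype.ext h0), fun g => ?_⟩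
  have := irreducible_case (restr ρ W hW) hnil hirr g
  rw [← restr_apply ρ W hW g w, this]; rfl

end Pool.MP6567.Alg
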