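import Pool.Agent.Lib.MP_6567fb_al.A.Unip

/-! # The linear algebra lemmas A.7, A.8, A.9 for MP_6567fb_al -/

set_option autoImplicit false

namespace Pool.MP6567.Alg

open Module Finset

section kol

variable {V : Type*} [AddCommGroup V] [Module ℚ V] [FiniteDimensional ℚ V]
variable {Λ : Type*} [Group Λ]

/-- quotient representation -/
def quo (ρ : Λ →* Module.End ℚ V) (N : Submodule ℚ V) (hN : Inv ρ N) :
    Λ →* Module.End ℚ (V ⧸ N) where
  toFun g := N.mapQ N (ρ g) (fun w hw => hN g w hw)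
  map_one' := by
    apply LinearMap.ext
    intro x
    obtain ⟨v, rfl⟩ := N.mkQ_surjective x
    simp
  map_mul' g g' := by
    apply LinearMap.ext
    intro x
    obtain ⟨v, rfl⟩ := N.mkQ_surjective x
    simp

omit [FiniteDimensional ℚ V] in
theorem quo_mk (ρ : Λ →* Module.End ℚ V) (N : Submodule ℚ V) (hN : Inv ρ N) (g : Λ) (v : V) :
    quo ρ N hN g (N.mkQ v) = N.mkQ (ρ g v) := rfl

omit [FiniteDimensional ℚ V] in
theorem quo_sub_pow (ρ : Λ →* Module.End ℚ V) (N : Submodule ℚ V) (hN : Inv ρ N) (g : Λ) (k : ℕ)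
    (v : V) : ((quo ρ N hN g - 1) ^ k) (N.mkQ v) = N.mkQ (((ρ g - 1) ^ k) v) := by
  induction k generalizing v with
  | zero => simp
  | succ k ih =>
    rw [pow_succ, pow_succ, Module.End.mul_apply, Module.End.mul_apply]
    rw [LinearMap.sub_apply, quo_mk, Module.End.one_apply, ← map_sub, ih]
    rfl

omit [FiniteDimensional ℚ V] in
theorem quo_unip (ρ : Λ →* Module.End ℚ V) (hU : ∀ g, IsNilpotent (ρ g - 1)) (N : Submodule ℚ V)
    (hN : Inv ρ N) (g : Λ) : IsNilpotent (quo ρ N hN g - 1) := by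
  obtain ⟨k, hk⟩ := hU g
  refine ⟨k, ?_⟩
  apply LinearMap.ext
  intro x
  obtain ⟨v, rfl⟩ := N.mkQ_surjective x
  rw [quo_sub_pow, hk]; simp

/-- relative Kolchin -/
theorem kolchin_rel (ρ : Λ →* Module.End ℚ V) (hU : ∀ g, IsNilpotent (ρ g - 1))
    {N W : Submodule ℚ V} (hN : Inv ρ N) (hW : Inv ρ W) (hlt : N < W) :
    ∃ x ∈ W, x ∉ N ∧ ∀ g, ρ g x - x ∈ N := by
  have hW' : Inv (quo ρ N hN) (W.map N.mkQ) := by
    rintro g _ ⟨w, hw, rfl⟩
    exact ⟨ρ g w, hW g w hw, rfl⟩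
  have hne : W.map N.mkQ ≠ ⊥ := by
    intro h
    obtain ⟨w, hw, hwn⟩ := Set.exists_of_ssubset hlt
    apply hwn
    have : N.mkQ w ∈ W.map N.mkQ := ⟨w, hw, rfl⟩
    rw [h, Submodule.mem_bot, Submodule.mkQ_apply, Submodule.Quotient.mk_eq_zero] at this
    exact this
  have : Nontrivial (W.map N.mkQ) := (Submodule.nontrivial_iff_ne_bot).2 hne
  obtain ⟨⟨x, hx⟩, hx0, hfix⟩ := kolchin (restr (quo ρ N hN) _ hW') (by
    intro g
    obtain ⟨k, hk⟩ := quo_unip ρ hU N hN g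
    refine ⟨k, ?_⟩
    ext w
    rw [restr_sub_pow, hk]; rfl)
  obtain ⟨w, hw, rfl⟩ := hx
  refine ⟨w, hw, ?_, ?_⟩
  · intro hwN
    apply hx0
    apply Subtype.ext
    change N.mkQ w = 0
    rw [Submodule.mkQ_apply, Submodule.Quotient.mk_eq_zero]; exact hwN
  · intro g
    have h1 := congrArg Subtype.val (hfix g)
    rw [restr_apply] at h1
    change quo ρ N hN g (N.mkQ w) = N.mkQ w at h1
    rw [quo_mk, ← sub_eq_zero, ← map_sub, Submodule.mkQ_apply, Submodule.Quotient.mk_eq_zero] at h1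
    exact h1

omit [FiniteDimensional ℚ V] in
theorem inv_sup_span (ρ : Λ →* Module.End ℚ V) {N : Submodule ℚ V} (hN : Inv ρ N) {x : V}
    (hx : ∀ g, ρ g x - x ∈ N) : Inv ρ (N ⊔ Submodule.span ℚ {x}) := by
  intro g w hw
  rw [Submodule.mem_sup] at hw ⊢
  obtain ⟨n, hn, y, hy, rfl⟩ := hw
  rw [Submodule.mem_span_singleton] at hy
  obtain ⟨c, rfl⟩ := hy
  refine ⟨ρ g n + c • (ρ g x - x), N.add_mem (hN g n hn) (N.smul_mem _ (hx g)), c • x,
    Submodule.smul_mem _ _ (Submodule.mem_span_singleton_self x), ?_⟩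
  rw [map_add, map_smul, smul_sub]; abel

/-- dual form of relative Kolchin -/
theorem kolchin_dual (ρ : Λ →* Module.End ℚ V) (hU : ∀ g, IsNilpotent (ρ g - 1))
    {N W : Submodule ℚ V} (hN : Inv ρ N) (hW : Inv ρ W) (hlt : N < W) :
    ∃ l : V →ₗ[ℚ] ℚ, (∀ n ∈ N, l n = 0) ∧ (∃ w ∈ W, l w ≠ 0) ∧ ∀ w ∈ W, ∀ g, l (ρ g w - w) = 0 := by
  -- maximal invariant W' with N ≤ W' < W
  have hex : ({U : Submodule ℚ V | Inv ρ U ∧ N ≤ U ∧ U < W}).Nonempty := ⟨N, hN, le_rfl, hlt⟩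
  obtain ⟨U, ⟨hU1, hNU, hUW⟩, hmax⟩ := (wellFounded_gt (α := Submodule ℚ V)).has_min _ hex
  obtain ⟨x, hxW, hxU, hx⟩ := kolchin_rel ρ hU hU1 hW hUW
  have hsup : U ⊔ Submodule.span ℚ {x} = W := by
    by_contra hne
    have hle : U ⊔ Submodule.span ℚ {x} ≤ W :=
      sup_le hUW.le ((Submodule.span_singleton_le_iff_mem x W).2 hxW)
    refine hmax _ ⟨inv_sup_span ρ hU1 hx, hNU.trans le_sup_left, lt_of_le_of_ne hle hne⟩ ?_
    refine lt_of_le_of_ne le_sup_left ?_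
    intro h
    apply hxU
    rw [h]
    exact Submodule.mem_sup_right (Submodule.mem_span_singleton_self x)
  obtain ⟨l, hl, hlU⟩ := Submodule.exists_le_ker_of_notMem hxU
  refine ⟨l, fun n hn => hlU (hNU hn), ⟨x, hxW, hl⟩, ?_⟩
  intro w hw g
  rw [← hsup, Submodule.mem_sup] at hw
  obtain ⟨n, hn, y, hy, rfl⟩ := hw
  rw [Submodule.mem_span_singleton] at hy
  obtain ⟨c, rfl⟩ := hy
  have e : ρ g (n + c • x) - (n + c • x) = (ρ g n - n) + c • (ρ g x - x) := by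
    rw [map_add, map_smul, smul_sub]; abel
  rw [e]
  exact hlU (U.add_mem (U.sub_mem (hU1 g n hn) hn) (U.smul_mem _ (hx g)))

/-- a maximal invariant submodule not containing `d`; `d` is fixed modulo it -/
theorem exists_max_avoid (ρ : Λ →* Module.End ℚ V) (hU : ∀ g, IsNilpotent (ρ g - 1)) {d : V}
    (hd : d ≠ 0) : ∃ N : Submodule ℚ V, Inv ρ N ∧ d ∉ N ∧ ∀ g, ρ g d - d ∈ N := by
  have hex : ({U : Submodule ℚ V | Inv ρ U ∧ d ∉ U}).Nonempty :=
    ⟨⊥, fun g w hw => by rw [Submodule.mem_bot] at hw ⊢; rw [hw, map_zero], by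
      rw [Submodule.mem_bot]; exact hd⟩
  obtain ⟨N, ⟨hN, hdN⟩, hmax⟩ := (wellFounded_gt (α := Submodule ℚ V)).has_min _ hex
  refine ⟨N, hN, hdN, ?_⟩
  have hlt : N < ⊤ := lt_top_iff_ne_top.2 (fun h => hdN (by rw [h]; trivial))
  obtain ⟨x, _, hxN, hx⟩ := kolchin_rel ρ hU (W := ⊤) hN (fun _ _ _ => trivial) hlt
  have hmem : d ∈ N ⊔ Submodule.span ℚ {x} := by
    by_contra hcon
    refine hmax _ ⟨inv_sup_span ρ hN hx, hcon⟩ ?_
    refine lt_of_le_of_ne le_sup_left ?_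
    intro h
    apply hxN
    rw [h]
    exact Submodule.mem_sup_right (Submodule.mem_span_singleton_self x)
  rw [Submodule.mem_sup] at hmem
  obtain ⟨n, hn, y, hy, rfl⟩ := hmem
  rw [Submodule.mem_span_singleton] at hy
  obtain ⟨c, rfl⟩ := hy
  intro g
  have e : ρ g (n + c • x) - (n + c • x) = (ρ g n - n) + c • (ρ g x - x) := by
    rw [map_add, map_smul, smul_sub]; abel
  rw [e]
  exact N.add_mem (N.sub_mem (hN g n hn) hn) (N.smul_mem _ (hx g))

/-- the submodule `N + span {ρ g u - u}` -/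
def aug (ρ : Λ →* Module.End ℚ V) (N : Submodule ℚ V) (u : V) : Submodule ℚ V :=
  N ⊔ Submodule.span ℚ (Set.range (fun g => ρ g u - u))

omit [FiniteDimensional ℚ V] in
theorem aug_inv (ρ : Λ →* Module.End ℚ V) {N : Submodule ℚ V} (hN : Inv ρ N) (u : V) :
    Inv ρ (aug ρ N u) := by
  intro g w hw
  unfold aug at hw ⊢
  rw [Submodule.mem_sup] at hw ⊢
  obtain ⟨n, hn, y, hy, rfl⟩ := hw
  refine ⟨ρ g n, hN g n hn, ρ g y, ?_, by rw [map_add]⟩
  induction hy using Submodule.span_induction with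
  | mem y hy =>
    obtain ⟨h, rfl⟩ := hy
    have : ρ g (ρ h u - u) = (ρ (g * h) u - u) - (ρ g u - u) := by
      rw [map_sub, map_mul, Module.End.mul_apply]; abel
    dsimp only
    rw [this]
    exact Submodule.sub_mem _ (Submodule.subset_span ⟨_, rfl⟩) (Submodule.subset_span ⟨_, rfl⟩)
  | zero => rw [map_zero]; exact Submodule.zero_mem _
  | add a b _ _ ha hb => rw [map_add]; exact Submodule.add_mem _ ha hb
  | smul c a _ ha => rw [map_smul]; exact Submodule.smul_mem _ _ ha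

omit [FiniteDimensional ℚ V] in
theorem mem_aug (ρ : Λ →* Module.End ℚ V) (N : Submodule ℚ V) (u : V) (g : Λ) :
    ρ g u - u ∈ aug ρ N u := Submodule.mem_sup_right (Submodule.subset_span ⟨g, rfl⟩)

omit [FiniteDimensional ℚ V] in
/-- additivity of `g ↦ l (ρ g u - u)` -/
theorem phi_mul (ρ : Λ →* Module.End ℚ V) (N : Submodule ℚ V) (u : V) (l : V →ₗ[ℚ] ℚ)
    (hl : ∀ w ∈ aug ρ N u, ∀ g, l (ρ g w - w) = 0) (g h : Λ) :
    l (ρ (g * h) u - u) = l (ρ g u - u) + l (ρ h u - u) := by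
  have : ρ (g * h) u - u = (ρ g (ρ h u - u) - (ρ h u - u)) + (ρ g u - u) + (ρ h u - u) := by
    rw [map_sub, map_mul, Module.End.mul_apply]; abel
  rw [this, map_add, map_add, hl _ (mem_aug ρ N u h), zero_add]

omit [FiniteDimensional ℚ V] in
theorem phi_one (ρ : Λ →* Module.End ℚ V) (u : V) (l : V →ₗ[ℚ] ℚ) :
    l (ρ 1 u - u) = 0 := by simp

omit [FiniteDimensional ℚ V] in
theorem phi_zpow (ρ : Λ →* Module.End ℚ V) (N : Submodule ℚ V) (u : V) (l : V →ₗ[ℚ] ℚ)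
    (hl : ∀ w ∈ aug ρ N u, ∀ g, l (ρ g w - w) = 0) (g : Λ) (n : ℤ) :
    l (ρ (g ^ n) u - u) = n * l (ρ g u - u) := by
  induction n using Int.induction_on with
  | zero => simp
  | succ n ih =>
    rw [zpow_add_one, phi_mul ρ N u l hl, ih]; push_cast; ring
  | pred n ih =>
    have h1 := phi_mul ρ N u l hl (g ^ (-(n : ℤ) - 1)) g
    rw [← zpow_add_one, sub_add_cancel, ih] at h1
    push_cast at h1 ⊢
    linarith

omit [FiniteDimensional ℚ V] in
theorem phi_npow (ρ : Λ →* Module.End ℚ V) (N : Submodule ℚ V) (u : V) (l : V →ₗ[ℚ] ℚ)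
    (hl : ∀ w ∈ aug ρ N u, ∀ g, l (ρ g w - w) = 0) (g : Λ) (n : ℕ) :
    l (ρ (g ^ n) u - u) = n * l (ρ g u - u) := by
  have := phi_zpow ρ N u l hl g (n : ℤ)
  rw [zpow_natCast] at this
  rw [this]; push_cast; ring

omit [FiniteDimensional ℚ V] in
/-- if `Λ` is generated by `g1, g2` and `l` does not vanish on `aug`, one of the values is not zero -/
theorem phi_ne (ρ : Λ →* Module.End ℚ V) (N : Submodule ℚ V) (u : V) (l : V →ₗ[ℚ] ℚ)
    (hlN : ∀ n ∈ N, l n = 0) (hl : ∀ w ∈ aug ρ N u, ∀ g, l (ρ g w - w) = 0)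
    (hne : ∃ w ∈ aug ρ N u, l w ≠ 0) {g1 g2 : Λ} (hgen : Subgroup.closure {g1, g2} = ⊤)
    (h1 : l (ρ g1 u - u) = 0) : l (ρ g2 u - u) ≠ 0 := by
  intro h2
  have hall : ∀ g, l (ρ g u - u) = 0 := by
    intro g
    have hg : g ∈ Subgroup.closure ({g1, g2} : Set Λ) := by rw [hgen]; trivial
    induction hg using Subgroup.closure_induction with
    | mem x hx =>
      rcases hx with rfl | rfl
      · exact h1
      · exact h2
    | one => exact phi_one ρ u l
    | mul a b _ _ ha hb => rw [phi_mul ρ N u l hl, ha, hb, add_zero]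
    | inv a _ ha =>
      have := phi_zpow ρ N u l hl a (-1)
      rw [zpow_neg_one] at this
      rw [this, ha, mul_zero]
  obtain ⟨w, hw, hw0⟩ := hne
  apply hw0
  unfold aug at hw
  rw [Submodule.mem_sup] at hw
  obtain ⟨n, hn, y, hy, rfl⟩ := hw
  rw [map_add, hlN n hn, zero_add]
  clear hw0
  induction hy using Submodule.span_induction with
  | mem y hy => obtain ⟨g, rfl⟩ := hy; exact hall g
  | zero => exact map_zero l
  | add a b _ _ ha hb => rw [map_add, ha, hb, add_zero]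
  | smul c a _ ha => rw [map_smul, ha, smul_zero]

end kol

section LA

variable {V : Type*} [AddCommGroup V] [Module ℚ V] [FiniteDimensional ℚ V]
variable {Λ : Type*} [Group Λ]

/-- A.7 for a group generated by `g1, g2`. -/
theorem lemma_LA_gen (ρ : Λ →* Module.End ℚ V) (hU : ∀ g, IsNilpotent (ρ g - 1)) (g1 g2 : Λ)
    (hgen : Subgroup.closure {g1, g2} = ⊤) (u u' : V) (hu : ρ g1 u ≠ u) :
    ∃ b0 : ℕ, ∀ b : ℕ, b0 ≤ b → ∀ C : ℕ, ∃ a0 : ℕ, ∀ a : ℕ, a0 ≤ a → ∀ k r : ℤ, k ≠ 0 →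
      2 * |r| ≤ 3 * (a : ℤ) + C →
      ρ ((g1 ^ (3 * a) * g2 ^ (3 * b)) ^ (-k)) u = ρ (g1 ^ r) u' →
      ρ ((g1 ^ (3 * a) * g2 ^ (3 * b)) ^ (-k) * g1) u = ρ (g1 ^ (r + 1)) u' → False := by
  set d : V := ρ g1 u - u with hd
  have hd0 : d ≠ 0 := sub_ne_zero.2 hu
  obtain ⟨N, hN, hdN, hdfix⟩ := exists_max_avoid ρ hU hd0
  have hlt : N < aug ρ N u := by
    refine lt_of_le_of_ne le_sup_left ?_
    intro h
    apply hdN
    rw [h]
    exact mem_aug ρ N u g1
  -- the basic relation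
  have key : ∀ (l : V →ₗ[ℚ] ℚ), (∀ n ∈ N, l n = 0) → (∀ w ∈ aug ρ N u, ∀ g, l (ρ g w - w) = 0) →
      ∀ (a b : ℕ) (k r : ℤ),
      ρ ((g1 ^ (3 * a) * g2 ^ (3 * b)) ^ (-k)) u = ρ (g1 ^ r) u' →
      ρ ((g1 ^ (3 * a) * g2 ^ (3 * b)) ^ (-k) * g1) u = ρ (g1 ^ (r + 1)) u' →
      -(k : ℚ) * (3 * a * l d + 3 * b * l (ρ g2 u - u)) = l (u' - u) + r * l d := by
    intro l hlN hl a b k r h0 h1
    set w := g1 ^ (3 * a) * g2 ^ (3 * b) with hw
    -- (1) ρ(w^-k) d = ρ(g1^r) (ρ g1 u' - u')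
    have e1 : ρ (w ^ (-k)) d = ρ (g1 ^ r) (ρ g1 u' - u') := by
      rw [hd, map_sub, map_sub, h0, ← Module.End.mul_apply, ← map_mul, h1, ← Module.End.mul_apply,
        ← map_mul, ← zpow_add_one]
    have e2 : ρ g1 u' - u' - d ∈ N := by
      have h3 : ρ (g1 ^ r) (ρ g1 u' - u') - d ∈ N := by rw [← e1]; exact hdfix _
      have h4 := hN (g1 ^ (-r)) _ h3
      rw [map_sub, ← Module.End.mul_apply, ← map_mul, ← zpow_add, neg_add_cancel, zpow_zero,
        map_one, Module.End.one_apply] at h4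
      have h5 := N.add_mem h4 (hdfix (g1 ^ (-r)))
      have : ρ g1 u' - u' - ρ (g1 ^ (-r)) d + (ρ (g1 ^ (-r)) d - d) = ρ g1 u' - u' - d := by abel
      rwa [this] at h5
    have hstep : ∀ m : ℤ, ρ (g1 ^ (m + 1)) u' - ρ (g1 ^ m) u' - d ∈ N := by
      intro m
      have h3 := hN (g1 ^ m) _ e2
      have h4 := N.add_mem h3 (hdfix (g1 ^ m))
      have : ρ (g1 ^ m) (ρ g1 u' - u' - d) + (ρ (g1 ^ m) d - d) =
          ρ (g1 ^ (m + 1)) u' - ρ (g1 ^ m) u' - d := by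
        rw [map_sub, map_sub, zpow_add_one, map_mul, Module.End.mul_apply]; abel
      rwa [this] at h4
    have e3 : ∀ m : ℤ, ρ (g1 ^ m) u' - u' - (m : ℚ) • d ∈ N := by
      intro m
      induction m using Int.induction_on with
      | zero => simp
      | succ m ih =>
        have := N.add_mem ih (hstep m)
        have e : ρ (g1 ^ (m : ℤ)) u' - u' - ((m : ℤ) : ℚ) • d +
            (ρ (g1 ^ ((m : ℤ) + 1)) u' - ρ (g1 ^ (m : ℤ)) u' - d) =
            ρ (g1 ^ ((m : ℤ) + 1)) u' - u' - (((m : ℤ) + 1 : ℤ) : ℚ) • d := by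
          push_cast; rw [add_smul, one_smul]; abel
        rwa [e] at this
      | pred m ih =>
        have := N.sub_mem ih (hstep (-(m : ℤ) - 1))
        have e : ρ (g1 ^ (-(m : ℤ))) u' - u' - ((-(m : ℤ) : ℤ) : ℚ) • d -
            (ρ (g1 ^ (-(m : ℤ) - 1 + 1)) u' - ρ (g1 ^ (-(m : ℤ) - 1)) u' - d) =
            ρ (g1 ^ (-(m : ℤ) - 1)) u' - u' - ((-(m : ℤ) - 1 : ℤ) : ℚ) • d := by
          rw [sub_add_cancel]; push_cast; rw [sub_smul, one_smul]; abel
        rwa [e] at this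
    have e4 : l (ρ (w ^ (-k)) u - u) = l (u' - u) + r * l d := by
      rw [h0]
      have := hlN _ (e3 r)
      have e : ρ (g1 ^ r) u' - u = (ρ (g1 ^ r) u' - u' - (r : ℚ) • d) + (u' - u) + (r : ℚ) • d := by
        abel
      rw [e, map_add, map_add, this, zero_add, map_smul, smul_eq_mul]
    rw [← e4, phi_zpow ρ N u l hl, hw, phi_mul ρ N u l hl, phi_npow ρ N u l hl, phi_npow ρ N u l hl]
    push_cast
    ring
  by_cases hex : ∃ l : V →ₗ[ℚ] ℚ, (∀ n ∈ N, l n = 0) ∧ (∀ w ∈ aug ρ N u, ∀ g, l (ρ g w - w) = 0) ∧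
      l d ≠ 0
  · obtain ⟨l, hlN, hl, hld⟩ := hex
    refine ⟨0, fun b _ C => ?_⟩
    set y := l (ρ g2 u - u) with hy
    obtain ⟨a0, ha0⟩ := exists_nat_gt ((3 * b * |y| + |l (u' - u)| + C * |l d| / 2) / (3 / 2 * |l d|))
    refine ⟨a0, fun a ha k r hk hr h0 h1 => ?_⟩
    have hrel := key l hlN hl a b k r h0 h1
    have hldpos : 0 < |l d| := abs_pos.2 hld
    have hbig : 3 * b * |y| + |l (u' - u)| + C * |l d| / 2 < (3 / 2 * |l d|) * a := by
      have h2 : (3 * b * |y| + |l (u' - u)| + C * |l d| / 2) / (3 / 2 * |l d|) < a :=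
        lt_of_lt_of_le ha0 (by exact_mod_cast ha)
      rw [div_lt_iff₀ (by positivity)] at h2
      linarith
    have hk1 : (1 : ℚ) ≤ |(k : ℚ)| := by
      have : (1 : ℤ) ≤ |k| := Int.one_le_abs hk
      exact_mod_cast this
    have hr' : 2 * |(r : ℚ)| ≤ 3 * a + C := by exact_mod_cast hr
    have hL : |(3 : ℚ) * a * l d + 3 * b * y| ≤ |l (u' - u) + r * l d| := by
      rw [← hrel, abs_mul, abs_neg]
      calc |(3 : ℚ) * a * l d + 3 * b * y| = 1 * |(3 : ℚ) * a * l d + 3 * b * y| := by ring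
        _ ≤ |(k : ℚ)| * |(3 : ℚ) * a * l d + 3 * b * y| :=
          mul_le_mul_of_nonneg_right hk1 (abs_nonneg _)
    have hL2 : 3 * a * |l d| - 3 * b * |y| ≤ |(3 : ℚ) * a * l d + 3 * b * y| := by
      have h3 : |(3 : ℚ) * a * l d| - |3 * b * y| ≤ |(3 : ℚ) * a * l d + 3 * b * y| := by
        have := abs_sub_abs_le_abs_sub ((3 : ℚ) * a * l d) (-(3 * b * y))
        rwa [abs_neg, sub_neg_eq_add] at this
      have e1 : |(3 : ℚ) * a * l d| = 3 * a * |l d| := by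
        rw [abs_mul, abs_of_nonneg (by positivity : (0 : ℚ) ≤ 3 * a)]
      have e2 : |(3 : ℚ) * b * y| = 3 * b * |y| := by
        rw [abs_mul, abs_of_nonneg (by positivity : (0 : ℚ) ≤ 3 * b)]
      rwa [e1, e2] at h3
    have hR : |l (u' - u) + r * l d| ≤ |l (u' - u)| + (3 * a + C) / 2 * |l d| := by
      refine (abs_add_le _ _).trans ?_
      rw [abs_mul]
      have : |(r : ℚ)| ≤ (3 * a + C) / 2 := by linarith
      have := mul_le_mul_of_nonneg_right this (abs_nonneg (l d))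
      linarith
    nlinarith
  · push Not at hex
    obtain ⟨l, hlN, hne, hl⟩ := kolchin_dual ρ hU hN (aug_inv ρ hN u) hlt
    have hld : l d = 0 := hex l hlN hl
    have hy : l (ρ g2 u - u) ≠ 0 := phi_ne ρ N u l hlN hl hne hgen hld
    set y := l (ρ g2 u - u) with hyd
    have hypos : 0 < |y| := abs_pos.2 hy
    obtain ⟨b0, hb0⟩ := exists_nat_gt (|l (u' - u)| / (3 * |y|))
    refine ⟨b0, fun b hb C => ⟨0, fun a _ k r hk _ h0 h1 => ?_⟩⟩
    have hrel := key l hlN hl a b k r h0 h1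
    rw [hld, mul_zero, mul_zero, zero_add, add_zero] at hrel
    have hk1 : (1 : ℚ) ≤ |(k : ℚ)| := by
      have : (1 : ℤ) ≤ |k| := Int.one_le_abs hk
      exact_mod_cast this
    have h2 : |l (u' - u)| / (3 * |y|) < b := lt_of_lt_of_le hb0 (by exact_mod_cast hb)
    rw [div_lt_iff₀ (by positivity)] at h2
    have h3 : |l (u' - u)| = |(k : ℚ)| * (3 * b * |y|) := by
      rw [← hrel, abs_mul, abs_neg, abs_mul, abs_of_nonneg (by positivity : (0 : ℚ) ≤ 3 * b)]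
    have h4 : 3 * b * |y| ≤ |(k : ℚ)| * (3 * b * |y|) := by
      have := mul_le_mul_of_nonneg_right hk1 (by positivity : (0 : ℚ) ≤ 3 * b * |y|)
      linarith
    nlinarith

/-- A.8 for a group generated by `g1, g2`. -/
theorem lemma_LA'_gen (ρ : Λ →* Module.End ℚ V) (hU : ∀ g, IsNilpotent (ρ g - 1)) (g1 g2 : Λ)
    (hgen : Subgroup.closure {g1, g2} = ⊤) (q q' : V) (hq : ρ g1 q = q) :
    ∃ b0 : ℕ, ∀ b : ℕ, b0 ≤ b → ∀ (a : ℕ) (k : ℤ), k ≠ 0 →
      ρ ((g1 ^ (3 * a) * g2 ^ (3 * b)) ^ (-k)) q = q' → ρ g2 q = q ∧ q' = q := by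
  by_cases h2 : ρ g2 q = q
  · refine ⟨0, fun b _ a k _ h => ⟨h2, ?_⟩⟩
    have hall : ∀ g, ρ g q = q := by
      intro g
      have hg : g ∈ Subgroup.closure ({g1, g2} : Set Λ) := by rw [hgen]; trivial
      induction hg using Subgroup.closure_induction with
      | mem x hx =>
        rcases hx with rfl | rfl
        · exact hq
        · exact h2
      | one => simp
      | mul a b _ _ ha hb => rw [map_mul, Module.End.mul_apply, hb, ha]
      | inv a _ ha =>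
        have : ρ a⁻¹ (ρ a q) = q := by rw [← Module.End.mul_apply, ← map_mul]; simp
        rwa [ha] at this
    rw [← h, hall]
  · have hN : Inv ρ (⊥ : Submodule ℚ V) := fun g w hw => by
      rw [Submodule.mem_bot] at hw ⊢; rw [hw, map_zero]
    have hlt : (⊥ : Submodule ℚ V) < aug ρ ⊥ q := by
      rw [bot_lt_iff_ne_bot]
      intro h
      have h3 := mem_aug ρ ⊥ q g2
      rw [h, Submodule.mem_bot, sub_eq_zero] at h3
      exact h2 h3
    obtain ⟨l, hlN, hne, hl⟩ := kolchin_dual ρ hU hN (aug_inv ρ hN q) hlt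
    have h1 : l (ρ g1 q - q) = 0 := by rw [hq, sub_self, map_zero]
    have hy : l (ρ g2 q - q) ≠ 0 := phi_ne ρ ⊥ q l hlN hl hne hgen h1
    set y := l (ρ g2 q - q) with hyd
    have hypos : 0 < |y| := abs_pos.2 hy
    obtain ⟨b0, hb0⟩ := exists_nat_gt (|l (q' - q)| / (3 * |y|))
    refine ⟨b0, fun b hb a k hk h => ?_⟩
    exfalso
    have hrel : l (q' - q) = -(k : ℚ) * (3 * b * y) := by
      rw [← h, phi_zpow ρ ⊥ q l hl, phi_mul ρ ⊥ q l hl, phi_npow ρ ⊥ q l hl, phi_npow ρ ⊥ q l hl, h1]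
      push_cast
      ring
    have hk1 : (1 : ℚ) ≤ |(k : ℚ)| := by
      have : (1 : ℤ) ≤ |k| := Int.one_le_abs hk
      exact_mod_cast this
    have h2 : |l (q' - q)| / (3 * |y|) < b := lt_of_lt_of_le hb0 (by exact_mod_cast hb)
    rw [div_lt_iff₀ (by positivity)] at h2
    have h3 : |l (q' - q)| = |(k : ℚ)| * (3 * b * |y|) := by
      rw [hrel, abs_mul, abs_neg, abs_mul, abs_of_nonneg (by positivity : (0 : ℚ) ≤ 3 * b)]
    have h4 : 3 * b * |y| ≤ |(k : ℚ)| * (3 * b * |y|) := by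
      have := mul_le_mul_of_nonneg_right hk1 (by positivity : (0 : ℚ) ≤ 3 * b * |y|)
      linarith
    nlinarith

/-- A.9, first part, for a group generated by `g1, g2`: the exponents are constant. -/
theorem lemma_LA''_gen (ρ : Λ →* Module.End ℚ V) (hU : ∀ g, IsNilpotent (ρ g - 1)) (g1 g2 : Λ)
    (y y'' : V) (b : ℕ) (S : Set ℕ) (hS : S.Infinite) (k : ℕ → ℤ)
    (hk : ∀ a ∈ S, k a ≠ 0)
    (h : ∀ a ∈ S, ρ ((g2 ^ (3 * b) * g1 ^ (3 * a)) ^ (-(k a))) y = y'') :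
    y'' = y ∨ ∀ a ∈ S, ∀ a' ∈ S, k a = k a' := by
  by_cases hyy : y'' = y
  · exact Or.inl hyy
  right
  set D : V := y'' - y with hD
  have hD0 : D ≠ 0 := sub_ne_zero.2 hyy
  obtain ⟨N, hN, hDN, hDfix⟩ := exists_max_avoid ρ hU hD0
  have hUq : ∀ g, IsNilpotent (quo ρ N hN g - 1) := quo_unip ρ hU N hN
  set σ := quo ρ N hN with hσ
  set Y : V ⧸ N := N.mkQ y with hY
  set E : V ⧸ N := N.mkQ D with hE
  have hE0 : E ≠ 0 := by
    intro h0
    rw [hE, Submodule.mkQ_apply, Submodule.Quotient.mk_eq_zero] at h0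
    exact hDN h0
  have hEfix : ∀ g, σ g E = E := by
    intro g
    rw [hσ, hE, quo_mk, ← sub_eq_zero, ← map_sub, Submodule.mkQ_apply,
      Submodule.Quotient.mk_eq_zero]
    exact hDfix g
  -- roots
  have root : ∀ (g : Λ) (c : ℚ) (n : ℤ), n ≠ 0 → σ (g ^ n) Y = Y + (n * c) • E → σ g Y = Y + c • E := by
    intro g c n hn hgn
    have hpoly : IsPoly (fun m : ℤ => σ (g ^ m) Y - (Y + ((m : ℚ) * c) • E)) := by
      refine (isPoly_unip_apply σ g (hUq g) Y).sub ((isPoly_const Y).add ?_)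
      refine ((isPoly_monomial 1 (c • E))).congr (fun m => ?_)
      rw [smul_smul, pow_one]
    have hmul : ∀ j : ℤ, σ (g ^ (n * j)) Y = Y + (((n * j : ℤ) : ℚ) * c) • E := by
      intro j
      induction j using Int.induction_on with
      | zero => simp
      | succ j ih =>
        rw [mul_add, mul_one, zpow_add, map_mul, Module.End.mul_apply, hgn, map_add, map_smul, hEfix, ih]
        push_cast
        rw [add_assoc, ← add_smul]; congr 2; ring
      | pred j ih =>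
        have e : σ (g ^ (n * (-(j : ℤ)))) Y = σ (g ^ (n * (-(j : ℤ) - 1))) (σ (g ^ n) Y) := by
          rw [← Module.End.mul_apply, ← map_mul, ← zpow_add]; congr 2; ring
        rw [ih, hgn, map_add, map_smul, hEfix] at e
        have e2 : σ (g ^ (n * (-(j : ℤ) - 1))) Y = Y + (((n * (-(j : ℤ)) : ℤ) : ℚ) * c) • E - (n * c) • E := by
          rw [e]; abel
        rw [e2, add_sub_assoc, ← sub_smul]; push_cast; congr 2; ring
    have hz := hpoly.eq_zero_of_infinite (S := Set.range (fun j : ℤ => n * j)) (by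
      apply Set.infinite_range_of_injective
      intro i j hij
      exact mul_left_cancel₀ hn hij) (by
      rintro _ ⟨j, rfl⟩
      dsimp only
      rw [hmul, sub_self]) 1
    rw [zpow_one, sub_eq_zero] at hz
    rw [hz]; push_cast; rw [one_mul]
  -- g_a
  have hga : ∀ a ∈ S, σ (g2 ^ (3 * b) * g1 ^ (3 * a)) Y = Y + (-(1 / (k a : ℚ))) • E := by
    intro a ha
    apply root _ _ (-(k a)) (neg_ne_zero.2 (hk a ha))
    rw [hσ, hY, quo_mk, h a ha]
    have hka : (k a : ℚ) ≠ 0 := by exact_mod_cast hk a ha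
    have : ((-(k a) : ℤ) : ℚ) * (-(1 / (k a : ℚ))) = 1 := by push_cast; field_simp
    rw [this, one_smul, hE, ← map_add, hD]; congr 1; abel
  have hdiff : ∀ a ∈ S, ∀ a' ∈ S, a < a' →
      σ g1 Y = Y + ((1 / (k a : ℚ) - 1 / (k a' : ℚ)) / (3 * ((a' : ℚ) - a))) • E := by
    intro a ha a' ha' hlt
    have hpos : (0 : ℚ) < (a' : ℚ) - a := by
      have : (a : ℚ) < a' := by exact_mod_cast hlt
      linarith
    apply root g1 _ (3 * ((a' : ℤ) - a)) (by
      have : (a : ℤ) < a' := by exact_mod_cast hlt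
      omega)
    have e1 : σ (g2 ^ (3 * b) * g1 ^ (3 * a)) (σ (g1 ^ (3 * ((a' : ℤ) - a))) Y) =
        Y + (-(1 / (k a' : ℚ))) • E := by
      rw [← Module.End.mul_apply, ← map_mul, ← hga a' ha']
      congr 2
      rw [mul_assoc]
      congr 1
      rw [← zpow_natCast, ← zpow_natCast, ← zpow_add]
      congr 1
      push_cast; ring
    have e2 : σ (g2 ^ (3 * b) * g1 ^ (3 * a)) (Y + (1 / (k a : ℚ) - 1 / (k a' : ℚ)) • E) =
        Y + (-(1 / (k a' : ℚ))) • E := by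
      rw [map_add, map_smul, hEfix, hga a ha, add_assoc, ← add_smul]
      congr 2; ring
    have hinj : ∀ (x : Λ) (p q : V ⧸ N), σ x p = σ x q → p = q := by
      intro x p q hpq
      have := congrArg (σ x⁻¹) hpq
      rwa [← Module.End.mul_apply, ← Module.End.mul_apply, ← map_mul, inv_mul_cancel, map_one] at this
    rw [hinj _ _ _ (e1.trans e2.symm)]
    congr 2
    push_cast
    field_simp
  have huniq : ∀ c c' : ℚ, Y + c • E = Y + c' • E → c = c' := by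
    intro c c' hcc
    have := add_left_cancel hcc
    rw [← sub_eq_zero, ← sub_smul, smul_eq_zero] at this
    rcases this with h1 | h1
    · exact sub_eq_zero.1 h1
    · exact absurd h1 hE0
  -- the slope is zero
  have hslope : ∀ a ∈ S, ∀ a' ∈ S, a < a' → (1 / (k a : ℚ) - 1 / (k a' : ℚ)) = 0 := by
    intro a ha a' ha' hlt
    set θ := (1 / (k a : ℚ) - 1 / (k a' : ℚ)) / (3 * ((a' : ℚ) - a)) with hθ
    have hpos : (0 : ℚ) < (a' : ℚ) - a := by
      have : (a : ℚ) < a' := by exact_mod_cast hlt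
      linarith
    suffices hθ0 : θ = 0 by
      rw [hθ, div_eq_zero_iff] at hθ0
      rcases hθ0 with h1 | h1
      · exact h1
      · exfalso; linarith
    by_contra hne
    have hθpos : 0 < |θ| := abs_pos.2 hne
    obtain ⟨M, hM⟩ := exists_nat_gt ((2 / (3 * |θ|)) + a)
    obtain ⟨a'', ha'', hlt''⟩ := hS.exists_gt M
    have haM : (a : ℚ) < a'' := by
      have h1 : (0 : ℚ) ≤ 2 / (3 * |θ|) := by positivity
      have h2 : ((M : ℕ) : ℚ) < a'' := by exact_mod_cast hlt''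
      linarith
    have h1 := hdiff a ha a'' ha'' (by exact_mod_cast haM)
    have h2 := hdiff a ha a' ha' hlt
    have h3 := huniq _ _ (h1.symm.trans h2)
    rw [← hθ, div_eq_iff (by linarith : (3 * ((a'' : ℚ) - a)) ≠ 0)] at h3
    have hb1 : ∀ j ∈ S, |1 / (k j : ℚ)| ≤ 1 := by
      intro j hj
      rw [abs_div, abs_one]
      have : (1 : ℤ) ≤ |k j| := Int.one_le_abs (hk j hj)
      have : (1 : ℚ) ≤ |(k j : ℚ)| := by exact_mod_cast this
      rw [div_le_one (by linarith)]; exact this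
    have h4 : |θ * (3 * ((a'' : ℚ) - a))| ≤ 2 := by
      rw [← h3]
      have h5 := abs_sub (1 / (k a : ℚ)) (1 / (k a'' : ℚ))
      have h6 := hb1 a ha
      have h7 := hb1 a'' ha''
      linarith
    rw [abs_mul, abs_of_pos (by linarith : (0 : ℚ) < 3 * ((a'' : ℚ) - a))] at h4
    have h8 : 2 / (3 * |θ|) < (a'' : ℚ) - a := by
      have h2 : ((M : ℕ) : ℚ) < a'' := by exact_mod_cast hlt''
      linarith
    rw [div_lt_iff₀ (by positivity)] at h8
    nlinarith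
  have hlt_eq : ∀ a ∈ S, ∀ a' ∈ S, a < a' → k a = k a' := by
    intro a ha a' ha' hlt
    have h1 := hslope a ha a' ha' hlt
    have hka : (k a : ℚ) ≠ 0 := by exact_mod_cast hk a ha
    have hka' : (k a' : ℚ) ≠ 0 := by exact_mod_cast hk a' ha'
    rw [sub_eq_zero, one_div, one_div, inv_inj] at h1
    exact_mod_cast h1
  intro a ha a' ha'
  rcases lt_trichotomy a a' with h1 | h1 | h1
  · exact hlt_eq a ha a' ha' h1
  · rw [h1]
  · exact (hlt_eq a' ha' a ha h1).symm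

/-- A.9, second part. -/
theorem lemma_LA''_const (ρ : Λ →* Module.End ℚ V) (hU : ∀ g, IsNilpotent (ρ g - 1)) (g1 g2 : Λ)
    (y y'' : V) (b : ℕ) (S : Set ℕ) (hS : S.Infinite) (k : ℤ)
    (h : ∀ a ∈ S, ρ ((g2 ^ (3 * b) * g1 ^ (3 * a)) ^ (-k)) y = y'') :
    ρ ((g2 ^ (3 * b)) ^ (-k)) y = y'' := by
  have hp1 : ∀ x : Λ, IsPoly (fun n : ℤ => ρ (x ^ n)) := fun x => isPoly_unip ρ x (hU x)
  have hpoly : IsPoly (fun n : ℤ => ρ ((g2 ^ (3 * b) * g1 ^ (3 * n)) ^ (-k)) y - y'') := by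
    refine (IsPoly.apply ?_ (isPoly_const y)).sub (isPoly_const y'')
    rcases le_total 0 k with hk | hk
    · obtain ⟨m, rfl⟩ := Int.eq_ofNat_of_zero_le hk
      have h1 : IsPoly (fun n : ℤ => ρ (g1 ^ (-3 * n + 0)) * ρ ((g2 ^ (3 * b))⁻¹)) :=
        ((hp1 g1).comp_affine (-3) 0).mul (isPoly_const _)
      refine (h1.pow m).congr (fun n => ?_)
      rw [← map_mul, ← map_pow]
      congr 1
      rw [zpow_neg, zpow_natCast, ← inv_pow (g2 ^ (3 * b) * g1 ^ (3 * n)) m]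
      congr 1
      rw [mul_inv_rev, ← zpow_neg]
      congr 2; ring
    · obtain ⟨m, hm⟩ := Int.eq_ofNat_of_zero_le (neg_nonneg.2 hk)
      have h1 : IsPoly (fun n : ℤ => ρ (g2 ^ (3 * b)) * ρ (g1 ^ (3 * n + 0))) :=
        (isPoly_const _).mul ((hp1 g1).comp_affine 3 0)
      refine (h1.pow m).congr (fun n => ?_)
      rw [← map_mul, ← map_pow]
      congr 1
      rw [hm, zpow_natCast, add_zero]
  have hz := hpoly.eq_zero_of_infinite (S := (fun n : ℕ => (n : ℤ)) '' S)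
    (hS.image (Nat.cast_injective.injOn)) (by
      rintro _ ⟨a, ha, rfl⟩
      dsimp only
      have := h a ha
      have e : (g1 ^ (3 * (a : ℤ)) : Λ) = g1 ^ (3 * a) := by
        rw [← zpow_natCast]; push_cast; rfl
      rw [e, this, sub_self]) 0
  rw [mul_zero, zpow_zero, mul_one, sub_eq_zero] at hz
  exact hz

end LA

/-! ### versions for arbitrary elements of a group -/

section general

variable {V : Type*} [AddCommGroup V] [Module ℚ V] [FiniteDimensional ℚ V]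
variable {G : Type*} [Group G]

theorem gen_top (g1 g2 : G) :
    Subgroup.closure ({⟨g1, Subgroup.subset_closure (by simp)⟩,
      ⟨g2, Subgroup.subset_closure (by simp)⟩} : Set (Subgroup.closure ({g1, g2} : Set G))) = ⊤ := by
  have := Subgroup.closure_closure_coe_preimage (k := ({g1, g2} : Set G))
  rw [← this]
  congr 1
  ext ⟨x, hx⟩
  simp

/-- A.7 -/
theorem lemma_LA (ρ : G →* Module.End ℚ V) (hU : ∀ g, IsNilpotent (ρ g - 1)) (g1 g2 : G)
    (u u' : V) (hu : ρ g1 u ≠ u) :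
    ∃ b0 : ℕ, ∀ b : ℕ, b0 ≤ b → ∀ C : ℕ, ∃ a0 : ℕ, ∀ a : ℕ, a0 ≤ a → ∀ k r : ℤ, k ≠ 0 →
      2 * |r| ≤ 3 * (a : ℤ) + C →
      ρ ((g1 ^ (3 * a) * g2 ^ (3 * b)) ^ (-k)) u = ρ (g1 ^ r) u' →
      ρ ((g1 ^ (3 * a) * g2 ^ (3 * b)) ^ (-k) * g1) u = ρ (g1 ^ (r + 1)) u' → False := by
  exact lemma_LA_gen (ρ.comp (Subgroup.closure ({g1, g2} : Set G)).subtype) (fun g => hU g)
    ⟨g1, Subgroup.subset_closure (by simp)⟩ ⟨g2, Subgroup.subset_closure (by simp)⟩ (gen_top g1 g2)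
    u u' hu

/-- A.8 -/
theorem lemma_LA' (ρ : G →* Module.End ℚ V) (hU : ∀ g, IsNilpotent (ρ g - 1)) (g1 g2 : G)
    (q q' : V) (hq : ρ g1 q = q) :
    ∃ b0 : ℕ, ∀ b : ℕ, b0 ≤ b → ∀ (a : ℕ) (k : ℤ), k ≠ 0 →
      ρ ((g1 ^ (3 * a) * g2 ^ (3 * b)) ^ (-k)) q = q' → ρ g2 q = q ∧ q' = q := by
  exact lemma_LA'_gen (ρ.comp (Subgroup.closure ({g1, g2} : Set G)).subtype) (fun g => hU g)
    ⟨g1, Subgroup.subset_closure (by simp)⟩ ⟨g2, Subgroup.subset_closure (by simp)⟩ (gen_top g1 g2)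
    q q' hq

end general

end Pool.MP6567.Alg
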