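import Mathlib

/-!
# The truncated Magnus algebra

`MR α c` = non-commutative polynomials in the variables `α` modulo terms of degree `> c`;
`mu c : FreeGroup α →* (MR α c)ˣ`, `x_i ↦ 1 + X_i`.
-/

set_option autoImplicit false

namespace Pool.MP6567.Mag

open Finset

variable {α : Type}

/-- coefficient of a word in a non-commutative polynomial -/
noncomputable def cf (f : MonoidAlgebra ℚ (FreeMonoid α)) (w : List α) : ℚ :=
  f.coeff (FreeMonoid.ofList w)

theorem cf_add (f g : MonoidAlgebra ℚ (FreeMonoid α)) (w : List α) :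
    cf (f + g) w = cf f w + cf g w := by
  simp [cf]

theorem cf_sub (f g : MonoidAlgebra ℚ (FreeMonoid α)) (w : List α) :
    cf (f - g) w = cf f w - cf g w := by
  simp [cf]

theorem cf_zero (w : List α) : cf (0 : MonoidAlgebra ℚ (FreeMonoid α)) w = 0 := by
  simp [cf]

theorem cf_smul (q : ℚ) (f : MonoidAlgebra ℚ (FreeMonoid α)) (w : List α) :
    cf (q • f) w = q * cf f w := by
  simp [cf]

theorem cf_mul (f g : MonoidAlgebra ℚ (FreeMonoid α)) (w : List α) :
    cf (f * g) w = ∑ k ∈ range (w.length + 1), cf f (w.take k) * cf g (w.drop k) := by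
  classical
  unfold cf
  rw [MonoidAlgebra.coeff_mul_antidiag f g (FreeMonoid.ofList w)
    ((range (w.length + 1)).image fun k =>
      (FreeMonoid.ofList (w.take k), FreeMonoid.ofList (w.drop k)))]
  · rw [Finset.sum_image]
    intro k hk k' hk' h
    rw [Finset.mem_coe, Finset.mem_range] at hk hk'
    have h1 : w.take k = w.take k' := by
      have := congrArg Prod.fst h
      exact FreeMonoid.ofList.injective this
    have h2 := congrArg List.length h1
    rw [List.length_take, List.length_take] at h2
    omega
  · intro p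
    rw [Finset.mem_image]
    constructor
    · rintro ⟨k, _, rfl⟩
      dsimp only
      rw [← FreeMonoid.ofList_append, List.take_append_drop]
    · intro h
      have h1 : FreeMonoid.toList p.1 ++ FreeMonoid.toList p.2 = w := by
        rw [← FreeMonoid.toList_mul, h]; rfl
      refine ⟨(FreeMonoid.toList p.1).length, ?_, ?_⟩
      · rw [Finset.mem_range, ← h1, List.length_append]; omega
      · rw [← h1, List.take_left, List.drop_left]
        rfl

/-- the two-sided ideal of polynomials without terms of degree `≤ c` -/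
def trId (α : Type) (c : ℕ) : Ideal (MonoidAlgebra ℚ (FreeMonoid α)) where
  carrier := {f | ∀ w : List α, w.length ≤ c → cf f w = 0}
  zero_mem' := fun w _ => cf_zero w
  add_mem' := fun {f g} hf hg w hw => by rw [cf_add, hf w hw, hg w hw, add_zero]
  smul_mem' := fun a f hf w hw => by
    rw [smul_eq_mul, cf_mul]
    refine Finset.sum_eq_zero fun k _ => ?_
    rw [hf _ (by rw [List.length_drop]; omega), mul_zero]

theorem mem_trId (c : ℕ) (f : MonoidAlgebra ℚ (FreeMonoid α)) :
    f ∈ trId α c ↔ ∀ w : List α, w.length ≤ c → cf f w = 0 := Iff.rfl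

instance (c : ℕ) : (trId α c).IsTwoSided where
  mul_mem_of_left := fun {f} b hf w hw => by
    rw [cf_mul]
    refine Finset.sum_eq_zero fun k _ => ?_
    rw [hf _ (by rw [List.length_take]; omega), zero_mul]

/-- the truncated algebra -/
abbrev MR (α : Type) (c : ℕ) : Type := MonoidAlgebra ℚ (FreeMonoid α) ⧸ trId α c

/-- projection -/
noncomputable def mk (c : ℕ) : MonoidAlgebra ℚ (FreeMonoid α) →ₐ[ℚ] MR α c :=
  Ideal.Quotient.mkₐ ℚ (trId α c)

theorem mk_surj (c : ℕ) : Function.Surjective (mk (α := α) c) :=
  Ideal.Quotient.mkₐ_surjective ℚ _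

theorem mk_eq (c : ℕ) (f g : MonoidAlgebra ℚ (FreeMonoid α)) :
    mk c f = mk c g ↔ ∀ w : List α, w.length ≤ c → cf f w = cf g w := by
  have : mk c f = mk c g ↔ f - g ∈ trId α c := Ideal.Quotient.eq
  rw [this, mem_trId]
  refine forall_congr' fun w => forall_congr' fun _ => ?_
  rw [cf_sub, sub_eq_zero]

/-- coefficient of a word (zero for words longer than `c`) -/
noncomputable def coef (c : ℕ) (w : List α) : MR α c →ₗ[ℚ] ℚ where
  toFun a := if w.length ≤ c then cf (Function.surjInv (mk_surj c) a) w else 0
  map_add' := fun a b => by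
    split_ifs with h
    · rw [← cf_add]
      refine (mk_eq c _ _).1 ?_ w h
      rw [map_add]
      simp only [Function.surjInv_eq]
    · simp
  map_smul' := fun q a => by
    split_ifs with h
    · rw [RingHom.id_apply, smul_eq_mul, ← cf_smul]
      refine (mk_eq c _ _).1 ?_ w h
      rw [map_smul]
      simp only [Function.surjInv_eq]
    · simp

theorem coef_mk (c : ℕ) (w : List α) (hw : w.length ≤ c) (f : MonoidAlgebra ℚ (FreeMonoid α)) :
    coef c w (mk c f) = cf f w := by
  change (if w.length ≤ c then _ else 0) = _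
  rw [if_pos hw]
  refine (mk_eq c _ _).1 ?_ w hw
  simp only [Function.surjInv_eq]

theorem coef_long (c : ℕ) (w : List α) (hw : c < w.length) (a : MR α c) : coef c w a = 0 := by
  change (if w.length ≤ c then _ else 0) = _
  rw [if_neg (by omega)]

theorem coef_ext {c : ℕ} {a b : MR α c} (h : ∀ w : List α, w.length ≤ c → coef c w a = coef c w b) :
    a = b := by
  obtain ⟨f, rfl⟩ := mk_surj c a
  obtain ⟨g, rfl⟩ := mk_surj c b
  rw [mk_eq]
  intro w hw
  rw [← coef_mk c w hw, ← coef_mk c w hw, h w hw]

theorem coef_mul (c : ℕ) (a b : MR α c) (w : List α) (hw : w.length ≤ c) :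
    coef c w (a * b) = ∑ k ∈ range (w.length + 1), coef c (w.take k) a * coef c (w.drop k) b := by
  obtain ⟨f, rfl⟩ := mk_surj c a
  obtain ⟨g, rfl⟩ := mk_surj c b
  rw [← map_mul, coef_mk c w hw, cf_mul]
  refine Finset.sum_congr rfl fun k _ => ?_
  rw [coef_mk _ _ (by rw [List.length_take]; omega), coef_mk _ _ (by rw [List.length_drop]; omega)]

theorem coef_one [DecidableEq α] (c : ℕ) (w : List α) :
    coef c w (1 : MR α c) = if w = [] then 1 else 0 := by
  by_cases hw : w.length ≤ c
  · rw [← map_one (mk c), coef_mk c w hw]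
    unfold cf
    rw [MonoidAlgebra.one_def, MonoidAlgebra.coeff_single]
    by_cases h : w = []
    · rw [if_pos h, h]
      exact Finsupp.single_eq_same
    · rw [if_neg h]
      refine Finsupp.single_eq_of_ne fun h' => h ?_
      exact FreeMonoid.ofList.injective h'
  · rw [coef_long c w (by omega), if_neg]
    rintro rfl
    simp at hw

/-- the variable -/
noncomputable def X (c : ℕ) (i : α) : MR α c := mk c (MonoidAlgebra.of ℚ _ (FreeMonoid.of i))

/-- the word -/
noncomputable def word (c : ℕ) (w : List α) : MR α c := mk c (MonoidAlgebra.of ℚ _ (FreeMonoid.ofList w))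

theorem word_eq (c : ℕ) (w : List α) : word c w = (w.map (X c)).prod := by
  induction w with
  | nil =>
    unfold word
    rw [List.map_nil, List.prod_nil, FreeMonoid.ofList_nil, map_one, map_one]
  | cons i w ih =>
    rw [List.map_cons, List.prod_cons, ← ih]
    unfold word X
    rw [← map_mul, ← map_mul]
    rfl

theorem coef_word [DecidableEq α] (c : ℕ) (w u : List α) (hu : u.length ≤ c) :
    coef c u (word c w) = if u = w then 1 else 0 := by
  unfold word
  rw [coef_mk c u hu]
  unfold cf
  rw [MonoidAlgebra.of_apply, MonoidAlgebra.coeff_single]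
  by_cases h : u = w
  · rw [if_pos h, h]
    exact Finsupp.single_eq_same
  · rw [if_neg h]
    refine Finsupp.single_eq_of_ne fun h' => h ?_
    exact FreeMonoid.ofList.injective h'

theorem coef_X [DecidableEq α] (c : ℕ) (i : α) (u : List α) (hu : u.length ≤ c) :
    coef c u (X c i) = if u = [i] then 1 else 0 := by
  have : X c i = word c [i] := by rw [word_eq]; simp
  rw [this, coef_word c _ _ hu]

/-- every element is a linear combination of words -/
theorem span_words (c : ℕ) : Submodule.span ℚ (Set.range (word (α := α) c)) = ⊤ := by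
  rw [eq_top_iff]
  intro a _
  obtain ⟨f, rfl⟩ := mk_surj c a
  induction f using MonoidAlgebra.induction_on with
  | of m => exact Submodule.subset_span ⟨FreeMonoid.toList m, rfl⟩
  | add x y hx hy => rw [map_add]; exact Submodule.add_mem _ (hx trivial) (hy trivial)
  | smul r x hx => rw [map_smul]; exact Submodule.smul_mem _ _ (hx trivial)

/-- filtration by degree -/
def Fil (c j : ℕ) : Submodule ℚ (MR α c) where
  carrier := {a | ∀ w : List α, w.length < j → coef c w a = 0}
  zero_mem' := fun w _ => map_zero _
  add_mem' := fun {a b} ha hb w hw => by rw [map_add, ha w hw, hb w hw, add_zero]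
  smul_mem' := fun q a ha w hw => by rw [map_smul, ha w hw, smul_zero]

theorem mem_Fil (c j : ℕ) (a : MR α c) : a ∈ Fil c j ↔ ∀ w : List α, w.length < j → coef c w a = 0 :=
  Iff.rfl

theorem Fil_zero (c : ℕ) : Fil (α := α) c 0 = ⊤ := by
  rw [eq_top_iff]; intro a _ w hw; omega

theorem Fil_anti (c : ℕ) {i j : ℕ} (h : i ≤ j) : Fil (α := α) c j ≤ Fil c i :=
  fun a ha w hw => ha w (by omega)

theorem Fil_top (c j : ℕ) (hj : c < j) : Fil (α := α) c j = ⊥ := by
  rw [eq_bot_iff]
  intro a ha
  rw [Submodule.mem_bot]
  apply coef_ext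
  intro w hw
  rw [ha w (by omega), map_zero]

theorem Fil_mul (c : ℕ) {i j : ℕ} {a b : MR α c} (ha : a ∈ Fil c i) (hb : b ∈ Fil c j) :
    a * b ∈ Fil c (i + j) := by
  intro w hw
  by_cases hc : w.length ≤ c
  · rw [coef_mul c a b w hc]
    refine Finset.sum_eq_zero fun k hk => ?_
    rw [Finset.mem_range] at hk
    by_cases h : k < i
    · rw [ha _ (by rw [List.length_take]; omega), zero_mul]
    · rw [hb _ (by rw [List.length_drop]; omega), mul_zero]
  · exact coef_long c w (by omega) _

theorem X_mem (c : ℕ) (i : α) : X c i ∈ Fil (α := α) c 1 := by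
  classical
  intro w hw
  rw [coef_X c i w (by omega), if_neg]
  rintro rfl
  simp at hw

theorem word_mem (c : ℕ) (w : List α) : word c w ∈ Fil (α := α) c w.length := by
  classical
  intro u hu
  by_cases hc : u.length ≤ c
  · rw [coef_word c w u hc, if_neg]
    rintro rfl
    omega
  · exact coef_long c u (by omega) _

theorem Fil_pow (c : ℕ) {a : MR α c} (ha : a ∈ Fil c 1) (k : ℕ) : a ^ k ∈ Fil c k := by
  induction k with
  | zero => rw [Fil_zero]; trivial
  | succ k ih => rw [pow_succ]; exact Fil_mul c ih ha

theorem nilp (c : ℕ) {a : MR α c} (ha : a ∈ Fil c 1) : a ^ (c + 1) = 0 := by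
  have := Fil_pow c ha (c + 1)
  rw [Fil_top c (c + 1) (by omega)] at this
  exact this

theorem isUnit_of (c : ℕ) {a : MR α c} (ha : a - 1 ∈ Fil c 1) : IsUnit a := by
  have : IsNilpotent (a - 1) := ⟨c + 1, nilp c ha⟩
  have h := this.isUnit_one_add
  rwa [add_sub_cancel] at h

/-- the Magnus homomorphism -/
noncomputable def mu (c : ℕ) : FreeGroup α →* (MR α c)ˣ :=
  FreeGroup.lift fun i => (isUnit_of c (a := 1 + X c i) (by rw [add_sub_cancel_left]; exact X_mem c i)).unit

theorem mu_of (c : ℕ) (i : α) : (mu c (FreeGroup.of i) : MR α c) = 1 + X c i := by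
  unfold mu
  rw [FreeGroup.lift_apply_of]
  rfl

/-- universal property: algebra homomorphisms out of the truncated algebra -/
noncomputable def evalHom (c : ℕ) {B : Type} [Ring B] [Algebra ℚ B] (f : α → B)
    (h : ∀ l : List α, c < l.length → (l.map f).prod = 0) : MR α c →ₐ[ℚ] B :=
  Ideal.Quotient.liftₐ (trId α c) (MonoidAlgebra.lift ℚ B (FreeMonoid α) (FreeMonoid.lift f)) (by
    intro a ha
    rw [MonoidAlgebra.lift_apply, Finsupp.sum]
    refine Finset.sum_eq_zero fun w _ => ?_
    by_cases hw : (FreeMonoid.toList w).length ≤ c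
    · have := ha (FreeMonoid.toList w) hw
      unfold cf at this
      rw [FreeMonoid.ofList_toList] at this
      rw [this, zero_smul]
    · rw [FreeMonoid.lift_apply, h _ (by omega), smul_zero])

theorem evalHom_word (c : ℕ) {B : Type} [Ring B] [Algebra ℚ B] (f : α → B)
    (h : ∀ l : List α, c < l.length → (l.map f).prod = 0) (w : List α) :
    evalHom c f h (word c w) = (w.map f).prod := by
  unfold evalHom word
  change MonoidAlgebra.lift ℚ B (FreeMonoid α) (FreeMonoid.lift f) _ = _
  rw [MonoidAlgebra.lift_of, FreeMonoid.lift_apply]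
  rfl

theorem evalHom_X (c : ℕ) {B : Type} [Ring B] [Algebra ℚ B] (f : α → B)
    (h : ∀ l : List α, c < l.length → (l.map f).prod = 0) (i : α) :
    evalHom c f h (X c i) = f i := by
  have : X c i = word c [i] := by rw [word_eq]; simp
  rw [this, evalHom_word]; simp

theorem algHom_ext' (c : ℕ) {B : Type} [Ring B] [Algebra ℚ B] {f g : MR α c →ₐ[ℚ] B}
    (h : ∀ i, f (X c i) = g (X c i)) : f = g := by
  have hw : ∀ w, f (word c w) = g (word c w) := by
    intro w
    rw [word_eq, map_list_prod, map_list_prod, List.map_map, List.map_map]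
    congr 1
    exact List.map_congr_left fun i _ => h i
  ext a
  have ha : a ∈ Submodule.span ℚ (Set.range (word (α := α) c)) := by rw [span_words]; trivial
  induction ha using Submodule.span_induction with
  | mem x hx => obtain ⟨w, rfl⟩ := hx; exact hw w
  | zero => rw [map_zero, map_zero]
  | add x y _ _ hx hy => rw [map_add, map_add, hx, hy]
  | smul q x _ hx => rw [map_smul, map_smul, hx]

theorem mu_fil (c : ℕ) (x : FreeGroup α) : (mu c x : MR α c) - 1 ∈ Fil c 1 := by
  induction x using FreeGroup.induction_on with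
  | C1 => rw [map_one]; simp
  | of i => rw [mu_of, add_sub_cancel_left]; exact X_mem c i
  | inv_of i h =>
    have h1 : ((mu c (FreeGroup.of i))⁻¹ : (MR α c)ˣ) - (1 : MR α c)
        = -(((mu c (FreeGroup.of i))⁻¹ : (MR α c)ˣ) * ((mu c (FreeGroup.of i) : MR α c) - 1)) := by
      rw [mul_sub, Units.inv_mul, mul_one, neg_sub]
    rw [map_inv, h1]
    refine Submodule.neg_mem _ ?_
    have := Fil_mul c (i := 0) (a := (((mu c (FreeGroup.of i))⁻¹ : (MR α c)ˣ) : MR α c))
      (by rw [Fil_zero]; trivial) h
    rwa [zero_add] at this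
  | mul x y hx hy =>
    have h1 : (mu c (x * y) : MR α c) - 1 = (mu c x : MR α c) * ((mu c y : MR α c) - 1)
        + ((mu c x : MR α c) - 1) := by
      rw [map_mul, Units.val_mul, mul_sub, mul_one]; abel
    rw [h1]
    refine Submodule.add_mem _ ?_ hx
    have := Fil_mul c (i := 0) (a := (mu c x : MR α c)) (by rw [Fil_zero]; trivial) hy
    rwa [zero_add] at this

/-- induced algebra endomorphism -/
noncomputable def star (c : ℕ) (r : FreeGroup α →* FreeGroup α) : MR α c →ₐ[ℚ] MR α c :=
  evalHom c (fun i => (mu c (r (FreeGroup.of i)) : MR α c) - 1) (by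
    intro l hl
    have : ∀ l : List α, (l.map fun i => (mu c (r (FreeGroup.of i)) : MR α c) - 1).prod
        ∈ Fil c l.length := by
      intro l
      induction l with
      | nil => rw [List.length_nil, Fil_zero]; trivial
      | cons i l ih =>
        rw [List.map_cons, List.prod_cons, List.length_cons, add_comm]
        exact Fil_mul c (mu_fil c _) ih
    have h := this l
    rw [Fil_top c _ hl] at h
    exact (Submodule.mem_bot ℚ).1 h)

theorem star_mu (c : ℕ) (r : FreeGroup α →* FreeGroup α) (x : FreeGroup α) :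
    star c r (mu c x : MR α c) = mu c (r x) := by
  have h : (Units.map (star c r : MR α c →* MR α c)).comp (mu c) = (mu c).comp r := by
    ext i
    simp only [MonoidHom.comp_apply, Units.coe_map, MonoidHom.coe_coe]
    rw [mu_of, map_add, map_one]
    unfold star
    rw [evalHom_X, add_sub_cancel]
  have := congrArg (fun f => ((f x : (MR α c)ˣ) : MR α c)) h
  simpa using this

theorem star_id (c : ℕ) : star c (MonoidHom.id (FreeGroup α)) = AlgHom.id ℚ (MR α c) := by
  apply algHom_ext'
  intro i
  unfold star
  rw [evalHom_X, AlgHom.id_apply, MonoidHom.id_apply, mu_of, add_sub_cancel_left]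

theorem star_comp (c : ℕ) (r s : FreeGroup α →* FreeGroup α) :
    star c (r.comp s) = (star c r).comp (star c s) := by
  apply algHom_ext'
  intro i
  have h : X c i = (mu c (FreeGroup.of i) : MR α c) - 1 := by rw [mu_of, add_sub_cancel_left]
  rw [h, map_sub, map_sub, map_one, map_one, star_mu, AlgHom.comp_apply, star_mu, star_mu]
  rfl

end Pool.MP6567.Mag
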