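import Pool.Agent.Lib.MP_6567fb_al.A.MInj
import Pool.Agent.Lib.MP_6567fb_al.Defs3

/-!
# A.Res3: the intersection of the Frattini series (prime 3) of a free group is trivial

`J3 c m` = elements of the truncated Magnus algebra whose coefficient at a word `w` is an integer divisible by
`3 ^ (m - |w|)`. The elements `x` with `mu c x - 1 ∈ J3 c (m + 1)` form a subgroup which contains `frat3 m`.
-/

set_option autoImplicit false

namespace Pool.MP6567.A

open Pool.MP6567.Mag Pool.Agent.Lib.MP_6567fb_al Finset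

variable {α : Type}

/-- integral elements whose coefficient at `w` is divisible by `3 ^ (m - |w|)` -/
def J3 (c m : ℕ) : AddSubgroup (MR α c) where
  carrier := {a | ∀ w : List α, ∃ z : ℤ, coef c w a = 3 ^ (m - w.length) * (z : ℚ)}
  zero_mem' := fun w => ⟨0, by simp⟩
  add_mem' := by
    rintro a b ha hb w
    obtain ⟨x, hx⟩ := ha w
    obtain ⟨y, hy⟩ := hb w
    exact ⟨x + y, by rw [map_add, hx, hy]; push_cast; ring⟩
  neg_mem' := by
    rintro a ha w
    obtain ⟨x, hx⟩ := ha w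
    exact ⟨-x, by rw [map_neg, hx]; push_cast; ring⟩

theorem J3_mul (c : ℕ) {i j : ℕ} {a b : MR α c} (ha : a ∈ J3 (α := α) c i) (hb : b ∈ J3 (α := α) c j) :
    a * b ∈ J3 (α := α) c (i + j) := by
  intro w
  by_cases hc : w.length ≤ c
  · rw [coef_mul c a b w hc]
    have : ∀ k ∈ range (w.length + 1), ∃ z : ℤ,
        coef c (w.take k) a * coef c (w.drop k) b = 3 ^ (i + j - w.length) * (z : ℚ) := by
      intro k hk
      obtain ⟨x, hx⟩ := ha (w.take k)
      obtain ⟨y, hy⟩ := hb (w.drop k)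
      rw [mem_range] at hk
      have h1 : (w.take k).length = k := by rw [List.length_take]; omega
      have h2 : (w.drop k).length = w.length - k := by rw [List.length_drop]
      obtain ⟨d, hd⟩ : ∃ d, (i - k) + (j - (w.length - k)) = (i + j - w.length) + d :=
        ⟨_, (Nat.add_sub_of_le (by omega)).symm⟩
      refine ⟨3 ^ d * x * y, ?_⟩
      rw [hx, hy, h1, h2]
      push_cast
      have : (3 : ℚ) ^ (i - k) * 3 ^ (j - (w.length - k)) = 3 ^ (i + j - w.length) * 3 ^ d := by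
        rw [← pow_add, ← pow_add, hd]
      linear_combination (x * y : ℚ) * this
    choose! f hf using this
    refine ⟨∑ k ∈ range (w.length + 1), f k, ?_⟩
    rw [sum_congr rfl hf, ← mul_sum]
    push_cast
    rfl
  · exact ⟨0, by rw [coef_long c w (by omega)]; simp⟩

theorem J3_anti (c : ℕ) {i j : ℕ} (h : i ≤ j) : J3 (α := α) c j ≤ J3 c i := by
  intro a ha w
  obtain ⟨z, hz⟩ := ha w
  obtain ⟨d, hd⟩ : ∃ d, j - w.length = (i - w.length) + d := ⟨_, (Nat.add_sub_of_le (by omega)).symm⟩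
  refine ⟨3 ^ d * z, ?_⟩
  rw [hz, hd, pow_add]
  push_cast
  ring

theorem J3_one (c : ℕ) : (1 : MR α c) ∈ J3 (α := α) c 0 := by
  classical
  intro w
  refine ⟨if w = [] then 1 else 0, ?_⟩
  rw [coef_one, Nat.zero_sub, pow_zero, one_mul]
  split_ifs <;> simp

theorem J3_X (c : ℕ) (i : α) : X c i ∈ J3 (α := α) c 1 := by
  classical
  intro w
  by_cases hc : w.length ≤ c
  · rw [coef_X c i w hc]
    by_cases h : w = [i]
    · exact ⟨1, by rw [if_pos h, h]; simp⟩
    · exact ⟨0, by rw [if_neg h]; simp⟩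
  · exact ⟨0, by rw [coef_long c w (by omega)]; simp⟩

theorem J3_three (c : ℕ) {m : ℕ} {a : MR α c} (ha : a ∈ J3 (α := α) c m) :
    3 * a ∈ J3 (α := α) c (m + 1) := by
  intro w
  obtain ⟨z, hz⟩ := ha w
  have h1 : coef c w (3 * a) = 3 * coef c w a := by
    have : (3 : MR α c) * a = (3 : ℚ) • a := by
      rw [Algebra.smul_def]
      congr 1
    rw [this, map_smul, smul_eq_mul]
  rw [h1, hz]
  by_cases h : w.length ≤ m
  · exact ⟨z, by rw [show m + 1 - w.length = (m - w.length) + 1 by omega, pow_succ]; ring⟩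
  · exact ⟨3 * z, by
      rw [show m + 1 - w.length = 0 by omega, show m - w.length = 0 by omega]; push_cast; ring⟩

theorem J3_pow (c : ℕ) {a : MR α c} (ha : a ∈ J3 (α := α) c 0) (k : ℕ) : a ^ k ∈ J3 (α := α) c 0 := by
  induction k with
  | zero => rw [pow_zero]; exact J3_one c
  | succ k ih => rw [pow_succ]; exact J3_mul c ih ha

theorem J3_inv (c : ℕ) (u : (MR α c)ˣ) (h1 : (u : MR α c) - 1 ∈ Fil c 1)
    (h : (u : MR α c) ∈ J3 (α := α) c 0) : ((u⁻¹ : (MR α c)ˣ) : MR α c) ∈ J3 (α := α) c 0 := by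
  have h2 : (u : MR α c) * ∑ k ∈ range (c + 1), (1 - (u : MR α c)) ^ k = 1 := by
    have h3 := mul_neg_geom_sum (1 - (u : MR α c)) (c + 1)
    rw [sub_sub_cancel] at h3
    rw [h3, show (1 : MR α c) - u = -((u : MR α c) - 1) by abel, neg_pow, nilp c h1, mul_zero, sub_zero]
  have h3 : ((u⁻¹ : (MR α c)ˣ) : MR α c) = ∑ k ∈ range (c + 1), (1 - (u : MR α c)) ^ k := by
    rw [Units.inv_eq_of_mul_eq_one_right h2]
  rw [h3]
  exact AddSubgroup.sum_mem _ fun k _ => J3_pow c (AddSubgroup.sub_mem _ (J3_one c) h) k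

theorem mu_J3 (c : ℕ) (x : FreeGroup α) : (mu c x : MR α c) ∈ J3 (α := α) c 0 := by
  induction x using FreeGroup.induction_on with
  | C1 => rw [map_one]; exact J3_one c
  | of i =>
    rw [mu_of]
    exact AddSubgroup.add_mem _ (J3_one c) (J3_anti c (Nat.zero_le 1) (J3_X c i))
  | inv_of i h =>
    rw [map_inv]
    exact J3_inv c _ (mu_fil c _) h
  | mul x y hx hy =>
    rw [map_mul, Units.val_mul]
    exact J3_mul c hx hy

/-- the congruence subgroup -/
def U3 (c m : ℕ) : Subgroup (FreeGroup α) where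
  carrier := {x | (mu c x : MR α c) - 1 ∈ J3 (α := α) c m}
  one_mem' := by
    change (mu c (1 : FreeGroup α) : MR α c) - 1 ∈ J3 (α := α) c m
    rw [map_one, Units.val_one, sub_self]
    exact AddSubgroup.zero_mem _
  mul_mem' := fun {x y} hx hy => by
    change (mu c (x * y) : MR α c) - 1 ∈ J3 (α := α) c m
    have h1 : (mu c (x * y) : MR α c) - 1 = (mu c x : MR α c) * ((mu c y : MR α c) - 1)
        + ((mu c x : MR α c) - 1) := by
      rw [map_mul, Units.val_mul, mul_sub, mul_one]; abel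
    rw [h1]
    refine AddSubgroup.add_mem _ ?_ hx
    have := J3_mul c (mu_J3 c x) hy
    rwa [zero_add] at this
  inv_mem' := fun {x} hx => by
    change (mu c (x⁻¹) : MR α c) - 1 ∈ J3 (α := α) c m
    have h1 : (mu c (x⁻¹) : MR α c) - 1 = -((mu c (x⁻¹) : MR α c) * ((mu c x : MR α c) - 1)) := by
      rw [mul_sub, mul_one, map_inv, Units.inv_mul, neg_sub]
    rw [h1]
    refine AddSubgroup.neg_mem _ ?_
    have := J3_mul c (mu_J3 c (x⁻¹)) hx
    rwa [zero_add] at this

theorem mem_U3 (c m : ℕ) (x : FreeGroup α) : x ∈ U3 c m ↔ (mu c x : MR α c) - 1 ∈ J3 (α := α) c m := Iff.rfl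

theorem U3_one (c : ℕ) : U3 (α := α) c 1 = ⊤ := by
  rw [eq_top_iff]
  intro x _
  induction x using FreeGroup.induction_on with
  | C1 => exact Subgroup.one_mem _
  | of i =>
    rw [mem_U3, mu_of, add_sub_cancel_left]
    exact J3_X c i
  | inv_of i h => exact Subgroup.inv_mem _ (h (Subgroup.mem_top _))
  | mul x y hx hy => exact Subgroup.mul_mem _ (hx (Subgroup.mem_top _)) (hy (Subgroup.mem_top _))

theorem U3_comm (c m : ℕ) {x y : FreeGroup α} (hx : x ∈ U3 c (m + 1)) (hy : y ∈ U3 c (m + 1)) :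
    x * y * x⁻¹ * y⁻¹ ∈ U3 c (m + 2) := by
  rw [mem_U3] at hx hy ⊢
  have h1 : (mu c (x * y * x⁻¹ * y⁻¹) : MR α c) - 1
      = (((mu c x : MR α c) - 1) * ((mu c y : MR α c) - 1)
        - ((mu c y : MR α c) - 1) * ((mu c x : MR α c) - 1)) * (mu c (x⁻¹ * y⁻¹) : MR α c) := by
    have h2 : ((mu c x : MR α c) - 1) * ((mu c y : MR α c) - 1)
        - ((mu c y : MR α c) - 1) * ((mu c x : MR α c) - 1) = (mu c (x * y) : MR α c) - (mu c (y * x)) := by
      rw [map_mul, map_mul, Units.val_mul, Units.val_mul]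
      noncomm_ring
    rw [h2, sub_mul, ← Units.val_mul, ← Units.val_mul, ← map_mul, ← map_mul]
    congr 1
    · rw [show x * y * x⁻¹ * y⁻¹ = x * y * (x⁻¹ * y⁻¹) by group]
    · rw [show y * x * (x⁻¹ * y⁻¹) = 1 by group, map_one, Units.val_one]
  rw [h1]
  have h3 := J3_mul c (AddSubgroup.sub_mem _ (J3_mul c hx hy) (J3_mul c hy hx)) (mu_J3 c (x⁻¹ * y⁻¹))
  exact J3_anti c (by omega) h3

theorem U3_cube (c m : ℕ) {x : FreeGroup α} (hx : x ∈ U3 c (m + 1)) : x ^ 3 ∈ U3 c (m + 2) := by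
  rw [mem_U3] at hx ⊢
  have h1 : (mu c (x ^ 3) : MR α c) - 1
      = 3 * ((mu c x : MR α c) - 1) + (3 * (((mu c x : MR α c) - 1) * ((mu c x : MR α c) - 1))
        + ((mu c x : MR α c) - 1) * (((mu c x : MR α c) - 1) * ((mu c x : MR α c) - 1))) := by
    rw [map_pow, Units.val_pow_eq_pow_val]
    noncomm_ring
  rw [h1]
  have h2 := J3_mul c hx hx
  refine AddSubgroup.add_mem _ (J3_three c hx) (AddSubgroup.add_mem _ ?_ ?_)
  · exact J3_anti c (by omega) (J3_three c h2)
  · exact J3_anti c (by omega) (J3_mul c hx h2)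

theorem U3_inf (x : FreeGroup α) (h : ∀ c m, x ∈ U3 c (m + 1)) : x = 1 := by
  apply mu_inj
  intro c
  rw [map_one]
  apply Units.ext
  rw [Units.val_one, ← sub_eq_zero]
  apply coef_ext
  intro w _
  rw [map_zero]
  obtain ⟨z, hz⟩ := h c w.length w
  -- the coefficient is an integer divisible by all powers of 3
  have h1 : ∀ k : ℕ, ∃ y : ℤ, coef c w ((mu c x : MR α c) - 1) = 3 ^ k * (y : ℚ) := by
    intro k
    obtain ⟨y, hy⟩ := J3_anti c (Nat.le_succ (w.length + k)) (h c (w.length + k)) w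
    exact ⟨y, by rw [hy, Nat.add_sub_cancel_left]⟩
  obtain ⟨y0, hy0⟩ := h1 0
  rw [pow_zero, one_mul] at hy0
  obtain ⟨y, hy⟩ := h1 (y0.natAbs)
  rw [hy0] at hy
  have h2 : y0 = 3 ^ y0.natAbs * y := by exact_mod_cast hy
  have h3 : y0 = 0 := by
    apply Int.eq_zero_of_abs_lt_dvd (m := 3 ^ y0.natAbs) ⟨y, h2⟩
    have : y0.natAbs < 3 ^ y0.natAbs := Nat.lt_pow_self (by norm_num)
    rw [Int.abs_eq_natAbs]
    exact_mod_cast this
  rw [hy0, h3, Int.cast_zero]

/-- The Frattini series (prime 3) of a free subgroup has trivial intersection. -/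
theorem res3 {Γ : Type} [Group Γ] (H : Subgroup Γ) {n : ℕ} (b : FreeGroupBasis (Fin n) H) (x : Γ)
    (hx : x ∈ H) (h1 : x ≠ 1) : ∃ m, x ∉ frat3 H m := by
  by_contra hcon
  push Not at hcon
  set e : H ≃* FreeGroup (Fin n) := b.repr with he
  have key : ∀ c m, frat3 H m ≤ ((U3 c (m + 1)).comap e.toMonoidHom).map H.subtype := by
    intro c m
    induction m with
    | zero =>
      intro z hz
      exact ⟨⟨z, hz⟩, by rw [zero_add, U3_one]; trivial, rfl⟩
    | succ m ih =>
      change Subgroup.closure _ ≤ _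
      rw [Subgroup.closure_le]
      rintro z ⟨u, hu, v, hv, hz⟩
      obtain ⟨u', hu', rfl⟩ := ih hu
      obtain ⟨v', hv', rfl⟩ := ih hv
      rw [SetLike.mem_coe, Subgroup.mem_comap] at hu' hv'
      rcases hz with rfl | rfl
      · refine ⟨u' * v' * u'⁻¹ * v'⁻¹, ?_, rfl⟩
        rw [SetLike.mem_coe, Subgroup.mem_comap, map_mul, map_mul, map_mul, map_inv, map_inv]
        exact U3_comm c m hu' hv'
      · refine ⟨u' ^ 3, ?_, rfl⟩
        rw [SetLike.mem_coe, Subgroup.mem_comap, map_pow]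
        exact U3_cube c m hu'
  have h2 : e ⟨x, hx⟩ = 1 := by
    apply U3_inf
    intro c m
    obtain ⟨y, hy, hyx⟩ := key c m (hcon m)
    have : y = ⟨x, hx⟩ := Subtype.ext hyx
    rw [← this]
    exact hy
  have h3 : (⟨x, hx⟩ : H) = 1 := e.injective (by rw [h2, map_one])
  exact h1 (congrArg Subtype.val h3)

/-- the same for the kernel of the projection in the context -/
theorem ctx_res3 {Γ G : Type} [Group Γ] [Group G] (π : Γ →* G) (hC : Ctx π) (x : Γ)
    (hx : x ∈ π.ker) (h1 : x ≠ 1) : ∃ m, x ∉ frat3 π.ker m := by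
  obtain ⟨n, ⟨b⟩⟩ := hC.free
  exact res3 π.ker b x hx h1

end Pool.MP6567.A
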