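import Pool.Agent.Lib.MP_6567fb_al.A.Syl

/-!
# Trace functionals on the Magnus algebra
-/

set_option autoImplicit false

open scoped Pointwise

namespace Pool.MP6567.A

open Pool.MP6567.Mag Pool.MP6567.Alg Pool.Agent.Lib.MP_6567fb_al Finset

variable {α : Type}

/-- sum of the coefficients of all rotations of the word -/
noncomputable def tr (c : ℕ) (w : List α) : MR α c →ₗ[ℚ] ℚ := ∑ r ∈ range w.length, coef c (w.rotate r)

theorem sum_shift (m : ℕ) (G : ℕ → ℚ) (hG : ∀ r, G (r + m) = G r) (k : ℕ) :
    ∑ r ∈ range m, G (r + k) = ∑ r ∈ range m, G r := by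
  induction k with
  | zero => rfl
  | succ k ih =>
    rw [← ih]
    have h1 := Finset.sum_range_succ (fun r => G (r + k)) m
    have h2 := Finset.sum_range_succ' (fun r => G (r + k)) m
    rw [h1] at h2
    have h3 : G (m + k) = G (0 + k) := by rw [add_comm m k, hG, zero_add]
    rw [h3] at h2
    have h4 := add_right_cancel h2
    rw [h4]
    refine Finset.sum_congr rfl fun r _ => ?_
    rw [add_assoc r 1 k, add_comm 1 k]

theorem tr_apply (c : ℕ) (w : List α) (a : MR α c) :
    tr c w a = ∑ r ∈ range w.length, coef c (w.rotate r) a := by
  unfold tr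
  rw [LinearMap.sum_apply]

theorem tr_comm (c : ℕ) (w : List α) (hw : w.length ≤ c) (a b : MR α c) :
    tr c w (a * b) = tr c w (b * a) := by
  have h1 : ∀ a b : MR α c, tr c w (a * b) = ∑ k ∈ range (w.length + 1), ∑ r ∈ range w.length,
      coef c ((w.rotate r).take k) a * coef c ((w.rotate r).drop k) b := by
    intro a b
    rw [tr_apply, Finset.sum_comm]
    refine Finset.sum_congr rfl fun r _ => ?_
    rw [coef_mul c a b _ (by rw [List.length_rotate]; exact hw), List.length_rotate]
  rw [h1 a b, h1 b a, ← Finset.sum_range_reflect (fun k => ∑ r ∈ range w.length,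
      coef c ((w.rotate r).take k) b * coef c ((w.rotate r).drop k) a)]
  refine Finset.sum_congr rfl fun k hk => ?_
  rw [Finset.mem_range] at hk
  rw [← sum_shift w.length (fun r => coef c ((w.rotate r).take (w.length + 1 - 1 - k)) b
    * coef c ((w.rotate r).drop (w.length + 1 - 1 - k)) a) ?_ k]
  · refine Finset.sum_congr rfl fun r _ => ?_
    rw [← List.rotate_rotate]
    have hl : (w.rotate r).length = w.length := List.length_rotate _ _
    have h2 : (w.rotate r).rotate k = (w.rotate r).drop k ++ (w.rotate r).take k :=
      List.rotate_eq_drop_append_take (by rw [hl]; omega)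
    have h3 : ((w.rotate r).drop k).length = w.length + 1 - 1 - k := by
      rw [List.length_drop, hl]; omega
    rw [h2, ← h3, List.take_left, List.drop_left, mul_comm]
  · intro r
    have h4 : w.rotate (r + w.length) = w.rotate r := by
      rw [← List.rotate_mod w (r + w.length), Nat.add_mod_right, List.rotate_mod]
    rw [h4]

theorem sylWord_rotate (A B : List (α × ℕ)) :
    (sylWord (A ++ B)).rotate (sylWord A).length = sylWord ((A ++ B).rotate A.length) := by
  rw [List.rotate_append_length_eq, sylWord_append, sylWord_append, List.rotate_append_length_eq]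

theorem sum_split (g : List α → ℚ) (M : List (α × ℕ)) (hM1 : ∀ q ∈ M, 1 ≤ q.2)
    (hz : ∀ (A B : List (α × ℕ)) (i : α) (e s : ℕ), M = A ++ (i, e) :: B → 0 < s → s < e →
      g ((sylWord M).rotate ((sylWord A).length + s)) = 0) (B : List (α × ℕ)) :
    ∀ A : List (α × ℕ), M = A ++ B →
      ∑ r ∈ range (sylWord B).length, g ((sylWord M).rotate ((sylWord A).length + r))
        = ∑ t ∈ range B.length, g (sylWord (M.rotate (A.length + t))) := by
  induction B with
  | nil => intro A _; simp [sylWord_nil]
  | cons q B ih =>
    obtain ⟨i, e⟩ := q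
    intro A hA
    have he : 1 ≤ e := hM1 (i, e) (by rw [hA]; simp)
    obtain ⟨e', rfl⟩ : ∃ e', e = e' + 1 := ⟨e - 1, by omega⟩
    have h0 := ih (A ++ [(i, e' + 1)]) (by rw [hA]; simp)
    have hw1 : (sylWord (A ++ [(i, e' + 1)])).length = (sylWord A).length + (e' + 1) := by
      rw [sylWord_append, List.length_append, sylWord_cons, sylWord_nil]
      simp
    rw [hw1, List.length_append, List.length_singleton] at h0
    have hw2 : (sylWord ((i, e' + 1) :: B)).length = (e' + 1) + (sylWord B).length := by
      rw [sylWord_cons, List.length_append, List.length_replicate]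
    rw [hw2, Finset.sum_range_add, Finset.sum_range_succ', Finset.sum_eq_zero, zero_add,
      List.length_cons, Finset.sum_range_succ', add_comm]
    · congr 1
      · refine Eq.trans (Finset.sum_congr rfl fun x _ => ?_)
          (h0.trans (Finset.sum_congr rfl fun t _ => ?_))
        · rw [Nat.add_assoc (sylWord A).length (e' + 1) x]
        · rw [show A.length + (t + 1) = A.length + 1 + t by omega]
      · have h5 : (sylWord A).length + 0 = (sylWord A).length := rfl
        have h6 : A.length + 0 = A.length := rfl
        rw [h5, h6, hA, sylWord_rotate]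
    · intro s hs
      rw [Finset.mem_range] at hs
      exact hz A B i (e' + 1) (s + 1) hA (by omega) (by omega)

theorem cyc_chain (A B : List α) (i : α) (h : (A ++ i :: B).IsChain (fun p q => p ≠ q))
    (hc : ∀ p ∈ (A ++ i :: B).getLast?, ∀ q ∈ (A ++ i :: B).head?, p ≠ q) :
    (i :: B ++ (A ++ [i])).IsChain (fun p q => p ≠ q) := by
  rw [List.isChain_append] at h ⊢
  refine ⟨h.2.1, ?_, ?_⟩
  · rw [List.isChain_append]
    refine ⟨h.1, List.isChain_singleton _, ?_⟩
    intro x hx y hy
    exact h.2.2 x hx y (by simpa using hy)
  · intro x hx y hy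
    refine hc x ?_ y ?_
    · rw [List.getLast?_append_of_ne_nil _ (List.cons_ne_nil _ _)]
      exact hx
    · cases A with
      | nil => simpa using hy
      | cons a A => simpa using hy

theorem chain_fst {β : Type} (M : List (α × β)) :
    M.IsChain (fun p q => p.1 ≠ q.1) ↔ (M.map Prod.fst).IsChain (fun p q => p ≠ q) := by
  rw [List.isChain_map]

/-- uses Syl. Rotations which cut a syllable give words with one syllable more, whose coefficient vanishes -/
theorem tr_syl [DecidableEq α] (c : ℕ) (L : List (α × ℤ)) (M : List (α × ℕ))
    (hL : L.IsChain (fun p q => p.1 ≠ q.1)) (hM : M.IsChain (fun p q => p.1 ≠ q.1))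
    (hMc : ∀ p ∈ M.getLast?, ∀ q ∈ M.head?, p.1 ≠ q.1)
    (hM1 : ∀ q ∈ M, 1 ≤ q.2) (hc : (sylWord M).length ≤ c) (hlen : L.length ≤ M.length) (h2 : 2 ≤ M.length) :
    tr c (sylWord M) (mu c (sylProd L) : MR α c)
      = if L.length = M.length then ∑ t ∈ range M.length, sylCoefs L (M.rotate t) else 0 := by
  have hz : ∀ (A B : List (α × ℕ)) (i : α) (e s : ℕ), M = A ++ (i, e) :: B → 0 < s → s < e →
      coef c ((sylWord M).rotate ((sylWord A).length + s)) (mu c (sylProd L) : MR α c) = 0 := by
    intro A B i e s hA hs hse
    have hw : (sylWord M).rotate ((sylWord A).length + s)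
        = sylWord ((i, e - s) :: B ++ (A ++ [(i, s)])) := by
      have h3 : sylWord M = (sylWord A ++ List.replicate s i)
          ++ (List.replicate (e - s) i ++ sylWord B) := by
        rw [hA, sylWord_append, sylWord_cons]
        dsimp only
        rw [show e = s + (e - s) by omega, List.replicate_add,
          show s + (e - s) - s = e - s by omega]
        simp only [List.append_assoc]
      have h4 : (sylWord A).length + s = (sylWord A ++ List.replicate s i).length := by simp
      rw [h3, h4, List.rotate_append_length_eq, sylWord_append, sylWord_append, sylWord_cons,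
        sylWord_cons, sylWord_nil, List.append_nil]
    have hch : ((i, e - s) :: B ++ (A ++ [(i, s)])).IsChain (fun p q => p.1 ≠ q.1) := by
      rw [chain_fst]
      have h5 := cyc_chain (A.map Prod.fst) (B.map Prod.fst) i ?_ ?_
      · simpa using h5
      · rw [chain_fst, hA] at hM
        simpa using hM
      · intro p hp q hq
        have h6 : A.map Prod.fst ++ i :: B.map Prod.fst = M.map Prod.fst := by rw [hA]; simp
        rw [h6, List.getLast?_map, Option.mem_def, Option.map_eq_some_iff] at hp
        rw [h6, List.head?_map, Option.mem_def, Option.map_eq_some_iff] at hq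
        obtain ⟨p', hp', rfl⟩ := hp
        obtain ⟨q', hq', rfl⟩ := hq
        exact hMc p' hp' q' hq'
    have hl1 : ((i, e - s) :: B ++ (A ++ [(i, s)])).length = M.length + 1 := by
      rw [hA]; simp; omega
    have hlc : (sylWord ((i, e - s) :: B ++ (A ++ [(i, s)]))).length ≤ c := by
      rw [← hw, List.length_rotate]; exact hc
    rw [hw, coef_syl c L _ hL hch ?_ hlc (by rw [hl1]; omega), if_neg (by rw [hl1]; omega)]
    intro q hq
    rw [List.mem_append, List.mem_cons, List.mem_append, List.mem_singleton] at hq
    rcases hq with (rfl | hq) | hq | rfl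
    · change 1 ≤ e - s
      omega
    · exact hM1 q (by rw [hA]; simp [hq])
    · exact hM1 q (by rw [hA]; simp [hq])
    · exact hs
  have h7 := sum_split (fun w => coef c w (mu c (sylProd L) : MR α c)) M hM1 hz M [] rfl
  simp only [sylWord_nil, List.length_nil, zero_add] at h7
  rw [tr_apply, h7]
  have h8 : ∀ t ∈ range M.length, coef c (sylWord (M.rotate t)) (mu c (sylProd L) : MR α c)
      = if L.length = M.length then sylCoefs L (M.rotate t) else 0 := by
    intro t ht
    rw [Finset.mem_range] at ht
    have hrot : M.rotate t = M.drop t ++ M.take t := List.rotate_eq_drop_append_take ht.le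
    have hch : (M.rotate t).IsChain (fun p q => p.1 ≠ q.1) := by
      rw [hrot, List.isChain_append]
      have h9 : (M.take t ++ M.drop t).IsChain (fun p q => p.1 ≠ q.1) := by
        rw [List.take_append_drop]; exact hM
      rw [List.isChain_append] at h9
      refine ⟨h9.2.1, h9.1, ?_⟩
      intro x hx y hy
      refine hMc x ?_ y ?_
      · have h10 : M.drop t ≠ [] := by
          intro h; rw [List.drop_eq_nil_iff] at h; omega
        rw [← List.take_append_drop t M, List.getLast?_append_of_ne_nil _ h10]
        exact hx
      · cases t with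
        | zero => simp at hy
        | succ t =>
          cases M with
          | nil => simp at hy
          | cons m M => simpa using hy
    have hlr : (sylWord (M.rotate t)).length = (sylWord M).length := by
      rw [hrot, sylWord_append, List.length_append, add_comm, ← List.length_append,
        ← sylWord_append, List.take_append_drop]
    have h11 := coef_syl c L (M.rotate t) hL hch
      (fun q hq => hM1 q ((List.mem_rotate).1 hq)) (by rw [hlr]; exact hc)
      (by rw [List.length_rotate]; exact hlen)
    rw [List.length_rotate] at h11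
    exact h11
  rw [Finset.sum_congr rfl h8]
  split_ifs
  · rfl
  · exact Finset.sum_const_zero

end Pool.MP6567.A
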