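import Pool.Agent.Lib.MP_6567fb_al.A.Syl
import Pool.Agent.Lib.MP_6567fb_al.A.Trc
import Pool.Agent.Lib.MP_6567fb_al.A.Dual
import Pool.Agent.Lib.MP_6567fb_al.A.CycRed

/-!
# A.Sep: the truncated Magnus algebras modulo commutators separate conjugacy classes
-/

set_option autoImplicit false

open scoped Pointwise

namespace Pool.MP6567.A

open Pool.MP6567.Mag Pool.MP6567.Alg Pool.Agent.Lib.MP_6567fb_al Finset

variable {α : Type}

/-- the span of the commutators -/
noncomputable def Com (c : ℕ) : Submodule ℚ (MR α c) := Submodule.span ℚ {z | ∃ a b, z = a * b - b * a}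

theorem tr_com (c : ℕ) (w : List α) (hw : w.length ≤ c) {z : MR α c} (hz : z ∈ Com (α := α) c) :
    tr c w z = 0 := by
  unfold Com at hz
  induction hz using Submodule.span_induction with
  | mem x hx =>
    obtain ⟨a, b, rfl⟩ := hx
    rw [map_sub, tr_comm c w hw, sub_self]
  | zero => exact map_zero _
  | add x y _ _ hx hy => rw [map_add, hx, hy, add_zero]
  | smul q x _ hx => rw [map_smul, hx, smul_zero]

theorem tr_conj (c : ℕ) (w : List α) (hw : w.length ≤ c) (f x : FreeGroup α) :
    tr c w (mu c (f * x * f⁻¹) : MR α c) = tr c w (mu c x : MR α c) := by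
  have h5 : (mu c (f⁻¹) : MR α c) * (mu c f : MR α c) = 1 := by
    rw [← Units.val_mul, ← map_mul, inv_mul_cancel, map_one, Units.val_one]
  rw [map_mul, map_mul, Units.val_mul, Units.val_mul, mul_assoc, tr_comm c w hw, mul_assoc, h5, mul_one]

/-- the condition on consecutive letters, cyclically -/
def CC {β : Type} (L : List (α × β)) : Prop :=
  L.IsChain (fun p q => p.1 ≠ q.1) ∧ ∀ p ∈ L.getLast?, ∀ q ∈ L.head?, p.1 ≠ q.1

theorem cc_iff {β : Type} (L : List (α × β)) :
    CC L ↔ Cycle.Chain (fun p q : α => p ≠ q) ((L.map Prod.fst : List α) : Cycle α) := by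
  rw [← Cycle.map_coe, Cycle.chain_map]
  unfold CC
  rcases L with _ | ⟨a, l⟩
  · simp
  · rw [Cycle.chain_coe_cons]
    have : a :: (l ++ [a]) = (a :: l) ++ [a] := rfl
    rw [this, List.isChain_append]
    simp

theorem cc_rotate {β : Type} (L : List (α × β)) (t : ℕ) : CC (L.rotate t) ↔ CC L := by
  rw [cc_iff, cc_iff]
  have : ((L.map Prod.fst : List α) : Cycle α) = (((L.rotate t).map Prod.fst : List α) : Cycle α) := by
    rw [Cycle.coe_eq_coe, List.map_rotate]
    exact ⟨t, rfl⟩
  rw [this]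

theorem cc_congr {β γ : Type} {L : List (α × β)} {M : List (α × γ)}
    (h : L.map Prod.fst = M.map Prod.fst) : CC L ↔ CC M := by
  rw [cc_iff, cc_iff, h]

theorem coefs_ne [DecidableEq α] : ∀ (L : List (α × ℤ)) (M : List (α × ℕ)), L.length = M.length →
    sylCoefs L M ≠ 0 → L.map Prod.fst = M.map Prod.fst := by
  intro L
  induction L with
  | nil =>
    intro M h _
    have : M = [] := List.length_eq_zero_iff.1 h.symm
    rw [this]; rfl
  | cons p L ih =>
    intro M h hne
    rcases M with _ | ⟨q, M⟩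
    · simp at h
    unfold sylCoefs at hne
    rw [List.zipWith_cons_cons, List.prod_cons] at hne
    have h1 : sylCoef p q ≠ 0 := left_ne_zero_of_mul hne
    have h2 : (List.zipWith sylCoef L M).prod ≠ 0 := right_ne_zero_of_mul hne
    have h3 : p.1 = q.1 := by
      by_contra h3
      unfold sylCoef at h1
      rw [if_neg h3] at h1
      exact h1 rfl
    rw [List.map_cons, List.map_cons, ih M (by simpa using h) h2, h3]

/-- if the cyclic sum does not vanish then `M` is cyclically reduced -/
theorem cc_of_sum [DecidableEq α] (L : List (α × ℤ)) (M : List (α × ℕ)) (h : L.length = M.length)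
    (hL : CC L) (hne : ∑ t ∈ range M.length, sylCoefs L (M.rotate t) ≠ 0) : CC M := by
  obtain ⟨t, _, ht⟩ := Finset.exists_ne_zero_of_sum_ne_zero hne
  have h1 := coefs_ne L (M.rotate t) (by rw [List.length_rotate]; exact h) ht
  rw [← cc_rotate M t, ← cc_congr h1]
  exact hL

theorem isChain_of_short (L : List (α × ℤ)) (h : L.length ≤ 1) : L.IsChain (fun p q => p.1 ≠ q.1) := by
  rcases L with _ | ⟨a, _ | ⟨b, l⟩⟩
  · exact List.isChain_nil
  · exact List.isChain_singleton a
  · simp at h

/-- a cyclically reduced element with at least two syllables is not conjugate to one with fewer syllables -/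
theorem sep_len [DecidableEq α] (L L' : List (α × ℤ)) (hL : L.IsChain (fun p q => p.1 ≠ q.1))
    (hL' : CC L') (h0 : ∀ p ∈ L', p.2 ≠ 0) (h2 : 2 ≤ L'.length) (hlt : L.length < L'.length) :
    ∃ w : List α, tr w.length w (mu w.length (sylProd L) : MR α w.length)
      ≠ tr w.length w (mu w.length (sylProd L') : MR α w.length) := by
  obtain ⟨M, hM, hM1, hne⟩ := ne_zero_of_sum L'.length L' rfl h0 (by omega)
  rw [← hM] at hne
  have hMc := cc_of_sum L' M hM.symm hL' hne
  refine ⟨sylWord M, ?_⟩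
  rw [tr_syl _ L M hL hMc.1 hMc.2 hM1 le_rfl (by omega) (by omega),
    tr_syl _ L' M hL'.1 hMc.1 hMc.2 hM1 le_rfl (by omega) (by omega), if_neg (by omega), if_pos hM.symm]
  exact hne.symm

theorem tr_pow [DecidableEq α] (i j : α) (a : ℤ) :
    tr 1 [i] (mu 1 (FreeGroup.of j ^ a) : MR α 1) = if i = j then (a : ℚ) else 0 := by
  rw [tr_apply]
  simp only [List.length_singleton, Finset.range_one, Finset.sum_singleton, List.rotate_zero]
  rw [coef_syl_one 1 j a [i] (by simp)]
  simp

theorem conj_of_com (x y : FreeGroup α)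
    (h : ∀ c, (mu c x : MR α c) - (mu c y : MR α c) ∈ Com c) : ∃ f, f * x * f⁻¹ = y := by
  classical
  -- equality of traces
  have hT : ∀ (c : ℕ) (w : List α), w.length ≤ c → ∀ f g : FreeGroup α,
      tr c w (mu c (f * x * f⁻¹) : MR α c) = tr c w (mu c (g * y * g⁻¹) : MR α c) := by
    intro c w hw f g
    rw [tr_conj c w hw, tr_conj c w hw, ← sub_eq_zero, ← map_sub]
    exact tr_com c w hw (h c)
  rcases cyc_exists x with rfl | ⟨f, i, a, ha, hx⟩ | ⟨f, L, hx, hL2, hLc, hL0, hLcc⟩ <;>
    rcases cyc_exists y with rfl | ⟨g, j, b, hb, hy⟩ | ⟨g, L', hy, hL2', hLc', hL0', hLcc'⟩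
  · exact ⟨1, by simp⟩
  · exfalso
    have := hT 1 [j] (by simp) 1 g
    rw [hy, tr_pow, if_pos rfl, mul_one, one_mul, inv_one, ← zpow_zero (FreeGroup.of j), tr_pow,
      if_pos rfl] at this
    exact hb (by exact_mod_cast this.symm)
  · exfalso
    obtain ⟨w, hw⟩ := sep_len [] L' List.isChain_nil ⟨hLc', hLcc'⟩ hL0' hL2' (by simp; omega)
    apply hw
    rw [← hy, ← hT _ w le_rfl 1 g]
    simp [sylProd_nil]
  · exfalso
    have := hT 1 [i] (by simp) f 1
    rw [hx, tr_pow, if_pos rfl, mul_one, one_mul, inv_one, ← zpow_zero (FreeGroup.of i), tr_pow,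
      if_pos rfl] at this
    exact ha (by exact_mod_cast this)
  · have h1 := hT 1 [i] (by simp) f g
    have h2 := hT 1 [j] (by simp) f g
    rw [hx, hy, tr_pow, tr_pow] at h1 h2
    rw [if_pos rfl] at h1 h2
    by_cases hij : i = j
    · subst hij
      rw [if_pos rfl] at h1
      have hab : a = b := by exact_mod_cast h1
      subst hab
      refine ⟨g⁻¹ * f, ?_⟩
      have : g⁻¹ * f * x * (g⁻¹ * f)⁻¹ = g⁻¹ * (f * x * f⁻¹) * g := by group
      rw [this, hx, ← hy]; group
    · rw [if_neg hij] at h1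
      exact absurd (by exact_mod_cast h1) ha
  · exfalso
    obtain ⟨w, hw⟩ := sep_len [(i, a)] L' (List.isChain_singleton _) ⟨hLc', hLcc'⟩ hL0' hL2'
      (by simp; omega)
    apply hw
    rw [← hy, ← hT _ w le_rfl f g, hx, sylProd_one]
  · exfalso
    obtain ⟨w, hw⟩ := sep_len [] L List.isChain_nil ⟨hLc, hLcc⟩ hL0 hL2 (by simp; omega)
    apply hw
    rw [← hx, hT _ w le_rfl f 1]
    simp [sylProd_nil]
  · exfalso
    obtain ⟨w, hw⟩ := sep_len [(j, b)] L (List.isChain_singleton _) ⟨hLc, hLcc⟩ hL0 hL2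
      (by simp; omega)
    apply hw
    rw [← hx, hT _ w le_rfl f g, hy, sylProd_one]
  · rcases lt_trichotomy L.length L'.length with hlt | heq | hlt
    · exfalso
      obtain ⟨w, hw⟩ := sep_len L L' hLc ⟨hLc', hLcc'⟩ hL0' hL2' hlt
      apply hw
      rw [← hy, ← hT _ w le_rfl f g, hx]
    · obtain ⟨t, ht⟩ := rot_of_sum L.length L L' rfl heq.symm hL0 hL0' (by
        intro M hM hM1
        by_cases hMc : CC M
        · have h1 := hT (sylWord M).length (sylWord M) le_rfl f g
          rw [hx, hy, tr_syl _ L M hLc hMc.1 hMc.2 hM1 le_rfl (by omega) (by omega),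
            tr_syl _ L' M hLc' hMc.1 hMc.2 hM1 le_rfl (by omega) (by omega), if_pos hM.symm,
            if_pos (by omega), hM] at h1
          exact h1
        · have e1 : ∑ t ∈ range M.length, sylCoefs L (M.rotate t) = 0 := by
            by_contra hne
            exact hMc (cc_of_sum L M hM.symm ⟨hLc, hLcc⟩ hne)
          have e2 : ∑ t ∈ range M.length, sylCoefs L' (M.rotate t) = 0 := by
            by_contra hne
            exact hMc (cc_of_sum L' M (by omega) ⟨hLc', hLcc'⟩ hne)
          rw [hM] at e1 e2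
          rw [e1, e2]) (by omega)
      obtain ⟨k, hk⟩ := sylProd_rotate L t
      refine ⟨g⁻¹ * (k * f), ?_⟩
      have : g⁻¹ * (k * f) * x * (g⁻¹ * (k * f))⁻¹ = g⁻¹ * (k * (f * x * f⁻¹) * k⁻¹) * g := by group
      rw [this, hx, hk, ← ht, ← hy]; group
    · exfalso
      obtain ⟨w, hw⟩ := sep_len L' L hLc' ⟨hLc, hLcc⟩ hL0 hL2 hlt
      apply hw
      rw [← hx, hT _ w le_rfl f g, hy]

end Pool.MP6567.A
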