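import Pool.Agent.Lib.MP_6567fb_al.A.ADefs

/-!
# The induced endomorphism and the filtration
-/

set_option autoImplicit false

namespace Pool.MP6567.A

open Pool.MP6567.Mag Finset

variable {α : Type}

/-- elements without terms of degree `< j` are spanned by words of length `≥ j` -/
theorem mem_span_words (c j : ℕ) {a : MR α c} (ha : a ∈ Fil c j) :
    a ∈ Submodule.span ℚ {z | ∃ w : List α, j ≤ w.length ∧ z = word c w} := by
  classical
  -- projection: drop the short words
  obtain ⟨f, rfl⟩ := mk_surj c a
  set g : MonoidAlgebra ℚ (FreeMonoid α) :=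
    MonoidAlgebra.ofCoeff (f.coeff.filter fun w => j ≤ (FreeMonoid.toList w).length) with hg
  have h1 : mk c f = mk c g := by
    rw [mk_eq]
    intro w hw
    unfold cf
    rw [hg]
    change f.coeff (FreeMonoid.ofList w)
      = (f.coeff.filter fun w => j ≤ (FreeMonoid.toList w).length) (FreeMonoid.ofList w)
    by_cases h : j ≤ w.length
    · rw [Finsupp.filter_apply_pos _ _ (by simpa using h)]
    · rw [Finsupp.filter_apply_neg _ _ (by simpa using h)]
      have := ha w (by omega)
      rw [coef_mk c w hw] at this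
      exact this
  rw [h1]
  have h2 : g = g.coeff.sum fun w q => q • MonoidAlgebra.of ℚ (FreeMonoid α) w := by
    have := MonoidAlgebra.lift_apply (MonoidAlgebra.of ℚ (FreeMonoid α)) g
    rw [← this]
    have h3 : ∀ x, MonoidAlgebra.lift ℚ (MonoidAlgebra ℚ (FreeMonoid α)) (FreeMonoid α)
        (MonoidAlgebra.of ℚ (FreeMonoid α)) x = x := by
      intro x
      induction x using MonoidAlgebra.induction_on with
      | of m => rw [MonoidAlgebra.lift_of]
      | add x y hx hy => rw [map_add, hx, hy]
      | smul r x hx => rw [map_smul, hx]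
    rw [h3]
  rw [h2, Finsupp.sum, map_sum]
  refine Submodule.sum_mem _ fun w hw => ?_
  rw [map_smul]
  refine Submodule.smul_mem _ _ (Submodule.subset_span ⟨FreeMonoid.toList w, ?_, rfl⟩)
  rw [hg] at hw
  change w ∈ (f.coeff.filter fun w => j ≤ (FreeMonoid.toList w).length).support at hw
  rw [Finsupp.support_filter, Finset.mem_filter] at hw
  exact hw.2

/-- `Fil (j+1)` is spanned by products -/
theorem fil_succ (c j : ℕ) : Fil (α := α) c (j + 1)
    = Submodule.span ℚ {z | ∃ a ∈ Fil c 1, ∃ b ∈ Fil c j, z = a * b} := by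
  apply le_antisymm
  · intro a ha
    refine Submodule.span_le.2 ?_ (mem_span_words c (j + 1) ha)
    rintro z ⟨w, hw, rfl⟩
    cases w with
    | nil => simp at hw
    | cons i w =>
      refine Submodule.subset_span ⟨X c i, X_mem c i, word c w, ?_, ?_⟩
      · exact Fil_anti c (by simpa using hw) (word_mem c w)
      · rw [word_eq, word_eq, List.map_cons, List.prod_cons]
  · rw [Submodule.span_le]
    rintro z ⟨a, ha, b, hb, rfl⟩
    have := Fil_mul c ha hb
    rwa [add_comm] at this

theorem star_X (c : ℕ) (r : FreeGroup α →* FreeGroup α) (i : α) :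
    star c r (X c i) = (mu c (r (FreeGroup.of i)) : MR α c) - 1 := by
  unfold Mag.star; rw [evalHom_X]

theorem star_fil (c j : ℕ) (r : FreeGroup α →* FreeGroup α) {a : MR α c} (ha : a ∈ Fil c j) :
    star c r a ∈ Fil c j := by
  have key : ∀ w : List α, star c r (word c w) ∈ Fil c w.length := by
    intro w
    induction w with
    | nil => rw [List.length_nil, Fil_zero]; trivial
    | cons i w ih =>
      have h1 : word c (i :: w) = X c i * word c w := by
        rw [word_eq, word_eq, List.map_cons, List.prod_cons]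
      rw [h1, map_mul, star_X, List.length_cons, add_comm]
      exact Fil_mul c (mu_fil c _) ih
  have h := mem_span_words c j ha
  clear ha
  induction h using Submodule.span_induction with
  | mem x hx =>
    obtain ⟨w, hw, rfl⟩ := hx
    exact Fil_anti c hw (key w)
  | zero => rw [map_zero]; exact Submodule.zero_mem _
  | add x y _ _ hx hy => rw [map_add]; exact Submodule.add_mem _ hx hy
  | smul q x _ hx => rw [map_smul]; exact Submodule.smul_mem _ _ hx

/-- degree one coefficients of a product -/
theorem coef_one_mul [DecidableEq α] (c : ℕ) (hc : 1 ≤ c) (i : α) (a b : MR α c) :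
    coef c [i] (a * b) = coef c [] a * coef c [i] b + coef c [i] a * coef c [] b := by
  rw [coef_mul c a b [i] (by simpa using hc)]
  simp [Finset.sum_range_succ]

theorem coef_nil_mu (c : ℕ) (x : FreeGroup α) : coef c [] (mu c x : MR α c) = 1 := by
  classical
  have := mu_fil c x [] (by simp)
  rw [map_sub, coef_one, if_pos rfl] at this
  linarith

/-- degree one coefficients of `mu` -/
theorem coef_mu_one [DecidableEq α] (c : ℕ) (hc : 1 ≤ c) (i : α) (x : FreeGroup α) :
    coef c [i] (mu c x : MR α c) = ((es (Pi.single i 1) x).toAdd : ℚ) := by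
  have hmul : ∀ x y : FreeGroup α, coef c [i] (mu c (x * y) : MR α c)
      = coef c [i] (mu c x : MR α c) + coef c [i] (mu c y : MR α c) := by
    intro x y
    rw [map_mul, Units.val_mul, coef_one_mul c hc, coef_nil_mu, coef_nil_mu]
    ring
  let φ : FreeGroup α →* Multiplicative ℚ :=
    { toFun := fun x => Multiplicative.ofAdd (coef c [i] (mu c x : MR α c))
      map_one' := by
        rw [map_one, Units.val_one, coef_one, if_neg (by simp)]; rfl
      map_mul' := fun x y => by rw [hmul]; rfl }
  let ψ : FreeGroup α →* Multiplicative ℚ :=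
    { toFun := fun x => Multiplicative.ofAdd (((es (Pi.single i 1) x).toAdd : ℤ) : ℚ)
      map_one' := by simp
      map_mul' := fun x y => by simp }
  have h : φ = ψ := by
    ext j
    change coef c [i] (mu c (FreeGroup.of j) : MR α c) = (((es (Pi.single i 1) (FreeGroup.of j)).toAdd : ℤ) : ℚ)
    rw [mu_of, map_add, coef_one, if_neg (by simp), coef_X c j [i] (by simpa using hc), es_of, zero_add]
    by_cases hij : i = j
    · subst hij; simp
    · rw [if_neg (by simpa using hij), Pi.single_eq_of_ne (Ne.symm hij)]; simp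
  exact congrArg (fun f => Multiplicative.toAdd (f x)) h

theorem es_sum [Fintype α] [DecidableEq α] (χ : α → ℤ) (x : FreeGroup α) :
    (es χ x).toAdd = ∑ i, χ i * (es (Pi.single i 1) x).toAdd := by
  let ψ : FreeGroup α →* Multiplicative ℤ :=
    { toFun := fun x => Multiplicative.ofAdd (∑ i, χ i * (es (Pi.single i 1) x).toAdd)
      map_one' := by simp
      map_mul' := fun x y => by
        rw [← ofAdd_add, ← Finset.sum_add_distrib]
        congr 1
        refine Finset.sum_congr rfl fun i _ => ?_
        rw [map_mul, toAdd_mul, mul_add] }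
  have h : es χ = ψ := by
    ext j
    change (es χ (FreeGroup.of j)).toAdd = ∑ i, χ i * (es (Pi.single i 1) (FreeGroup.of j)).toAdd
    rw [es_of]
    rw [Finset.sum_eq_single j]
    · rw [es_of]; simp
    · intro i _ hij
      rw [es_of, Pi.single_eq_of_ne (Ne.symm hij), mul_zero]
    · intro h; exact absurd (Finset.mem_univ _) h
  rw [h]; rfl

/-- degree one part of `star` -/
theorem coef_star [Fintype α] (c : ℕ) (hc : 1 ≤ c) (r : FreeGroup α →* FreeGroup α) (χ : α → ℤ)
    {a : MR α c} (ha : a ∈ Fil c 1) :
    ∑ i, (χ i : ℚ) * coef c [i] (star c r a) = ∑ i, ((gstar r χ i : ℤ) : ℚ) * coef c [i] a := by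
  classical
  have h := mem_span_words c 1 ha
  induction h using Submodule.span_induction with
  | mem x hx =>
    obtain ⟨w, hw, rfl⟩ := hx
    cases w with
    | nil => simp at hw
    | cons j w =>
      cases w with
      | nil =>
        have h1 : word c [j] = X c j := by rw [word_eq]; simp
        rw [h1, star_X]
        have h2 : ∀ i, coef c [i] ((mu c (r (FreeGroup.of j)) : MR α c) - 1)
            = ((es (Pi.single i 1) (r (FreeGroup.of j))).toAdd : ℚ) := by
          intro i
          rw [map_sub, coef_mu_one c hc, coef_one, if_neg (by simp), sub_zero]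
        simp_rw [h2]
        have h3 : ∀ i, coef c [i] (X c j) = if i = j then (1 : ℚ) else 0 := by
          intro i
          rw [coef_X c j [i] (by simpa using hc)]
          simp
        simp_rw [h3]
        simp only [mul_ite, mul_one, mul_zero, Finset.sum_ite_eq', Finset.mem_univ, if_true]
        change _ = (((es χ (r (FreeGroup.of j))).toAdd : ℤ) : ℚ)
        rw [es_sum]
        push_cast
        rfl
      | cons k w =>
        have h1 : word c (j :: k :: w) ∈ Fil c 2 := Fil_anti c (by simp) (word_mem c _)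
        have h2 := star_fil c 2 r h1
        rw [Finset.sum_eq_zero (fun i _ => by rw [h2 [i] (by simp), mul_zero]),
          Finset.sum_eq_zero (fun i _ => by rw [h1 [i] (by simp), mul_zero])]
  | zero => simp
  | add x y hx' hy' hx hy =>
    have e1 : ∀ x y : MR α c, (∑ i, (χ i : ℚ) * coef c [i] (star c r (x + y)))
        = (∑ i, (χ i : ℚ) * coef c [i] (star c r x)) + ∑ i, (χ i : ℚ) * coef c [i] (star c r y) := by
      intro x y
      rw [← Finset.sum_add_distrib]
      refine Finset.sum_congr rfl fun i _ => ?_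
      rw [map_add, map_add, mul_add]
    have e2 : (∑ i, ((gstar r χ i : ℤ) : ℚ) * coef c [i] (x + y))
        = (∑ i, ((gstar r χ i : ℤ) : ℚ) * coef c [i] x) + ∑ i, ((gstar r χ i : ℤ) : ℚ) * coef c [i] y := by
      rw [← Finset.sum_add_distrib]
      refine Finset.sum_congr rfl fun i _ => ?_
      rw [map_add, mul_add]
    have fx : x ∈ Fil c 1 := by
      refine (Submodule.span_le (p := Fil c 1)).2 ?_ hx'
      rintro z ⟨w, hw, rfl⟩
      exact Fil_anti c hw (word_mem c w)
    have fy : y ∈ Fil c 1 := by
      refine (Submodule.span_le (p := Fil c 1)).2 ?_ hy'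
      rintro z ⟨w, hw, rfl⟩
      exact Fil_anti c hw (word_mem c w)
    rw [e1, e2, hx fx, hy fy]
  | smul q x hx' hx =>
    have fx : x ∈ Fil c 1 := by
      refine (Submodule.span_le (p := Fil c 1)).2 ?_ hx'
      rintro z ⟨w, hw, rfl⟩
      exact Fil_anti c hw (word_mem c w)
    have e1 : (∑ i, (χ i : ℚ) * coef c [i] (star c r (q • x)))
        = q * ∑ i, (χ i : ℚ) * coef c [i] (star c r x) := by
      rw [Finset.mul_sum]
      refine Finset.sum_congr rfl fun i _ => ?_
      rw [map_smul, map_smul, smul_eq_mul]; ring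
    have e2 : (∑ i, ((gstar r χ i : ℤ) : ℚ) * coef c [i] (q • x))
        = q * ∑ i, ((gstar r χ i : ℤ) : ℚ) * coef c [i] x := by
      rw [Finset.mul_sum]
      refine Finset.sum_congr rfl fun i _ => ?_
      rw [map_smul, smul_eq_mul]; ring
    rw [e1, e2, hx fx]

/-- `D = star r - 1` -/
noncomputable def Dr (c : ℕ) (r : FreeGroup α →* FreeGroup α) : Module.End ℚ (MR α c) :=
  (star c r).toLinearMap - 1

theorem Dr_apply (c : ℕ) (r : FreeGroup α →* FreeGroup α) (a : MR α c) : Dr c r a = star c r a - a := rfl

theorem Dr_fil (c j : ℕ) (r : FreeGroup α →* FreeGroup α) {a : MR α c} (ha : a ∈ Fil c j) :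
    Dr c r a ∈ Fil c j := by
  rw [Dr_apply]; exact Submodule.sub_mem _ (star_fil c j r ha) ha

theorem Dr_pow_fil (c j : ℕ) (r : FreeGroup α →* FreeGroup α) (N : ℕ) {a : MR α c} (ha : a ∈ Fil c j) :
    (Dr c r ^ N) a ∈ Fil c j := by
  induction N with
  | zero => simpa using ha
  | succ N ih => rw [pow_succ', Module.End.mul_apply]; exact Dr_fil c j r ih

theorem Dr_mul (c : ℕ) (r : FreeGroup α →* FreeGroup α) (a b : MR α c) :
    Dr c r (a * b) = Dr c r a * b + Dr c r a * Dr c r b + a * Dr c r b := by
  rw [Dr_apply, Dr_apply, Dr_apply, map_mul]; noncomm_ring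

theorem Dr_pow_mul (c : ℕ) (r : FreeGroup α →* FreeGroup α) (a b : MR α c) (M : ℕ) :
    (Dr c r ^ M) (a * b) ∈ Submodule.span ℚ
      {z | ∃ s t, M ≤ s + t ∧ z = (Dr c r ^ s) a * (Dr c r ^ t) b} := by
  induction M with
  | zero => exact Submodule.subset_span ⟨0, 0, by omega, by simp⟩
  | succ M ih =>
    rw [pow_succ', Module.End.mul_apply]
    generalize (Dr c r ^ M) (a * b) = z0 at ih
    induction ih using Submodule.span_induction with
    | mem x hx =>
      obtain ⟨s, t, hst, rfl⟩ := hx
      rw [Dr_mul]
      have e : ∀ (k : ℕ) (z : MR α c), Dr c r ((Dr c r ^ k) z) = (Dr c r ^ (k + 1)) z := by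
        intro k z; rw [pow_succ', Module.End.mul_apply]
      rw [e, e]
      refine Submodule.add_mem _ (Submodule.add_mem _ ?_ ?_) ?_
      · exact Submodule.subset_span ⟨s + 1, t, by omega, rfl⟩
      · exact Submodule.subset_span ⟨s + 1, t + 1, by omega, rfl⟩
      · exact Submodule.subset_span ⟨s, t + 1, by omega, rfl⟩
    | zero => rw [map_zero]; exact Submodule.zero_mem _
    | add x y _ _ hx hy => rw [map_add]; exact Submodule.add_mem _ hx hy
    | smul q x _ hx => rw [map_smul]; exact Submodule.smul_mem _ _ hx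

theorem Dr_layer_one [Fintype α] (c : ℕ) (r : FreeGroup α →* FreeGroup α) (N : ℕ)
    (h : (gstar r - 1) ^ N = 0) {a : MR α c} (ha : a ∈ Fil c 1) : (Dr c r ^ N) a ∈ Fil c 2 := by
  classical
  by_cases hc : c = 0
  · subst hc
    rw [Fil_top 0 1 (by omega)] at ha
    rw [(Submodule.mem_bot ℚ).1 ha, map_zero]
    exact Submodule.zero_mem _
  have hc1 : 1 ≤ c := by omega
  -- the pairing
  have hp : ∀ (N : ℕ) (χ : α → ℤ) (a : MR α c), a ∈ Fil c 1 →
      ∑ i, (χ i : ℚ) * coef c [i] ((Dr c r ^ N) a)
        = ∑ i, ((((gstar r - 1) ^ N) χ i : ℤ) : ℚ) * coef c [i] a := by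
    intro N
    induction N with
    | zero => intro χ a _; simp
    | succ N ih =>
      intro χ a ha
      rw [pow_succ, Module.End.mul_apply, ih χ _ (Dr_fil c 1 r ha)]
      rw [pow_succ', Module.End.mul_apply]
      set ψ := ((gstar r - 1) ^ N) χ
      have h1 := coef_star c hc1 r ψ ha
      have h2 : ∑ i, ((ψ i : ℤ) : ℚ) * coef c [i] (Dr c r a)
          = ∑ i, ((ψ i : ℤ) : ℚ) * coef c [i] (star c r a) - ∑ i, ((ψ i : ℤ) : ℚ) * coef c [i] a := by
        rw [← Finset.sum_sub_distrib]
        refine Finset.sum_congr rfl fun i _ => ?_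
        rw [Dr_apply, map_sub, mul_sub]
      rw [h2, h1, ← Finset.sum_sub_distrib]
      refine Finset.sum_congr rfl fun i _ => ?_
      rw [← sub_mul]
      congr 1
      change _ = (((gstar r ψ - ψ) i : ℤ) : ℚ)
      rw [Pi.sub_apply]; push_cast; ring
  intro w hw
  by_cases hw0 : w.length < 1
  · exact (Dr_pow_fil c 1 r N ha) w hw0
  · obtain ⟨i, rfl⟩ : ∃ i, w = [i] := by
      have : w.length = 1 := by omega
      exact List.length_eq_one_iff.1 this
    have h1 := hp N (Pi.single i 1) a ha
    rw [h] at h1
    simp only [LinearMap.zero_apply, Pi.zero_apply, Int.cast_zero, zero_mul,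
      Finset.sum_const_zero] at h1
    rw [Finset.sum_eq_single i (by
      intro j _ hj; rw [Pi.single_eq_of_ne hj]; simp) (by
      intro h; exact absurd (Finset.mem_univ _) h)] at h1
    simpa using h1

/-- If `r` is unipotent on `H^1` then `star r - 1` is nilpotent on every layer. -/
theorem star_layer [Fintype α] (c : ℕ) (r : FreeGroup α →* FreeGroup α) (N : ℕ)
    (h : (gstar r - 1) ^ N = 0) (j : ℕ) :
    ∃ N' : ℕ, ∀ a ∈ Fil (α := α) c j,
      (((star c r).toLinearMap - 1 : Module.End ℚ (MR α c)) ^ N') a ∈ Fil c (j + 1) := by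
  classical
  induction j with
  | zero =>
    refine ⟨1, fun a _ => ?_⟩
    rw [pow_one]
    change Dr c r a ∈ Fil c 1
    have h1 : a = (coef c [] a) • (1 : MR α c) + (a - (coef c [] a) • (1 : MR α c)) := by abel
    have h2 : a - (coef c [] a) • (1 : MR α c) ∈ Fil c 1 := by
      intro w hw
      have : w = [] := List.length_eq_zero_iff.1 (by omega)
      subst this
      rw [map_sub, map_smul, coef_one, if_pos rfl, smul_eq_mul, mul_one, sub_self]
    rw [h1, map_add, map_smul]
    have h3 : Dr c r (1 : MR α c) = 0 := by rw [Dr_apply, map_one, sub_self]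
    rw [h3, smul_zero, zero_add]
    exact Dr_fil c 1 r h2
  | succ j ih =>
    obtain ⟨N', hN'⟩ := ih
    refine ⟨N + N', fun a ha => ?_⟩
    change (Dr c r ^ (N + N')) a ∈ Fil c (j + 1 + 1)
    rw [fil_succ] at ha
    induction ha using Submodule.span_induction with
    | mem x hx =>
      obtain ⟨a, ha, b, hb, rfl⟩ := hx
      refine (Submodule.span_le (p := Fil c (j + 1 + 1))).2 ?_ (Dr_pow_mul c r a b (N + N'))
      rintro z ⟨s, t, hst, rfl⟩
      by_cases hs : N ≤ s
      · have h1 : (Dr c r ^ s) a ∈ Fil c 2 := by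
          obtain ⟨u, rfl⟩ := Nat.exists_eq_add_of_le hs
          rw [pow_add, Module.End.mul_apply]
          exact Dr_layer_one c r N h (Dr_pow_fil c 1 r u ha)
        have := Fil_mul c h1 (Dr_pow_fil c j r t hb)
        rwa [show 2 + j = j + 1 + 1 by ring] at this
      · have h1 : (Dr c r ^ t) b ∈ Fil c (j + 1) := by
          obtain ⟨u, rfl⟩ := Nat.exists_eq_add_of_le (show N' ≤ t by omega)
          rw [pow_add, Module.End.mul_apply]
          exact hN' _ (Dr_pow_fil c j r u hb)
        have := Fil_mul c (Dr_pow_fil c 1 r s ha) h1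
        rwa [show 1 + (j + 1) = j + 1 + 1 by ring] at this
    | zero => rw [map_zero]; exact Submodule.zero_mem _
    | add x y _ _ hx hy => rw [map_add]; exact Submodule.add_mem _ hx hy
    | smul q x _ hx => rw [map_smul]; exact Submodule.smul_mem _ _ hx

end Pool.MP6567.A
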