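import Pool.Agent.Lib.MP_6567fb_al.A.ADefs
import Pool.Agent.Lib.MP_6567fb_al.A.Unip

/-!
# Syllables and coefficients of the Magnus expansion
-/

set_option autoImplicit false

open scoped Pointwise

namespace Pool.MP6567.A

open Pool.MP6567.Mag Pool.MP6567.Alg Pool.Agent.Lib.MP_6567fb_al Finset

variable {α : Type}

/-- product of the syllables `(i, a)`, i.e. `∏ x_i ^ a` -/
def sylProd (L : List (α × ℤ)) : FreeGroup α := (L.map fun p => FreeGroup.of p.1 ^ p.2).prod

/-- the word `∏ X_j ^ e` -/
def sylWord (M : List (α × ℕ)) : List α := (M.map fun p => List.replicate p.2 p.1).flatten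

/-- coefficient of one syllable -/
def sylCoef [DecidableEq α] (p : α × ℤ) (q : α × ℕ) : ℚ :=
  if p.1 = q.1 then ((Ring.choose p.2 q.2 : ℤ) : ℚ) else 0

/-- product of the coefficients -/
def sylCoefs [DecidableEq α] (L : List (α × ℤ)) (M : List (α × ℕ)) : ℚ :=
  (List.zipWith sylCoef L M).prod

theorem sylProd_nil : sylProd ([] : List (α × ℤ)) = 1 := rfl

theorem sylProd_cons (p : α × ℤ) (L : List (α × ℤ)) :
    sylProd (p :: L) = FreeGroup.of p.1 ^ p.2 * sylProd L := by
  simp [sylProd]

theorem sylProd_append (L L' : List (α × ℤ)) : sylProd (L ++ L') = sylProd L * sylProd L' := by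
  simp [sylProd]

theorem sylWord_nil : sylWord ([] : List (α × ℕ)) = [] := rfl

theorem sylWord_cons (p : α × ℕ) (M : List (α × ℕ)) :
    sylWord (p :: M) = List.replicate p.2 p.1 ++ sylWord M := by
  simp [sylWord]

theorem sylWord_append (M M' : List (α × ℕ)) : sylWord (M ++ M') = sylWord M ++ sylWord M' := by
  simp [sylWord]

/-- normal form: adjacent syllables different, exponents non-zero -/
def IsNF (L : List (α × ℤ)) : Prop :=
  L.IsChain (fun p q => p.1 ≠ q.1) ∧ ∀ p ∈ L, p.2 ≠ 0

theorem isNF_nil : IsNF ([] : List (α × ℤ)) := ⟨List.isChain_nil, by simp⟩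

theorem IsNF.tail {p : α × ℤ} {L : List (α × ℤ)} (h : IsNF (p :: L)) : IsNF L :=
  ⟨h.1.tail, fun q hq => h.2 q (List.mem_cons_of_mem _ hq)⟩

theorem nf_mul_pow (i : α) (a : ℤ) (L : List (α × ℤ)) (hL : IsNF L) :
    ∃ L', IsNF L' ∧ FreeGroup.of i ^ a * sylProd L = sylProd L' := by
  classical
  by_cases ha : a = 0
  · exact ⟨L, hL, by rw [ha, zpow_zero, one_mul]⟩
  cases L with
  | nil =>
    refine ⟨[(i, a)], ⟨List.isChain_singleton _, ?_⟩, ?_⟩
    · intro p hp
      rw [List.mem_singleton] at hp
      rw [hp]; exact ha
    · rw [sylProd_cons]
  | cons q L =>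
    obtain ⟨j, b⟩ := q
    by_cases hij : i = j
    · subst hij
      by_cases hab : a + b = 0
      · refine ⟨L, hL.tail, ?_⟩
        rw [sylProd_cons, ← mul_assoc, ← zpow_add]
        dsimp only
        rw [hab, zpow_zero, one_mul]
      · refine ⟨(i, a + b) :: L, ⟨?_, ?_⟩, ?_⟩
        · cases L with
          | nil => exact List.isChain_singleton _
          | cons r L =>
            have h := hL.1
            rw [List.isChain_cons_cons] at h ⊢
            exact h
        · intro p hp
          rw [List.mem_cons] at hp
          rcases hp with rfl | hp
          · exact hab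
          · exact hL.2 p (List.mem_cons_of_mem _ hp)
        · rw [sylProd_cons, sylProd_cons, ← mul_assoc, ← zpow_add]
    · refine ⟨(i, a) :: (j, b) :: L, ⟨?_, ?_⟩, ?_⟩
      · rw [List.isChain_cons_cons]
        exact ⟨hij, hL.1⟩
      · intro p hp
        rw [List.mem_cons] at hp
        rcases hp with rfl | hp
        · exact ha
        · exact hL.2 p hp
      · exact (sylProd_cons (i, a) ((j, b) :: L)).symm

theorem syl_exists (x : FreeGroup α) : ∃ L : List (α × ℤ), x = sylProd L ∧
    L.IsChain (fun p q => p.1 ≠ q.1) ∧ ∀ p ∈ L, p.2 ≠ 0 := by
  have key : ∀ x : FreeGroup α, ∀ L : List (α × ℤ), IsNF L →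
      ∃ L', IsNF L' ∧ x * sylProd L = sylProd L' := by
    intro x
    induction x using FreeGroup.induction_on with
    | C1 => intro L hL; exact ⟨L, hL, one_mul _⟩
    | of i =>
      intro L hL
      obtain ⟨L', h1, h2⟩ := nf_mul_pow i 1 L hL
      exact ⟨L', h1, by rw [← h2, zpow_one]⟩
    | inv_of i _ =>
      intro L hL
      obtain ⟨L', h1, h2⟩ := nf_mul_pow i (-1) L hL
      exact ⟨L', h1, by rw [← h2, zpow_neg_one]⟩
    | mul x y hx hy =>
      intro L hL
      obtain ⟨L1, h1, h2⟩ := hy L hL
      obtain ⟨L2, h3, h4⟩ := hx L1 h1
      exact ⟨L2, h3, by rw [mul_assoc, h2, h4]⟩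
  obtain ⟨L, h1, h2⟩ := key x [] isNF_nil
  rw [sylProd_nil, mul_one] at h2
  exact ⟨L, h2, h1.1, h1.2⟩

theorem coef_X_mul [DecidableEq α] (c : ℕ) (i : α) (b : MR α c) (w : List α) (hw : w.length ≤ c) :
    coef c w (X c i * b) = if w.head? = some i then coef c w.tail b else 0 := by
  rw [coef_mul c _ _ w hw]
  cases w with
  | nil =>
    rw [if_neg (by simp)]
    refine Finset.sum_eq_zero fun k _ => ?_
    rw [List.take_nil, coef_X c i _ (by simp), if_neg (by simp), zero_mul]
  | cons j w =>
    rw [Finset.sum_eq_single 1]
    · rw [List.take_succ_cons, List.take_zero, List.drop_succ_cons, List.drop_zero,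
        List.tail_cons, coef_X c i _ (by simp at hw ⊢; omega)]
      by_cases h : j = i
      · subst h; simp
      · rw [if_neg (by simpa using h), if_neg (by simpa using h), zero_mul]
    · intro k hk1 hk
      rw [Finset.mem_range, List.length_cons] at hk1
      rw [coef_X c i _ (by rw [List.length_take]; omega), if_neg, zero_mul]
      intro h
      have := congrArg List.length h
      rw [List.length_take, List.length_cons, List.length_singleton] at this
      omega
    · intro h
      exfalso
      apply h
      rw [Finset.mem_range, List.length_cons]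
      omega

theorem coef_mu_mul [DecidableEq α] (c : ℕ) (i : α) (b : MR α c) (w : List α) (hw : w.length ≤ c) :
    coef c w ((mu c (FreeGroup.of i) : MR α c) * b)
      = coef c w b + if w.head? = some i then coef c w.tail b else 0 := by
  rw [mu_of, add_mul, one_mul, map_add, coef_X_mul c i b w hw]

/-- the value in the theorem -/
def sv [DecidableEq α] (i : α) (a : ℤ) (w : List α) : ℚ :=
  if w = List.replicate w.length i then ((Ring.choose a w.length : ℤ) : ℚ) else 0

theorem sv_succ [DecidableEq α] (i : α) (a : ℤ) (w : List α) :
    sv i (a + 1) w = sv i a w + if w.head? = some i then sv i a w.tail else 0 := by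
  cases w with
  | nil => simp [sv]
  | cons j w =>
    rw [List.head?_cons, List.tail_cons]
    unfold sv
    rw [List.length_cons, List.replicate_succ]
    by_cases h : j = i
    · subst h
      by_cases h2 : w = List.replicate w.length j
      · rw [if_pos (by rw [← h2]), if_pos (by rw [← h2]), if_pos rfl, if_pos h2,
          Ring.choose_succ_succ]
        push_cast
        ring
      · have h3 : ¬ (j :: w = j :: List.replicate w.length j) := by
          intro h; exact h2 (List.cons.inj h).2
        rw [if_neg h3, if_neg h3, if_pos rfl, if_neg h2, add_zero]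
    · have h3 : ¬ (j :: w = i :: List.replicate w.length i) := by
        intro h'; exact h (List.cons.inj h').1
      rw [if_neg h3, if_neg h3, if_neg (by simpa using h), add_zero]

theorem coef_syl_one [DecidableEq α] (c : ℕ) (i : α) (a : ℤ) (w : List α) (hw : w.length ≤ c) :
    coef c w (mu c (FreeGroup.of i ^ a) : MR α c)
      = if w = List.replicate w.length i then ((Ring.choose a w.length : ℤ) : ℚ) else 0 := by
  change _ = sv i a w
  have hstep : ∀ a : ℤ, ∀ w : List α, w.length ≤ c →
      coef c w (mu c (FreeGroup.of i ^ (a + 1)) : MR α c)
        = coef c w (mu c (FreeGroup.of i ^ a) : MR α c)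
          + if w.head? = some i then coef c w.tail (mu c (FreeGroup.of i ^ a) : MR α c) else 0 := by
    intro a w hw
    rw [add_comm a 1, zpow_add, zpow_one, map_mul, Units.val_mul, coef_mu_mul c i _ w hw]
  induction a using Int.induction_on generalizing w with
  | zero =>
    rw [zpow_zero, map_one, Units.val_one, coef_one]
    unfold sv
    cases w with
    | nil => simp
    | cons j w =>
      rw [if_neg (by simp), List.length_cons, Ring.choose_zero_succ]
      simp
  | succ a ih =>
    rw [hstep _ w hw, sv_succ, ih w hw]
    congr 1
    split_ifs
    · exact ih w.tail (by rw [List.length_tail]; omega)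
    · rfl
  | pred a ih =>
    induction w with
    | nil =>
      have h1 := hstep (-(a : ℤ) - 1) [] hw
      have h2 := sv_succ i (-(a : ℤ) - 1) ([] : List α)
      rw [sub_add_cancel] at h1 h2
      rw [ih [] hw, h2] at h1
      simpa using h1.symm
    | cons j w ihw =>
      have h1 := hstep (-(a : ℤ) - 1) (j :: w) hw
      have h2 := sv_succ i (-(a : ℤ) - 1) (j :: w)
      rw [sub_add_cancel] at h1 h2
      rw [ih (j :: w) hw, h2] at h1
      have h3 := ihw (by rw [List.length_cons] at hw; omega)
      rw [List.tail_cons, h3] at h1
      exact (add_right_cancel h1).symm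

/-- the first syllable acts -/
theorem coef_pow_mul [DecidableEq α] (c : ℕ) (i : α) (a : ℤ) (e : ℕ) (V : List α)
    (hV : ∀ j ∈ V.head?, j ≠ i) (hc : e + V.length ≤ c) (B : MR α c) :
    coef c (List.replicate e i ++ V) ((mu c (FreeGroup.of i ^ a) : MR α c) * B)
      = ∑ k ∈ range (e + 1), ((Ring.choose a k : ℤ) : ℚ)
          * coef c (List.replicate (e - k) i ++ V) B := by
  rw [coef_mul c _ _ _ (by simpa using hc), List.length_append, List.length_replicate,
    show e + V.length + 1 = (e + 1) + V.length by omega, Finset.sum_range_add]
  have h0 : ∑ x ∈ range V.length,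
      coef c ((List.replicate e i ++ V).take (e + 1 + x)) (mu c (FreeGroup.of i ^ a) : MR α c)
        * coef c ((List.replicate e i ++ V).drop (e + 1 + x)) B = 0 := by
    refine Finset.sum_eq_zero fun k hk => ?_
    rw [Finset.mem_range] at hk
    have hlen : ((List.replicate e i ++ V).take (e + 1 + k)).length ≤ c := by
      rw [List.length_take, List.length_append, List.length_replicate]
      omega
    rw [coef_syl_one c i a _ hlen, if_neg, zero_mul]
    intro h
    cases V with
    | nil => simp at hk
    | cons j V =>
      have hj : j ≠ i := hV j (by simp)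
      have hmem : j ∈ (List.replicate e i ++ j :: V).take (e + 1 + k) := by
        rw [List.take_append, List.length_replicate, show e + 1 + k - e = k + 1 by omega,
          List.take_succ_cons]
        simp
      rw [h] at hmem
      exact hj (List.eq_of_mem_replicate hmem)
  rw [h0, add_zero]
  refine Finset.sum_congr rfl fun k hk => ?_
  rw [Finset.mem_range] at hk
  have h1 : (List.replicate e i ++ V).take k = List.replicate k i := by
    rw [List.take_append_of_le_length (by rw [List.length_replicate]; omega),
      List.take_replicate, Nat.min_eq_left (by omega)]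
  have h2 : (List.replicate e i ++ V).drop k = List.replicate (e - k) i ++ V := by
    rw [List.drop_append_of_le_length (by rw [List.length_replicate]; omega), List.drop_replicate]
  rw [h1, h2, coef_syl_one c i a _ (by rw [List.length_replicate]; omega),
    if_pos (by rw [List.length_replicate]), List.length_replicate]

theorem sylWord_head [DecidableEq α] (M : List (α × ℕ)) (hM1 : ∀ q ∈ M, 1 ≤ q.2) :
    (sylWord M).head? = M.head?.map Prod.fst := by
  cases M with
  | nil => rfl
  | cons q M =>
    obtain ⟨j, e⟩ := q
    have he : 1 ≤ e := hM1 (j, e) (by simp)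
    obtain ⟨e', rfl⟩ : ∃ e', e = e' + 1 := ⟨e - 1, by omega⟩
    rw [sylWord_cons]
    simp [List.replicate_succ]

/-- induction on `L` -/
theorem coef_syl [DecidableEq α] (c : ℕ) (L : List (α × ℤ)) (M : List (α × ℕ))
    (hL : L.IsChain (fun p q => p.1 ≠ q.1)) (hM : M.IsChain (fun p q => p.1 ≠ q.1))
    (hM1 : ∀ q ∈ M, 1 ≤ q.2) (hc : (sylWord M).length ≤ c) (hlen : L.length ≤ M.length) :
    coef c (sylWord M) (mu c (sylProd L) : MR α c)
      = if L.length = M.length then sylCoefs L M else 0 := by
  induction L generalizing M with
  | nil =>
    rw [sylProd_nil, map_one, Units.val_one, coef_one]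
    cases M with
    | nil => simp [sylWord_nil, sylCoefs]
    | cons q M =>
      have h := sylWord_head (q :: M) hM1
      rw [if_neg, if_neg (by simp)]
      intro h'
      rw [h'] at h
      simp at h
  | cons p L ih =>
    obtain ⟨i, a⟩ := p
    cases M with
    | nil => simp at hlen
    | cons q M =>
      obtain ⟨j, e⟩ := q
      have he : 1 ≤ e := hM1 (j, e) (by simp)
      have hM' : M.IsChain (fun p q => p.1 ≠ q.1) := hM.tail
      have hM1' : ∀ q ∈ M, 1 ≤ q.2 := fun q hq => hM1 q (List.mem_cons_of_mem _ hq)
      rw [List.length_cons, List.length_cons] at hlen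
      rw [sylProd_cons, map_mul, Units.val_mul]
      dsimp only
      by_cases hij : j = i
      · subst hij
        rw [sylWord_cons] at hc ⊢
        dsimp only at hc ⊢
        rw [List.length_append, List.length_replicate] at hc
        rw [coef_pow_mul c j a e (sylWord M) _ hc]
        · rw [Finset.sum_range_succ, Finset.sum_eq_zero, zero_add, Nat.sub_self,
            List.replicate_zero, List.nil_append, ih M hL.tail hM' hM1' (by omega) (by omega)]
          · rw [List.length_cons, List.length_cons]
            by_cases hl : L.length = M.length
            · rw [if_pos hl, if_pos (by rw [hl])]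
              unfold sylCoefs
              rw [List.zipWith_cons_cons, List.prod_cons]
              congr 1
              unfold sylCoef
              rw [if_pos rfl]
            · rw [if_neg hl, if_neg (by omega), mul_zero]
          · intro k hk
            rw [Finset.mem_range] at hk
            have hc1 : ((j, e - k) :: M).IsChain (fun p q => p.1 ≠ q.1) := by
              cases M with
              | nil => exact List.isChain_singleton _
              | cons r M =>
                rw [List.isChain_cons_cons] at hM ⊢
                exact hM
            have hc2 : ∀ q ∈ (j, e - k) :: M, 1 ≤ q.2 := by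
              intro q hq
              rw [List.mem_cons] at hq
              rcases hq with rfl | hq
              · change 1 ≤ e - k
                omega
              · exact hM1' q hq
            have hc3 : (sylWord ((j, e - k) :: M)).length ≤ c := by
              rw [sylWord_cons, List.length_append, List.length_replicate]
              dsimp only
              omega
            have h := ih ((j, e - k) :: M) hL.tail hc1 hc2 hc3 (by rw [List.length_cons]; omega)
            rw [sylWord_cons, List.length_cons, if_neg (by omega)] at h
            dsimp only at h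
            rw [h, mul_zero]
        · intro l hl
          rw [sylWord_head M hM1'] at hl
          cases M with
          | nil => simp at hl
          | cons r M =>
            rw [List.isChain_cons_cons] at hM
            simp only [List.head?_cons, Option.map_some, Option.mem_def, Option.some.injEq] at hl
            rw [← hl]
            exact hM.1.symm
      · have h := coef_pow_mul c i a 0 (sylWord ((j, e) :: M)) (by
          intro l hl
          rw [sylWord_head _ hM1] at hl
          simp only [List.head?_cons, Option.map_some, Option.mem_def, Option.some.injEq] at hl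
          rw [← hl]
          exact hij) (by omega) (mu c (sylProd L) : MR α c)
        rw [List.replicate_zero, List.nil_append] at h
        rw [h, Finset.sum_range_succ, Finset.sum_range_zero, zero_add, Nat.sub_self,
          List.replicate_zero, List.nil_append, ih ((j, e) :: M) hL.tail hM hM1 hc
            (by rw [List.length_cons]; omega), List.length_cons, List.length_cons, if_neg (by omega),
          mul_zero]
        split_ifs
        · unfold sylCoefs
          rw [List.zipWith_cons_cons, List.prod_cons]
          unfold sylCoef
          rw [if_neg (fun h => hij h.symm), zero_mul]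
        · rfl

end Pool.MP6567.A
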